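import Pool.Agent.Lib.ES85.Poly

/-!
# Building certificates from the facets
-/

set_option autoImplicit false

open Finset Module

namespace Pool.Agent.ES85

variable {α : Type*} [DecidableEq α] {E : Type*} [AddCommGroup E] [Module ℝ E]
variable {n : ℕ} {W : Finset α} {v : α → E} {𝒢 : Finset (Finset α)}

/-- Coordinates in a facet. -/
theorem sum_dual [FiniteDimensional ℝ E] (hE : finrank ℝ E = n) {G : Finset α} (hG : G.card = n)
    {m : α → E →ₗ[ℝ] ℝ} (h1 : ∀ f ∈ G, m f (v f) = 1)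
    (h2 : ∀ f ∈ G, ∀ i ∈ G, i ≠ f → m f (v i) = 0) (y : E) : ∑ i ∈ G, m i y • v i = y := by
  have hli : LinearIndependent ℝ (fun i : {x // x ∈ G} => v i) := by
    rw [linearIndependent_iff']
    intro s g hg i hi
    have h3 := congrArg (m i) hg
    rw [map_sum, map_zero, sum_eq_single i] at h3
    · rw [map_smul, h1 i i.2, smul_eq_mul, mul_one] at h3
      exact h3
    · intro j _ hji
      rw [map_smul, h2 i i.2 j j.2 (fun e => hji (Subtype.ext e)), smul_zero]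
    · exact fun h5 => absurd hi h5
  have hspan := hli.span_eq_top_of_card_eq_finrank' (by rw [Fintype.card_coe, hG, hE])
  have hy : y ∈ Submodule.span ℝ (Set.range fun i : {x // x ∈ G} => v i) := by
    rw [hspan]
    exact Submodule.mem_top
  obtain ⟨c, hc⟩ := (Submodule.mem_span_range_iff_exists_fun ℝ).1 hy
  have h4 : ∀ i : {x // x ∈ G}, m i y = c i := by
    intro i
    rw [← hc, map_sum, sum_eq_single i]
    · rw [map_smul, h1 i i.2, smul_eq_mul, mul_one]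
    · intro j _ hji
      rw [map_smul, h2 i i.2 j j.2 (fun e => hji (Subtype.ext e)), smul_zero]
    · exact fun h5 => absurd (mem_univ _) h5
  rw [← sum_coe_sort G (fun i => m i y • v i), ← hc]
  exact sum_congr rfl fun i _ => by rw [hc, h4 i]

/-- Facets and ridges. -/
theorem Cert.build [FiniteDimensional ℝ E] (hE : finrank ℝ E = n) (hne : 𝒢.Nonempty)
    (sub : ∀ G ∈ 𝒢, G ⊆ W) (card : ∀ G ∈ 𝒢, G.card = n) (mem : ∀ i ∈ W, ∃ G ∈ 𝒢, i ∈ G)
    (func : ∀ G ∈ 𝒢, ∃ l : E →ₗ[ℝ] ℝ, (∀ i ∈ G, l (v i) = 1) ∧ ∀ i ∈ W, i ∉ G → l (v i) < 1)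
    (ridge : ∀ G ∈ 𝒢, ∀ i ∈ G, ∃ G' ∈ 𝒢, G.erase i ⊆ G' ∧ i ∉ G') : Cert n W v 𝒢 := by
  choose! l hl1 hl2 using func
  choose! r hr1 hr2 hr3 using ridge
  obtain ⟨m, hm⟩ : ∃ m : Finset α → α → E →ₗ[ℝ] ℝ, ∀ G f, m G f =
      (1 - l (r G f) (v f))⁻¹ • (l G - l (r G f)) := ⟨_, fun _ _ => rfl⟩
  have hpos : ∀ G ∈ 𝒢, ∀ f ∈ G, 0 < 1 - l (r G f) (v f) := fun G hG f hf =>
    sub_pos.2 (hl2 _ (hr1 G hG f hf) f (sub G hG hf) (hr3 G hG f hf))
  have h1 : ∀ G ∈ 𝒢, ∀ f ∈ G, m G f (v f) = 1 := fun G hG f hf => by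
    rw [hm, LinearMap.smul_apply, LinearMap.sub_apply, hl1 G hG f hf, smul_eq_mul,
      inv_mul_cancel₀ (hpos G hG f hf).ne']
  have h2 : ∀ G ∈ 𝒢, ∀ f ∈ G, ∀ i ∈ G, i ≠ f → m G f (v i) = 0 := fun G hG f hf i hi hne => by
    rw [hm, LinearMap.smul_apply, LinearMap.sub_apply, hl1 G hG i hi,
      hl1 _ (hr1 G hG f hf) i (hr2 G hG f hf (mem_erase.2 ⟨hne, hi⟩)), sub_self, smul_zero]
  refine ⟨sub, card, mem, fun G hG => ⟨l G, hl1 G hG, hl2 G hG⟩,
    fun G hG f hf => ⟨m G f, h1 G hG f hf, h2 G hG f hf⟩, fun y => ?_⟩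
  obtain ⟨G, hG, hmax⟩ := exists_max_image 𝒢 (fun G => l G y) hne
  refine ⟨G, hG, fun i => if i ∈ G then m G i y else 0, fun i => ?_, ?_⟩
  · dsimp only
    split_ifs with hi
    · rw [hm, LinearMap.smul_apply, LinearMap.sub_apply, smul_eq_mul]
      exact mul_nonneg (inv_nonneg.2 (hpos G hG i hi).le)
        (sub_nonneg.2 (hmax _ (hr1 G hG i hi)))
    · exact le_rfl
  · refine Eq.trans (sum_congr rfl fun i hi => ?_) (sum_dual hE (card G hG) (h1 G hG) (h2 G hG) y)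
    show (if i ∈ G then (m G i) y else 0) • v i = m G i y • v i
    rw [if_pos hi]

/-- The same with affine functionals; the origin is moved to the centroid. -/
theorem Cert.buildAff [FiniteDimensional ℝ E] (hE : finrank ℝ E = n) (hne : 𝒢.Nonempty)
    (sub : ∀ G ∈ 𝒢, G ⊆ W) (card : ∀ G ∈ 𝒢, G.card = n) (mem : ∀ i ∈ W, ∃ G ∈ 𝒢, i ∈ G)
    (out : ∀ G ∈ 𝒢, ∃ i ∈ W, i ∉ G)
    (func : ∀ G ∈ 𝒢, ∃ (l : E →ₗ[ℝ] ℝ) (b : ℝ), (∀ i ∈ G, l (v i) = b) ∧
      ∀ i ∈ W, i ∉ G → l (v i) < b)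
    (ridge : ∀ G ∈ 𝒢, ∀ i ∈ G, ∃ G' ∈ 𝒢, G.erase i ⊆ G' ∧ i ∉ G') :
    ∃ o : E, Cert n W (fun i => v i - o) 𝒢 := by
  have hWc : (0 : ℝ) < W.card := by
    obtain ⟨G, hG⟩ := hne
    obtain ⟨i, hi, -⟩ := out G hG
    have : 0 < W.card := card_pos.2 ⟨i, hi⟩
    exact_mod_cast this
  refine ⟨(W.card : ℝ)⁻¹ • ∑ i ∈ W, v i, Cert.build hE hne sub card mem (fun G hG => ?_) ridge⟩
  obtain ⟨l, b, h1, h2⟩ := func G hG
  obtain ⟨j, hj, hjG⟩ := out G hG
  have h3 : l ((W.card : ℝ)⁻¹ • ∑ i ∈ W, v i) < b := by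
    rw [map_smul, map_sum, smul_eq_mul, inv_mul_lt_iff₀ hWc]
    calc ∑ i ∈ W, l (v i) < ∑ i ∈ W, b := by
          refine sum_lt_sum (fun i hi => ?_) ⟨j, hj, h2 j hj hjG⟩
          by_cases hiG : i ∈ G
          · exact (h1 i hiG).le
          · exact (h2 i hi hiG).le
      _ = W.card * b := by rw [sum_const, nsmul_eq_mul]
  have h4 : 0 < b - l ((W.card : ℝ)⁻¹ • ∑ i ∈ W, v i) := sub_pos.2 h3
  refine ⟨(b - l ((W.card : ℝ)⁻¹ • ∑ i ∈ W, v i))⁻¹ • l, fun i hi => ?_, fun i hi hiG => ?_⟩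
  · rw [LinearMap.smul_apply, map_sub, h1 i hi, smul_eq_mul, inv_mul_cancel₀ h4.ne']
  · rw [LinearMap.smul_apply, map_sub, smul_eq_mul, inv_mul_lt_iff₀ h4, mul_one]
    linarith [h2 i hi hiG]

/-- Every ridge is in another facet. -/
theorem Cert.exists_other [DecidableEq E] (h : Cert n W v 𝒢) (hn : 1 ≤ n) {G : Finset α}
    (hG : G ∈ 𝒢) {a : α} (ha : a ∈ G) : ∃ G' ∈ 𝒢, G.erase a ⊆ G' ∧ a ∉ G' := by
  obtain ⟨l, hl1, hl2⟩ := h.func G hG
  obtain ⟨m, hm1, hm2⟩ := h.dual G hG a ha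
  have haW := h.sub G hG ha
  have hB : (W.filter fun i => m (v i) < 0).Nonempty := by
    by_contra hcon
    rw [not_nonempty_iff_eq_empty, filter_eq_empty_iff] at hcon
    obtain ⟨G', hG', c, hc, hs⟩ := h.cover (-v a)
    have h1 := congrArg m hs
    rw [map_sum, map_neg, hm1] at h1
    have h2 : 0 ≤ ∑ i ∈ G', m (c i • v i) := sum_nonneg fun i hi => by
      rw [map_smul, smul_eq_mul]
      exact mul_nonneg (hc i) (not_lt.1 (hcon (h.sub G' hG' hi)))
    linarith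
  obtain ⟨b, hb, hmin⟩ := exists_min_image _ (fun i => (1 - l (v i)) / (-m (v i))) hB
  obtain ⟨hbW, hbm⟩ := mem_filter.1 hb
  have hnot : ∀ i, m (v i) < 0 → i ∉ G := by
    intro i hi hiG
    by_cases hia : i = a
    · rw [hia, hm1] at hi
      linarith
    · rw [hm2 i hiG hia] at hi
      exact lt_irrefl _ hi
  have hle : ∀ i ∈ W, l (v i) ≤ 1 := fun i hi => by
    by_cases hiG : i ∈ G
    · exact (hl1 i hiG).le
    · exact (hl2 i hi hiG).le
  set θ : ℝ := (1 - l (v b)) / (-m (v b)) with hθ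
  have hθ0 : 0 < θ := div_pos (sub_pos.2 (hl2 b hbW (hnot b hbm))) (by linarith)
  have hk : ∀ i, (l - θ • m) (v i) = l (v i) - θ * m (v i) := fun i => by
    rw [LinearMap.sub_apply, LinearMap.smul_apply, smul_eq_mul]
  have hkb : (l - θ • m) (v b) = 1 := by
    have h5 : θ * m (v b) = -(1 - l (v b)) := by
      rw [hθ, div_mul_eq_mul_div, div_eq_iff (by linarith : -m (v b) ≠ 0)]
      ring
    rw [hk, h5]
    ring
  have hkle : ∀ i ∈ W, (l - θ • m) (v i) ≤ 1 := fun i hi => by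
    rw [hk]
    by_cases hmi : m (v i) < 0
    · have h1 := hmin i (mem_filter.2 ⟨hi, hmi⟩)
      rw [le_div_iff₀ (by linarith)] at h1
      linarith
    · push Not at hmi
      have h1 := hle i hi
      have h2 := mul_nonneg hθ0.le hmi
      linarith
  have hka : (l - θ • m) (v a) < 1 := by
    rw [hk, hl1 a ha, hm1]
    linarith
  have hinj := h.injOn
  obtain ⟨S, hS⟩ : ∃ S, S = W.filter fun i => (l - θ • m) (v i) = 1 := ⟨_, rfl⟩
  have hSW : S ⊆ W := by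
    rw [hS]
    exact filter_subset _ _
  have hbS : b ∈ S := by
    rw [hS]
    exact mem_filter.2 ⟨hbW, hkb⟩
  have hGS : G.erase a ⊆ S := by
    intro i hi
    obtain ⟨h1, h2⟩ := mem_erase.1 hi
    rw [hS, mem_filter, hk, hl1 i h2, hm2 i h2 h1]
    exact ⟨h.sub G hG h2, by ring⟩
  have haS : a ∉ S := by
    rw [hS, mem_filter]
    rintro ⟨-, h1⟩
    linarith
  have hSne : S.Nonempty := ⟨b, hbS⟩
  have hface : IsFace (W.image v) (S.image v) := by
    refine ⟨hSne.image v, ⟨image_subset_image hSW, fun h1 => ?_⟩,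
      l - θ • m, 1, fun x hx => ?_, fun x hx hxS => ?_⟩
    · obtain ⟨i, hi, e⟩ := mem_image.1 (h1 (mem_image_of_mem v haW))
      exact haS (hinj (hSW hi) haW e ▸ hi)
    · obtain ⟨i, hi, rfl⟩ := mem_image.1 hx
      rw [hS] at hi
      exact (mem_filter.1 hi).2
    · obtain ⟨i, hi, rfl⟩ := mem_image.1 hx
      refine lt_of_le_of_ne (hkle i hi) fun e => hxS (mem_image_of_mem v ?_)
      rw [hS]
      exact mem_filter.2 ⟨hi, e⟩
  obtain ⟨-, G', hG', hSG'⟩ := (h.isFace_iff hn hSW).1 hface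
  refine ⟨G', hG', hGS.trans hSG', fun haG' => ?_⟩
  have h1 : insert b G ⊆ G' := by
    intro i hi
    rcases mem_insert.1 hi with rfl | hi
    · exact hSG' hbS
    · by_cases hia : i = a
      · rw [hia]
        exact haG'
      · exact hSG' (hGS (mem_erase.2 ⟨hia, hi⟩))
  have h2 := card_le_card h1
  rw [card_insert_of_notMem (hnot b hbm), h.card G hG, h.card G' hG'] at h2
  omega

/-- Opposite sides of a ridge. -/
theorem Cert.opposite [FiniteDimensional ℝ E] (hE : finrank ℝ E = n) (h : Cert n W v 𝒢)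
    {F : Finset α} {a b : α} (ha : a ∉ F) (hb : b ∉ F) (hab : a ≠ b) (hFa : insert a F ∈ 𝒢)
    (hFb : insert b F ∈ 𝒢) : ∃ (μ : ℝ) (f : α → ℝ), μ < 0 ∧ v b = μ • v a + ∑ i ∈ F, f i • v i := by
  choose! m hm1 hm2 using h.dual _ hFa
  obtain ⟨l, hl1, hl2⟩ := h.func _ hFa
  obtain ⟨l', hl1', hl2'⟩ := h.func _ hFb
  have h1 := sum_dual hE (h.card _ hFa) hm1 hm2 (v b)
  rw [sum_insert ha] at h1
  refine ⟨m a (v b), fun i => m i (v b), ?_, h1.symm⟩
  have hbW : b ∈ W := h.sub _ hFb (mem_insert_self _ _)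
  have haW : a ∈ W := h.sub _ hFa (mem_insert_self _ _)
  have h2 : l (v b) < 1 := hl2 b hbW (by
    rw [mem_insert, not_or]
    exact ⟨hab.symm, hb⟩)
  have h3 : l' (v a) < 1 := hl2' a haW (by
    rw [mem_insert, not_or]
    exact ⟨hab, ha⟩)
  have h4 : l (v b) = m a (v b) + ∑ i ∈ F, m i (v b) := by
    rw [← h1, map_add, map_smul, map_sum, hl1 a (mem_insert_self _ _), smul_eq_mul, mul_one, h1]
    congr 1
    refine sum_congr rfl fun i hi => ?_
    rw [map_smul, hl1 i (mem_insert_of_mem hi), smul_eq_mul, mul_one]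
  have h5 : l' (v b) = m a (v b) * l' (v a) + ∑ i ∈ F, m i (v b) := by
    conv_lhs => rw [← h1]
    rw [map_add, map_smul, map_sum, smul_eq_mul]
    congr 1
    refine sum_congr rfl fun i hi => ?_
    rw [map_smul, hl1' i (mem_insert_of_mem hi), smul_eq_mul, mul_one]
  rw [hl1' b (mem_insert_self _ _)] at h5
  nlinarith

/-- A ridge is in at most two facets. -/
theorem Cert.two [FiniteDimensional ℝ E] (hE : finrank ℝ E = n) (h : Cert n W v 𝒢)
    {F : Finset α} {a b c : α} (ha : a ∉ F) (hb : b ∉ F) (hc : c ∉ F) (hab : a ≠ b) (hbc : b ≠ c)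
    (hac : a ≠ c) (hFa : insert a F ∈ 𝒢) (hFb : insert b F ∈ 𝒢) (hFc : insert c F ∈ 𝒢) :
    False := by
  obtain ⟨μ, f, hμ, e1⟩ := h.opposite hE ha hb hab hFa hFb
  obtain ⟨ν, g, hν, e2⟩ := h.opposite hE hb hc hbc hFb hFc
  obtain ⟨ρ, k, hρ, e3⟩ := h.opposite hE ha hc hac hFa hFc
  obtain ⟨m, hm1, hm2⟩ := h.dual _ hFa a (mem_insert_self _ _)
  have hF : ∀ q : α → ℝ, m (∑ i ∈ F, q i • v i) = 0 := by
    intro q
    rw [map_sum]
    refine sum_eq_zero fun i hi => ?_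
    rw [map_smul, hm2 i (mem_insert_of_mem hi) (fun e => ha (e ▸ hi)), smul_zero]
  have h1 : m (v b) = μ := by
    rw [e1, map_add, map_smul, hm1, hF, smul_eq_mul, mul_one, add_zero]
  have h2 : m (v c) = ν * μ := by
    rw [e2, map_add, map_smul, h1, hF, smul_eq_mul, add_zero]
  have h3 : m (v c) = ρ := by
    rw [e3, map_add, map_smul, hm1, hF, smul_eq_mul, mul_one, add_zero]
  have h4 := mul_pos_of_neg_of_neg hν hμ
  linarith

end Pool.Agent.ES85
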