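import Pool.Agent.Lib.ES85.Fam

/-!
# The chain of subdivisions
-/

set_option autoImplicit false

open Finset

namespace Pool.Agent.ES85

/-- The facts on a graph on `W ⊇ V d m` which are kept in the later steps: its edges on `V d m` are
edges of `J m`. -/
def Sub (d m : ℕ) (W : Finset (ℕ × ℕ)) (Γ : SimpleGraph (ℕ × ℕ)) : Prop :=
  V d m ⊆ W ∧ ∀ s ∈ V d m, ∀ t ∈ V d m, Γ.Adj s t → (J m).Adj s t

theorem Sub.clique {d m : ℕ} {W : Finset (ℕ × ℕ)} {Γ : SimpleGraph (ℕ × ℕ)} (h : Sub d m W Γ)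
    {S : Finset (ℕ × ℕ)} (hS : S ⊆ V d m) (hc : Γ.IsClique (S : Set (ℕ × ℕ))) :
    (J m).IsClique (S : Set (ℕ × ℕ)) := fun a ha b hb hab =>
  h.2 a (hS ha) b (hS hb) (hc ha hb hab)

/-- The condition for the subdivision of the edges with a special vertex. -/
theorem Sub.cond {d m N : ℕ} {W : Finset (ℕ × ℕ)} {Γ : SimpleGraph (ℕ × ℕ)} (h : Sub d m W Γ)
    (hd : 4 ≤ d) (hN : 2 * N + 6 ≤ m) {r : ℕ → ℕ} (hr : ∀ j < N, r j ≤ d - 3) {a b z : ℕ × ℕ}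
    (ha : a ∈ V d m) (hb : b ∈ V d m)
    (hz : z = (0, 0) ∨ z = (0, m - 1) ∨ z = (0, m - 3) ∨ z = (2, 1)) (hzab : z = a ∨ z = b) :
    ∀ F ∈ (range N).image fun j => Fc j (r j),
      ¬ Γ.IsClique ((({a, b} : Finset (ℕ × ℕ)) ∪ F : Finset (ℕ × ℕ)) : Set (ℕ × ℕ)) := by
  intro F hF hc
  obtain ⟨j, hj, rfl⟩ := mem_image.1 hF
  have hj' := mem_range.1 hj
  have hsub : ({a, b} : Finset (ℕ × ℕ)) ∪ Fc j (r j) ⊆ V d m := by
    refine union_subset ?_ (Fc_subset hd (by omega) (hr j hj'))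
    intro c hc
    rcases mem_insert.1 hc with rfl | hc
    · exact ha
    · rw [mem_singleton.1 hc]
      exact hb
  refine Fc_not (r := r j) (by omega : 2 * j + 8 ≤ m) hz (h.clique hsub hc) ?_ fun c hc =>
    mem_coe.2 (mem_union_right _ hc)
  refine mem_coe.2 (mem_union_left _ ?_)
  rcases hzab with rfl | rfl
  · exact mem_insert_self _ _
  · exact mem_insert_of_mem (mem_singleton_self _)

/-- **The chain**: `w`, `k` and `v` subdivisions of three edges, after the family. -/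
theorem exists_real {d : ℕ} (hd : 4 ≤ d) (N : ℕ) (r : ℕ → ℕ) (hr : ∀ j < N, r j ≤ d - 3) :
    ∃ e₀ : ℕ, e₀ ≤ (3 * N + 2 * d + 2).choose 2 ∧ ∀ w k u : ℕ,
      ∃ (W : Finset (ℕ × ℕ)) (Γ : SimpleGraph (ℕ × ℕ)),
        Real d W Γ ((range N).image fun j => Fc j (r j)) ∧
        e1 W Γ + (w + u * (2 * N + 2)) = e₀ + ∑ t ∈ range (1 + w + k + u), (3 * N + 5 + t) := by
  obtain ⟨m, hm⟩ : ∃ m, m = 2 * N + 6 := ⟨_, rfl⟩
  have h0 := real_J d (by omega) m (by omega)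
  obtain ⟨W₂, Γ₂, g1, g2, g3, g4, g5⟩ := h0.family (fun j => Fc j (r j)) N
    (fun j hj => Fc_subset hd (by omega) (hr j hj)) (fun j _ => Fc_clique m j (r j))
    (fun j _ => by rw [card_Fc]; omega)
    (fun i _ j _ hij => Fc_pair hij)
  rw [card_V d m (by omega)] at g3
  obtain ⟨ℱ, hℱ⟩ : ∃ ℱ, ℱ = (range N).image fun j => Fc j (r j) := ⟨_, rfl⟩
  rw [← hℱ] at g1
  -- the special vertices
  have v00 : ((0, 0) : ℕ × ℕ) ∈ V d m := by rw [mem_V]; dsimp only; omega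
  have v0a : ((0, m - 1) : ℕ × ℕ) ∈ V d m := by rw [mem_V]; dsimp only; omega
  have v0b : ((0, m - 3) : ℕ × ℕ) ∈ V d m := by rw [mem_V]; dsimp only; omega
  have v10 : ((1, 0) : ℕ × ℕ) ∈ V d m := by rw [mem_V]; dsimp only; omega
  have v11 : ((1, 1) : ℕ × ℕ) ∈ V d m := by rw [mem_V]; dsimp only; omega
  have v20 : ((2, 0) : ℕ × ℕ) ∈ V d m := by rw [mem_V]; dsimp only; omega
  have v21 : ((2, 1) : ℕ × ℕ) ∈ V d m := by rw [mem_V]; dsimp only; omega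
  have hS2 : Sub d m W₂ Γ₂ := ⟨g2, fun s hs t ht h => (g4 s hs t ht).1 h⟩
  -- the new vertices are not joined to the special ones
  have hnew : ∀ z : ℕ × ℕ, z ∈ V d m → (z = (0, 0) ∨ z = (0, m - 1) ∨ z = (0, m - 3) ∨ z = (2, 1)) →
      ∀ x ∈ W₂, x ∉ V d m → ¬ Γ₂.Adj x z := by
    intro z hzV hz x hx hxV h1
    obtain ⟨j, hj, h2⟩ := g5 x hx hxV z hzV h1
    exact Fc_not (r := r j) (by omega : 2 * j + 8 ≤ m) hz (mem_star.1 h2).2 (Or.inl rfl)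
      fun a ha => Or.inr (mem_coe.2 ha)
  have hcn : ∀ s ∈ V d m, ∀ t ∈ V d m,
      ((s = (0, 0) ∨ s = (0, m - 1) ∨ s = (0, m - 3) ∨ s = (2, 1)) ∨
        (t = (0, 0) ∨ t = (0, m - 1) ∨ t = (0, m - 3) ∨ t = (2, 1))) →
      cn W₂ Γ₂ s t = cn (V d m) (J m) s t := by
    intro s hs t ht hz
    refine cn_eq hs ht g2 (fun z hz => by rw [g4 z hz s hs, g4 z hz t ht]) fun x hx hxV h1 => ?_
    rcases hz with hz | hz
    · exact hnew s hs hz x hx hxV h1.1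
    · exact hnew t ht hz x hx hxV h1.2
  -- the first edge
  have hE1 : Γ₂.Adj (0, 0) (1, 0) := (g4 _ v00 _ v10).2 (by rw [J_adj]; dsimp only; omega)
  have hc1 : cn W₂ Γ₂ (0, 0) (1, 0) = 2 * d - 4 := by
    rw [hcn _ v00 _ v10 (Or.inl (Or.inl rfl))]
    exact cn_J hd (by omega) (by omega) (by omega) (by omega)
  obtain ⟨x, hx⟩ := Infinite.exists_notMem_finset W₂
  have hnx : ∀ a ∈ W₂, a ≠ x := fun a ha e => hx (e ▸ ha)
  have h3 : Real d (insert x W₂) (subG W₂ Γ₂ {(0, 0), (1, 0)} x) ℱ :=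
    g1.sub_edge (g2 v00) (g2 v10) hE1 (by
      rw [hℱ]
      exact hS2.cond hd (by omega) hr v00 v10 (Or.inl rfl) (Or.inl rfl)) hx
  have hs3 := e1_edge (g2 v00) (g2 v10) hE1 hx
  obtain ⟨W₃, hW3⟩ : ∃ W₃, W₃ = insert x W₂ := ⟨_, rfl⟩
  obtain ⟨Γ₃, hΓ3⟩ : ∃ Γ₃, Γ₃ = subG W₂ Γ₂ {(0, 0), (1, 0)} x := ⟨_, rfl⟩
  have h3old : ∀ s ∈ W₂, ∀ t ∈ W₂, Γ₃.Adj s t ↔
      Γ₂.Adj s t ∧ ({(0, 0), (1, 0)} : Finset (ℕ × ℕ)) ≠ {s, t} := fun s hs t ht => by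
    rw [hΓ3]
    exact subG_old (hnx s hs) (hnx t ht)
  have h3new : ∀ s ∈ W₂, Γ₃.Adj x s ↔ s ∈ star W₂ Γ₂ {(0, 0), (1, 0)} := fun s hs => by
    rw [hΓ3]
    exact subG_new (hnx s hs)
  rw [← hW3, ← hΓ3] at h3 hs3
  have hW23 : W₂ ⊆ W₃ := hW3 ▸ subset_insert _ _
  have hW3c : W₃.card = W₂.card + 1 := by rw [hW3, card_insert_of_notMem hx]
  have hS3 : Sub d m W₃ Γ₃ := ⟨g2.trans hW23, fun s hs t ht h =>
    hS2.2 s hs t ht ((h3old s (g2 hs) t (g2 ht)).1 h).1⟩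
  have hne3 : ∀ s t : ℕ × ℕ, s ≠ (0, 0) → t ≠ (0, 0) →
      ({(0, 0), (1, 0)} : Finset (ℕ × ℕ)) ≠ {s, t} := fun s t h1 h2 e => by
    have h4 : ((0, 0) : ℕ × ℕ) ∈ ({s, t} : Finset (ℕ × ℕ)) := e ▸ mem_insert_self _ _
    rcases mem_insert.1 h4 with h4 | h4
    · exact h1 h4.symm
    · exact h2 (mem_singleton.1 h4).symm
  have hne3' : ∀ s t : ℕ × ℕ, s ≠ (1, 0) → t ≠ (1, 0) →
      ({(0, 0), (1, 0)} : Finset (ℕ × ℕ)) ≠ {s, t} := fun s t h1 h2 e => by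
    have h4 : ((1, 0) : ℕ × ℕ) ∈ ({s, t} : Finset (ℕ × ℕ)) :=
      e ▸ mem_insert_of_mem (mem_singleton_self _)
    rcases mem_insert.1 h4 with h4 | h4
    · exact h1 h4.symm
    · exact h2 (mem_singleton.1 h4).symm
  have n1 : ((0, m - 1) : ℕ × ℕ) ≠ (0, 0) := by rw [ne_eq, Prod.mk.injEq]; omega
  have n2 : ((0, m - 3) : ℕ × ℕ) ≠ (0, 0) := by rw [ne_eq, Prod.mk.injEq]; omega
  have n3 : ((2, 0) : ℕ × ℕ) ≠ (0, 0) := by rw [ne_eq, Prod.mk.injEq]; omega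
  have n4 : ((1, 0) : ℕ × ℕ) ≠ (0, 0) := by rw [ne_eq, Prod.mk.injEq]; omega
  have n5 : ((1, 1) : ℕ × ℕ) ≠ (0, 0) := by rw [ne_eq, Prod.mk.injEq]; omega
  have n6 : ((2, 1) : ℕ × ℕ) ≠ (0, 0) := by rw [ne_eq, Prod.mk.injEq]; omega
  have n7 : ((0, m - 1) : ℕ × ℕ) ≠ (1, 0) := by rw [ne_eq, Prod.mk.injEq]; omega
  have n8 : ((2, 0) : ℕ × ℕ) ≠ (1, 0) := by rw [ne_eq, Prod.mk.injEq]; omega
  have n9 : ((1, 1) : ℕ × ℕ) ≠ (1, 0) := by rw [ne_eq, Prod.mk.injEq]; omega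
  have n10 : ((2, 1) : ℕ × ℕ) ≠ (1, 0) := by rw [ne_eq, Prod.mk.injEq]; omega
  have hpair : ∀ a b : ℕ × ℕ, ∀ c ∈ ({a, b} : Finset (ℕ × ℕ)), c = a ∨ c = b := fun a b c hc => by
    rcases mem_insert.1 hc with h | h
    · exact Or.inl h
    · exact Or.inr (mem_singleton.1 h)
  have ne_of : ∀ s t : ℕ × ℕ, s ≠ (0, 0) → s ≠ (1, 0) →
      ({(0, 0), (1, 0)} : Finset (ℕ × ℕ)) ≠ {t, s} := fun s t h1 h2 e => by
    have h4 : s ∈ ({(0, 0), (1, 0)} : Finset (ℕ × ℕ)) :=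
      e ▸ mem_insert_of_mem (mem_singleton_self _)
    rcases hpair _ _ s h4 with h | h
    · exact h1 h
    · exact h2 h
  -- the second edge
  have hE2 : Γ₃.Adj (0, m - 1) (2, 0) := (h3old _ (g2 v0a) _ (g2 v20)).2
    ⟨(g4 _ v0a _ v20).2 (by rw [J_adj]; dsimp only; omega), hne3 _ _ n1 n3⟩
  have hc2 : cn W₃ Γ₃ (0, m - 1) (2, 0) = 2 * d - 3 := by
    have h4 : cn W₂ Γ₂ (0, m - 1) (2, 0) = 2 * d - 4 := by
      rw [hcn _ v0a _ v20 (Or.inl (Or.inr (Or.inl rfl)))]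
      exact cn_J hd (by omega) (by omega) (by omega) (by omega)
    have h5 : cn W₃ Γ₃ (0, m - 1) (2, 0) = cn W₂ Γ₂ (0, m - 1) (2, 0) + 1 := by
      classical
      unfold cn
      have e : W₃.filter (fun z => Γ₃.Adj z (0, m - 1) ∧ Γ₃.Adj z (2, 0)) =
          insert x (W₂.filter fun z => Γ₂.Adj z (0, m - 1) ∧ Γ₂.Adj z (2, 0)) := by
        ext z
        rw [mem_filter, mem_insert, mem_filter, hW3, mem_insert]
        constructor
        · rintro ⟨rfl | h6, h7, h8⟩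
          · exact Or.inl rfl
          · exact Or.inr ⟨h6, ((h3old z h6 _ (g2 v0a)).1 h7).1, ((h3old z h6 _ (g2 v20)).1 h8).1⟩
        · rintro (rfl | ⟨h6, h7, h8⟩)
          · refine ⟨Or.inl rfl, (h3new _ (g2 v0a)).2 ((mem_star_edge (g2 v00) (g2 v10) hE1).2
              (Or.inr (Or.inr ⟨g2 v0a, (g4 _ v0a _ v00).2 (by rw [J_adj]; dsimp only; omega),
                (g4 _ v0a _ v10).2 (by rw [J_adj]; dsimp only; omega)⟩))),
              (h3new _ (g2 v20)).2 ((mem_star_edge (g2 v00) (g2 v10) hE1).2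
              (Or.inr (Or.inr ⟨g2 v20, (g4 _ v20 _ v00).2 (by rw [J_adj]; dsimp only; omega),
                (g4 _ v20 _ v10).2 (by rw [J_adj]; dsimp only; omega)⟩)))⟩
          · exact ⟨Or.inr h6, (h3old z h6 _ (g2 v0a)).2 ⟨h7, ne_of _ _ n1 n7⟩,
              (h3old z h6 _ (g2 v20)).2 ⟨h8, ne_of _ _ n3 n8⟩⟩
      rw [e, card_insert_of_notMem fun h6 => hx (mem_filter.1 h6).1]
    omega
  -- the third edge
  have hE3 : Γ₃.Adj (0, m - 3) (1, 0) := (h3old _ (g2 v0b) _ (g2 v10)).2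
    ⟨(g4 _ v0b _ v10).2 (by rw [J_adj]; dsimp only; omega), hne3 _ _ n2 n4⟩
  have hc3 : cn W₃ Γ₃ (0, m - 3) (1, 0) = 2 * d - 4 := by
    rw [← cn_J (d := d) (m := m) (i := m - 3) (q := 1) (c := 0) hd (by omega) (by omega) (by omega)
      (by omega), ← hcn _ v0b _ v10 (Or.inl (Or.inr (Or.inr (Or.inl rfl))))]
    refine cn_eq (g2 v0b) (g2 v10) hW23 (fun z hz => ?_) fun y hy hyW h4 => ?_
    · rw [h3old z hz _ (g2 v0b), h3old z hz _ (g2 v10)]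
      constructor
      · exact fun h4 => ⟨h4.1.1, h4.2.1⟩
      · rintro ⟨h4, h5⟩
        have hz0 : z ≠ (0, 0) := by
          rintro rfl
          have h6 := (g4 _ v00 _ v0b).1 h4
          rw [J_adj] at h6
          dsimp only at h6
          omega
        exact ⟨⟨h4, hne3 _ _ hz0 n2⟩, h5, hne3 _ _ hz0 n4⟩
    · have hyx : y = x := by
        rw [hW3, mem_insert] at hy
        exact hy.resolve_right hyW
      subst hyx
      have h5 := (mem_star_edge (g2 v00) (g2 v10) hE1).1 ((h3new _ (g2 v0b)).1 h4.1)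
      rcases h5 with h5 | h5 | ⟨-, h5, -⟩
      · exact n2 h5
      · rw [Prod.mk.injEq] at h5
        omega
      · have h6 := (g4 _ v0b _ v00).1 h5
        rw [J_adj] at h6
        dsimp only at h6
        omega
  -- the fourth edge
  have hE4 : Γ₃.Adj (1, 1) (2, 1) := (h3old _ (g2 v11) _ (g2 v21)).2
    ⟨(g4 _ v11 _ v21).2 (by rw [J_adj]; dsimp only; omega), hne3 _ _ n5 n6⟩
  have hc4 : cn W₃ Γ₃ (1, 1) (2, 1) = m + 2 * (d - 4) := by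
    rw [← cn_J_B (m := m) hd, ← hcn _ v11 _ v21 (Or.inr (Or.inr (Or.inr (Or.inr rfl))))]
    refine cn_eq (g2 v11) (g2 v21) hW23 (fun z hz => ?_) fun y hy hyW h4 => ?_
    · rw [h3old z hz _ (g2 v11), h3old z hz _ (g2 v21)]
      exact ⟨fun h4 => ⟨h4.1.1, h4.2.1⟩, fun h4 => ⟨⟨h4.1, ne_of _ _ n5 n9⟩, h4.2, ne_of _ _ n6 n10⟩⟩
    · have hyx : y = x := by
        rw [hW3, mem_insert] at hy
        exact hy.resolve_right hyW
      subst hyx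
      have h5 := (mem_star_edge (g2 v00) (g2 v10) hE1).1 ((h3new _ (g2 v11)).1 h4.1)
      rcases h5 with h5 | h5 | ⟨-, -, h5⟩
      · exact n5 h5
      · exact n9 h5
      · have h6 := (g4 _ v11 _ v10).1 h5
        rw [J_adj] at h6
        dsimp only at h6
        omega
  have hcard2 : W₂.card = 3 * N + 2 * d + 2 := by omega
  refine ⟨e1 W₂ Γ₂, ?_, fun w k u => ?_⟩
  · classical
    rw [← hcard2, ← card_powersetCard, e1]
    exact card_filter_le _ _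
  -- the path along the second edge
  obtain ⟨W₄, Γ₄, p1, p2, p3, p4, p5, p6, p7⟩ := Real.path w h3 (hW23 (g2 v0a))
    (hW23 (g2 v20)) hE2 (by
      rw [hℱ]
      exact hS3.cond hd (by omega) hr v0a v20 (Or.inr (Or.inl rfl)) (Or.inl rfl))
  have hS4 : Sub d m W₄ Γ₄ := ⟨hS3.1.trans p2, fun s hs t ht h =>
    hS3.2 s hs t ht (p5 s (hS3.1 hs) t (hS3.1 ht) h)⟩
  have q1 : ((0, m - 3) : ℕ × ℕ) ≠ (0, m - 1) := by rw [ne_eq, Prod.mk.injEq]; omega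
  have q2 : ((0, m - 3) : ℕ × ℕ) ≠ (2, 0) := by rw [ne_eq, Prod.mk.injEq]; omega
  have q3 : ((1, 0) : ℕ × ℕ) ≠ (0, m - 1) := by rw [ne_eq, Prod.mk.injEq]; omega
  have q4 : ((1, 0) : ℕ × ℕ) ≠ (2, 0) := by rw [ne_eq, Prod.mk.injEq]; omega
  have q5 : ((1, 1) : ℕ × ℕ) ≠ (0, m - 1) := by rw [ne_eq, Prod.mk.injEq]; omega
  have q6 : ((1, 1) : ℕ × ℕ) ≠ (2, 0) := by rw [ne_eq, Prod.mk.injEq]; omega
  have q7 : ((2, 1) : ℕ × ℕ) ≠ (0, m - 1) := by rw [ne_eq, Prod.mk.injEq]; omega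
  have q8 : ((2, 1) : ℕ × ℕ) ≠ (2, 0) := by rw [ne_eq, Prod.mk.injEq]; omega
  have hW3V := hS3.1
  have hold4 : ∀ s ∈ V d m, s ≠ (0, m - 1) → s ≠ (2, 0) → ∀ z ∈ W₃, (Γ₄.Adj z s ↔ Γ₃.Adj z s) :=
    fun s hs h4 h5 z hz => ⟨fun h => p5 z hz s (hW3V hs) h,
      fun h => (p6 s (hW3V hs) z hz h4 h5 h.symm).symm⟩
  have hE3' : Γ₄.Adj (0, m - 3) (1, 0) := (hold4 _ v10 q3 q4 _ (hW3V v0b)).2 hE3
  have hc3' : cn W₄ Γ₄ (0, m - 3) (1, 0) = 2 * d - 4 := by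
    rw [← hc3]
    refine cn_eq (hW3V v0b) (hW3V v10) p2 (fun z hz => by
      rw [hold4 _ v0b q1 q2 z hz, hold4 _ v10 q3 q4 z hz]) fun y hy hyW h4 => ?_
    rcases p7 y hy hyW _ (hW3V v0b) h4.1 with h5 | h5 | ⟨h5, -⟩
    · exact q1 h5
    · exact q2 h5
    · have h6 := hS3.2 _ v0b _ v0a h5
      rw [J_adj] at h6
      dsimp only at h6
      omega
  have hE4' : Γ₄.Adj (1, 1) (2, 1) := (hold4 _ v21 q7 q8 _ (hW3V v11)).2 hE4
  have hc4' : cn W₄ Γ₄ (1, 1) (2, 1) = m + 2 * (d - 4) := by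
    rw [← hc4]
    refine cn_eq (hW3V v11) (hW3V v21) p2 (fun z hz => by
      rw [hold4 _ v11 q5 q6 z hz, hold4 _ v21 q7 q8 z hz]) fun y hy hyW h4 => ?_
    rcases p7 y hy hyW _ (hW3V v21) h4.2 with h5 | h5 | ⟨-, h5⟩
    · exact q7 h5
    · exact q8 h5
    · have h6 := hS3.2 _ v21 _ v20 h5
      rw [J_adj] at h6
      dsimp only at h6
      omega
  -- the path along the third edge
  obtain ⟨W₅, Γ₅, r1, r2, r3, r4, r5, r6, r7⟩ := Real.path k p1 (hS4.1 v0b) (hS4.1 v10) hE3' (by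
      rw [hℱ]
      exact hS4.cond hd (by omega) hr v0b v10 (Or.inr (Or.inr (Or.inl rfl))) (Or.inl rfl))
  have hS5 : Sub d m W₅ Γ₅ := ⟨hS4.1.trans r2, fun s hs t ht h =>
    hS4.2 s hs t ht (r5 s (hS4.1 hs) t (hS4.1 ht) h)⟩
  have q9 : ((1, 1) : ℕ × ℕ) ≠ (0, m - 3) := by rw [ne_eq, Prod.mk.injEq]; omega
  have q10 : ((2, 1) : ℕ × ℕ) ≠ (0, m - 3) := by rw [ne_eq, Prod.mk.injEq]; omega
  have hW4V := hS4.1
  have hold5 : ∀ s ∈ V d m, s ≠ (0, m - 3) → s ≠ (1, 0) → ∀ z ∈ W₄, (Γ₅.Adj z s ↔ Γ₄.Adj z s) :=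
    fun s hs h4 h5 z hz => ⟨fun h => r5 z hz s (hW4V hs) h,
      fun h => (r6 s (hW4V hs) z hz h4 h5 h.symm).symm⟩
  have hE4'' : Γ₅.Adj (1, 1) (2, 1) := (hold5 _ v21 q10 n10 _ (hW4V v11)).2 hE4'
  have hc4'' : cn W₅ Γ₅ (1, 1) (2, 1) = m + 2 * (d - 4) := by
    rw [← hc4']
    refine cn_eq (hW4V v11) (hW4V v21) r2 (fun z hz => by
      rw [hold5 _ v11 q9 n9 z hz, hold5 _ v21 q10 n10 z hz]) fun y hy hyW h4 => ?_
    rcases r7 y hy hyW _ (hW4V v11) h4.1 with h5 | h5 | ⟨-, h5⟩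
    · exact q9 h5
    · exact n9 h5
    · have h6 := hS4.2 _ v11 _ v10 h5
      rw [J_adj] at h6
      dsimp only at h6
      omega
  -- the path along the fourth edge
  obtain ⟨W₆, Γ₆, s1, s2, s3, s4, s5, s6, s7⟩ := Real.path u r1 (hS5.1 v11) (hS5.1 v21) hE4'' (by
      rw [hℱ]
      exact hS5.cond hd (by omega) hr v11 v21 (Or.inr (Or.inr (Or.inr rfl))) (Or.inr rfl))
  refine ⟨W₆, Γ₆, hℱ ▸ s1, ?_⟩
  rw [hc1] at hs3
  rw [hc2] at p4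
  rw [hc3'] at r4
  rw [hc4''] at s4
  obtain ⟨c, hc⟩ : ∃ c, c = 2 * d - 3 := ⟨_, rfl⟩
  have e1' : 2 * d - 4 + 1 = c := by omega
  have e2' : 2 * d - 3 + 1 = c + 1 := by omega
  have e3' : m + 2 * (d - 4) + 1 = c + (2 * N + 2) := by omega
  rw [e1'] at hs3 r4
  rw [e2'] at p4
  rw [e3'] at s4
  have hsum : ∀ a b n : ℕ, ∑ t ∈ range (a + b), (n + t) =
      ∑ t ∈ range a, (n + t) + ∑ t ∈ range b, (n + a + t) := by
    intro a b n
    rw [sum_range_add]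
    congr 1
    exact sum_congr rfl fun t _ => by ring
  have hG : ∀ a : ℕ, ∑ t ∈ range a, (W₂.card + t) = ∑ t ∈ range a, (3 * N + 5 + t) + a * c := by
    intro a
    have h4 : ∀ t ∈ range a, W₂.card + t = (3 * N + 5 + t) + c := fun t _ => by omega
    rw [sum_congr rfl h4, sum_add_distrib, sum_const, card_range, smul_eq_mul]
  have hT := hG (1 + w + k + u)
  rw [hsum (1 + w + k) u, hsum (1 + w) k, hsum 1 w, sum_range_one, add_zero] at hT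
  have k1 : W₃.card = W₂.card + 1 := hW3c
  have k2 : W₄.card = W₂.card + (1 + w) := by omega
  have k3 : W₅.card = W₂.card + (1 + w + k) := by omega
  rw [k1] at p4
  rw [k2] at r4
  rw [k3] at s4
  have m1 : w * (c + 1) = w * c + w := by ring
  have m2 : u * (c + (2 * N + 2)) = u * c + u * (2 * N + 2) := by ring
  have m3 : (1 + w + k + u) * c = c + w * c + k * c + u * c := by ring
  rw [m1] at p4
  rw [m2] at s4
  rw [m3] at hT
  omega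

end Pool.Agent.ES85
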