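import Pool.Agent.Lib.ES85.Graph

/-!
# The number of missing edges
-/

set_option autoImplicit false

open Finset

namespace Pool.Agent.ES85

variable {α : Type*} [DecidableEq α]

open Classical in
/-- The number of the pairs of vertices which are not joined by an edge. -/
noncomputable def e1 (W : Finset α) (Γ : SimpleGraph α) : ℕ :=
  ((W.powersetCard 2).filter fun S : Finset α => ¬ Γ.IsClique (S : Set α)).card

open Classical in
/-- The number of common neighbours. -/
noncomputable def cn (W : Finset α) (Γ : SimpleGraph α) (a b : α) : ℕ :=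
  (W.filter fun z => Γ.Adj z a ∧ Γ.Adj z b).card

variable {W : Finset α} {Γ : SimpleGraph α} {F : Finset α} {x : α}

theorem isClique_pair {a b : α} (hab : a ≠ b) :
    Γ.IsClique ((({a, b} : Finset α)) : Set α) ↔ Γ.Adj a b := by
  rw [coe_pair]
  constructor
  · exact fun h => h (Or.inl rfl) (Or.inr rfl) hab
  · intro h c hc e he hne
    rcases hc with rfl | rfl <;> rcases he with rfl | rfl
    · exact absurd rfl hne
    · exact h
    · exact h.symm
    · exact absurd rfl hne

/-- The change of the number of missing edges. -/
theorem e1_subG (hF : F ⊆ W) (hFc : Γ.IsClique (F : Set α)) (hx : x ∉ W) :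
    e1 (insert x W) (subG W Γ F x) + (star W Γ F).card =
      e1 W Γ + W.card + if F.card = 2 then 1 else 0 := by
  classical
  have hnx : ∀ a ∈ W, a ≠ x := fun a ha e => hx (e ▸ ha)
  unfold e1
  rw [powersetCard_succ_insert hx 1, filter_union, card_union_of_disjoint]
  · have h1 : ((W.powersetCard 2).filter fun S : Finset α => ¬ (subG W Γ F x).IsClique (S : Set α)).card =
        ((W.powersetCard 2).filter fun S : Finset α => ¬ Γ.IsClique (S : Set α)).card +
          if F.card = 2 then 1 else 0 := by
      have e : ((W.powersetCard 2).filter fun S : Finset α => ¬ (subG W Γ F x).IsClique (S : Set α)) =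
          ((W.powersetCard 2).filter fun S : Finset α => ¬ Γ.IsClique (S : Set α)) ∪
            if F.card = 2 then {F} else ∅ := by
        ext S
        rw [mem_filter, mem_union, mem_filter, mem_powersetCard]
        constructor
        · rintro ⟨⟨hS, hS2⟩, h2⟩
          obtain ⟨a, b, hab, rfl⟩ := card_eq_two.1 hS2
          have ha : a ∈ W := hS (mem_insert_self _ _)
          have hb : b ∈ W := hS (mem_insert_of_mem (mem_singleton_self _))
          rw [isClique_pair hab, subG_old (hnx a ha) (hnx b hb)] at h2
          rw [isClique_pair hab]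
          by_cases h3 : Γ.Adj a b
          · have h4 : F = {a, b} := by
              by_contra h4
              exact h2 ⟨h3, h4⟩
            right
            rw [h4, if_pos (card_pair hab)]
            exact mem_singleton_self _
          · exact Or.inl ⟨⟨hS, hS2⟩, h3⟩
        · rintro (⟨⟨hS, hS2⟩, h2⟩ | h2)
          · refine ⟨⟨hS, hS2⟩, fun h3 => h2 ?_⟩
            exact fun a ha b hb hab => ((subG_old (hnx a (hS ha)) (hnx b (hS hb))).1 (h3 ha hb hab)).1
          · split_ifs at h2 with h3
            · rw [mem_singleton.1 h2]
              obtain ⟨a, b, hab, e⟩ := card_eq_two.1 h3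
              refine ⟨⟨hF, h3⟩, ?_⟩
              have ha : a ∈ W := hF (e ▸ mem_insert_self _ _)
              have hb : b ∈ W := hF (e ▸ mem_insert_of_mem (mem_singleton_self _))
              intro h5
              have h6 := h5 (show a ∈ (F : Set α) by rw [e]; simp) (show b ∈ (F : Set α) by
                rw [e]; simp) hab
              exact ((subG_old (hnx a ha) (hnx b hb)).1 h6).2 e
            · exact absurd h2 (notMem_empty _)
      rw [e, card_union_of_disjoint]
      · congr 1
        split_ifs <;> simp
      · split_ifs with h3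
        · rw [disjoint_singleton_right, mem_filter]
          exact fun h4 => h4.2 hFc
        · exact disjoint_empty_right _
    have h2 : (((W.powersetCard 1).image (insert x)).filter
        fun S : Finset α => ¬ (subG W Γ F x).IsClique (S : Set α)).card = (W \ star W Γ F).card := by
      symm
      refine card_bij (fun b _ => insert x {b}) (fun b hb => ?_) (fun a ha b hb h3 => ?_)
        (fun S hS => ?_)
      · obtain ⟨hbW, hbs⟩ := mem_sdiff.1 hb
        refine mem_filter.2 ⟨mem_image.2 ⟨{b}, mem_powersetCard.2 ⟨singleton_subset_iff.2 hbW,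
          card_singleton b⟩, rfl⟩, fun h3 => hbs ?_⟩
        rw [isClique_pair (hnx b hbW).symm] at h3
        exact (subG_new (hnx b hbW)).1 h3
      · have h4 : a ∈ insert x ({b} : Finset α) := h3 ▸ mem_insert_of_mem (mem_singleton_self _)
        exact mem_singleton.1 ((mem_insert.1 h4).resolve_left (hnx a (mem_sdiff.1 ha).1))
      · obtain ⟨h3, h4⟩ := mem_filter.1 hS
        obtain ⟨T, hT, rfl⟩ := mem_image.1 h3
        obtain ⟨hTW, hT1⟩ := mem_powersetCard.1 hT
        obtain ⟨b, rfl⟩ := card_eq_one.1 hT1
        have hbW := singleton_subset_iff.1 hTW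
        refine ⟨b, mem_sdiff.2 ⟨hbW, fun h5 => h4 ?_⟩, rfl⟩
        rw [isClique_pair (hnx b hbW).symm]
        exact (subG_new (hnx b hbW)).2 h5
    have h3 : (star W Γ F).card ≤ W.card := card_le_card fun z hz => (mem_star.1 hz).1
    have h4 : (W \ star W Γ F).card = W.card - (star W Γ F).card :=
      card_sdiff_of_subset fun z hz => (mem_star.1 hz).1
    rw [h1, h2, h4]
    omega
  · rw [disjoint_left]
    intro S h1 h2
    obtain ⟨T, -, rfl⟩ := mem_image.1 (mem_filter.1 h2).1
    exact hx ((mem_powersetCard.1 (mem_filter.1 h1).1).1 (mem_insert_self _ _))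

/-- The closed star of an edge. -/
theorem card_star_edge {a b : α} (ha : a ∈ W) (hb : b ∈ W) (hab : Γ.Adj a b) :
    (star W Γ {a, b}).card = cn W Γ a b + 2 := by
  classical
  have e : star W Γ {a, b} = (W.filter fun z => Γ.Adj z a ∧ Γ.Adj z b) ∪ {a, b} := by
    ext z
    rw [mem_star, mem_union, mem_filter]
    constructor
    · rintro ⟨h1, h2⟩
      by_cases hza : z = a
      · exact Or.inr (hza ▸ mem_insert_self _ _)
      by_cases hzb : z = b
      · exact Or.inr (hzb ▸ mem_insert_of_mem (mem_singleton_self _))
      exact Or.inl ⟨h1, h2 (Or.inl rfl) (Or.inr (by simp)) hza,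
        h2 (Or.inl rfl) (Or.inr (by simp)) hzb⟩
    · rintro (⟨h1, h2, h3⟩ | h1)
      · refine ⟨h1, ?_⟩
        rw [coe_pair, SimpleGraph.isClique_insert]
        refine ⟨?_, fun c hc hzc => ?_⟩
        · have := (isClique_pair (Γ := Γ) hab.ne).2 hab
          rwa [coe_pair] at this
        · rcases hc with rfl | rfl
          · exact h2
          · exact h3
      · have h2 : z ∈ W := by
          rcases mem_insert.1 h1 with rfl | h1
          · exact ha
          · rw [mem_singleton.1 h1]
            exact hb
        refine ⟨h2, ?_⟩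
        rw [Set.insert_eq_of_mem (mem_coe.2 h1)]
        exact (isClique_pair hab.ne).2 hab
  rw [e, card_union_of_disjoint, card_pair hab.ne, cn]
  rw [disjoint_left]
  intro z h1 h2
  obtain ⟨-, h3, h4⟩ := mem_filter.1 h1
  rcases mem_insert.1 h2 with rfl | h2
  · exact h3.ne rfl
  · exact h4.ne (mem_singleton.1 h2)

/-- The change of the number of missing edges, for an edge. -/
theorem e1_edge {a b : α} (ha : a ∈ W) (hb : b ∈ W) (hab : Γ.Adj a b) (hx : x ∉ W) :
    e1 (insert x W) (subG W Γ {a, b} x) + (cn W Γ a b + 1) = e1 W Γ + W.card := by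
  have hF : ({a, b} : Finset α) ⊆ W := by
    intro c hc
    rcases mem_insert.1 hc with rfl | hc
    · exact ha
    · rw [mem_singleton.1 hc]
      exact hb
  have h1 := e1_subG hF ((isClique_pair hab.ne).2 hab) hx
  rw [card_star_edge ha hb hab, card_pair hab.ne, if_pos rfl] at h1
  omega

end Pool.Agent.ES85
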