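import Pool.Agent.Lib.ES85.Path

/-!
# The cross-polytope, and the free sum of a polygon and of a cross-polytope
-/

set_option autoImplicit false

open Finset

namespace Pool.Agent.ES85

section cross

variable {α : Type*} [DecidableEq α]

/-- The sign. -/
noncomputable def sg (b : Bool) : ℝ := if b then 1 else -1

theorem sg_mul_self (b : Bool) : sg b * sg b = 1 := by cases b <;> simp [sg]

theorem sg_mul_ne {b c : Bool} (h : b ≠ c) : sg b * sg c = -1 := by
  cases b <;> cases c <;> simp_all [sg]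

/-- The coordinate. -/
noncomputable def co {d : ℕ} (i : Fin d) : EuclideanSpace ℝ (Fin d) →ₗ[ℝ] ℝ :=
  (EuclideanSpace.proj i : EuclideanSpace ℝ (Fin d) →L[ℝ] ℝ).toLinearMap

theorem co_apply {d : ℕ} (i : Fin d) (y : EuclideanSpace ℝ (Fin d)) : co i y = y i := rfl

theorem Real.cross {d : ℕ} (lab : Fin d × Bool → α) (hlab : Function.Injective lab)
    (Γ : SimpleGraph α) (hΓ : ∀ p q, Γ.Adj (lab p) (lab q) ↔ p.1 ≠ q.1) :
    Real d (univ.image lab) Γ ∅ := by
  obtain ⟨v, hv⟩ : ∃ v : α → EuclideanSpace ℝ (Fin d), ∀ p : Fin d × Bool,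
      v (lab p) = sg p.2 • EuclideanSpace.single p.1 (1 : ℝ) :=
    ⟨Function.extend lab (fun p => sg p.2 • EuclideanSpace.single p.1 (1 : ℝ)) 0,
      fun p => hlab.extend_apply _ _ p⟩
  have hco : ∀ j p, co j (v (lab p)) = sg p.2 * if p.1 = j then 1 else 0 := fun j p => by
    rw [hv, map_smul, co_apply, smul_eq_mul, PiLp.single_apply]
    congr 1
    by_cases h : p.1 = j
    · rw [if_pos h, if_pos h.symm]
    · rw [if_neg h, if_neg (Ne.symm h)]
  obtain ⟨G, hG⟩ : ∃ G : (Fin d → Bool) → Finset α, ∀ ε, G ε = univ.image fun i => lab (i, ε i) :=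
    ⟨_, fun _ => rfl⟩
  have hmem : ∀ ε p, lab p ∈ G ε ↔ p.2 = ε p.1 := fun ε p => by
    rw [hG, mem_image]
    constructor
    · rintro ⟨i, -, e⟩
      have := hlab e
      rw [← this]
    · exact fun e => ⟨p.1, mem_univ _, by rw [← e]⟩
  have hGW : ∀ ε, G ε ⊆ univ.image lab := fun ε a ha => by
    rw [hG] at ha
    obtain ⟨i, -, rfl⟩ := mem_image.1 ha
    exact mem_image_of_mem _ (mem_univ _)
  have hinj : ∀ ε : Fin d → Bool, Function.Injective fun i => lab (i, ε i) := fun ε i j e =>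
    congrArg Prod.fst (hlab e)
  have hWmem : ∀ a ∈ univ.image lab, ∃ p, lab p = a := fun a ha => by
    obtain ⟨p, -, e⟩ := mem_image.1 ha
    exact ⟨p, e⟩
  refine ⟨⟨v, univ.image G, ⟨?_, ?_, ?_, ?_, ?_, ?_⟩, fun S => ?_⟩, by simp, by simp, by simp,
    by simp⟩
  · intro S hS
    obtain ⟨ε, -, rfl⟩ := mem_image.1 hS
    exact hGW ε
  · intro S hS
    obtain ⟨ε, -, rfl⟩ := mem_image.1 hS
    rw [hG, card_image_of_injective _ (hinj ε)]
    simp
  · intro a ha
    obtain ⟨p, rfl⟩ := hWmem a ha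
    exact ⟨G fun _ => p.2, mem_image_of_mem _ (mem_univ _), (hmem _ p).2 rfl⟩
  · intro S hS
    obtain ⟨ε, -, rfl⟩ := mem_image.1 hS
    have hl : ∀ p, (∑ j, sg (ε j) • co j) (v (lab p)) = sg (ε p.1) * sg p.2 := fun p => by
      rw [LinearMap.sum_apply]
      simp only [LinearMap.smul_apply, hco, smul_eq_mul]
      rw [sum_eq_single p.1]
      · simp
      · intro j _ hj
        rw [if_neg (Ne.symm hj), mul_zero, mul_zero]
      · exact fun h => absurd (mem_univ _) h
    refine ⟨∑ j, sg (ε j) • co j, fun a ha => ?_, fun a ha haG => ?_⟩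
    · obtain ⟨p, rfl⟩ := hWmem a (hGW ε ha)
      rw [hl, (hmem ε p).1 ha]
      exact sg_mul_self _
    · obtain ⟨p, rfl⟩ := hWmem a ha
      rw [hl, sg_mul_ne fun e => haG ((hmem ε p).2 e.symm)]
      norm_num
  · intro S hS a ha
    obtain ⟨ε, -, rfl⟩ := mem_image.1 hS
    obtain ⟨p, rfl⟩ := hWmem a (hGW ε ha)
    refine ⟨sg p.2 • co p.1, ?_, fun b hb hne => ?_⟩
    · rw [LinearMap.smul_apply, hco, if_pos rfl, mul_one, smul_eq_mul]
      exact sg_mul_self _
    · obtain ⟨q, rfl⟩ := hWmem b (hGW ε hb)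
      rw [LinearMap.smul_apply, hco, if_neg, mul_zero, smul_zero]
      intro e
      refine hne (congrArg lab (Prod.ext e ?_))
      rw [(hmem ε q).1 hb, (hmem ε p).1 ha, e]
  · intro y
    obtain ⟨c, hc, hc0⟩ : ∃ c : α → ℝ, (∀ p, c (lab p) = |y p.1|) ∧ ∀ a, 0 ≤ c a := by
      refine ⟨Function.extend lab (fun p => |y p.1|) 0, fun p => hlab.extend_apply _ _ p,
        fun a => ?_⟩
      by_cases h : ∃ p, lab p = a
      · obtain ⟨p, rfl⟩ := h
        rw [hlab.extend_apply]
        exact abs_nonneg _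
      · rw [Function.extend_apply' _ _ _ h]
        exact le_rfl
    refine ⟨G fun i => decide (0 ≤ y i), mem_image_of_mem _ (mem_univ _), c, hc0, ?_⟩
    rw [hG, sum_image fun i _ j _ e => hinj (fun i => decide (0 ≤ y i)) e]
    ext j
    have h1 : co j (∑ i, c (lab (i, decide (0 ≤ y i))) • v (lab (i, decide (0 ≤ y i)))) = y j := by
      rw [map_sum, sum_eq_single j]
      · rw [map_smul, hco, hc, if_pos rfl, mul_one, smul_eq_mul]
        by_cases h : 0 ≤ y j
        · rw [abs_of_nonneg h]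
          simp [sg, h]
        · rw [abs_of_neg (not_le.1 h)]
          simp [sg, h]
      · intro i _ hi
        rw [map_smul, hco, if_neg hi, mul_zero, smul_zero]
      · exact fun h => absurd (mem_univ _) h
    exact h1
  · constructor
    · rintro ⟨G', hG', hS⟩
      obtain ⟨ε, -, rfl⟩ := mem_image.1 hG'
      refine ⟨hS.trans (hGW ε), fun a ha b hb hab => ?_, by simp⟩
      obtain ⟨p, rfl⟩ := hWmem a (hGW ε (hS ha))
      obtain ⟨q, rfl⟩ := hWmem b (hGW ε (hS hb))
      rw [hΓ]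
      intro e
      refine hab (congrArg lab (Prod.ext e ?_))
      rw [(hmem ε p).1 (hS ha), (hmem ε q).1 (hS hb), e]
    · rintro ⟨hSW, hcl, -⟩
      refine ⟨G fun i => decide (lab (i, true) ∈ S), mem_image_of_mem _ (mem_univ _), fun a ha => ?_⟩
      obtain ⟨⟨i, b⟩, rfl⟩ := hWmem a (hSW ha)
      rw [hmem]
      cases b
      · by_contra h
        have h1 : lab (i, true) ∈ S := by simpa using h
        have h2 := hcl (mem_coe.2 ha) (mem_coe.2 h1) (fun e => by simpa using hlab e)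
        exact (hΓ _ _).1 h2 rfl
      · simpa using ha

end cross

/-! ### The polygon -/

/-- The join of a cycle of length `m`, with the vertices `(0, i)`, and of pairs of points
`(j, 0)`, `(j, 1)`. -/
def J (m : ℕ) : SimpleGraph (ℕ × ℕ) where
  Adj a b := a.1 ≠ b.1 ∨ (a.1 = 0 ∧ b.1 = 0 ∧ (a.2 + 1 = b.2 ∨ b.2 + 1 = a.2 ∨
    (a.2 = 0 ∧ b.2 + 1 = m ∧ 2 ≤ m) ∨ (b.2 = 0 ∧ a.2 + 1 = m ∧ 2 ≤ m)))
  symm := ⟨fun a b h => by
    rcases h with h | ⟨h1, h2, h3⟩
    · exact Or.inl h.symm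
    · exact Or.inr ⟨h2, h1, by tauto⟩⟩
  loopless := ⟨fun a h => by
    rcases h with h | ⟨h1, h2, h3⟩
    · exact h rfl
    · omega⟩

theorem J_adj {m : ℕ} {a b : ℕ × ℕ} : (J m).Adj a b ↔ a.1 ≠ b.1 ∨ (a.1 = 0 ∧ b.1 = 0 ∧
    (a.2 + 1 = b.2 ∨ b.2 + 1 = a.2 ∨ (a.2 = 0 ∧ b.2 + 1 = m ∧ 2 ≤ m) ∨
      (b.2 = 0 ∧ a.2 + 1 = m ∧ 2 ≤ m))) := Iff.rfl

/-- The vertices. -/
def V (d m : ℕ) : Finset (ℕ × ℕ) := (range m).image (fun i => (0, i)) ∪ (Icc 1 (d - 2)) ×ˢ range 2

theorem mem_V {d m : ℕ} {a : ℕ × ℕ} :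
    a ∈ V d m ↔ (a.1 = 0 ∧ a.2 < m) ∨ (1 ≤ a.1 ∧ a.1 ≤ d - 2 ∧ a.2 < 2) := by
  obtain ⟨i, j⟩ := a
  unfold V
  rw [mem_union, mem_image, mem_product, mem_Icc, mem_range]
  constructor
  · rintro (⟨t, ht, e⟩ | ⟨h1, h2⟩)
    · left
      have h1 := congrArg Prod.fst e
      have h2 := congrArg Prod.snd e
      simp only at h1 h2
      exact ⟨h1.symm, h2 ▸ mem_range.1 ht⟩
    · exact Or.inr ⟨h1.1, h1.2, h2⟩
  · rintro (⟨h1, h2⟩ | ⟨h1, h2, h3⟩)
    · left
      simp only at h1 h2
      exact ⟨j, mem_range.2 h2, by rw [h1]⟩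
    · exact Or.inr ⟨⟨h1, h2⟩, h3⟩

theorem real_four (d : ℕ) (hd : 2 ≤ d) : Real d (V d 4) (J 4) ∅ := by
  obtain ⟨lab, hlab⟩ : ∃ lab : Fin d × Bool → ℕ × ℕ, ∀ p, lab p =
      if p.1.1 = 0 then (0, if p.2 then 0 else 2) else if p.1.1 = 1 then (0, if p.2 then 1 else 3)
      else (p.1.1 - 1, if p.2 then 0 else 1) := ⟨_, fun _ => rfl⟩
  have hinj : Function.Injective lab := by
    rintro ⟨⟨i, hi⟩, b⟩ ⟨⟨j, hj⟩, c⟩ e
    rw [hlab, hlab] at e
    simp only at e
    have : i = j ∧ b = c := by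
      cases b <;> cases c <;> simp only [if_true, if_false, Bool.false_eq_true] at e <;>
        split_ifs at e <;> simp_all [Prod.ext_iff] <;> omega
    simp [this.1, this.2]
  have himg : univ.image lab = V d 4 := by
    ext ⟨s, t⟩
    rw [mem_image, mem_V]
    constructor
    · rintro ⟨⟨⟨i, hi⟩, b⟩, -, e⟩
      rw [hlab] at e
      simp only at e
      cases b <;> simp only [if_true, if_false, Bool.false_eq_true] at e <;>
        split_ifs at e <;> simp_all [Prod.ext_iff] <;> omega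
    · rintro (⟨h1, h2⟩ | ⟨h1, h2, h3⟩)
      · simp only at h1 h2
        subst h1
        interval_cases t
        · exact ⟨(⟨0, by omega⟩, true), mem_univ _, by rw [hlab]; simp⟩
        · exact ⟨(⟨1, by omega⟩, true), mem_univ _, by rw [hlab]; simp⟩
        · exact ⟨(⟨0, by omega⟩, false), mem_univ _, by rw [hlab]; simp⟩
        · exact ⟨(⟨1, by omega⟩, false), mem_univ _, by rw [hlab]; simp⟩
      · simp only at h1 h2 h3
        interval_cases t
        · refine ⟨(⟨s + 1, by omega⟩, true), mem_univ _, ?_⟩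
          rw [hlab]
          simp only
          rw [if_neg (by omega), if_neg (by omega)]
          simp
        · refine ⟨(⟨s + 1, by omega⟩, false), mem_univ _, ?_⟩
          rw [hlab]
          simp only
          rw [if_neg (by omega), if_neg (by omega)]
          simp
  rw [← himg]
  refine Real.cross lab hinj (J 4) ?_
  rintro ⟨⟨i, hi⟩, b⟩ ⟨⟨j, hj⟩, c⟩
  rw [J_adj, hlab, hlab]
  simp only [ne_eq, Fin.mk.injEq]
  cases b <;> cases c <;> simp only [if_true, if_false, Bool.false_eq_true] <;>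
    split_ifs <;> simp_all <;> omega

theorem V_succ (d m : ℕ) : insert (0, m) (V d m) = V d (m + 1) := by
  ext ⟨s, t⟩
  rw [mem_insert, mem_V, mem_V, Prod.mk.injEq]
  simp only
  omega

/-- The free sum of a polygon and of a cross-polytope. -/
theorem real_J (d : ℕ) (hd : 2 ≤ d) (m : ℕ) (hm : 4 ≤ m) : Real d (V d m) (J m) ∅ := by
  induction m, hm using Nat.le_induction with
  | base => exact real_four d hd
  | succ m hm ih =>
    have hx : ((0, m) : ℕ × ℕ) ∉ V d m := by
      rw [mem_V]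
      dsimp only
      omega
    have ha : ((0, m - 1) : ℕ × ℕ) ∈ V d m := by
      rw [mem_V]
      dsimp only
      omega
    have hb : ((0, 0) : ℕ × ℕ) ∈ V d m := by
      rw [mem_V]
      dsimp only
      omega
    have hab : (J m).Adj (0, m - 1) (0, 0) := by
      rw [J_adj]
      dsimp only
      omega
    have h1 := ih.sub_edge ha hb hab (by simp) hx
    rw [V_succ] at h1
    refine h1.congr fun s hs t ht => ?_
    have hpair : ∀ s t : ℕ × ℕ, (({(0, m - 1), (0, 0)} : Finset (ℕ × ℕ)) = {s, t}) ↔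
        (s = (0, m - 1) ∧ t = (0, 0)) ∨ (s = (0, 0) ∧ t = (0, m - 1)) := by
      intro s t
      constructor
      · intro e
        have h2 : s ∈ ({(0, m - 1), (0, 0)} : Finset (ℕ × ℕ)) := e ▸ mem_insert_self _ _
        have h3 : t ∈ ({(0, m - 1), (0, 0)} : Finset (ℕ × ℕ)) :=
          e ▸ mem_insert_of_mem (mem_singleton_self _)
        have h4 : ((0, m - 1) : ℕ × ℕ) ∈ ({s, t} : Finset (ℕ × ℕ)) := e ▸ mem_insert_self _ _
        have h5 : ((0, 0) : ℕ × ℕ) ∈ ({s, t} : Finset (ℕ × ℕ)) :=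
          e ▸ mem_insert_of_mem (mem_singleton_self _)
        rw [mem_insert, mem_singleton] at h2 h3 h4 h5
        have hne : ((0, m - 1) : ℕ × ℕ) ≠ (0, 0) := by
          intro h
          rw [Prod.mk.injEq] at h
          omega
        rcases h2 with rfl | rfl
        · rcases h3 with rfl | rfl
          · rcases h5 with h5 | h5 <;> exact absurd h5.symm hne
          · exact Or.inl ⟨rfl, rfl⟩
        · rcases h3 with rfl | rfl
          · exact Or.inr ⟨rfl, rfl⟩
          · rcases h4 with h4 | h4 <;> exact absurd h4 hne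
      · rintro (⟨rfl, rfl⟩ | ⟨rfl, rfl⟩)
        · rfl
        · exact pair_comm _ _
    have hst : ∀ t ∈ V d m, t ∈ star (V d m) (J m) {(0, m - 1), (0, 0)} ↔
        (t.1 ≠ 0 ∨ t.2 = m - 1 ∨ t.2 = 0) := by
      intro t ht
      rw [mem_star_edge ha hb hab, J_adj, J_adj]
      obtain ⟨t1, t2⟩ := t
      rw [mem_V] at ht ⊢
      simp only [Prod.mk.injEq] at ht ⊢
      omega
    by_cases hsx : s = (0, m)
    · subst hsx
      by_cases htx : t = (0, m)
      · subst htx
        exact ⟨fun h => absurd rfl h.ne, fun h => absurd rfl h.ne⟩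
      · have htV : t ∈ V d m := by
          rw [← V_succ, mem_insert] at ht
          exact ht.resolve_left htx
        rw [subG_new htx, hst t htV, J_adj]
        obtain ⟨t1, t2⟩ := t
        rw [mem_V] at htV
        dsimp only at htV ⊢
        omega
    · have hsV : s ∈ V d m := by
        rw [← V_succ, mem_insert] at hs
        exact hs.resolve_left hsx
      by_cases htx : t = (0, m)
      · subst htx
        rw [SimpleGraph.adj_comm, subG_new hsx, hst s hsV, J_adj]
        obtain ⟨s1, s2⟩ := s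
        rw [mem_V] at hsV
        dsimp only at hsV ⊢
        omega
      · have htV : t ∈ V d m := by
          rw [← V_succ, mem_insert] at ht
          exact ht.resolve_left htx
        rw [subG_old hsx htx, ne_eq, hpair, J_adj, J_adj]
        obtain ⟨t1, t2⟩ := t
        obtain ⟨s1, s2⟩ := s
        rw [mem_V] at hsV htV
        simp only [Prod.mk.injEq] at hsV htV ⊢
        omega

end Pool.Agent.ES85
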