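import Pool.Agent.Lib.ES85.Low

/-!
# The inequality between the numbers of empty `(d - 1)`-simplices and of missing edges
-/

set_option autoImplicit false

open Finset Module

namespace Pool.Agent.ES85

variable {E : Type*} [NormedAddCommGroup E] [NormedSpace ℝ E] [FiniteDimensional ℝ E]
  [DecidableEq E] {V S : Finset E}

omit [DecidableEq E] in
theorem vectorSpan_eq_top (hV : IsPolytope V) : vectorSpan ℝ (V : Set E) = ⊤ := by
  have h1 := interior_convexHull_nonempty_iff_affineSpan_eq_top.1 hV.full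
  rw [← direction_affineSpan, h1, AffineSubspace.direction_top]

theorem card_ge (hV : IsPolytope V) : finrank ℝ E + 1 ≤ V.card := by
  have h1 := vectorSpan_eq_top hV
  have hne : V.Nonempty := by
    by_contra h2
    rw [not_nonempty_iff_eq_empty] at h2
    have h3 := hV.full
    rw [h2, coe_empty, convexHull_empty, interior_empty] at h3
    exact Set.not_nonempty_empty h3
  obtain ⟨n, hn⟩ : ∃ n, V.card = n + 1 := ⟨V.card - 1, by
    have := hne.card_pos
    omega⟩
  have h2 := finrank_vectorSpan_image_finset_le ℝ (id : E → E) V hn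
  rw [image_id, h1, finrank_top] at h2
  omega

/-- Vertices are faces. -/
theorem isFace_singleton (hV : IsPolytope V) (hd : 1 ≤ finrank ℝ E) {x : E} (hx : x ∈ V) :
    IsFace V {x} := by
  have h1 : IsClosed (convexHull ℝ ((V : Set E) \ {x})) :=
    (V.finite_toSet.subset Set.sdiff_subset).isClosed_convexHull ℝ
  obtain ⟨f, u, h2, h3⟩ := geometric_hahn_banach_point_closed (convex_convexHull ℝ _) h1
    (hV.vertex x hx)
  have hc := card_ge hV
  refine ⟨singleton_nonempty x, ⟨singleton_subset_iff.2 hx, fun h4 => ?_⟩, -f.toLinearMap, -f x,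
    fun y hy => ?_, fun y hy hyx => ?_⟩
  · have := card_le_card h4
    rw [card_singleton] at this
    omega
  · rw [mem_singleton.1 hy]
    rfl
  · have h5 := h3 y (subset_convexHull ℝ _ ⟨hy, fun e => hyx (mem_singleton.2 e)⟩)
    show -f y < -f x
    linarith

/-- The hyperplane of an empty `(d - 1)`-simplex. -/
theorem exists_hyp (hV : IsPolytope V) {n : ℕ} (hd : finrank ℝ E = n + 1) (hn : 1 ≤ n)
    (hcard : S.card = n + 1) (hSV : S ⊆ V) (hS : ∀ T ∈ S.powersetCard n, IsFace V T)
    (hnS : ¬ IsFace V S) : ∃ (h : E →ₗ[ℝ] ℝ) (c : ℝ), Hyp V S h c := by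
  obtain ⟨h, c, hh0, h1, h2⟩ := exists_hyper hd hcard (affineIndependent_of hcard hn hS)
  have hSne : S.Nonempty := card_pos.1 (by omega)
  have hmem : ∀ p ∈ convexHull ℝ (V : Set E), h p = c → ∃ w : {x // x ∈ S} → ℝ, (∀ i, 0 ≤ w i) ∧
      ∑ i, w i = 1 ∧ ∑ i, w i • (i : E) = p := fun p hp hpc => by
    obtain ⟨w, hw1, hw2⟩ := h2 p hpc
    exact ⟨w, coeff_nonneg hcard hS hp hSV hw1 hw2, hw1, hw2⟩
  have hvert : ∀ v ∈ V, h v = c → v ∈ S := by
    intro v hv hvc
    by_contra hvS
    obtain ⟨w, hw0, hw1, hw2⟩ := hmem v (subset_convexHull ℝ _ hv) hvc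
    refine hV.vertex v hv ?_
    have h3 : v ∈ convexHull ℝ ((S : Finset E) : Set E) := by
      rw [← hw2]
      exact (convex_convexHull ℝ _).sum_mem (fun i _ => hw0 i) hw1 fun i _ =>
        subset_convexHull ℝ _ (mem_coe.2 i.2)
    refine convexHull_mono ?_ h3
    exact fun y hy => ⟨hSV hy, fun e => hvS (by rw [Set.mem_singleton_iff] at e; exact e ▸ hy)⟩
  have hne : ∃ v ∈ V, v ∉ S := by
    by_contra h3
    push Not at h3
    have h4 := card_le_card (show V ⊆ S from h3)
    have h5 := card_ge hV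
    omega
  obtain ⟨v0, hv0, hv0S⟩ := hne
  refine ⟨h, c, h1, hmem, hvert, ?_, ?_⟩
  · by_contra h3
    push Not at h3
    refine hnS ⟨hSne, ⟨hSV, fun h4 => hv0S (h4 hv0)⟩, h, c, h1, fun x hx hxS => ?_⟩
    exact lt_of_le_of_ne (h3 x hx) fun e => hxS (hvert x hx e)
  · by_contra h3
    push Not at h3
    refine hnS ⟨hSne, ⟨hSV, fun h4 => hv0S (h4 hv0)⟩, -h, -c, fun x hx => ?_, fun x hx hxS => ?_⟩
    · rw [LinearMap.neg_apply, h1 x hx]
    · rw [LinearMap.neg_apply]
      have h5 := lt_of_le_of_ne (h3 x hx) fun e => hxS (hvert x hx e.symm)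
      linarith

/-- The sign. -/
noncomputable def eps (b : Bool) : ℝ := if b then 1 else -1

open Classical in
/-- The sides of a hyperplane. -/
noncomputable def sides (V : Finset E) (h : E →ₗ[ℝ] ℝ) (c : ℝ) (b : Bool) : Finset E :=
  V.filter fun v => eps b * c < eps b * h v

omit [FiniteDimensional ℝ E] [DecidableEq E] in
theorem mem_sides {h : E →ₗ[ℝ] ℝ} {c : ℝ} {b : Bool} {v : E} :
    v ∈ sides V h c b ↔ v ∈ V ∧ eps b * c < eps b * h v := by
  classical
  unfold sides
  rw [mem_filter]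

omit [FiniteDimensional ℝ E] [DecidableEq E] in
theorem Hyp.eps {h : E →ₗ[ℝ] ℝ} {c : ℝ} (H : Hyp V S h c) (b : Bool) :
    Hyp V S (eps b • h) (eps b * c) := by
  cases b
  · have e1 : ES85.eps false • h = -h := by
      ext x
      simp [ES85.eps]
    have e2 : ES85.eps false * c = -c := by simp [ES85.eps]
    rw [e1, e2]
    exact H.symm
  · simpa [ES85.eps] using H

/-- **The inequality.** -/
theorem mul_le (hV : IsPolytope V) (hd : 3 ≤ finrank ℝ E) :
    (emptySimplices V (finrank ℝ E - 1)).card + finrank ℝ E + 1 ≤ V.card ∧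
      (emptySimplices V (finrank ℝ E - 1)).card * (V.card - finrank ℝ E) ≤
        (emptySimplices V 1).card + ((emptySimplices V (finrank ℝ E - 1)).card + 1).choose 2 := by
  classical
  have hcV := card_ge hV
  obtain ⟨n, hn⟩ : ∃ n, finrank ℝ E = n + 1 := ⟨finrank ℝ E - 1, by omega⟩
  obtain ⟨𝓜, h𝓜⟩ : ∃ 𝓜, 𝓜 = emptySimplices V n := ⟨_, rfl⟩
  have hn1 : finrank ℝ E - 1 = n := by omega
  rw [hn1, ← h𝓜]
  have hm : ∀ S ∈ 𝓜, S ⊆ V ∧ S.card = n + 1 ∧ (∀ T ∈ S.powersetCard n, IsFace V T) ∧
      ¬ IsFace V S := fun S hS => by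
    rw [h𝓜] at hS
    obtain ⟨h1, h2, h3⟩ := mem_filter.1 hS
    obtain ⟨h4, h5⟩ := mem_powersetCard.1 h1
    exact ⟨h4, h5, h2, h3⟩
  have hex : ∀ S ∈ 𝓜, ∃ (h : E →ₗ[ℝ] ℝ) (c : ℝ), Hyp V S h c := fun S hS => by
    obtain ⟨h1, h2, h3, h4⟩ := hm S hS
    exact exists_hyp hV hn (by omega) h2 h1 h3 h4
  choose! h c H using hex
  have eps_ne : ∀ b, eps b = 1 ∨ eps b = -1 := fun b => by cases b <;> simp [eps]
  have eps_not : ∀ b, eps (!b) = - eps b := fun b => by cases b <;> simp [eps]
  have hlt : ∀ b S v, (eps b * c S < eps b * h S v) ↔ (eps b * c S < (eps b • h S) v) :=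
    fun b S v => by rw [LinearMap.smul_apply, smul_eq_mul]
  have hclique : ∀ S ∈ 𝓜, ∀ x ∈ S, ∀ y ∈ S, x ≠ y → IsFace V {x, y} := by
    intro S hS x hx y hy hxy
    obtain ⟨h1, h2, h3, -⟩ := hm S hS
    refine isFace_of_subset h2 (by omega) h3 (insert_nonempty _ _) ⟨fun z hz => ?_, fun h4 => ?_⟩
    · rcases mem_insert.1 hz with rfl | hz
      · exact hx
      · rw [mem_singleton.1 hz]
        exact hy
    · have := card_le_card h4
      rw [card_pair hxy] at this
      omega
  -- the sides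
  have hside : ∀ S ∈ 𝓜, ∀ x ∈ V, x ∉ S → ∃ b, x ∈ sides V (h S) (c S) b := by
    intro S hS x hx hxS
    rcases lt_trichotomy (c S) (h S x) with h1 | h1 | h1
    · exact ⟨true, mem_sides.2 ⟨hx, by simpa [eps] using h1⟩⟩
    · exact absurd ((H S hS).vert x hx h1.symm) hxS
    · exact ⟨false, mem_sides.2 ⟨hx, by simpa [eps] using h1⟩⟩
  have hdisj : ∀ S b, Disjoint (sides V (h S) (c S) b) (sides V (h S) (c S) (!b)) := by
    intro S b
    rw [disjoint_left]
    intro x h1 h2
    have h3 := (mem_sides.1 h1).2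
    have h4 := (mem_sides.1 h2).2
    rw [eps_not] at h4
    linarith
  have hdisjS : ∀ S ∈ 𝓜, ∀ b, Disjoint (sides V (h S) (c S) b) S := by
    intro S hS b
    rw [disjoint_left]
    intro x h1 h2
    have h3 := (mem_sides.1 h1).2
    rw [(H S hS).eq x h2] at h3
    exact lt_irrefl _ h3
  have hL : Lam (n + 1) V (IsFace V) 𝓜 (fun S b => sides V (h S) (c S) b) := by
    refine ⟨fun S hS => (hm S hS).2.1, fun S hS x => ⟨fun hx => ?_, ?_⟩,
      fun S hS => by simpa using hdisj S true, hdisjS, fun S hS b => ?_, fun S hS x hx y hy => ?_,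
      fun S hS S' hS' hne => ?_⟩
    · by_cases hxS : x ∈ S
      · exact Or.inr (Or.inl hxS)
      · obtain ⟨b, hb⟩ := hside S hS x hx hxS
        cases b
        · exact Or.inr (Or.inr hb)
        · exact Or.inl hb
    · rintro (hx | hx | hx)
      · exact (mem_sides.1 hx).1
      · exact (hm S hS).1 hx
      · exact (mem_sides.1 hx).1
    · obtain ⟨v, hv, h1⟩ := ((H S hS).eps b).pos
      exact ⟨v, mem_sides.2 ⟨hv, (hlt b S v).2 h1⟩⟩
    · obtain ⟨hxV, hx⟩ := mem_sides.1 hx
      obtain ⟨hyV, hy⟩ := mem_sides.1 hy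
      exact (H S hS).not_face (hm S hS).1 hxV hyV (by simpa [eps] using hx) (by simpa [eps] using hy)
    · -- the side of `S` with `S'`
      have hb : ∃ b, S' ⊆ sides V (h S) (c S) b ∪ S := by
        by_contra h1
        push Not at h1
        obtain ⟨x, hx, hx1⟩ := not_subset.1 (h1 true)
        obtain ⟨y, hy, hy1⟩ := not_subset.1 (h1 false)
        rw [mem_union, not_or] at hx1 hy1
        obtain ⟨b, hb⟩ := hside S hS x ((hm S' hS').1 hx) hx1.2
        obtain ⟨b', hb'⟩ := hside S hS y ((hm S' hS').1 hy) hy1.2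
        cases b
        · cases b'
          · exact hy1.1 hb'
          · obtain ⟨hxV, hx2⟩ := mem_sides.1 hb
            obtain ⟨hyV, hy2⟩ := mem_sides.1 hb'
            refine (H S hS).not_face (hm S hS).1 hyV hxV (by simpa [eps] using hy2)
              (by simpa [eps] using hx2) (hclique S' hS' y hy x hx ?_)
            rintro rfl
            exact hx1.1 hb'
        · exact hx1.1 hb
      obtain ⟨b, hb⟩ := hb
      obtain ⟨y0, hy0, hy0c⟩ := ((H S hS).eps (!b)).pos
      have hy0s : y0 ∈ sides V (h S) (c S) (!b) := mem_sides.2 ⟨hy0, (hlt (!b) S y0).2 hy0c⟩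
      have hnotS' : ∀ z ∈ sides V (h S) (c S) (!b), z ∉ S' := fun z hz hz' => by
        rcases mem_union.1 (hb hz') with h1 | h1
        · exact disjoint_left.1 (hdisj S b) h1 hz
        · exact disjoint_left.1 (hdisjS S hS (!b)) hz h1
      obtain ⟨b', hb'⟩ := hside S' hS' y0 hy0 (hnotS' y0 hy0s)
      have hge : ∀ s ∈ S', eps b * c S ≤ (eps b • h S) s := fun s hs => by
        rw [LinearMap.smul_apply, smul_eq_mul]
        rcases mem_union.1 (hb hs) with h1 | h1
        · exact (mem_sides.1 h1).2.le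
        · rw [(H S hS).eq s h1]
      have hflip : ∀ z, eps (!b) * c S < eps (!b) * h S z → (eps b • h S) z < eps b * c S :=
        fun z hz => by
          rw [LinearMap.smul_apply, smul_eq_mul]
          rw [eps_not] at hz
          linarith
      have hkey : ∀ z ∈ V, (eps b • h S) z ≤ eps b * c S →
          eps b' * c S' ≤ (eps b' • h S') z := fun z hz hzc =>
        Hyp.side ((H S' hS').eps b') hge hy0 hz (hflip y0 (mem_sides.1 hy0s).2) hzc
          ((hlt b' S' y0).1 (mem_sides.1 hb').2)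
      have hstep : ∀ z ∈ V, z ∉ S' → (eps b • h S) z ≤ eps b * c S →
          z ∈ sides V (h S') (c S') b' := fun z hz hzS' hzc => by
        refine mem_sides.2 ⟨hz, (hlt b' S' z).2 (lt_of_le_of_ne (hkey z hz hzc) fun e => hzS' ?_)⟩
        exact ((H S' hS').eps b').vert z hz e.symm
      have g3 : sides V (h S) (c S) (!b) ⊆ sides V (h S') (c S') b' := fun z hz =>
        hstep z (mem_sides.1 hz).1 (hnotS' z hz) (hflip z (mem_sides.1 hz).2).le
      have g2 : S ⊆ sides V (h S') (c S') b' ∪ S' := fun z hz => by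
        by_cases hzS' : z ∈ S'
        · exact mem_union_right _ hzS'
        · refine mem_union_left _ (hstep z ((hm S hS).1 hz) hzS' ?_)
          rw [LinearMap.smul_apply, smul_eq_mul, (H S hS).eq z hz]
      refine ⟨b, b', hb, g2, g3, fun z hz => ?_⟩
      have hzV := (mem_sides.1 hz).1
      have hznS : z ∉ S := fun h1 => by
        rcases mem_union.1 (g2 h1) with h2 | h2
        · exact disjoint_left.1 (hdisj S' b') h2 hz
        · exact disjoint_left.1 (hdisjS S' hS' (!b')) hz h2
      obtain ⟨e, he⟩ := hside S hS z hzV hznS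
      by_cases heb : e = b
      · exact heb ▸ he
      · have he2 : e = !b := (by decide : ∀ e b : Bool, e ≠ b → e = !b) e b heb
        rw [he2] at he
        exact absurd hz (disjoint_left.1 (hdisj S' b') (g3 he))
  have h0 : ((V.powersetCard 2).filter fun T => ¬ IsFace V T).card ≤
      (emptySimplices V 1).card := by
    refine card_le_card fun T hT => ?_
    obtain ⟨h3, h4⟩ := mem_filter.1 hT
    refine mem_filter.2 ⟨h3, fun U hU => ?_, h4⟩
    obtain ⟨h5, h6⟩ := mem_powersetCard.1 hU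
    obtain ⟨x, rfl⟩ := card_eq_one.1 h6
    exact isFace_singleton hV (by omega) ((mem_powersetCard.1 h3).1 (h5 (mem_singleton_self x)))
  obtain ⟨h1, h2⟩ := Lam.count (IsFace V) 𝓜.card V 𝓜 _ rfl hL (V.card - (n + 1)) (by omega)
    (by omega)
  rw [hn]
  exact ⟨by omega, by omega⟩

end Pool.Agent.ES85
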