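import Pool.Agent.Lib.ES85.Rig4
import Pool.Agent.Lib.ES85.Low2

/-!
# Cutting a tight configuration along an empty `(d - 1)`-simplex
-/

set_option autoImplicit false

namespace Pool.Agent.ES85

open Module Pool.Agent.FV
open scoped Classical

variable {E : Type} [NormedAddCommGroup E] [InnerProductSpace ℝ E]

theorem isFace_iff_faceSet {V S : Finset E} : IsFace V S ↔ FaceSet V S ∧ S ≠ V := by
  constructor
  · rintro ⟨h1, h2, l, c, h3, h4⟩
    refine ⟨⟨h1, h2.1, l, c, fun x hx => ?_, fun x hx => ⟨fun h5 => ?_, fun h5 => h3 x h5⟩⟩,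
      h2.ne⟩
    · by_cases hxS : x ∈ S
      · exact (h3 x hxS).le
      · exact (h4 x hx hxS).le
    · by_contra hxS
      have := h4 x hx hxS
      linarith
  · rintro ⟨⟨h1, h2, l, c, h3, h4⟩, h5⟩
    exact ⟨h1, h2.ssubset_of_ne h5, l, c, fun x hx => (h4 x (h2 hx)).2 hx, fun x hx hxS =>
      lt_of_le_of_ne (h3 x hx) fun e => hxS ((h4 x hx).1 e)⟩

theorem isPolytope_of [FiniteDimensional ℝ E] {d : ℕ} (hd : 1 ≤ d) (hE : finrank ℝ E = d)
    {V : Finset E} (hV : ConvPos V) (h4 : adim V = d) : IsPolytope V := by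
  have hne : V.Nonempty := FV.MOAux.nonempty_of_adim (k := d - 1) (by omega)
  refine ⟨?_, fun x hx hmem => ?_⟩
  · rw [interior_convexHull_nonempty_iff_affineSpan_eq_top]
    have h1 : vectorSpan ℝ (V : Set E) = ⊤ := FV.vectorSpan_eq_top (by omega)
    rw [← direction_affineSpan] at h1
    exact (AffineSubspace.direction_eq_top_iff_of_nonempty
      ((affineSpan_nonempty ℝ).2 (Finset.coe_nonempty.2 hne))).1 h1
  · obtain ⟨-, -, l, c, h3, h5⟩ := hV x hx
    have h6 : ((V : Set E) \ {x}) ⊆ {y | l y < c} := by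
      rintro y ⟨hy1, hy2⟩
      refine lt_of_le_of_ne (h3 y hy1) fun e => hy2 ?_
      exact Finset.mem_singleton.1 ((h5 y hy1).1 e)
    have h7 := convexHull_min h6 (convex_halfSpace_lt l.isLinear c) hmem
    rw [Set.mem_ofPred_eq, (h5 x hx).2 (Finset.mem_singleton_self x)] at h7
    exact lt_irrefl _ h7

theorem convPos_of [FiniteDimensional ℝ E] (hd : 1 ≤ finrank ℝ E) {V : Finset E}
    (hV : IsPolytope V) : ConvPos V ∧ adim V = finrank ℝ E := by
  refine ⟨fun x hx => (isFace_iff_faceSet.1 (isFace_singleton hV hd hx)).1, ?_⟩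
  unfold adim
  rw [vectorSpan_eq_top hV, finrank_top]

theorem simp_of {V : Finset E} (hs : IsSimplicial V) : Simp V := by
  intro S h1 h2
  have h3 := hs S (isFace_iff_faceSet.2 ⟨h1, h2⟩)
  have hpos := h1.1.card_pos
  have h4 := h3.finrank_vectorSpan (n := S.card - 1) (by rw [Fintype.card_coe]; omega)
  have h5 : Set.range ((↑) : {x // x ∈ S} → E) = (S : Set E) := by
    rw [Subtype.range_coe_subtype]
    rfl
  rw [h5] at h4
  unfold adim
  omega

/-- The upper part. -/
noncomputable def upper (V : Finset E) (h : E →ₗ[ℝ] ℝ) (c : ℝ) : Finset E :=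
  V.filter fun x => c ≤ h x

section cut

variable {V T : Finset E} {h : E →ₗ[ℝ] ℝ} {c : ℝ} {d : ℕ}

theorem mem_upper {x : E} : x ∈ upper V h c ↔ x ∈ V ∧ c ≤ h x := by
  unfold upper
  rw [Finset.mem_filter]

theorem sub_upper (H : Hyp V T h c) (hTV : T ⊆ V) : T ⊆ upper V h c := fun x hx =>
  mem_upper.2 ⟨hTV hx, (H.eq x hx).ge⟩

/-- Faces of simplicial configurations do not cross. -/
theorem Hyp.nocross (H : Hyp V T h c) (hs : Simp V) (hTV : T ⊆ V) {S : Finset E}
    (hS : FaceSet V S) (hSV : S ≠ V) : (∀ x ∈ S, h x ≤ c) ∨ ∀ x ∈ S, c ≤ h x := by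
  by_contra hcon
  push Not at hcon
  obtain ⟨⟨a, ha, ha1⟩, b, hb, hb1⟩ := hcon
  have h1 := pair_face hs hS hSV ha hb
  have hab : a ≠ b := by
    rintro rfl
    linarith
  refine H.not_face hTV (hS.2.1 ha) (hS.2.1 hb) ha1 hb1 (isFace_iff_faceSet.2 ⟨h1, ?_⟩)
  rintro e
  apply hSV
  refine Finset.Subset.antisymm hS.2.1 ?_
  rw [← e]
  intro z hz
  rcases Finset.mem_insert.1 hz with rfl | hz
  · exact ha
  · rw [Finset.mem_singleton.1 hz]
    exact hb

/-- The faces of the upper part. -/
theorem upper_face_iff (H : Hyp V T h c) (hs : Simp V) (hTV : T ⊆ V)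
    (hT : ∀ S, S ⊂ T → S.Nonempty → FaceSet V S) {S : Finset E}
    (hS : S ⊆ upper V h c) (hne : S ≠ upper V h c) (hST : S ≠ T) :
    FaceSet (upper V h c) S ↔ FaceSet V S := by
  refine ⟨?_, fun hF => hF.of_subset (Finset.filter_subset _ _) hS⟩
  intro hF
  by_cases hsub : S ⊆ T
  · exact hT S (lt_of_le_of_ne hsub hST) hF.1
  obtain ⟨hSne, _, l, e, hld, hld'⟩ := hF
  obtain ⟨x, hxS, hxT⟩ := Finset.not_subset.1 hsub
  have hxU := mem_upper.1 (hS hxS)
  have hgx : c < h x := by
    refine lt_of_le_of_ne hxU.2 ?_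
    intro he
    exact hxT (H.vert x hxU.1 he.symm)
  have hlx : l x = e := (hld' x (hS hxS)).2 hxS
  have hlT : ∀ y ∈ T, l y ≤ e := fun y hy => hld y (sub_upper H hTV hy)
  have hle : ∀ y ∈ V, l y ≤ e := by
    intro y hy
    by_cases hgy : c ≤ h y
    · exact hld y (mem_upper.2 ⟨hy, hgy⟩)
    push Not at hgy
    by_contra hly
    push Not at hly
    obtain ⟨t, ht0, ht1, hz, hgz⟩ := exists_seg hxU.1 hy hgx hgy
    have h1 : -e ≤ (-l) (t • x + (1 - t) • y) := H.le hz hgz fun s hs => by
      rw [LinearMap.neg_apply]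
      linarith [hlT s hs]
    rw [LinearMap.neg_apply, map_add, map_smul, map_smul, hlx] at h1
    simp only [smul_eq_mul] at h1
    nlinarith
  refine ⟨hSne, hS.trans (Finset.filter_subset _ _), l, e, hle, ?_⟩
  intro y hy
  refine ⟨?_, fun hyS => (hld' y (hS hyS)).2 hyS⟩
  intro hly
  by_cases hgy : c ≤ h y
  · exact (hld' y (mem_upper.2 ⟨hy, hgy⟩)).1 hly
  exfalso
  push Not at hgy
  have hF'' : FaceSet V (V.filter (fun v => l v = e)) := by
    refine ⟨⟨y, Finset.mem_filter.2 ⟨hy, hly⟩⟩, Finset.filter_subset _ _, l, e, hle, ?_⟩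
    intro v hv
    simp [hv]
  by_cases hall : V.filter (fun v => l v = e) = V
  · apply hne
    refine Finset.Subset.antisymm hS ?_
    intro v hv
    have hvV := (mem_upper.1 hv).1
    rw [← hall] at hvV
    exact (hld' v hv).1 (Finset.mem_filter.1 hvV).2
  · rcases H.nocross hs hTV hF'' hall with h1 | h1
    · have := h1 x (Finset.mem_filter.2 ⟨hxU.1, hlx⟩)
      linarith
    · have := h1 y (Finset.mem_filter.2 ⟨hy, hly⟩)
      linarith

theorem upper_face_T (H : Hyp V T h c) (hTV : T ⊆ V) (hTne : T.Nonempty) :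
    FaceSet (upper V h c) T := by
  refine ⟨hTne, sub_upper H hTV, -h, -c, ?_, ?_⟩
  · intro x hx
    have := (mem_upper.1 hx).2
    rw [LinearMap.neg_apply]
    linarith
  · intro x hx
    rw [LinearMap.neg_apply, neg_inj]
    exact ⟨fun h1 => H.vert x (mem_upper.1 hx).1 h1, fun h1 => H.eq x h1⟩

/-- All the data of a cut. -/
structure CutD (d : ℕ) (V T : Finset E) (h : E →ₗ[ℝ] ℝ) (c : ℝ) : Prop where
  hyp : Hyp V T h c
  sub : T ⊆ V
  card : T.card = d
  adim : adim T + 1 = d
  faces : ∀ S, S ⊂ T → S.Nonempty → FaceSet V S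
  not : ¬ FaceSet V T

theorem CutD.neg (C : CutD d V T h c) : CutD d V T (-h) (-c) :=
  ⟨C.hyp.symm, C.sub, C.card, C.adim, C.faces, C.not⟩

theorem exists_cutD [FiniteDimensional ℝ E] (hd : 2 ≤ d) (hE : finrank ℝ E = d) (hV : ConvPos V)
    (h4 : FV.adim V = d) (hTV : T ⊆ V) (hTc : T.card = d)
    (hT : ∀ x ∈ T, FaceSet V (T.erase x)) (hnT : ¬ FaceSet V T) :
    ∃ (h : E →ₗ[ℝ] ℝ) (c : ℝ), CutD d V T h c := by
  have hVne : V.Nonempty := FV.MOAux.nonempty_of_adim (k := d - 1) (by omega)
  obtain ⟨n, rfl⟩ : ∃ n, d = n + 1 := ⟨d - 1, by omega⟩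
  have hP := isPolytope_of (by omega) hE hV h4
  have hS : ∀ S ∈ T.powersetCard n, IsFace V S := by
    intro S hS
    obtain ⟨h1, h2⟩ := Finset.mem_powersetCard.1 hS
    obtain ⟨x, hx, hxS⟩ : ∃ x ∈ T, x ∉ S := by
      by_contra hcon
      push Not at hcon
      have := Finset.card_le_card (show T ⊆ S from hcon)
      omega
    have h3 : S = T.erase x := by
      refine Finset.eq_of_subset_of_card_le (fun y hy => Finset.mem_erase.2
        ⟨fun e => hxS (e ▸ hy), h1 hy⟩) ?_
      rw [Finset.card_erase_of_mem hx]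
      omega
    rw [h3]
    refine isFace_iff_faceSet.2 ⟨hT x hx, ne_of_card hVne ?_⟩
    rw [Finset.card_erase_of_mem hx]
    omega
  have hsub : ∀ S, S ⊂ T → S.Nonempty → FaceSet V S := fun S h1 h2 =>
    (isFace_iff_faceSet.1 (isFace_of_subset hTc (by omega) hS h2 h1)).1
  obtain ⟨h, c, H⟩ := exists_hyp hP hE (by omega) hTc hTV hS fun h1 =>
    hnT (isFace_iff_faceSet.1 h1).1
  refine ⟨h, c, H, hTV, hTc, ?_, hsub, hnT⟩
  have h3 := affineIndependent_of hTc (by omega) hS
  have h5 := h3.finrank_vectorSpan (n := n) (by rw [Fintype.card_coe]; omega)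
  have h6 : Set.range ((↑) : {x // x ∈ T} → E) = (T : Set E) := by
    rw [Subtype.range_coe_subtype]
    rfl
  rw [h6] at h5
  unfold FV.adim
  omega

theorem CutD.adim_upper [FiniteDimensional ℝ E] (C : CutD d V T h c) (hE : finrank ℝ E = d)
    (hTne : T.Nonempty) : FV.adim (upper V h c) = d := by
  obtain ⟨v, hv, h1⟩ := C.hyp.pos
  have h2 : v ∈ upper V h c := mem_upper.2 ⟨hv, h1.le⟩
  have h3 : T ≠ upper V h c := by
    intro e
    rw [← e] at h2
    have := C.hyp.eq v h2
    linarith
  have h4 := (upper_face_T C.hyp C.sub hTne).adim_lt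
    (lt_of_le_of_ne (sub_upper C.hyp C.sub) h3) (Finset.Subset.refl _)
  have h5 := adim_le_finrank (upper V h c)
  have h6 := C.adim
  omega

theorem CutD.simp (C : CutD d V T h c) (hs : Simp V) : Simp (upper V h c) := by
  intro S h1 h2
  by_cases hST : S = T
  · rw [hST, C.card, C.adim]
  · refine hs S ((upper_face_iff C.hyp hs C.sub C.faces h1.2.1 h2 hST).1 h1) ?_
    rintro rfl
    exact h2 (Finset.Subset.antisymm h1.2.1 (Finset.filter_subset _ _))

/-- The edges of the upper part. -/
theorem CutD.edges [FiniteDimensional ℝ E] (C : CutD d V T h c) (hd : 4 ≤ d)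
    (hE : finrank ℝ E = d) (hs : Simp V) (hTne : T.Nonempty) :
    FV.faces (upper V h c) 1 = (FV.faces V 1).filter (fun B => B ⊆ upper V h c) := by
  have hne := sub_upper C.hyp C.sub
  have hUn : (upper V h c).Nonempty := hTne.mono hne
  have had := C.adim_upper hE hTne
  ext B
  rw [Finset.mem_filter]
  constructor
  · intro hB
    obtain ⟨h1, h2⟩ := mem_faces.1 hB
    have h3 : B ≠ upper V h c := by
      rintro rfl
      omega
    have h4 : B ≠ T := by
      rintro rfl
      have := C.adim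
      omega
    exact ⟨mem_faces.2 ⟨(upper_face_iff C.hyp hs C.sub C.faces h1.2.1 h3 h4).1 h1, h2⟩, h1.2.1⟩
  · rintro ⟨h1, h2⟩
    obtain ⟨h3, h4⟩ := mem_faces.1 h1
    exact mem_faces.2 ⟨h3.of_subset (Finset.filter_subset _ _) h2, h4⟩

theorem inter_upper (H : Hyp V T h c) (hTV : T ⊆ V) : upper V h c ∩ upper V (-h) (-c) = T := by
  ext x
  rw [Finset.mem_inter, mem_upper, mem_upper, LinearMap.neg_apply]
  constructor
  · rintro ⟨⟨h1, h2⟩, -, h3⟩
    exact H.vert x h1 (by linarith)
  · intro h1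
    have := H.eq x h1
    exact ⟨⟨hTV h1, this.ge⟩, hTV h1, by linarith⟩

theorem union_upper : upper V h c ∪ upper V (-h) (-c) = V := by
  ext x
  rw [Finset.mem_union, mem_upper, mem_upper, LinearMap.neg_apply]
  constructor
  · rintro (h1 | h1)
    · exact h1.1
    · exact h1.1
  · intro h1
    rcases le_total c (h x) with h2 | h2
    · exact Or.inl ⟨h1, h2⟩
    · exact Or.inr ⟨h1, by linarith⟩

/-- The numbers of edges. -/
theorem CutD.card_edges [FiniteDimensional ℝ E] (C : CutD d V T h c) (hd : 4 ≤ d)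
    (hE : finrank ℝ E = d) (hV : ConvPos V) (hs : Simp V) (h4 : FV.adim V = d)
    (hTne : T.Nonempty) :
    (FV.faces (upper V h c) 1).card + (FV.faces (upper V (-h) (-c)) 1).card =
      (FV.faces V 1).card + d.choose 2 := by
  have e1 := C.edges hd hE hs hTne
  have e2 := C.neg.edges hd hE hs hTne
  rw [e1, e2, ← Finset.card_union_add_card_inter]
  congr 1
  · congr 1
    ext B
    rw [Finset.mem_union, Finset.mem_filter, Finset.mem_filter]
    constructor
    · rintro (h1 | h1)
      · exact h1.1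
      · exact h1.1
    · intro h1
      obtain ⟨h2, h3⟩ := mem_faces.1 h1
      have h5 : B ≠ V := by
        rintro rfl
        omega
      rcases C.hyp.nocross hs C.sub h2 h5 with h6 | h6
      · exact Or.inr ⟨h1, fun x hx => mem_upper.2 ⟨h2.2.1 hx, by
          rw [LinearMap.neg_apply]
          linarith [h6 x hx]⟩⟩
      · exact Or.inl ⟨h1, fun x hx => mem_upper.2 ⟨h2.2.1 hx, h6 x hx⟩⟩
  · have h1 : (FV.faces V 1).filter (fun B => B ⊆ upper V h c) ∩
        (FV.faces V 1).filter (fun B => B ⊆ upper V (-h) (-c)) = T.powersetCard 2 := by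
      ext B
      rw [Finset.mem_inter, Finset.mem_filter, Finset.mem_filter, Finset.mem_powersetCard]
      constructor
      · rintro ⟨⟨h1, h2⟩, -, h3⟩
        refine ⟨?_, card_edge hV h1⟩
        rw [← inter_upper C.hyp C.sub]
        exact Finset.subset_inter h2 h3
      · rintro ⟨h1, h2⟩
        obtain ⟨x, y, hxy, rfl⟩ := Finset.card_eq_two.1 h2
        have h3 : FaceSet V {x, y} := by
          refine C.faces _ (lt_of_le_of_ne h1 ?_) (Finset.insert_nonempty _ _)
          intro e
          have := C.card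
          rw [← e, h2] at this
          omega
        have h5 : ({x, y} : Finset E) ∈ FV.faces V 1 := mem_faces.2 ⟨h3, adim_pair hxy⟩
        rw [← inter_upper C.hyp C.sub] at h1
        exact ⟨⟨h5, fun z hz => (Finset.mem_inter.1 (h1 hz)).1⟩, h5,
          fun z hz => (Finset.mem_inter.1 (h1 hz)).2⟩
    rw [h1, Finset.card_powersetCard, C.card]

/-- The missing `d`-sets. -/
noncomputable def miss (d : ℕ) (V : Finset E) : Finset (Finset E) :=
  (V.powersetCard d).filter fun S => (∀ x ∈ S, FaceSet V (S.erase x)) ∧ ¬ FaceSet V S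

theorem mem_miss {S : Finset E} : S ∈ miss d V ↔
    S ⊆ V ∧ S.card = d ∧ (∀ x ∈ S, FaceSet V (S.erase x)) ∧ ¬ FaceSet V S := by
  unfold miss
  rw [Finset.mem_filter, Finset.mem_powersetCard]
  tauto

theorem CutD.miss_sub [FiniteDimensional ℝ E] (C : CutD d V T h c) (hd : 4 ≤ d)
    (hE : finrank ℝ E = d) (hs : Simp V) (hTne : T.Nonempty) {S : Finset E}
    (hS : S ∈ miss d (upper V h c)) : S ∈ miss d V ∧ S ≠ T := by
  obtain ⟨h1, h2, h3, h5⟩ := mem_miss.1 hS
  have had := C.adim_upper hE hTne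
  have hUn : (upper V h c).Nonempty := hTne.mono (sub_upper C.hyp C.sub)
  have hST : S ≠ T := by
    rintro rfl
    exact h5 (upper_face_T C.hyp C.sub hTne)
  have hSU : S ≠ upper V h c := ne_of_card hUn (by omega)
  refine ⟨mem_miss.2 ⟨h1.trans (Finset.filter_subset _ _), h2, fun x hx => ?_, fun h6 => ?_⟩, hST⟩
  · have hc : (S.erase x).card = d - 1 := by rw [Finset.card_erase_of_mem hx, h2]
    refine (upper_face_iff C.hyp hs C.sub C.faces ((Finset.erase_subset _ _).trans h1)
      (ne_of_card hUn (by omega)) ?_).1 (h3 x hx)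
    intro e
    have := C.card
    rw [← e, hc] at this
    omega
  · exact h5 ((upper_face_iff C.hyp hs C.sub C.faces h1 hSU hST).2 h6)

end cut

/-- Tight configurations have the largest possible number of empty `(d - 1)`-simplices. -/
theorem LTight.card_miss {d : ℕ} (hd : 4 ≤ d) [FiniteDimensional ℝ E] (hE : finrank ℝ E = d) :
    ∀ (N : ℕ) (V : Finset E), V.card = N → ConvPos V → Simp V → adim V = d → LTight d V →
      V.card ≤ (miss d V).card + d + 1 := by
  intro N
  induction N using Nat.strong_induction_on with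
  | _ N ih =>
    intro V hN hV hs h4 ht
    by_cases hc : V.card ≤ d + 1
    · omega
    obtain ⟨T, hTV, hTc, hT1, hT2⟩ := LTight.exists_missing d hd E hE V hV hs h4 ht (by omega)
    have hTne : T.Nonempty := Finset.card_pos.1 (by omega)
    obtain ⟨h, c, C⟩ := exists_cutD (by omega) hE hV h4 hTV hTc hT1 hT2
    have a1 := C.adim_upper hE hTne
    have a2 := C.neg.adim_upper hE hTne
    have s1 := C.simp hs
    have s2 := C.neg.simp hs
    have v1 : ConvPos (upper V h c) := hV.mono (Finset.filter_subset _ _)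
    have v2 : ConvPos (upper V (-h) (-c)) := hV.mono (Finset.filter_subset _ _)
    have g1 := lbt (by omega) hE v1 s1 a1
    have g2 := lbt (by omega) hE v2 s2 a2
    have ge := C.card_edges hd hE hV hs h4 hTne
    have gn : (upper V h c).card + (upper V (-h) (-c)).card = V.card + d := by
      rw [← Finset.card_union_add_card_inter, union_upper, inter_upper C.hyp C.sub, C.card]
    have hch : (d + 1).choose 2 = d + d.choose 2 := by
      rw [Nat.choose_succ_succ' d 1, Nat.choose_one_right]
    have hmul : d * (upper V h c).card + d * (upper V (-h) (-c)).card = d * V.card + d * d := by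
      rw [← mul_add, gn, mul_add]
    have hch2 : 2 * (d + 1).choose 2 = d * d + d := by
      rw [Nat.choose_two_right]
      have h10 : 2 ∣ (d + 1) * (d + 1 - 1) := (Nat.even_mul_pred_self (d + 1)).two_dvd
      obtain ⟨k, hk⟩ := h10
      rw [hk, Nat.mul_div_cancel_left _ (by norm_num), ← hk, Nat.add_sub_cancel]
      ring
    have hlt1 : (upper V h c).card < V.card := by
      obtain ⟨v, hv, h1⟩ := C.hyp.neg
      refine Finset.card_lt_card ⟨Finset.filter_subset _ _, fun h2 => ?_⟩
      have := (mem_upper.1 (h2 hv)).2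
      linarith
    have hlt2 : (upper V (-h) (-c)).card < V.card := by
      obtain ⟨v, hv, h1⟩ := C.neg.hyp.neg
      refine Finset.card_lt_card ⟨Finset.filter_subset _ _, fun h2 => ?_⟩
      have := (mem_upper.1 (h2 hv)).2
      linarith
    unfold LTight at ht
    have t1 : LTight d (upper V h c) := by
      unfold LTight
      omega
    have t2 : LTight d (upper V (-h) (-c)) := by
      unfold LTight
      omega
    have r1 := ih _ (by omega) (upper V h c) rfl v1 s1 a1 t1
    have r2 := ih _ (by omega) (upper V (-h) (-c)) rfl v2 s2 a2 t2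
    have hdisj : Disjoint (miss d (upper V h c)) (miss d (upper V (-h) (-c))) := by
      rw [Finset.disjoint_left]
      intro S h1 h2
      have h3 := (mem_miss.1 h1).1
      have h5 := (mem_miss.1 h2).1
      have h6 : S ⊆ T := by
        rw [← inter_upper C.hyp C.sub]
        exact Finset.subset_inter h3 h5
      refine (C.miss_sub hd hE hs hTne h1).2 (Finset.eq_of_subset_of_card_le h6 ?_)
      rw [hTc, (mem_miss.1 h1).2.1]
    have hTm : T ∉ miss d (upper V h c) ∪ miss d (upper V (-h) (-c)) := by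
      intro h1
      rcases Finset.mem_union.1 h1 with h2 | h2
      · exact (C.miss_sub hd hE hs hTne h2).2 rfl
      · exact (C.neg.miss_sub hd hE hs hTne h2).2 rfl
    have hsub : insert T (miss d (upper V h c) ∪ miss d (upper V (-h) (-c))) ⊆ miss d V := by
      intro S hS
      rcases Finset.mem_insert.1 hS with rfl | hS
      · exact mem_miss.2 ⟨hTV, hTc, hT1, hT2⟩
      rcases Finset.mem_union.1 hS with h2 | h2
      · exact (C.miss_sub hd hE hs hTne h2).1
      · exact (C.neg.miss_sub hd hE hs hTne h2).1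
    have hcard := Finset.card_le_card hsub
    rw [Finset.card_insert_of_notMem hTm, Finset.card_union_of_disjoint hdisj] at hcard
    omega

end Pool.Agent.ES85
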