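import Mathlib

/-!
# Polytopes, faces and empty simplices
-/

set_option autoImplicit false

open Finset

namespace Pool.Agent.ES85

section defs

variable {E : Type*} [AddCommGroup E] [Module ℝ E]

/-- `S` is the set of vertices of a nonempty face, different from the whole polytope, of the
convex hull of `V`, where `V` is the set of the vertices: `S` is the set of the points of `V` at
which some linear functional takes its maximum on `V`, and `S` is neither empty nor `V`. -/
def IsFace (V S : Finset E) : Prop :=
  S.Nonempty ∧ S ⊂ V ∧ ∃ (l : E →ₗ[ℝ] ℝ) (c : ℝ), (∀ x ∈ S, l x = c) ∧ ∀ x ∈ V, x ∉ S → l x < c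

open Classical in
/-- The empty `i`-simplices: the sets of `i + 1` vertices such that each `i`-element subset is the
vertex set of a face, while the set itself is not the vertex set of a face. -/
noncomputable def emptySimplices (V : Finset E) (i : ℕ) : Finset (Finset E) :=
  (V.powersetCard (i + 1)).filter fun S => (∀ T ∈ S.powersetCard i, IsFace V T) ∧ ¬ IsFace V S

/-- All faces different from the whole polytope are simplices. -/
def IsSimplicial (V : Finset E) : Prop :=
  ∀ S : Finset E, IsFace V S → AffineIndependent ℝ ((↑) : S → E)

end defs

/-- The finite set `V` is the set of vertices of a polytope with nonempty interior. -/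
structure IsPolytope {E : Type*} [AddCommGroup E] [Module ℝ E] [TopologicalSpace E]
    (V : Finset E) : Prop where
  full : (interior (convexHull ℝ (V : Set E))).Nonempty
  vertex : ∀ x ∈ V, x ∉ convexHull ℝ ((V : Set E) \ {x})

end Pool.Agent.ES85
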