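import Pool.Agent.Lib.ES85.Count

/-!
# The empty simplices of the polytopes of `Real`
-/

set_option autoImplicit false

open Finset

namespace Pool.Agent.ES85

variable {α : Type*} [DecidableEq α]

section cert

variable {E : Type*} [AddCommGroup E] [Module ℝ E] {n : ℕ} {W : Finset α} {v : α → E}
  {𝒢 : Finset (Finset α)}

theorem exists_image [DecidableEq E] {S : Finset α} {T' : Finset E} (h : T' ⊆ S.image v) :
    ∃ T ⊆ S, T' = T.image v := by
  refine ⟨S.filter fun i => v i ∈ T', filter_subset _ _, ?_⟩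
  ext x
  rw [mem_image]
  constructor
  · intro hx
    obtain ⟨i, hi, rfl⟩ := mem_image.1 (h hx)
    exact ⟨i, mem_filter.2 ⟨hi, hx⟩, rfl⟩
  · rintro ⟨i, hi, rfl⟩
    exact (mem_filter.1 hi).2

open Classical in
/-- The empty simplices, on the indices. -/
theorem Cert.card_empty [DecidableEq E] (h : Cert n W v 𝒢) (hn : 1 ≤ n) (i : ℕ) :
    (emptySimplices (W.image v) i).card = ((W.powersetCard (i + 1)).filter fun S : Finset α =>
      (∀ T ∈ S.powersetCard i, T.Nonempty ∧ Faces 𝒢 T) ∧ ¬ (S.Nonempty ∧ Faces 𝒢 S)).card := by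
  have hinj := h.injOn
  have hcard : ∀ S ⊆ W, (S.image v).card = S.card := fun S hS =>
    card_image_of_injOn (hinj.mono hS)
  symm
  refine card_bij (fun S _ => S.image v) (fun S hS => ?_) (fun S hS S' hS' e => ?_) (fun S' hS' => ?_)
  · obtain ⟨h1, h2, h3⟩ := mem_filter.1 hS
    obtain ⟨hSW, hSc⟩ := mem_powersetCard.1 h1
    refine mem_filter.2 ⟨mem_powersetCard.2 ⟨image_subset_image hSW, by rw [hcard S hSW, hSc]⟩,
      fun T' hT' => ?_, fun h4 => h3 ((h.isFace_iff hn hSW).1 h4)⟩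
    obtain ⟨h4, h5⟩ := mem_powersetCard.1 hT'
    obtain ⟨T, hTS, rfl⟩ := exists_image h4
    refine (h.isFace_iff hn (hTS.trans hSW)).2 (h2 T (mem_powersetCard.2 ⟨hTS, ?_⟩))
    rw [← h5, hcard T (hTS.trans hSW)]
  · have h1 := (mem_powersetCard.1 (mem_filter.1 hS).1).1
    have h2 := (mem_powersetCard.1 (mem_filter.1 hS').1).1
    beta_reduce at e
    ext a
    constructor
    · intro ha
      obtain ⟨b, hb, e2⟩ := mem_image.1 (e ▸ mem_image_of_mem v ha)
      exact hinj (h2 hb) (h1 ha) e2 ▸ hb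
    · intro ha
      obtain ⟨b, hb, e2⟩ := mem_image.1 (e ▸ mem_image_of_mem v ha)
      exact hinj (h1 hb) (h2 ha) e2 ▸ hb
  · obtain ⟨h1, h2, h3⟩ := mem_filter.1 hS'
    obtain ⟨h4, h5⟩ := mem_powersetCard.1 h1
    obtain ⟨S, hSW, rfl⟩ := exists_image h4
    refine ⟨S, mem_filter.2 ⟨mem_powersetCard.2 ⟨hSW, by rw [← h5, hcard S hSW]⟩, fun T hT => ?_,
      fun h6 => h3 ((h.isFace_iff hn hSW).2 h6)⟩, rfl⟩
    obtain ⟨h6, h7⟩ := mem_powersetCard.1 hT
    exact (h.isFace_iff hn (h6.trans hSW)).1 (h2 _ (mem_powersetCard.2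
      ⟨image_subset_image h6, by rw [hcard T (h6.trans hSW), h7]⟩))

end cert

variable {d : ℕ} {W : Finset α} {Γ : SimpleGraph α} {ℱ : Finset (Finset α)}

open Classical in
/-- The polytope of `Real`, with its numbers of empty simplices. -/
theorem Real.exists_polytope (h : Real d W Γ ℱ) (hd : 1 ≤ d) :
    ∃ V : Finset (EuclideanSpace ℝ (Fin d)), IsPolytope V ∧ IsSimplicial V ∧
      (emptySimplices V 1).card = e1 W Γ ∧
      ∀ i, 2 ≤ i → (emptySimplices V i).card = (ℱ.filter fun F => F.card = i + 1).card := by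
  obtain ⟨v, 𝒢, hc, hf⟩ := h.cert
  refine ⟨W.image v, hc.isPolytope hd, hc.isSimplicial hd, ?_, fun i hi => ?_⟩
  · rw [hc.card_empty hd 1, e1]
    congr 1
    ext S
    rw [mem_filter, mem_filter]
    refine and_congr_right fun hS => ?_
    obtain ⟨hSW, hS2⟩ := mem_powersetCard.1 hS
    have hne : S.Nonempty := card_pos.1 (by omega)
    have hno : ∀ T : Finset α, T ⊆ S → ∀ F ∈ ℱ, ¬ F ⊆ T := fun T hT F hF h1 => by
      have h2 := card_le_card (h1.trans hT)
      have h3 := h.big F hF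
      omega
    constructor
    · rintro ⟨-, h2⟩ h3
      exact h2 ⟨hne, (hf S).2 ⟨hSW, h3, hno S (Subset.refl S)⟩⟩
    · refine fun h2 => ⟨fun T hT => ?_, fun h3 => h2 ((hf S).1 h3.2).2.1⟩
      obtain ⟨hTS, hT1⟩ := mem_powersetCard.1 hT
      obtain ⟨a, rfl⟩ := card_eq_one.1 hT1
      refine ⟨singleton_nonempty a, (hf _).2 ⟨hTS.trans hSW, ?_, hno _ hTS⟩⟩
      rw [coe_singleton]
      exact Set.pairwise_singleton _ _
  · rw [hc.card_empty hd i]
    congr 1
    ext S
    rw [mem_filter, mem_filter]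
    constructor
    · rintro ⟨hS, h2, h3⟩
      obtain ⟨hSW, hSc⟩ := mem_powersetCard.1 hS
      have hne : S.Nonempty := card_pos.1 (by omega)
      have hcl : Γ.IsClique (S : Set α) := by
        intro a ha b hb hab
        have h4 : ({a, b} : Finset α) ⊆ S := by
          intro c hc
          rcases mem_insert.1 hc with rfl | hc
          · exact ha
          · rw [mem_singleton.1 hc]
            exact hb
        obtain ⟨T, h5, h6, h7⟩ := exists_subsuperset_card_eq h4 (by rw [card_pair hab]; exact hi)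
          (by omega : i ≤ S.card)
        have h8 := ((hf T).1 (h2 T (mem_powersetCard.2 ⟨h6, h7⟩)).2).2.1
        exact h8 (mem_coe.2 (h5 (mem_insert_self _ _)))
          (mem_coe.2 (h5 (mem_insert_of_mem (mem_singleton_self _)))) hab
      have h4 : ∃ F ∈ ℱ, F ⊆ S := by
        by_contra h4
        push Not at h4
        exact h3 ⟨hne, (hf S).2 ⟨hSW, hcl, h4⟩⟩
      obtain ⟨F, hF, hFS⟩ := h4
      have h5 : F = S := by
        by_contra h5
        obtain ⟨s, hs, hsF⟩ := exists_of_ssubset (hFS.ssubset_of_ne h5)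
        have h6 := ((hf _).1 (h2 (S.erase s) (mem_powersetCard.2 ⟨erase_subset _ _, by
          rw [card_erase_of_mem hs, hSc]; omega⟩)).2).2.2 F hF
        exact h6 fun a ha => mem_erase.2 ⟨fun e => hsF (e ▸ ha), hFS ha⟩
      subst h5
      exact ⟨hF, hSc⟩
    · rintro ⟨hF, hSc⟩
      have hSW := h.sub S hF
      refine ⟨mem_powersetCard.2 ⟨hSW, hSc⟩, fun T hT => ?_, fun h3 => ((hf S).1 h3.2).2.2 S hF
        (Subset.refl S)⟩
      obtain ⟨hTS, hTc⟩ := mem_powersetCard.1 hT
      refine ⟨card_pos.1 (by omega), (hf T).2 ⟨hTS.trans hSW, (h.clique S hF).subset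
        (coe_subset.2 hTS), fun F' hF' h4 => ?_⟩⟩
      have h5 : F' ≠ S := fun e => by
        have := card_le_card (e ▸ h4)
        omega
      refine h.pair F' hF' S hF h5 ?_
      rw [union_eq_right.2 (h4.trans hTS)]
      exact h.clique S hF

end Pool.Agent.ES85
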