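import Pool.Agent.Lib.ES85.Cross

/-!
# Subdivisions at a family of faces
-/

set_option autoImplicit false

open Finset

namespace Pool.Agent.ES85

section family

variable {α : Type*} [DecidableEq α] {d : ℕ}

/-- Subdivisions at cliques no two of which lie in a clique. -/
theorem Real.family [Infinite α] {W : Finset α} {Γ : SimpleGraph α} (h : Real d W Γ ∅)
    (F : ℕ → Finset α) : ∀ N : ℕ, (∀ j < N, F j ⊆ W) → (∀ j < N, Γ.IsClique (F j : Set α)) →
    (∀ j < N, 3 ≤ (F j).card) →
    (∀ i < N, ∀ j < N, i ≠ j → ¬ Γ.IsClique ((F i ∪ F j : Finset α) : Set α)) →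
    ∃ (W' : Finset α) (Γ' : SimpleGraph α), Real d W' Γ' ((range N).image F) ∧ W ⊆ W' ∧
      W'.card = W.card + N ∧ (∀ s ∈ W, ∀ t ∈ W, Γ'.Adj s t ↔ Γ.Adj s t) ∧
      ∀ x ∈ W', x ∉ W → ∀ s ∈ W, Γ'.Adj x s → ∃ j < N, s ∈ star W Γ (F j) := by
  intro N
  induction N with
  | zero =>
    intro _ _ _ _
    exact ⟨W, Γ, by simpa using h, Subset.refl W, rfl, fun _ _ _ _ => Iff.rfl,
      fun x hx hx2 => absurd hx hx2⟩
  | succ N ih =>
    intro h1 h2 h3 h4
    obtain ⟨W', Γ', g1, g2, g3, g4, g5⟩ := ih (fun j hj => h1 j (by omega))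
      (fun j hj => h2 j (by omega)) (fun j hj => h3 j (by omega))
      (fun i hi j hj => h4 i (by omega) j (by omega))
    obtain ⟨x, hx⟩ := Infinite.exists_notMem_finset W'
    have hnx : ∀ a ∈ W', a ≠ x := fun a ha e => hx (e ▸ ha)
    have hcl : ∀ S : Finset α, S ⊆ W → (Γ'.IsClique (S : Set α) ↔ Γ.IsClique (S : Set α)) :=
      fun S hS => ⟨fun h a ha b hb hab => (g4 a (hS ha) b (hS hb)).1 (h ha hb hab),
        fun h a ha b hb hab => (g4 a (hS ha) b (hS hb)).2 (h ha hb hab)⟩
    have hFN := h1 N (by omega)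
    have h5 := g1.sub_big (h3 N (by omega)) (hFN.trans g2) ((hcl _ hFN).2 (h2 N (by omega)))
      (fun F' hF' hc => by
        obtain ⟨j, hj, rfl⟩ := mem_image.1 hF'
        have hj' := mem_range.1 hj
        exact h4 N (by omega) j (by omega) (by omega)
          ((hcl _ (union_subset hFN (h1 j (by omega)))).1 hc)) hx
    have hne : ∀ a b : α, F N ≠ {a, b} := fun a b e => by
      have h6 := card_le_two (a := a) (b := b)
      rw [← e] at h6
      have h7 := h3 N (by omega)
      omega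
    refine ⟨insert x W', subG W' Γ' (F N) x, ?_, g2.trans (subset_insert _ _), ?_,
      fun s hs t ht => ?_, fun y hy hyW s hs hys => ?_⟩
    · rw [range_add_one, image_insert]
      exact h5
    · rw [card_insert_of_notMem hx, g3]
      omega
    · rw [subG_old (hnx s (g2 hs)) (hnx t (g2 ht)), g4 s hs t ht]
      exact ⟨fun h6 => h6.1, fun h6 => ⟨h6, hne s t⟩⟩
    · rcases mem_insert.1 hy with rfl | hy
      · have h6 := mem_star.1 ((subG_new (hnx s (g2 hs))).1 hys)
        refine ⟨N, by omega, mem_star.2 ⟨hs, ?_⟩⟩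
        have h7 := (hcl (insert s (F N)) (insert_subset hs hFN)).1 (by
          rw [coe_insert]
          exact h6.2)
        rwa [coe_insert] at h7
      · obtain ⟨j, hj, h6⟩ := g5 y hy hyW s hs
          ((subG_old (hnx y hy) (hnx s (g2 hs))).1 hys).1
        exact ⟨j, by omega, h6⟩

end family

/-- A sequence with given multiplicities. -/
theorem exists_seq (a : ℕ → ℕ) (s : Finset ℕ) : ∃ r : ℕ → ℕ, (∀ j < ∑ i ∈ s, a i, r j ∈ s) ∧
    ∀ i ∈ s, ((range (∑ i ∈ s, a i)).filter fun j => r j = i).card = a i := by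
  induction s using Finset.induction_on with
  | empty => exact ⟨fun _ => 0, by simp, by simp⟩
  | insert i0 s hi0 ih =>
    obtain ⟨r, h1, h2⟩ := ih
    rw [sum_insert hi0]
    refine ⟨fun j => if j < ∑ i ∈ s, a i then r j else i0, fun j hj => ?_, fun i hi => ?_⟩
    · beta_reduce
      split_ifs with h3
      · exact mem_insert_of_mem (h1 j h3)
      · exact mem_insert_self _ _
    · by_cases hii : i = i0
      · subst hii
        have e : ((range (a i + ∑ i ∈ s, a i)).filter
            fun j => (if j < ∑ i ∈ s, a i then r j else i) = i) =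
            Ico (∑ i ∈ s, a i) (a i + ∑ i ∈ s, a i) := by
          ext j
          rw [mem_filter, mem_range, mem_Ico]
          constructor
          · rintro ⟨h3, h4⟩
            refine ⟨?_, h3⟩
            by_contra h5
            rw [if_pos (not_le.1 h5)] at h4
            exact hi0 (h4 ▸ h1 j (not_le.1 h5))
          · rintro ⟨h3, h4⟩
            exact ⟨h4, if_neg (not_lt.2 h3)⟩
        rw [e, Nat.card_Ico]
        omega
      · have his : i ∈ s := (mem_insert.1 hi).resolve_left hii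
        rw [← h2 i his]
        congr 1
        ext j
        rw [mem_filter, mem_filter, mem_range, mem_range]
        beta_reduce
        constructor
        · rintro ⟨h3, h4⟩
          by_cases h5 : j < ∑ i ∈ s, a i
          · rw [if_pos h5] at h4
            exact ⟨h5, h4⟩
          · rw [if_neg h5] at h4
            exact absurd h4.symm hii
        · rintro ⟨h3, h4⟩
          exact ⟨by omega, by rw [if_pos h3]; exact h4⟩

/-! ### The special faces -/

/-- The further vertices of the faces. -/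
def tau (s : ℕ) : ℕ × ℕ := if s = 0 then (1, 1) else (s + 2, 0)

/-- The face of dimension `r + 2` number `j`. -/
def Fc (j r : ℕ) : Finset (ℕ × ℕ) := {(0, 2 * j + 2), (0, 2 * j + 3), (2, 0)} ∪ (range r).image tau

theorem mem_Fc {j r : ℕ} {a : ℕ × ℕ} : a ∈ Fc j r ↔ a = (0, 2 * j + 2) ∨ a = (0, 2 * j + 3) ∨
    a = (2, 0) ∨ ∃ s < r, a = tau s := by
  unfold Fc
  rw [mem_union, mem_insert, mem_insert, mem_singleton, mem_image]
  constructor
  · rintro ((h | h | h) | ⟨s, hs, h⟩)
    · exact Or.inl h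
    · exact Or.inr (Or.inl h)
    · exact Or.inr (Or.inr (Or.inl h))
    · exact Or.inr (Or.inr (Or.inr ⟨s, mem_range.1 hs, h.symm⟩))
  · rintro (h | h | h | ⟨s, hs, h⟩)
    · exact Or.inl (Or.inl h)
    · exact Or.inl (Or.inr (Or.inl h))
    · exact Or.inl (Or.inr (Or.inr h))
    · exact Or.inr ⟨s, mem_range.2 hs, h.symm⟩

theorem tau_fst (s : ℕ) : (tau s).1 ≠ 0 ∧ (tau s).1 ≠ 2 ∧ (tau s).1 ≤ s + 2 := by
  unfold tau
  split_ifs with h <;> simp only <;> omega

theorem tau_fst_inj {s t : ℕ} (h : (tau s).1 = (tau t).1) : s = t := by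
  unfold tau at h
  split_ifs at h <;> simp only at h <;> omega

theorem card_Fc (j r : ℕ) : (Fc j r).card = r + 3 := by
  unfold Fc
  rw [card_union_of_disjoint, card_image_of_injective, card_range]
  · have h1 : ({(0, 2 * j + 2), (0, 2 * j + 3), (2, 0)} : Finset (ℕ × ℕ)).card = 3 := by
      rw [card_insert_of_notMem, card_insert_of_notMem, card_singleton]
      · simp
      · simp
    rw [h1, add_comm]
  · exact fun s t h => tau_fst_inj (congrArg Prod.fst h)
  · rw [disjoint_left]
    intro a h1 h2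
    obtain ⟨s, -, rfl⟩ := mem_image.1 h2
    have h3 := tau_fst s
    rw [mem_insert, mem_insert, mem_singleton] at h1
    rcases h1 with h1 | h1 | h1 <;> rw [h1] at h3 <;> simp only at h3 <;> omega

theorem Fc_subset {d m j r : ℕ} (hd : 4 ≤ d) (hj : 2 * j + 3 < m) (hr : r ≤ d - 3) :
    Fc j r ⊆ V d m := by
  intro a ha
  rw [mem_V]
  rcases mem_Fc.1 ha with rfl | rfl | rfl | ⟨s, hs, rfl⟩
  · exact Or.inl ⟨rfl, by dsimp only; omega⟩
  · exact Or.inl ⟨rfl, hj⟩
  · right
    dsimp only
    omega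
  · right
    unfold tau
    split_ifs with h <;> dsimp only <;> omega

theorem Fc_clique (m j r : ℕ) : (J m).IsClique ((Fc j r : Finset (ℕ × ℕ)) : Set (ℕ × ℕ)) := by
  intro a ha b hb hab
  rw [J_adj]
  rcases mem_Fc.1 (mem_coe.1 ha) with rfl | rfl | rfl | ⟨s, hs, rfl⟩ <;>
    rcases mem_Fc.1 (mem_coe.1 hb) with rfl | rfl | rfl | ⟨t, ht, rfl⟩
  · exact absurd rfl hab
  · right
    dsimp only
    omega
  · left
    dsimp only
    omega
  · exact Or.inl fun h => (tau_fst t).1 h.symm
  · right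
    dsimp only
    omega
  · exact absurd rfl hab
  · left
    dsimp only
    omega
  · exact Or.inl fun h => (tau_fst t).1 h.symm
  · left
    dsimp only
    omega
  · left
    dsimp only
    omega
  · exact absurd rfl hab
  · exact Or.inl fun h => (tau_fst t).2.1 h.symm
  · exact Or.inl fun h => (tau_fst s).1 h
  · exact Or.inl fun h => (tau_fst s).1 h
  · exact Or.inl fun h => (tau_fst s).2.1 h
  · exact Or.inl fun h => hab (by rw [tau_fst_inj h])

/-- Vertices which are not joined to the special faces. -/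
theorem Fc_not {m j r : ℕ} (hj : 2 * j + 8 ≤ m) {z : ℕ × ℕ}
    (hz : z = (0, 0) ∨ z = (0, m - 1) ∨ z = (0, m - 3) ∨ z = (2, 1)) {S : Set (ℕ × ℕ)}
    (hS : (J m).IsClique S) (hzS : z ∈ S) (hF : ∀ a ∈ Fc j r, a ∈ S) : False := by
  have h1 : ((0, 2 * j + 2) : ℕ × ℕ) ∈ S := hF _ (mem_Fc.2 (Or.inl rfl))
  have h2 : ((2, 0) : ℕ × ℕ) ∈ S := hF _ (mem_Fc.2 (Or.inr (Or.inr (Or.inl rfl))))
  rcases hz with rfl | rfl | rfl | rfl
  · have h3 := hS hzS h1 (by rw [ne_eq, Prod.mk.injEq]; omega)
    rw [J_adj] at h3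
    dsimp only at h3
    omega
  · have h3 := hS hzS h1 (by rw [ne_eq, Prod.mk.injEq]; omega)
    rw [J_adj] at h3
    dsimp only at h3
    omega
  · have h3 := hS hzS h1 (by rw [ne_eq, Prod.mk.injEq]; omega)
    rw [J_adj] at h3
    dsimp only at h3
    omega
  · have h3 := hS hzS h2 (by rw [ne_eq, Prod.mk.injEq]; omega)
    rw [J_adj] at h3
    dsimp only at h3
    omega

theorem Fc_pair {m i j r r' : ℕ} (hij : i ≠ j) :
    ¬ (J m).IsClique ((Fc i r ∪ Fc j r' : Finset (ℕ × ℕ)) : Set (ℕ × ℕ)) := by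
  intro h
  have h1 : ((0, 2 * i + 2) : ℕ × ℕ) ∈ ((Fc i r ∪ Fc j r' : Finset (ℕ × ℕ)) : Set (ℕ × ℕ)) :=
    mem_coe.2 (mem_union_left _ (mem_Fc.2 (Or.inl rfl)))
  have h2 : ((0, 2 * j + 2) : ℕ × ℕ) ∈ ((Fc i r ∪ Fc j r' : Finset (ℕ × ℕ)) : Set (ℕ × ℕ)) :=
    mem_coe.2 (mem_union_right _ (mem_Fc.2 (Or.inl rfl)))
  have h3 := h h1 h2 (by rw [ne_eq, Prod.mk.injEq]; omega)
  rw [J_adj] at h3
  dsimp only at h3
  omega

/-! ### The numbers of common neighbours -/

theorem card_V (d m : ℕ) (hd : 2 ≤ d) : (V d m).card = m + 2 * (d - 2) := by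
  unfold V
  rw [card_union_of_disjoint, card_image_of_injective, card_range, card_product, Nat.card_Icc,
    card_range]
  · omega
  · exact fun i j h => congrArg Prod.snd h
  · rw [disjoint_left]
    intro a h1 h2
    obtain ⟨i, -, rfl⟩ := mem_image.1 h1
    rw [mem_product, mem_Icc] at h2
    dsimp only at h2
    omega

/-- An edge between the cycle and a pair. -/
theorem cn_J {d m i q c : ℕ} (hd : 4 ≤ d) (hm : 4 ≤ m) (hi : i < m) (hq : 1 ≤ q) (hq2 : q ≤ d - 2) :
    cn (V d m) (J m) (0, i) (q, c) = 2 * d - 4 := by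
  classical
  obtain ⟨A, hA⟩ : ∃ A : Finset (ℕ × ℕ), A = {(0, if i + 1 = m then 0 else i + 1),
    (0, if i = 0 then m - 1 else i - 1)} := ⟨_, rfl⟩
  have e : (V d m).filter (fun z => (J m).Adj z (0, i) ∧ (J m).Adj z (q, c)) =
      A ∪ ((Icc 1 (d - 2)).erase q) ×ˢ range 2 := by
    ext ⟨z1, z2⟩
    rw [mem_filter, mem_V, mem_union, hA, mem_insert, mem_singleton, mem_product, mem_erase,
      mem_Icc, mem_range, J_adj, J_adj, Prod.mk.injEq, Prod.mk.injEq]
    dsimp only
    split_ifs <;> omega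
  unfold cn
  rw [e, card_union_of_disjoint, card_product, card_erase_of_mem (mem_Icc.2 ⟨hq, hq2⟩),
    Nat.card_Icc, card_range, hA, card_pair]
  · omega
  · rw [ne_eq, Prod.mk.injEq]
    split_ifs <;> omega
  · rw [disjoint_left]
    rintro ⟨z1, z2⟩ h1 h2
    rw [hA, mem_insert, mem_singleton, Prod.mk.injEq, Prod.mk.injEq] at h1
    rw [mem_product, mem_erase, mem_Icc] at h2
    dsimp only at h2
    omega

theorem cn_J_B {d m : ℕ} (hd : 4 ≤ d) :
    cn (V d m) (J m) (1, 1) (2, 1) = m + 2 * (d - 4) := by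
  classical
  have e : (V d m).filter (fun z => (J m).Adj z (1, 1) ∧ (J m).Adj z (2, 1)) =
      (range m).image (fun i => (0, i)) ∪ (Icc 3 (d - 2)) ×ˢ range 2 := by
    ext ⟨z1, z2⟩
    rw [mem_filter, mem_V, mem_union, mem_image, mem_product, mem_Icc, mem_range, J_adj, J_adj]
    constructor
    · intro h
      by_cases hz : z1 = 0
      · left
        exact ⟨z2, mem_range.2 (by dsimp only at h; omega), by rw [hz]⟩
      · right
        dsimp only at h ⊢
        omega
    · rintro (⟨i, hi, h⟩ | h)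
      · rw [Prod.mk.injEq] at h
        have := mem_range.1 hi
        dsimp only
        omega
      · dsimp only at h ⊢
        omega
  unfold cn
  rw [e, card_union_of_disjoint, card_image_of_injective, card_range, card_product, Nat.card_Icc,
    card_range]
  · omega
  · exact fun i j h => congrArg Prod.snd h
  · rw [disjoint_left]
    intro a h1 h2
    obtain ⟨i, -, rfl⟩ := mem_image.1 h1
    rw [mem_product, mem_Icc] at h2
    dsimp only at h2
    omega

end Pool.Agent.ES85
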