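import Pool.Agent.Lib.ES85.Chain

/-!
# All but finitely many numbers of missing edges
-/

set_option autoImplicit false

open Finset

namespace Pool.Agent.ES85

theorem two_mul_sum (g n : ℕ) : 2 * ∑ t ∈ range n, (g + t) + n = n * (2 * g + n) := by
  induction n with
  | zero => simp
  | succ n ih =>
    rw [sum_range_succ]
    nlinarith

/-- The choice of the numbers of subdivisions. -/
theorem exists_numbers (N e₀ a : ℕ) (h : e₀ + ∑ t ∈ range (7 * N + 6), (3 * N + 5 + t) < a) :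
    ∃ w k u : ℕ, a + (w + u * (2 * N + 2)) = e₀ + ∑ t ∈ range (1 + w + k + u), (3 * N + 5 + t) := by
  have hex : ∃ n, a ≤ e₀ + ∑ t ∈ range n, (3 * N + 5 + t) := by
    refine ⟨a, ?_⟩
    have h1 : ∑ t ∈ range a, 1 ≤ ∑ t ∈ range a, (3 * N + 5 + t) := sum_le_sum fun t _ => by omega
    rw [sum_const, card_range, smul_eq_mul, mul_one] at h1
    omega
  classical
  obtain ⟨n, hn⟩ : ∃ n, n = Nat.find hex := ⟨_, rfl⟩
  have h1 : a ≤ e₀ + ∑ t ∈ range n, (3 * N + 5 + t) := hn ▸ Nat.find_spec hex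
  have hmin : ∀ m < n, e₀ + ∑ t ∈ range m, (3 * N + 5 + t) < a := fun m hm =>
    not_le.1 (Nat.find_min hex (hn ▸ hm))
  have h2 : 7 * N + 7 ≤ n := by
    by_contra h3
    have h4 : n ≤ 7 * N + 6 := by omega
    have h5 : ∑ t ∈ range n, (3 * N + 5 + t) ≤ ∑ t ∈ range (7 * N + 6), (3 * N + 5 + t) :=
      sum_le_sum_of_subset (range_subset_range.2 h4)
    omega
  obtain ⟨m, rfl⟩ : ∃ m, n = m + 1 := ⟨n - 1, by omega⟩
  have h3 := hmin m (by omega)
  obtain ⟨D, hD⟩ : ∃ D, a + D = e₀ + ∑ t ∈ range (m + 1), (3 * N + 5 + t) :=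
    ⟨e₀ + ∑ t ∈ range (m + 1), (3 * N + 5 + t) - a, by omega⟩
  have h4 : D < 3 * N + 5 + m := by
    rw [sum_range_succ] at hD
    omega
  obtain ⟨w, hw⟩ : ∃ w, w = D % (2 * N + 2) := ⟨_, rfl⟩
  obtain ⟨u, hu⟩ : ∃ u, u = D / (2 * N + 2) := ⟨_, rfl⟩
  have h5 : w < 2 * N + 2 := hw ▸ Nat.mod_lt _ (by omega)
  have h6 : w + u * (2 * N + 2) = D := by
    rw [hw, hu]
    exact Nat.mod_add_div' D (2 * N + 2)
  have h7 : 2 * u ≤ D := by
    have : u * 2 ≤ u * (2 * N + 2) := Nat.mul_le_mul_left u (by omega)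
    omega
  have h8 : w + u ≤ m := by omega
  refine ⟨w, m - w - u, u, ?_⟩
  have e : 1 + w + (m - w - u) + u = m + 1 := by omega
  rw [e, h6]
  exact hD

/-- **The empty simplex vectors.** -/
theorem exists_polytope (d : ℕ) (hd : 4 ≤ d) (a : ℕ → ℕ)
    (ha : 50 * (d + ∑ i ∈ Icc 2 (d - 1), a i) ^ 2 ≤ a 1) :
    ∃ V : Finset (EuclideanSpace ℝ (Fin d)), IsPolytope V ∧ IsSimplicial V ∧
      (∀ i ∈ Icc 1 (d - 1), (emptySimplices V i).card = a i) ∧ (emptySimplices V d).card = 0 := by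
  classical
  obtain ⟨r, hr1, hr2⟩ := exists_seq a (Icc 2 (d - 1))
  obtain ⟨N, hN⟩ : ∃ N, N = ∑ i ∈ Icc 2 (d - 1), a i := ⟨_, rfl⟩
  rw [← hN] at hr1 hr2 ha
  obtain ⟨e₀, he₀, hch⟩ := exists_real hd N (fun j => r j - 2) (fun j hj => by
    have := mem_Icc.1 (hr1 j hj)
    omega)
  have hlt : e₀ + ∑ t ∈ range (7 * N + 6), (3 * N + 5 + t) < a 1 := by
    have h1 := two_mul_sum (3 * N + 5) (7 * N + 6)
    have h2 : 2 * (3 * N + 2 * d + 2).choose 2 ≤ (3 * N + 2 * d + 2) * (3 * N + 2 * d + 2) := by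
      rw [Nat.choose_two_right]
      have h3 := Nat.div_mul_le_self ((3 * N + 2 * d + 2) * (3 * N + 2 * d + 2 - 1)) 2
      have h4 : (3 * N + 2 * d + 2) * (3 * N + 2 * d + 2 - 1) ≤
          (3 * N + 2 * d + 2) * (3 * N + 2 * d + 2) := Nat.mul_le_mul_left _ (by omega)
      omega
    nlinarith
  obtain ⟨w, k, u, hnum⟩ := exists_numbers N e₀ (a 1) hlt
  obtain ⟨W, Γ, hreal, he1⟩ := hch w k u
  obtain ⟨V, hV1, hV2, hV3, hV4⟩ := hreal.exists_polytope (by omega)
  have hcount : ∀ i, 2 ≤ i → (emptySimplices V i).card =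
      ((range N).filter fun j => r j = i).card := by
    intro i hi
    rw [hV4 i hi, filter_image, card_image_of_injOn]
    · congr 1
      ext j
      rw [mem_filter, mem_filter, card_Fc]
      refine and_congr_right fun hj => ?_
      have := mem_Icc.1 (hr1 j (mem_range.1 hj))
      omega
    · intro j _ j' _ e
      by_contra hne
      have h5 := Fc_pair (m := 0) (r := r j - 2) (r' := r j' - 2) hne
      beta_reduce at e
      rw [e, union_self] at h5
      exact h5 (Fc_clique 0 j' (r j' - 2))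
  refine ⟨V, hV1, hV2, fun i hi => ?_, ?_⟩
  · obtain ⟨hi1, hi2⟩ := mem_Icc.1 hi
    rcases Nat.lt_or_ge i 2 with h2 | h2
    · obtain rfl : i = 1 := by omega
      rw [hV3]
      omega
    · rw [hcount i h2]
      exact hr2 i (mem_Icc.2 ⟨h2, hi2⟩)
  · rw [hcount d (by omega), card_eq_zero, filter_eq_empty_iff]
    intro j hj e
    have := mem_Icc.1 (hr1 j (mem_range.1 hj))
    omega

end Pool.Agent.ES85
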