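import Mathlib

/-!
# Cone certificates of simplicial polytopes, and stellar subdivisions

A certificate consists of vectors `v i`, `i ∈ W`, and of a family `𝒢` of sets of `n` indices (the
facets), such that the cones spanned by the facets cover the space and every facet is cut out by a
linear functional.
-/

set_option autoImplicit false

open Finset

namespace Pool.Agent.ES85

variable {α : Type*} [DecidableEq α] {E : Type*} [AddCommGroup E] [Module ℝ E]

/-- A cone certificate: the facets `𝒢` of the convex hull of the vectors `v i`, `i ∈ W`. -/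
structure Cert (n : ℕ) (W : Finset α) (v : α → E) (𝒢 : Finset (Finset α)) : Prop where
  sub : ∀ G ∈ 𝒢, G ⊆ W
  card : ∀ G ∈ 𝒢, G.card = n
  mem : ∀ i ∈ W, ∃ G ∈ 𝒢, i ∈ G
  func : ∀ G ∈ 𝒢, ∃ l : E →ₗ[ℝ] ℝ, (∀ i ∈ G, l (v i) = 1) ∧ ∀ i ∈ W, i ∉ G → l (v i) < 1
  dual : ∀ G ∈ 𝒢, ∀ f ∈ G, ∃ m : E →ₗ[ℝ] ℝ, m (v f) = 1 ∧ ∀ i ∈ G, i ≠ f → m (v i) = 0
  cover : ∀ y : E, ∃ G ∈ 𝒢, ∃ c : α → ℝ, (∀ i, 0 ≤ c i) ∧ ∑ i ∈ G, c i • v i = y

/-- The faces of a certificate. -/
def Faces (𝒢 : Finset (Finset α)) (S : Finset α) : Prop := ∃ G ∈ 𝒢, S ⊆ G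

variable {n : ℕ} {W : Finset α} {v : α → E} {𝒢 : Finset (Finset α)}

open Filter Topology in
/-- The stellar subdivision at the face `F`. -/
theorem Cert.stellar (h : Cert n W v 𝒢) {F : Finset α} (hF : 2 ≤ F.card) (hFG : Faces 𝒢 F) {x : α}
    (hx : x ∉ W) : ∃ (v' : α → E) (𝒢' : Finset (Finset α)), Cert n (insert x W) v' 𝒢' ∧
      ∀ S, Faces 𝒢' S ↔ ¬ F ⊆ S ∧ ((x ∉ S ∧ Faces 𝒢 S) ∨ (x ∈ S ∧ Faces 𝒢 (S.erase x ∪ F))) := by
  classical
  choose! l hl1 hl2 using h.func
  choose! m hm1 hm2 using h.dual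
  have hsum : ∀ G ∈ 𝒢, F ⊆ G → ∀ f ∈ G, ∑ i ∈ F, m G f (v i) = if f ∈ F then 1 else 0 := by
    intro G hG hFG f hf
    split_ifs with hfF
    · rw [Finset.sum_eq_single f]
      · exact hm1 G hG f hf
      · exact fun i hi hne => hm2 G hG f hf i (hFG hi) hne
      · exact fun h1 => absurd hfF h1
    · exact Finset.sum_eq_zero fun i hi => hm2 G hG f hf i (hFG hi) fun e => hfF (e ▸ hi)
  have hlF : ∀ G ∈ 𝒢, F ⊆ G → ∑ i ∈ F, l G (v i) = F.card := by
    intro G hG hFG
    rw [Finset.sum_congr rfl fun i hi => hl1 G hG i (hFG hi)]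
    simp
  have hFW : F ⊆ W := by
    obtain ⟨G, hG, hFG⟩ := hFG
    exact hFG.trans (h.sub G hG)
  have hFp : (0 : ℝ) < F.card := by
    have : 0 < F.card := by omega
    exact_mod_cast this
  have hlF2 : ∀ G ∈ 𝒢, ¬ F ⊆ G → ∑ i ∈ F, l G (v i) < F.card := by
    intro G hG hFG
    obtain ⟨f, hf, hfG⟩ := Finset.not_subset.1 hFG
    have h1 : ∑ i ∈ F, l G (v i) < ∑ i ∈ F, (1 : ℝ) := by
      refine Finset.sum_lt_sum (fun i hi => ?_) ⟨f, hf, hl2 G hG f (hFW hf) hfG⟩
      by_cases hi2 : i ∈ G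
      · exact (hl1 G hG i hi2).le
      · exact (hl2 G hG i (hFW hi) hi2).le
    simpa using h1
  -- the choice of the new vertex
  have hev : ∀ᶠ c in 𝓝[<] (0 : ℝ), c < 0 ∧ -1 < c ∧
      (∀ G ∈ 𝒢, ¬ F ⊆ G → ∑ i ∈ F, l G (v i) < F.card + c) ∧
      ∀ G ∈ 𝒢, ∀ f ∈ F, ∀ j ∈ W, j ∉ G → l G (v j) + c * m G f (v j) < 1 := by
    refine Filter.Eventually.and self_mem_nhdsWithin (nhdsWithin_le_nhds (Filter.Eventually.and
      (eventually_gt_nhds (by norm_num)) (Filter.Eventually.and ?_ ?_)))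
    · refine (Finset.eventually_all 𝒢).2 fun G hG => ?_
      by_cases hFG : F ⊆ G
      · exact Filter.Eventually.of_forall fun c h1 => absurd hFG h1
      · have h2 : Tendsto (fun c : ℝ => (F.card : ℝ) + c) (𝓝 0) (𝓝 (F.card + 0)) :=
          tendsto_const_nhds.add tendsto_id
        rw [add_zero] at h2
        filter_upwards [h2.eventually_const_lt (hlF2 G hG hFG)] with c hc _
        exact hc
    · refine (Finset.eventually_all 𝒢).2 fun G hG => (Finset.eventually_all F).2 fun f hf =>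
        (Finset.eventually_all W).2 fun j hj => ?_
      by_cases hjG : j ∈ G
      · exact Filter.Eventually.of_forall fun c h1 => absurd hjG h1
      · have h2 : Tendsto (fun c : ℝ => l G (v j) + c * m G f (v j)) (𝓝 0)
            (𝓝 (l G (v j) + 0 * m G f (v j))) :=
          tendsto_const_nhds.add (tendsto_id.mul_const _)
        rw [zero_mul, add_zero] at h2
        filter_upwards [h2.eventually_lt_const (hl2 G hG j hj hjG)] with c hc _
        exact hc
  obtain ⟨c, hc0, hc1, hcA, hcB⟩ := hev.exists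
  have hs : 0 < F.card + c := by
    have : (2 : ℝ) ≤ F.card := by exact_mod_cast hF
    linarith
  obtain ⟨t, ht⟩ : ∃ t : ℝ, t = (F.card + c)⁻¹ := ⟨_, rfl⟩
  have htp : 0 < t := by rw [ht]; exact inv_pos.2 hs
  have hts : t * (F.card + c) = 1 := by rw [ht]; exact inv_mul_cancel₀ hs.ne'
  obtain ⟨v', hv'⟩ : ∃ v' : α → E, v' = Function.update v x (t • ∑ i ∈ F, v i) := ⟨_, rfl⟩
  have hvx : v' x = t • ∑ i ∈ F, v i := by rw [hv']; simp
  have hvi : ∀ i, i ≠ x → v' i = v i := fun i hi => by rw [hv']; simp [hi]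
  have hvW : ∀ i ∈ W, v' i = v i := fun i hi => hvi i fun e => hx (e ▸ hi)
  have hlx : ∀ k : E →ₗ[ℝ] ℝ, k (v' x) = t * ∑ i ∈ F, k (v i) := fun k => by
    rw [hvx, map_smul, map_sum, smul_eq_mul]
  obtain ⟨𝒢', h𝒢'⟩ : ∃ 𝒢' : Finset (Finset α), 𝒢' = (𝒢.filter fun G => ¬ F ⊆ G) ∪
      (𝒢.filter fun G => F ⊆ G).biUnion fun G => F.image fun f => insert x (G.erase f) := ⟨_, rfl⟩
  have hmem : ∀ G', G' ∈ 𝒢' ↔ (G' ∈ 𝒢 ∧ ¬ F ⊆ G') ∨
      ∃ G ∈ 𝒢, F ⊆ G ∧ ∃ f ∈ F, G' = insert x (G.erase f) := by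
    intro G'
    rw [h𝒢', mem_union, mem_filter, mem_biUnion]
    constructor
    · rintro (h1 | ⟨G, h1, h2⟩)
      · exact Or.inl h1
      · obtain ⟨f, hf, e⟩ := mem_image.1 h2
        exact Or.inr ⟨G, (mem_filter.1 h1).1, (mem_filter.1 h1).2, f, hf, e.symm⟩
    · rintro (h1 | ⟨G, h1, h2, f, hf, e⟩)
      · exact Or.inl h1
      · exact Or.inr ⟨G, mem_filter.2 ⟨h1, h2⟩, mem_image.2 ⟨f, hf, e.symm⟩⟩
  have hxG : ∀ G ∈ 𝒢, x ∉ G := fun G hG h1 => hx (h.sub G hG h1)
  refine ⟨v', 𝒢', ⟨?_, ?_, ?_, ?_, ?_, ?_⟩, ?_⟩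
  · intro G' hG'
    rcases (hmem G').1 hG' with ⟨h1, -⟩ | ⟨G, h1, -, f, -, rfl⟩
    · exact (h.sub G' h1).trans (subset_insert _ _)
    · exact insert_subset_insert _ ((erase_subset _ _).trans (h.sub G h1))
  · intro G' hG'
    rcases (hmem G').1 hG' with ⟨h1, -⟩ | ⟨G, h1, h2, f, hf, rfl⟩
    · exact h.card G' h1
    · rw [card_insert_of_notMem fun h3 => hxG G h1 (mem_of_mem_erase h3),
        card_erase_add_one (h2 hf), h.card G h1]
  · intro i hi
    rcases mem_insert.1 hi with rfl | hi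
    · obtain ⟨G, hG, hFG⟩ := hFG
      have hne : F.Nonempty := card_pos.1 (by omega)
      obtain ⟨f, hf⟩ := hne
      exact ⟨_, (hmem _).2 (Or.inr ⟨G, hG, hFG, f, hf, rfl⟩), mem_insert_self _ _⟩
    · obtain ⟨G, hG, hiG⟩ := h.mem i hi
      by_cases hFG : F ⊆ G
      · obtain ⟨f, hf, hfi⟩ : ∃ f ∈ F, f ≠ i := by
          by_contra h1
          push Not at h1
          have : F ⊆ {i} := fun f hf => mem_singleton.2 (h1 f hf)
          have := card_le_card this
          rw [card_singleton] at this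
          omega
        exact ⟨_, (hmem _).2 (Or.inr ⟨G, hG, hFG, f, hf, rfl⟩),
          mem_insert_of_mem (mem_erase.2 ⟨hfi.symm, hiG⟩)⟩
      · exact ⟨G, (hmem _).2 (Or.inl ⟨hG, hFG⟩), hiG⟩
  · intro G' hG'
    rcases (hmem G').1 hG' with ⟨h1, h2⟩ | ⟨G, h1, h2, f, hf, rfl⟩
    · refine ⟨l G', fun i hi => ?_, fun i hi hiG => ?_⟩
      · rw [hvW i (h.sub G' h1 hi)]
        exact hl1 G' h1 i hi
      · rcases mem_insert.1 hi with rfl | hi
        · rw [hlx]
          have h3 := hcA G' h1 h2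
          calc t * ∑ i ∈ F, (l G') (v i) < t * (F.card + c) := mul_lt_mul_of_pos_left h3 htp
            _ = 1 := hts
        · rw [hvW i hi]
          exact hl2 G' h1 i hi hiG
    · refine ⟨l G + c • m G f, fun i hi => ?_, fun i hi hiG => ?_⟩
      · rcases mem_insert.1 hi with rfl | hi
        · rw [hlx]
          simp only [LinearMap.add_apply, LinearMap.smul_apply, smul_eq_mul, sum_add_distrib,
            ← mul_sum]
          rw [hlF G h1 h2, hsum G h1 h2 f (h2 hf), if_pos hf, mul_one]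
          exact hts
        · obtain ⟨hne, hiG⟩ := mem_erase.1 hi
          rw [hvW i (h.sub G h1 hiG), LinearMap.add_apply, LinearMap.smul_apply, hl1 G h1 i hiG,
            hm2 G h1 f (h2 hf) i hiG hne, smul_zero, add_zero]
      · rcases mem_insert.1 hi with rfl | hi
        · exact absurd (mem_insert_self _ _) hiG
        · rw [hvW i hi, LinearMap.add_apply, LinearMap.smul_apply, smul_eq_mul]
          by_cases hif : i = f
          · subst hif
            rw [hl1 G h1 i (h2 hf), hm1 G h1 i (h2 hf)]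
            linarith
          · refine hcB G h1 f hf i hi fun h3 => hiG (mem_insert_of_mem (mem_erase.2 ⟨hif, h3⟩))
  · intro G' hG' g hg
    rcases (hmem G').1 hG' with ⟨h1, h2⟩ | ⟨G, h1, h2, f, hf, rfl⟩
    · refine ⟨m G' g, ?_, fun i hi hne => ?_⟩
      · rw [hvW g (h.sub G' h1 hg)]
        exact hm1 G' h1 g hg
      · rw [hvW i (h.sub G' h1 hi)]
        exact hm2 G' h1 g hg i hi hne
    · rcases mem_insert.1 hg with rfl | hg
      · refine ⟨t⁻¹ • m G f, ?_, fun i hi hne => ?_⟩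
        · rw [LinearMap.smul_apply, hlx, hsum G h1 h2 f (h2 hf), if_pos hf, smul_eq_mul, mul_one,
            inv_mul_cancel₀ htp.ne']
        · rcases mem_insert.1 hi with rfl | hi
          · exact absurd rfl hne
          · obtain ⟨hne2, hiG⟩ := mem_erase.1 hi
            rw [hvW i (h.sub G h1 hiG), LinearMap.smul_apply, hm2 G h1 f (h2 hf) i hiG hne2,
              smul_zero]
      · obtain ⟨hgf, hgG⟩ := mem_erase.1 hg
        refine ⟨m G g - (if g ∈ F then (1 : ℝ) else 0) • m G f, ?_, fun i hi hne => ?_⟩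
        · rw [hvW g (h.sub G h1 hgG), LinearMap.sub_apply, LinearMap.smul_apply, hm1 G h1 g hgG,
            hm2 G h1 f (h2 hf) g hgG hgf, smul_zero, sub_zero]
        · rcases mem_insert.1 hi with rfl | hi
          · rw [hlx]
            simp only [LinearMap.sub_apply, LinearMap.smul_apply, smul_eq_mul, sum_sub_distrib,
              ← mul_sum]
            rw [hsum G h1 h2 g hgG, hsum G h1 h2 f (h2 hf), if_pos hf, mul_one, sub_self, mul_zero]
          · obtain ⟨hne2, hiG⟩ := mem_erase.1 hi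
            rw [hvW i (h.sub G h1 hiG), LinearMap.sub_apply, LinearMap.smul_apply,
              hm2 G h1 g hgG i hiG hne, hm2 G h1 f (h2 hf) i hiG hne2, smul_zero, sub_zero]
  · intro y
    obtain ⟨G, hG, a, ha, hy⟩ := h.cover y
    by_cases hFG : F ⊆ G
    · have hne : F.Nonempty := card_pos.1 (by omega)
      obtain ⟨f, hf, hmin⟩ := F.exists_min_image a hne
      refine ⟨_, (hmem _).2 (Or.inr ⟨G, hG, hFG, f, hf, rfl⟩),
        fun i => if i = x then a f * t⁻¹ else if i ∈ F then a i - a f else a i, fun i => ?_, ?_⟩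
      · dsimp only
        split_ifs with h1 h2
        · exact mul_nonneg (ha f) (inv_pos.2 htp).le
        · exact sub_nonneg.2 (hmin i h2)
        · exact ha i
      · rw [sum_insert fun h3 => hxG G hG (mem_of_mem_erase h3)]
        beta_reduce
        rw [if_pos rfl, hvx, smul_smul,
          mul_assoc, inv_mul_cancel₀ htp.ne', mul_one, smul_sum]
        have e1 : ∀ i ∈ G.erase f, (if i = x then a f * t⁻¹ else if i ∈ F then a i - a f else a i) •
            v' i = (if i ∈ F then a i - a f else a i) • v i := fun i hi => by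
          have hiG := mem_of_mem_erase hi
          have hne : i ≠ x := fun e => hxG G hG (e ▸ hiG)
          rw [if_neg hne, hvi i hne]
        rw [sum_congr rfl e1]
        have e2 : ∑ i ∈ G.erase f, (if i ∈ F then a i - a f else a i) • v i =
            ∑ i ∈ G, (if i ∈ F then a i - a f else a i) • v i := by
          rw [← sum_erase_add G _ (hFG hf), if_pos hf, sub_self, zero_smul, add_zero]
        have e3 : ∑ i ∈ F, a f • v i = ∑ i ∈ G, (if i ∈ F then a f else 0) • v i := by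
          rw [← sum_subset hFG fun i _ hi => by rw [if_neg hi, zero_smul]]
          exact sum_congr rfl fun i hi => by rw [if_pos hi]
        rw [e2, e3, ← sum_add_distrib, ← hy]
        refine sum_congr rfl fun i _ => ?_
        rw [← add_smul]
        congr 1
        split_ifs <;> ring
    · exact ⟨G, (hmem _).2 (Or.inl ⟨hG, hFG⟩), a, ha, by
        rw [← hy]
        exact sum_congr rfl fun i hi => by rw [hvW i (h.sub G hG hi)]⟩
  · intro S
    constructor
    · rintro ⟨G', hG', hS⟩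
      rcases (hmem G').1 hG' with ⟨h1, h2⟩ | ⟨G, h1, h2, f, hf, rfl⟩
      · exact ⟨fun h3 => h2 (h3.trans hS), Or.inl ⟨fun h3 => hxG G' h1 (hS h3), G', h1, hS⟩⟩
      · have hxF : x ∉ F := fun h3 => hx (hFW h3)
        refine ⟨fun h3 => ?_, ?_⟩
        · have h4 := hS (h3 hf)
          rcases mem_insert.1 h4 with rfl | h4
          · exact hxF hf
          · exact (mem_erase.1 h4).1 rfl
        · by_cases hxS : x ∈ S
          · refine Or.inr ⟨hxS, G, h1, union_subset (fun i hi => ?_) h2⟩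
            obtain ⟨hne, hiS⟩ := mem_erase.1 hi
            rcases mem_insert.1 (hS hiS) with rfl | h4
            · exact absurd rfl hne
            · exact mem_of_mem_erase h4
          · refine Or.inl ⟨hxS, G, h1, fun i hi => ?_⟩
            rcases mem_insert.1 (hS hi) with rfl | h4
            · exact absurd hi hxS
            · exact mem_of_mem_erase h4
    · rintro ⟨hFS, ⟨hxS, G, hG, hS⟩ | ⟨hxS, G, hG, hS⟩⟩
      · by_cases hFG : F ⊆ G
        · obtain ⟨f, hf, hfS⟩ := not_subset.1 hFS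
          exact ⟨_, (hmem _).2 (Or.inr ⟨G, hG, hFG, f, hf, rfl⟩), fun i hi =>
            mem_insert_of_mem (mem_erase.2 ⟨fun e => hfS (e ▸ hi), hS hi⟩)⟩
        · exact ⟨G, (hmem _).2 (Or.inl ⟨hG, hFG⟩), hS⟩
      · obtain ⟨f, hf, hfS⟩ := not_subset.1 hFS
        refine ⟨_, (hmem _).2 (Or.inr ⟨G, hG, (subset_union_right).trans hS, f, hf, rfl⟩),
          fun i hi => ?_⟩
        by_cases hix : i = x
        · exact hix ▸ mem_insert_self _ _
        · exact mem_insert_of_mem (mem_erase.2 ⟨fun e => hfS (e ▸ hi),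
            hS (mem_union_left _ (mem_erase.2 ⟨hix, hi⟩))⟩)

end Pool.Agent.ES85
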