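import Pool.Agent.Lib.ES85.Poly

/-!
# Complexes given by a graph and by some cliques

The faces are the cliques of the graph which contain none of the sets in `ℱ`. Stellar subdivisions
at suitable cliques give complexes of the same form.
-/

set_option autoImplicit false

open Finset

namespace Pool.Agent.ES85

variable {α : Type*} [DecidableEq α]

/-- The complex of the cliques of `Γ` in `W` which contain no set in `ℱ` is the boundary of a
simplicial `d`-polytope. -/
structure Real (d : ℕ) (W : Finset α) (Γ : SimpleGraph α) (ℱ : Finset (Finset α)) : Prop where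
  cert : ∃ (v : α → EuclideanSpace ℝ (Fin d)) (𝒢 : Finset (Finset α)), Cert d W v 𝒢 ∧
    ∀ S, Faces 𝒢 S ↔ S ⊆ W ∧ Γ.IsClique (S : Set α) ∧ ∀ F ∈ ℱ, ¬ F ⊆ S
  sub : ∀ F ∈ ℱ, F ⊆ W
  clique : ∀ F ∈ ℱ, Γ.IsClique (F : Set α)
  big : ∀ F ∈ ℱ, 3 ≤ F.card
  pair : ∀ F ∈ ℱ, ∀ F' ∈ ℱ, F ≠ F' → ¬ Γ.IsClique ((F ∪ F' : Finset α) : Set α)

variable {d : ℕ} {W : Finset α} {Γ : SimpleGraph α} {ℱ : Finset (Finset α)}

/-- Only the edges in `W` matter. -/
theorem Real.congr (h : Real d W Γ ℱ) {Γ' : SimpleGraph α}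
    (hΓ : ∀ a ∈ W, ∀ b ∈ W, Γ.Adj a b ↔ Γ'.Adj a b) : Real d W Γ' ℱ := by
  have key : ∀ S : Finset α, S ⊆ W → (Γ.IsClique (S : Set α) ↔ Γ'.IsClique (S : Set α)) := by
    intro S hS
    constructor
    · exact fun h1 a ha b hb hab => (hΓ a (hS ha) b (hS hb)).1 (h1 ha hb hab)
    · exact fun h1 a ha b hb hab => (hΓ a (hS ha) b (hS hb)).2 (h1 ha hb hab)
  obtain ⟨v, 𝒢, hc, hf⟩ := h.cert
  refine ⟨⟨v, 𝒢, hc, fun S => ?_⟩, h.sub, fun F hF => (key F (h.sub F hF)).1 (h.clique F hF), h.big,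
    fun F hF F' hF' hne hcl => h.pair F hF F' hF' hne
      ((key _ (union_subset (h.sub F hF) (h.sub F' hF'))).2 hcl)⟩
  rw [hf]
  constructor
  · exact fun h1 => ⟨h1.1, (key S h1.1).1 h1.2.1, h1.2.2⟩
  · exact fun h1 => ⟨h1.1, (key S h1.1).2 h1.2.1, h1.2.2⟩

open Classical in
/-- The closed star of `F` in the graph. -/
noncomputable def star (W : Finset α) (Γ : SimpleGraph α) (F : Finset α) : Finset α :=
  W.filter fun z => Γ.IsClique (insert z (F : Set α))

omit [DecidableEq α] in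
theorem mem_star {F : Finset α} {z : α} :
    z ∈ star W Γ F ↔ z ∈ W ∧ Γ.IsClique (insert z (F : Set α)) := by
  classical
  unfold star
  rw [mem_filter]

/-- The graph after the subdivision at `F`, with the new vertex `x`. -/
def subG (W : Finset α) (Γ : SimpleGraph α) (F : Finset α) (x : α) : SimpleGraph α where
  Adj a b := (a ≠ x ∧ b ≠ x ∧ Γ.Adj a b ∧ F ≠ {a, b}) ∨ (a = x ∧ b ≠ x ∧ b ∈ star W Γ F) ∨
    (b = x ∧ a ≠ x ∧ a ∈ star W Γ F)
  symm := ⟨fun a b h => by
    rcases h with ⟨h1, h2, h3, h4⟩ | h | h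
    · exact Or.inl ⟨h2, h1, h3.symm, by rwa [pair_comm]⟩
    · exact Or.inr (Or.inr h)
    · exact Or.inr (Or.inl h)⟩
  loopless := ⟨fun a h => by
    rcases h with h | h | h
    · exact h.2.2.1.ne rfl
    · exact h.2.1 h.1
    · exact h.2.1 h.1⟩

variable {F : Finset α} {x : α}

theorem subG_old {a b : α} (ha : a ≠ x) (hb : b ≠ x) :
    (subG W Γ F x).Adj a b ↔ Γ.Adj a b ∧ F ≠ {a, b} := by
  constructor
  · rintro (h | h | h)
    · exact h.2.2
    · exact absurd h.1 ha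
    · exact absurd h.1 hb
  · exact fun h => Or.inl ⟨ha, hb, h⟩

theorem subG_new {b : α} (hb : b ≠ x) : (subG W Γ F x).Adj x b ↔ b ∈ star W Γ F := by
  constructor
  · rintro (h | h | h)
    · exact absurd rfl h.1
    · exact h.2.2
    · exact absurd h.1 hb
  · exact fun h => Or.inr (Or.inl ⟨rfl, hb, h⟩)

/-- The new faces. -/
theorem Real.faces_sub (hFW : F ⊆ W) (hFc : Γ.IsClique (F : Set α))
    (hFℱ : ∀ F' ∈ ℱ, ¬ Γ.IsClique ((F ∪ F' : Finset α) : Set α)) (hx : x ∉ W)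
    (hsub : ∀ F' ∈ ℱ, F' ⊆ W) (S : Finset α) :
    (¬ F ⊆ S ∧ ((x ∉ S ∧ (S ⊆ W ∧ Γ.IsClique (S : Set α) ∧ ∀ F' ∈ ℱ, ¬ F' ⊆ S)) ∨
      (x ∈ S ∧ (S.erase x ∪ F ⊆ W ∧ Γ.IsClique ((S.erase x ∪ F : Finset α) : Set α) ∧
        ∀ F' ∈ ℱ, ¬ F' ⊆ S.erase x ∪ F)))) ↔
    S ⊆ insert x W ∧ (subG W Γ F x).IsClique (S : Set α) ∧ (∀ F' ∈ ℱ, ¬ F' ⊆ S) ∧ ¬ F ⊆ S := by
  have hnx : ∀ a ∈ W, a ≠ x := fun a ha e => hx (e ▸ ha)
  by_cases hxS : x ∈ S
  · constructor
    · rintro ⟨h1, ⟨h2, -⟩ | ⟨-, h2, h3, h4⟩⟩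
      · exact absurd hxS h2
      · have hSW : ∀ a ∈ S, a ≠ x → a ∈ W := fun a ha hne =>
          h2 (mem_union_left _ (mem_erase.2 ⟨hne, ha⟩))
        have hst : ∀ a ∈ S, a ≠ x → a ∈ star W Γ F := fun a ha hne => by
          refine mem_star.2 ⟨hSW a ha hne, ?_⟩
          refine h3.subset fun b hb => ?_
          rcases hb with rfl | hb
          · exact mem_coe.2 (mem_union_left _ (mem_erase.2 ⟨hne, ha⟩))
          · exact mem_coe.2 (mem_union_right _ hb)
        refine ⟨fun a ha => ?_, fun a ha b hb hab => ?_, fun F' hF' hS => ?_, h1⟩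
        · by_cases hax : a = x
          · exact hax ▸ mem_insert_self _ _
          · exact mem_insert_of_mem (hSW a ha hax)
        · by_cases hax : a = x
          · subst hax
            exact (subG_new hab.symm).2 (hst b hb hab.symm)
          · by_cases hbx : b = x
            · subst hbx
              exact ((subG_new hab).2 (hst a ha hab)).symm
            · refine (subG_old hax hbx).2 ⟨h3 (mem_coe.2 (mem_union_left _ (mem_erase.2 ⟨hax, ha⟩)))
                (mem_coe.2 (mem_union_left _ (mem_erase.2 ⟨hbx, hb⟩))) hab, fun e => h1 ?_⟩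
              rw [e]
              intro c hc
              rcases mem_insert.1 hc with rfl | hc
              · exact ha
              · rw [mem_singleton.1 hc]
                exact hb
        · refine h4 F' hF' fun a ha => mem_union_left _ (mem_erase.2 ⟨hnx a (hsub F' hF' ha), hS ha⟩)
    · rintro ⟨h1, h2, h3, h4⟩
      have hSW : ∀ a ∈ S, a ≠ x → a ∈ W := fun a ha hne =>
        (mem_insert.1 (h1 ha)).resolve_left hne
      have hcl : Γ.IsClique ((S.erase x ∪ F : Finset α) : Set α) := by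
        have key : ∀ a ∈ S.erase x, ∀ b ∈ F, a ≠ b → Γ.Adj a b := by
          intro a ha b hb hab
          obtain ⟨hax, haS⟩ := mem_erase.1 ha
          have h5 := (subG_new hax).1 (h2 (mem_coe.2 hxS) (mem_coe.2 haS) (Ne.symm hax))
          exact (mem_star.1 h5).2 (Or.inl rfl) (Or.inr hb) hab
        intro a ha b hb hab
        rcases mem_union.1 (mem_coe.1 ha) with ha | ha
        · rcases mem_union.1 (mem_coe.1 hb) with hb | hb
          · obtain ⟨hax, haS⟩ := mem_erase.1 ha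
            obtain ⟨hbx, hbS⟩ := mem_erase.1 hb
            exact ((subG_old hax hbx).1 (h2 (mem_coe.2 haS) (mem_coe.2 hbS) hab)).1
          · exact key a ha b hb hab
        · rcases mem_union.1 (mem_coe.1 hb) with hb | hb
          · exact (key b hb a ha (Ne.symm hab)).symm
          · exact hFc ha hb hab
      refine ⟨h4, Or.inr ⟨hxS, union_subset (fun a ha => ?_) hFW, hcl, fun F' hF' hS => ?_⟩⟩
      · obtain ⟨hax, haS⟩ := mem_erase.1 ha
        exact hSW a haS hax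
      · refine hFℱ F' hF' (hcl.subset fun a ha => ?_)
        rcases mem_union.1 (mem_coe.1 ha) with ha | ha
        · exact mem_coe.2 (mem_union_right _ ha)
        · exact mem_coe.2 (hS ha)
  · have hcl : S ⊆ W → ¬ F ⊆ S → (Γ.IsClique (S : Set α) ↔ (subG W Γ F x).IsClique (S : Set α)) := by
      intro hSW hFS
      constructor
      · refine fun h1 a ha b hb hab => (subG_old (hnx a (hSW ha)) (hnx b (hSW hb))).2
          ⟨h1 ha hb hab, fun e => hFS ?_⟩
        rw [e]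
        intro c hc
        rcases mem_insert.1 hc with rfl | hc
        · exact ha
        · rw [mem_singleton.1 hc]
          exact hb
      · exact fun h1 a ha b hb hab =>
          ((subG_old (hnx a (hSW ha)) (hnx b (hSW hb))).1 (h1 ha hb hab)).1
    constructor
    · rintro ⟨h1, ⟨-, h2, h3, h4⟩ | ⟨h2, -⟩⟩
      · exact ⟨h2.trans (subset_insert _ _), (hcl h2 h1).1 h3, h4, h1⟩
      · exact absurd h2 hxS
    · rintro ⟨h1, h2, h3, h4⟩
      have hSW : S ⊆ W := fun a ha => (mem_insert.1 (h1 ha)).resolve_left fun e => hxS (e ▸ ha)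
      exact ⟨h4, Or.inl ⟨hxS, hSW, (hcl hSW h4).2 h2, h3⟩⟩

/-- Subdivision at a clique with at least three elements. -/
theorem Real.sub_big (h : Real d W Γ ℱ) (hF3 : 3 ≤ F.card) (hFW : F ⊆ W)
    (hFc : Γ.IsClique (F : Set α)) (hFℱ : ∀ F' ∈ ℱ, ¬ Γ.IsClique ((F ∪ F' : Finset α) : Set α))
    (hx : x ∉ W) : Real d (insert x W) (subG W Γ F x) (insert F ℱ) := by
  have hnx : ∀ a ∈ W, a ≠ x := fun a ha e => hx (e ▸ ha)
  obtain ⟨v, 𝒢, hc, hf⟩ := h.cert
  have hne : ∀ a b : α, F ≠ {a, b} := fun a b e => by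
    have := card_le_two (a := a) (b := b)
    rw [← e] at this
    omega
  have hadj : ∀ a ∈ W, ∀ b ∈ W, (subG W Γ F x).Adj a b ↔ Γ.Adj a b := fun a ha b hb => by
    rw [subG_old (hnx a ha) (hnx b hb)]
    exact ⟨fun h1 => h1.1, fun h1 => ⟨h1, hne a b⟩⟩
  have hcl : ∀ S : Finset α, S ⊆ W →
      ((subG W Γ F x).IsClique (S : Set α) ↔ Γ.IsClique (S : Set α)) := fun S hS =>
    ⟨fun h1 a ha b hb hab => (hadj a (hS ha) b (hS hb)).1 (h1 ha hb hab),
      fun h1 a ha b hb hab => (hadj a (hS ha) b (hS hb)).2 (h1 ha hb hab)⟩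
  have hface : Faces 𝒢 F := (hf F).2 ⟨hFW, hFc, fun F' hF' h1 => hFℱ F' hF' (by
    rw [union_eq_left.2 h1]
    exact hFc)⟩
  obtain ⟨v', 𝒢', hc', hf'⟩ := hc.stellar (by omega : 2 ≤ F.card) hface hx
  refine ⟨⟨v', 𝒢', hc', fun S => ?_⟩, fun F' hF' => ?_, fun F' hF' => ?_, fun F' hF' => ?_,
    fun F₁ h1 F₂ h2 h12 => ?_⟩
  · rw [hf' S]
    simp only [hf]
    rw [Real.faces_sub hFW hFc hFℱ hx h.sub S]
    refine and_congr_right fun _ => and_congr_right fun _ => ?_
    rw [forall_mem_insert]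
    exact and_comm
  · rcases mem_insert.1 hF' with rfl | hF'
    · exact hFW.trans (subset_insert _ _)
    · exact (h.sub F' hF').trans (subset_insert _ _)
  · rcases mem_insert.1 hF' with rfl | hF'
    · exact (hcl F' hFW).2 hFc
    · exact (hcl F' (h.sub F' hF')).2 (h.clique F' hF')
  · rcases mem_insert.1 hF' with rfl | hF'
    · exact hF3
    · exact h.big F' hF'
  · rcases mem_insert.1 h1 with e1 | h1'
    · rcases mem_insert.1 h2 with e2 | h2'
      · exact absurd (e1.trans e2.symm) h12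
      · subst e1
        exact fun h3 => hFℱ F₂ h2' ((hcl _ (union_subset hFW (h.sub F₂ h2'))).1 h3)
    · rcases mem_insert.1 h2 with e2 | h2'
      · subst e2
        exact fun h3 => hFℱ F₁ h1' (by
          rw [union_comm]
          exact (hcl _ (union_subset (h.sub F₁ h1') hFW)).1 h3)
      · exact fun h3 => h.pair F₁ h1' F₂ h2' h12
          ((hcl _ (union_subset (h.sub F₁ h1') (h.sub F₂ h2'))).1 h3)

/-- Subdivision at an edge. -/
theorem Real.sub_edge (h : Real d W Γ ℱ) {a b : α} (ha : a ∈ W) (hb : b ∈ W) (hab : Γ.Adj a b)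
    (hFℱ : ∀ F' ∈ ℱ, ¬ Γ.IsClique ((({a, b} : Finset α) ∪ F' : Finset α) : Set α))
    (hx : x ∉ W) : Real d (insert x W) (subG W Γ {a, b} x) ℱ := by
  have hnx : ∀ a ∈ W, a ≠ x := fun a ha e => hx (e ▸ ha)
  obtain ⟨v, 𝒢, hc, hf⟩ := h.cert
  have hF2 : 2 ≤ ({a, b} : Finset α).card := (card_pair hab.ne).ge
  have hFW : ({a, b} : Finset α) ⊆ W := by
    intro c hc
    rcases mem_insert.1 hc with rfl | hc
    · exact ha
    · rw [mem_singleton.1 hc]
      exact hb
  have hFc : Γ.IsClique ((({a, b} : Finset α)) : Set α) := by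
    intro c hc e he hne
    rw [coe_pair] at hc he
    rcases hc with rfl | rfl <;> rcases he with rfl | rfl
    · exact absurd rfl hne
    · exact hab
    · exact hab.symm
    · exact absurd rfl hne
  have hle : ∀ S : Finset α, S ⊆ W → (subG W Γ {a, b} x).IsClique (S : Set α) →
      Γ.IsClique (S : Set α) := fun S hS h1 c hc e he hne =>
    ((subG_old (hnx c (hS hc)) (hnx e (hS he))).1 (h1 hc he hne)).1
  have hface : Faces 𝒢 {a, b} := (hf _).2 ⟨hFW, hFc, fun F' hF' h1 => hFℱ F' hF' (by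
    rw [union_eq_left.2 h1]
    exact hFc)⟩
  have hnF : ∀ F' ∈ ℱ, ¬ ({a, b} : Finset α) ⊆ F' := fun F' hF' h1 => hFℱ F' hF' (by
    rw [union_eq_right.2 h1]
    exact h.clique F' hF')
  obtain ⟨v', 𝒢', hc', hf'⟩ := hc.stellar hF2 hface hx
  refine ⟨⟨v', 𝒢', hc', fun S => ?_⟩, fun F' hF' => (h.sub F' hF').trans (subset_insert _ _),
    fun F' hF' c hc e he hne => ?_, h.big, fun F₁ h1 F₂ h2 h12 h3 => h.pair F₁ h1 F₂ h2 h12
      (hle _ (union_subset (h.sub F₁ h1) (h.sub F₂ h2)) h3)⟩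
  · rw [hf' S]
    simp only [hf]
    rw [Real.faces_sub hFW hFc hFℱ hx h.sub S]
    constructor
    · exact fun h1 => ⟨h1.1, h1.2.1, h1.2.2.1⟩
    · refine fun h1 => ⟨h1.1, h1.2.1, h1.2.2, fun h2 => ?_⟩
      have h3 := h1.2.1 (mem_coe.2 (h2 (mem_insert_self a {b})))
        (mem_coe.2 (h2 (mem_insert_of_mem (mem_singleton_self b)))) hab.ne
      exact ((subG_old (hnx a ha) (hnx b hb)).1 h3).2 rfl
  · refine (subG_old (hnx c (h.sub F' hF' hc)) (hnx e (h.sub F' hF' he))).2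
      ⟨h.clique F' hF' hc he hne, fun h4 => hnF F' hF' ?_⟩
    rw [h4]
    intro y hy
    rcases mem_insert.1 hy with rfl | hy
    · exact hc
    · rw [mem_singleton.1 hy]
      exact he

end Pool.Agent.ES85
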