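import Mathlib

/-!
# Laminar families of separators of the same size

`side S true` and `side S false` are the two sides of the separator `S`.
-/

set_option autoImplicit false

open Finset

namespace Pool.Agent.ES85

variable {α : Type*} [DecidableEq α]

/-- A laminar family of separators of size `d` of the set `V`, for the pairs with `face`. -/
structure Lam (d : ℕ) (V : Finset α) (face : Finset α → Prop) (𝓜 : Finset (Finset α))
    (side : Finset α → Bool → Finset α) : Prop where
  card : ∀ S ∈ 𝓜, S.card = d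
  sub : ∀ S ∈ 𝓜, ∀ x, x ∈ V ↔ x ∈ side S true ∨ x ∈ S ∨ x ∈ side S false
  disj : ∀ S ∈ 𝓜, Disjoint (side S true) (side S false)
  disjS : ∀ S ∈ 𝓜, ∀ b, Disjoint (side S b) S
  nonempty : ∀ S ∈ 𝓜, ∀ b, (side S b).Nonempty
  nadj : ∀ S ∈ 𝓜, ∀ x ∈ side S true, ∀ y ∈ side S false, ¬ face {x, y}
  pair : ∀ S ∈ 𝓜, ∀ S' ∈ 𝓜, S ≠ S' → ∃ b b', S' ⊆ side S b ∪ S ∧ S ⊆ side S' b' ∪ S' ∧
    side S (!b) ⊆ side S' b' ∧ side S' (!b') ⊆ side S b

open Classical in
/-- **The count.** -/
theorem Lam.count {d : ℕ} (face : Finset α → Prop) : ∀ (m : ℕ) (V : Finset α)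
    (𝓜 : Finset (Finset α)) (side : Finset α → Bool → Finset α), 𝓜.card = m →
    Lam d V face 𝓜 side → ∀ k, V.card = k + d → 1 ≤ k →
    m + 1 ≤ k ∧ m * k ≤ ((V.powersetCard 2).filter fun T => ¬ face T).card + (m + 1).choose 2 := by
  intro m
  induction m with
  | zero =>
    intro V 𝓜 side _ _ k _ hk
    exact ⟨by omega, by simp⟩
  | succ m ih =>
    intro V 𝓜 side hm h k hV hk
    have hne : (𝓜 ×ˢ (univ : Finset Bool)).Nonempty := by
      refine Nonempty.product (card_pos.1 (by omega)) ⟨true, mem_univ _⟩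
    obtain ⟨⟨S, b⟩, hSb, hmin⟩ := (𝓜 ×ˢ (univ : Finset Bool)).exists_min_image
      (fun q => (side q.1 q.2).card) hne
    have hS : S ∈ 𝓜 := (mem_product.1 hSb).1
    replace hmin : ∀ S' ∈ 𝓜, ∀ c, (side S b).card ≤ (side S' c).card := fun S' hS' c =>
      hmin (S', c) (mem_product.2 ⟨hS', mem_univ _⟩)
    obtain ⟨X, hX⟩ : ∃ X, X = side S b := ⟨_, rfl⟩
    obtain ⟨Y, hY⟩ : ∃ Y, Y = side S (!b) := ⟨_, rfl⟩
    have hV1 : ∀ x, x ∈ V ↔ x ∈ X ∨ x ∈ S ∨ x ∈ Y := by
      intro x
      rw [h.sub S hS x, hX, hY]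
      cases b
      · simp only [Bool.not_false]
        tauto
      · simp only [Bool.not_true]
    have hXY : Disjoint X Y := by
      rw [hX, hY]
      cases b
      · exact (h.disj S hS).symm
      · exact h.disj S hS
    have hXS : Disjoint X S := hX ▸ h.disjS S hS b
    have hYS : Disjoint Y S := hY ▸ h.disjS S hS (!b)
    have hXYn : ∀ x ∈ X, ∀ y ∈ Y, ¬ face {x, y} := by
      rw [hX, hY]
      intro x hx y hy
      cases b
      · rw [pair_comm]
        exact h.nadj S hS y hy x hx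
      · exact h.nadj S hS x hx y hy
    have hXne : X.Nonempty := hX ▸ h.nonempty S hS b
    have hYne : Y.Nonempty := hY ▸ h.nonempty S hS (!b)
    have hdiff : ∀ S' ∈ 𝓜, S' ≠ S → ∃ s ∈ S', s ∉ S := fun S' hS' hne => by
      by_contra h1
      push Not at h1
      exact hne (eq_of_subset_of_card_le h1 (by rw [h.card S hS, h.card S' hS']))
    have hdiff' : ∀ S' ∈ 𝓜, S' ≠ S → ∃ s ∈ S, s ∉ S' := fun S' hS' hne => by
      by_contra h1
      push Not at h1
      exact hne (eq_of_subset_of_card_le h1 (by rw [h.card S hS, h.card S' hS'])).symm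
    have key : ∀ S' ∈ 𝓜, S' ≠ S → ∃ c', S' ⊆ Y ∪ S ∧ S ⊆ side S' c' ∪ S' ∧ X ⊆ side S' c' ∧
        side S' (!c') ⊆ Y := by
      intro S' hS' hne
      obtain ⟨c, c', h1, h2, h3, h4⟩ := h.pair S hS S' hS' hne.symm
      by_cases hc : c = b
      · exfalso
        subst hc
        have h5 : side S' (!c') = side S c := eq_of_subset_of_card_le h4 (hmin S' hS' (!c'))
        obtain ⟨s, hs, hsS⟩ := hdiff S' hS' hne
        have h6 : s ∈ side S c := (mem_union.1 (h1 hs)).resolve_right hsS
        rw [← h5] at h6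
        exact disjoint_left.1 (h.disjS S' hS' (!c')) h6 hs
      · have hc2 : c = !b := by cases c <;> cases b <;> simp_all
        subst hc2
        rw [Bool.not_not] at h3
        exact ⟨c', hY ▸ h1, h2, hX ▸ h3, hY ▸ h4⟩
    obtain ⟨V', hV'⟩ : ∃ V', V' = V \ X := ⟨_, rfl⟩
    have hV'm : ∀ x, x ∈ V' ↔ x ∈ S ∨ x ∈ Y := by
      intro x
      rw [hV', mem_sdiff, hV1]
      constructor
      · rintro ⟨h1 | h1, h2⟩
        · exact absurd h1 h2
        · exact h1
      · rintro (h1 | h1)
        · exact ⟨Or.inr (Or.inl h1), fun h2 => disjoint_left.1 hXS h2 h1⟩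
        · exact ⟨Or.inr (Or.inr h1), fun h2 => disjoint_left.1 hXY h2 h1⟩
    have hV'eq : V' = S ∪ Y := by
      ext x
      rw [hV'm, mem_union]
    have hV'c : V'.card = d + Y.card := by
      rw [hV'eq, card_union_of_disjoint hYS.symm, h.card S hS]
    have hVc : V.card = V'.card + X.card := by
      rw [hV', card_sdiff_add_card_eq_card]
      intro x hx
      exact (hV1 x).2 (Or.inl hx)
    have hL : Lam d V' face (𝓜.erase S) (fun S' c => side S' c \ X) := by
      refine ⟨fun S' hS' => h.card S' (mem_of_mem_erase hS'), fun S' hS' x => ?_,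
        fun S' hS' => (h.disj S' (mem_of_mem_erase hS')).mono sdiff_subset sdiff_subset,
        fun S' hS' c => (h.disjS S' (mem_of_mem_erase hS') c).mono_left sdiff_subset,
        fun S' hS' c => ?_, fun S' hS' x hx y hy => h.nadj S' (mem_of_mem_erase hS') x
          (mem_sdiff.1 hx).1 y (mem_sdiff.1 hy).1, fun S₁ h₁ S₂ h₂ h12 => ?_⟩
      · obtain ⟨hne, hS'𝓜⟩ := mem_erase.1 hS'
        obtain ⟨c', k1, k2, k3, k4⟩ := key S' hS'𝓜 hne
        rw [hV', mem_sdiff, h.sub S' hS'𝓜, mem_sdiff, mem_sdiff]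
        have : x ∈ S' → x ∉ X := fun h5 h6 => by
          rcases mem_union.1 (k1 h5) with h7 | h7
          · exact disjoint_left.1 hXY h6 h7
          · exact disjoint_left.1 hXS h6 h7
        tauto
      · obtain ⟨hne, hS'𝓜⟩ := mem_erase.1 hS'
        obtain ⟨c', k1, k2, k3, k4⟩ := key S' hS'𝓜 hne
        by_cases hc : c = c'
        · subst hc
          obtain ⟨s, hs, hsS'⟩ := hdiff' S' hS'𝓜 hne
          exact ⟨s, mem_sdiff.2 ⟨(mem_union.1 (k2 hs)).resolve_right hsS',
            fun h5 => disjoint_left.1 hXS h5 hs⟩⟩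
        · have hc2 : c = !c' := by cases c <;> cases c' <;> simp_all
          subst hc2
          obtain ⟨s, hs⟩ := h.nonempty S' hS'𝓜 (!c')
          exact ⟨s, mem_sdiff.2 ⟨hs, fun h5 => disjoint_left.1 hXY h5 (k4 hs)⟩⟩
      · have h₁' := mem_erase.1 h₁
        have h₂' := mem_erase.1 h₂
        obtain ⟨b₁, b₂, g1, g2, g3, g4⟩ := h.pair S₁ h₁'.2 S₂ h₂'.2 h12
        obtain ⟨-, k1, -, -, -⟩ := key S₁ h₁'.2 h₁'.1
        obtain ⟨-, k2, -, -, -⟩ := key S₂ h₂'.2 h₂'.1
        have hnX : ∀ x ∈ Y ∪ S, x ∉ X := fun x h5 h6 => by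
          rcases mem_union.1 h5 with h7 | h7
          · exact disjoint_left.1 hXY h6 h7
          · exact disjoint_left.1 hXS h6 h7
        refine ⟨b₁, b₂, fun x hx => ?_, fun x hx => ?_, sdiff_subset_sdiff g3 (Subset.refl X),
          sdiff_subset_sdiff g4 (Subset.refl X)⟩
        · rcases mem_union.1 (g1 hx) with h5 | h5
          · exact mem_union_left _ (mem_sdiff.2 ⟨h5, hnX x (k2 hx)⟩)
          · exact mem_union_right _ h5
        · rcases mem_union.1 (g2 hx) with h5 | h5
          · exact mem_union_left _ (mem_sdiff.2 ⟨h5, hnX x (k1 hx)⟩)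
          · exact mem_union_right _ h5
    have hYpos : 1 ≤ Y.card := hYne.card_pos
    have hXpos : 1 ≤ X.card := hXne.card_pos
    obtain ⟨i1, i2⟩ := ih V' (𝓜.erase S) _ (by rw [card_erase_of_mem hS, hm]; rfl) hL Y.card
      (by rw [hV'c, add_comm]) hYpos
    have hk2 : k = X.card + Y.card := by omega
    refine ⟨by omega, ?_⟩
    have hcount : ((V'.powersetCard 2).filter fun T => ¬ face T).card + (X ×ˢ Y).card ≤
        ((V.powersetCard 2).filter fun T => ¬ face T).card := by
      have hinj : Set.InjOn (fun q : α × α => ({q.1, q.2} : Finset α)) ((X ×ˢ Y : Finset (α × α)) :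
          Set (α × α)) := by
        rintro ⟨x, y⟩ hxy ⟨x', y'⟩ hxy' e
        have hx := (mem_product.1 (mem_coe.1 hxy)).1
        have hy := (mem_product.1 (mem_coe.1 hxy)).2
        have hx' := (mem_product.1 (mem_coe.1 hxy')).1
        have hy' := (mem_product.1 (mem_coe.1 hxy')).2
        dsimp only at e hx hy hx' hy'
        have h5 : x ∈ ({x', y'} : Finset α) := e ▸ mem_insert_self _ _
        have h6 : y ∈ ({x', y'} : Finset α) := e ▸ mem_insert_of_mem (mem_singleton_self _)
        rw [mem_insert, mem_singleton] at h5 h6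
        have h7 : x = x' := h5.resolve_right fun h => disjoint_left.1 hXY hx (h ▸ hy')
        have h8 : y = y' := h6.resolve_left fun h => disjoint_left.1 hXY hx' (h ▸ hy)
        rw [h7, h8]
      rw [← card_image_of_injOn hinj, ← card_union_of_disjoint]
      · refine card_le_card fun T hT => ?_
        rcases mem_union.1 hT with h5 | h5
        · obtain ⟨h6, h7⟩ := mem_filter.1 h5
          obtain ⟨h8, h9⟩ := mem_powersetCard.1 h6
          refine mem_filter.2 ⟨mem_powersetCard.2 ⟨h8.trans ?_, h9⟩, h7⟩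
          rw [hV']
          exact sdiff_subset
        · obtain ⟨⟨x, y⟩, hxy, rfl⟩ := mem_image.1 h5
          obtain ⟨hx, hy⟩ := mem_product.1 hxy
          dsimp only at hx hy ⊢
          refine mem_filter.2 ⟨mem_powersetCard.2 ⟨fun z hz => ?_, card_pair fun e =>
            disjoint_left.1 hXY hx (e ▸ hy)⟩, hXYn x hx y hy⟩
          rcases mem_insert.1 hz with rfl | hz
          · exact (hV1 z).2 (Or.inl hx)
          · rw [mem_singleton.1 hz]
            exact (hV1 y).2 (Or.inr (Or.inr hy))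
      · rw [disjoint_left]
        intro T h5 h6
        obtain ⟨⟨x, y⟩, hxy, rfl⟩ := mem_image.1 h6
        have h7 := (mem_powersetCard.1 (mem_filter.1 h5).1).1 (mem_insert_self x {y})
        rw [hV', mem_sdiff] at h7
        exact h7.2 (mem_product.1 hxy).1
    rw [card_product] at hcount
    have h10 : (m + 1 + 1).choose 2 = (m + 1).choose 2 + (m + 1) := by
      rw [show 2 = 1 + 1 from rfl, Nat.choose_succ_succ' (m + 1) 1, Nat.choose_one_right]
      omega
    obtain ⟨x, hx⟩ : ∃ x, X.card = x + 1 := ⟨X.card - 1, by omega⟩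
    obtain ⟨y, hy⟩ : ∃ y, Y.card = y + (m + 1) := ⟨Y.card - (m + 1), by omega⟩
    rw [hk2, h10]
    rw [hx, hy] at hcount ⊢
    rw [hy] at i2
    have h11 : (m + 1) * (x + 1 + (y + (m + 1))) + x * y =
        m * (y + (m + 1)) + (x + 1) * (y + (m + 1)) + (m + 1) := by ring
    omega

end Pool.Agent.ES85
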