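import Pool.Agent.Lib.ES85.Poly
import Pool.Agent.Lib.ES85.Laminar

/-!
# Empty `(d - 1)`-simplices and missing edges of arbitrary polytopes
-/

set_option autoImplicit false

open Finset Module

namespace Pool.Agent.ES85

variable {E : Type*} [AddCommGroup E] [Module ℝ E] [DecidableEq E] {V S : Finset E}

/-- All nonempty proper subsets of `S` are faces. -/
theorem isFace_of_subset {n : ℕ} (hcard : S.card = n + 1) (hn : 1 ≤ n)
    (hS : ∀ T ∈ S.powersetCard n, IsFace V T) {T : Finset E} (hT : T.Nonempty) (hTS : T ⊂ S) :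
    IsFace V T := by
  have h1 : ∀ s ∈ S, ∃ (l : E →ₗ[ℝ] ℝ) (c : ℝ), (∀ x ∈ S.erase s, l x = c) ∧
      ∀ x ∈ V, x ∉ S.erase s → l x < c := fun s hs =>
    (hS (S.erase s) (mem_powersetCard.2 ⟨erase_subset _ _, by
      rw [card_erase_of_mem hs, hcard]; rfl⟩)).2.2
  choose! l c hl1 hl2 using h1
  have hSV : S ⊆ V := by
    intro x hx
    obtain ⟨y, hy, hyx⟩ : ∃ y ∈ S, y ≠ x := by
      by_contra h2
      push Not at h2
      have h3 : S ⊆ {x} := fun y hy => mem_singleton.2 (h2 y hy)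
      have := card_le_card h3
      rw [card_singleton] at this
      omega
    exact (hS (S.erase y) (mem_powersetCard.2 ⟨erase_subset _ _, by
      rw [card_erase_of_mem hy, hcard]; rfl⟩)).2.1.1 (mem_erase.2 ⟨hyx.symm, hx⟩)
  obtain ⟨s0, hs0, hs0T⟩ := exists_of_ssubset hTS
  refine ⟨hT, ⟨hTS.1.trans hSV, fun h2 => hs0T (h2 (hSV hs0))⟩, ∑ s ∈ S \ T, l s, ∑ s ∈ S \ T, c s,
    fun x hx => ?_, fun x hx hxT => ?_⟩
  · rw [LinearMap.sum_apply]
    refine sum_congr rfl fun s hs => ?_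
    obtain ⟨h2, h3⟩ := mem_sdiff.1 hs
    exact hl1 s h2 x (mem_erase.2 ⟨fun e => h3 (e ▸ hx), hTS.1 hx⟩)
  · rw [LinearMap.sum_apply]
    have hle : ∀ s ∈ S \ T, l s x ≤ c s := fun s hs => by
      obtain ⟨h2, -⟩ := mem_sdiff.1 hs
      by_cases h4 : x ∈ S.erase s
      · exact (hl1 s h2 x h4).le
      · exact (hl2 s h2 x hx h4).le
    by_cases hxS : x ∈ S
    · refine sum_lt_sum hle ⟨x, mem_sdiff.2 ⟨hxS, hxT⟩, hl2 x hxS x hx fun h4 => ?_⟩
      exact (mem_erase.1 h4).1 rfl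
    · exact sum_lt_sum hle ⟨s0, mem_sdiff.2 ⟨hs0, hs0T⟩, hl2 s0 hs0 x hx fun h4 =>
        hxS (mem_of_mem_erase h4)⟩

/-- The vertices of such a set are affinely independent. -/
theorem affineIndependent_of {n : ℕ} (hcard : S.card = n + 1) (hn : 1 ≤ n)
    (hS : ∀ T ∈ S.powersetCard n, IsFace V T) :
    AffineIndependent ℝ ((↑) : {x // x ∈ S} → E) := by
  rw [affineIndependent_iff]
  intro s w hw0 hw1 e he
  by_contra hne
  -- the positive part
  obtain ⟨T, hT⟩ : ∃ T : Finset E, T = (s.filter fun i => 0 < w i).image (↑) := ⟨_, rfl⟩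
  have hpos : ∃ i ∈ s, 0 < w i := by
    by_contra h1
    push Not at h1
    have h2 := (sum_eq_zero_iff_of_nonpos h1).1 hw0 e he
    exact hne h2
  have hneg : ∃ i ∈ s, w i < 0 := by
    by_contra h1
    push Not at h1
    have h2 := (sum_eq_zero_iff_of_nonneg h1).1 hw0 e he
    exact hne h2
  obtain ⟨i, hi, hwi⟩ := hpos
  obtain ⟨j, hj, hwj⟩ := hneg
  have hTm : ∀ x : {x // x ∈ S}, (x : E) ∈ T ↔ x ∈ s ∧ 0 < w x := fun x => by
    rw [hT, mem_image]
    constructor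
    · rintro ⟨y, hy, e⟩
      have := Subtype.ext e
      subst this
      exact mem_filter.1 hy
    · exact fun h1 => ⟨x, mem_filter.2 h1, rfl⟩
  have hTS : T ⊂ S := by
    refine ⟨fun x hx => ?_, fun h1 => ?_⟩
    · rw [hT] at hx
      obtain ⟨y, -, rfl⟩ := mem_image.1 hx
      exact y.2
    · have := ((hTm j).1 (h1 j.2)).2
      linarith
  have hface := isFace_of_subset hcard hn hS ⟨i, (hTm i).2 ⟨hi, hwi⟩⟩ hTS
  obtain ⟨-, hTV, l, c, hl1, hl2⟩ := hface
  have hSV : S ⊆ V := by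
    intro x hx
    obtain ⟨y, hy, hyx⟩ : ∃ y ∈ S, y ≠ x := by
      by_contra h2
      push Not at h2
      have h3 : S ⊆ {x} := fun y hy => mem_singleton.2 (h2 y hy)
      have := card_le_card h3
      rw [card_singleton] at this
      omega
    exact (hS (S.erase y) (mem_powersetCard.2 ⟨erase_subset _ _, by
      rw [card_erase_of_mem hy, hcard]; rfl⟩)).2.1.1 (mem_erase.2 ⟨hyx.symm, hx⟩)
  have h1 : ∑ x ∈ s, w x * (l x - c) = 0 := by
    have h2 := congrArg l hw1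
    rw [map_sum, map_zero] at h2
    simp only [map_smul, smul_eq_mul] at h2
    simp only [mul_sub, sum_sub_distrib, h2, ← sum_mul, hw0]
    ring
  have h3 : 0 < ∑ x ∈ s, w x * (l x - c) := by
    refine sum_pos' (fun x hx => ?_) ⟨j, hj, mul_pos_of_neg_of_neg hwj (sub_neg.2
      (hl2 j (hSV j.2) fun h4 => by
        have := ((hTm j).1 h4).2
        linarith))⟩
    by_cases h4 : (x : E) ∈ T
    · rw [hl1 x h4]
      simp
    · have h5 : w x ≤ 0 := not_lt.1 fun h6 => h4 ((hTm x).2 ⟨hx, h6⟩)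
      exact mul_nonneg_of_nonpos_of_nonpos h5 (sub_nonpos.2 (hl2 x (hSV x.2) h4).le)
  linarith

omit [DecidableEq E] in
/-- The hyperplane of `d` affinely independent points. -/
theorem exists_hyper [FiniteDimensional ℝ E] {n : ℕ} (hd : finrank ℝ E = n + 1)
    (hcard : S.card = n + 1) (hS : AffineIndependent ℝ ((↑) : {x // x ∈ S} → E)) :
    ∃ (h : E →ₗ[ℝ] ℝ) (c : ℝ), h ≠ 0 ∧ (∀ s ∈ S, h s = c) ∧
      ∀ p, h p = c → ∃ w : {x // x ∈ S} → ℝ, ∑ i, w i = 1 ∧ ∑ i, w i • (i : E) = p := by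
  have h1 : finrank ℝ (vectorSpan ℝ (Set.range ((↑) : {x // x ∈ S} → E))) = n :=
    hS.finrank_vectorSpan (by rw [Fintype.card_coe, hcard])
  obtain ⟨U, hU⟩ : ∃ U, U = vectorSpan ℝ (Set.range ((↑) : {x // x ∈ S} → E)) := ⟨_, rfl⟩
  rw [← hU] at h1
  have h2 : U < ⊤ := by
    rw [lt_top_iff_ne_top]
    rintro rfl
    rw [finrank_top, hd] at h1
    omega
  obtain ⟨h, hh0, hhU⟩ := U.exists_le_ker_of_lt_top h2
  have hker : U = LinearMap.ker h := by
    refine Submodule.eq_of_le_of_finrank_eq hhU ?_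
    have h3 := LinearMap.finrank_range_add_finrank_ker h
    have h4 : finrank ℝ (LinearMap.range h) = 1 := by
      rw [LinearMap.range_eq_top.2 (LinearMap.surjective hh0), finrank_top, finrank_self]
    omega
  have hSne : S.Nonempty := card_pos.1 (by omega)
  obtain ⟨s0, hs0⟩ := hSne
  refine ⟨h, h s0, hh0, fun s hs => ?_, fun p hp => ?_⟩
  · have h3 : s -ᵥ s0 ∈ U := hU ▸ vsub_mem_vectorSpan ℝ ⟨⟨s, hs⟩, rfl⟩ ⟨⟨s0, hs0⟩, rfl⟩
    have h4 := hhU h3
    rw [LinearMap.mem_ker, vsub_eq_sub, map_sub] at h4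
    linarith
  · have h3 : p - s0 ∈ U := by
      rw [hker, LinearMap.mem_ker, map_sub, hp, sub_self]
    have h4 : p ∈ affineSpan ℝ (Set.range ((↑) : {x // x ∈ S} → E)) := by
      have h5 : s0 ∈ affineSpan ℝ (Set.range ((↑) : {x // x ∈ S} → E)) :=
        mem_affineSpan ℝ ⟨⟨s0, hs0⟩, rfl⟩
      rw [hU, ← direction_affineSpan] at h3
      have h6 := AffineSubspace.vadd_mem_of_mem_direction h3 h5
      simpa using h6
    obtain ⟨w, hw1, hw2⟩ := eq_affineCombination_of_mem_affineSpan_of_fintype h4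
    refine ⟨w, hw1, ?_⟩
    rw [hw2, univ.affineCombination_eq_linear_combination _ _ hw1]

/-- A point of the polytope on the hyperplane of `S` is in the simplex. -/
theorem coeff_nonneg {n : ℕ} (hcard : S.card = n + 1)
    (hS : ∀ T ∈ S.powersetCard n, IsFace V T) {p : E} (hp : p ∈ convexHull ℝ (V : Set E))
    (hSV : S ⊆ V) {w : {x // x ∈ S} → ℝ} (hw1 : ∑ i, w i = 1) (hw2 : ∑ i, w i • (i : E) = p)
    (i : {x // x ∈ S}) : 0 ≤ w i := by
  by_contra hneg
  push Not at hneg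
  obtain ⟨-, -, l, c, hl1, hl2⟩ := hS (S.erase i) (mem_powersetCard.2 ⟨erase_subset _ _, by
    rw [card_erase_of_mem i.2, hcard]; rfl⟩)
  have h1 : l p ≤ c := by
    have h2 : (V : Set E) ⊆ {y | l y ≤ c} := fun y hy => by
      by_cases h3 : y ∈ S.erase i
      · exact (hl1 y h3).le
      · exact (hl2 y (mem_coe.1 hy) h3).le
    exact convexHull_min h2 (convex_halfSpace_le l.isLinear c) hp
  have h3 : l (i : E) < c := hl2 i (hSV i.2) fun h4 => (mem_erase.1 h4).1 rfl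
  have h4 : l p - c = ∑ j, w j * (l j - c) := by
    rw [← hw2, map_sum]
    simp only [map_smul, smul_eq_mul, mul_sub, sum_sub_distrib, ← sum_mul, hw1]
    ring
  have h5 : ∑ j, w j * (l j - c) = w i * (l i - c) := by
    refine sum_eq_single i (fun j _ hj => ?_) fun h6 => absurd (mem_univ _) h6
    rw [hl1 j (mem_erase.2 ⟨fun e => hj (Subtype.ext e), j.2⟩), sub_self, mul_zero]
  have h6 : 0 < w i * (l i - c) := mul_pos_of_neg_of_neg hneg (sub_neg.2 h3)
  linarith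

/-- The data of the hyperplane of an empty simplex. -/
structure Hyp (V S : Finset E) (h : E →ₗ[ℝ] ℝ) (c : ℝ) : Prop where
  eq : ∀ s ∈ S, h s = c
  mem : ∀ p ∈ convexHull ℝ (V : Set E), h p = c → ∃ w : {x // x ∈ S} → ℝ, (∀ i, 0 ≤ w i) ∧
    ∑ i, w i = 1 ∧ ∑ i, w i • (i : E) = p
  vert : ∀ v ∈ V, h v = c → v ∈ S
  pos : ∃ v ∈ V, c < h v
  neg : ∃ v ∈ V, h v < c

omit [DecidableEq E] in
/-- A functional with bounded values on the convex combination. -/
theorem Hyp.le {h : E →ₗ[ℝ] ℝ} {c : ℝ} (H : Hyp V S h c) {p : E} (hp : p ∈ convexHull ℝ (V : Set E))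
    (hpc : h p = c) {l : E →ₗ[ℝ] ℝ} {γ : ℝ} (hl : ∀ s ∈ S, γ ≤ l s) : γ ≤ l p := by
  obtain ⟨w, hw0, hw1, hw2⟩ := H.mem p hp hpc
  rw [← hw2, map_sum]
  simp only [map_smul, smul_eq_mul]
  calc γ = ∑ i, w i * γ := by rw [← sum_mul, hw1, one_mul]
    _ ≤ ∑ i, w i * l (i : E) := sum_le_sum fun i _ => mul_le_mul_of_nonneg_left (hl i i.2) (hw0 i)

omit [DecidableEq E] in
/-- The point of the hyperplane on a segment. -/
theorem exists_seg {x y : E} (hx : x ∈ V) (hy : y ∈ V) {h : E →ₗ[ℝ] ℝ} {c : ℝ} (h1 : c < h x)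
    (h2 : h y < c) : ∃ t : ℝ, 0 < t ∧ t < 1 ∧ t • x + (1 - t) • y ∈ convexHull ℝ (V : Set E) ∧
      h (t • x + (1 - t) • y) = c := by
  have hpos : 0 < h x - h y := by linarith
  refine ⟨(c - h y) / (h x - h y), div_pos (by linarith) hpos, (div_lt_one hpos).2 (by linarith),
    ?_, ?_⟩
  · refine (convex_convexHull ℝ (V : Set E)) (subset_convexHull ℝ _ hx) (subset_convexHull ℝ _ hy)
      (div_nonneg (by linarith) hpos.le) (sub_nonneg.2 ((div_le_one hpos).2 (by linarith))) (by ring)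
  · rw [map_add, map_smul, map_smul, smul_eq_mul, smul_eq_mul]
    field_simp
    ring

/-- No edge crosses the hyperplane. -/
theorem Hyp.not_face {h : E →ₗ[ℝ] ℝ} {c : ℝ} (H : Hyp V S h c) {x y : E} (hSV : S ⊆ V)
    (hx : x ∈ V) (hy : y ∈ V) (h1 : c < h x) (h2 : h y < c) : ¬ IsFace V {x, y} := by
  rintro ⟨-, -, l, γ, hl1, hl2⟩
  obtain ⟨t, ht0, ht1, hp, hpc⟩ := exists_seg hx hy h1 h2
  obtain ⟨w, hw0, hw1, hw2⟩ := H.mem _ hp hpc
  have e1 : l (t • x + (1 - t) • y) = γ := by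
    rw [map_add, map_smul, map_smul, hl1 x (mem_insert_self _ _),
      hl1 y (mem_insert_of_mem (mem_singleton_self _)), smul_eq_mul, smul_eq_mul]
    ring
  have hlt : ∀ i : {x // x ∈ S}, l (i : E) < γ := fun i => hl2 i (hSV i.2) fun h3 => by
    have h4 := H.eq i i.2
    rcases mem_insert.1 h3 with h5 | h5
    · rw [h5] at h4
      linarith
    · rw [mem_singleton.1 h5] at h4
      linarith
  have e2 : ∑ i, w i * (l (i : E) - γ) = 0 := by
    rw [← hw2, map_sum] at e1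
    simp only [map_smul, smul_eq_mul] at e1
    simp only [mul_sub, sum_sub_distrib, ← sum_mul, hw1, e1]
    ring
  have e3 : ∀ i, w i = 0 := fun i => by
    have h3 := (sum_eq_zero_iff_of_nonpos fun i _ => mul_nonpos_of_nonneg_of_nonpos (hw0 i)
      (sub_nonpos.2 (hlt i).le)).1 e2 i (mem_univ i)
    rcases mul_eq_zero.1 h3 with h4 | h4
    · exact h4
    · exact absurd h4 (sub_neg.2 (hlt i)).ne
  rw [sum_eq_zero fun i _ => e3 i] at hw1
  exact zero_ne_one hw1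

omit [DecidableEq E] in
theorem Hyp.symm {h : E →ₗ[ℝ] ℝ} {c : ℝ} (H : Hyp V S h c) : Hyp V S (-h) (-c) := by
  refine ⟨fun s hs => by rw [LinearMap.neg_apply, H.eq s hs], fun p hp h1 => H.mem p hp ?_,
    fun v hv h1 => H.vert v hv ?_, ?_, ?_⟩
  · rw [LinearMap.neg_apply] at h1
    linarith
  · rw [LinearMap.neg_apply] at h1
    linarith
  · obtain ⟨v, hv, h1⟩ := H.neg
    exact ⟨v, hv, by rw [LinearMap.neg_apply]; linarith⟩
  · obtain ⟨v, hv, h1⟩ := H.pos
    exact ⟨v, hv, by rw [LinearMap.neg_apply]; linarith⟩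

omit [DecidableEq E] in
/-- The side of `S` without `S'` lies on one side of `S'`. -/
theorem Hyp.side {S' : Finset E} {h h' : E →ₗ[ℝ] ℝ} {c c' : ℝ}
    (H' : Hyp V S' h' c') (hS' : ∀ s ∈ S', c ≤ h s) {y z : E} (hy : y ∈ V) (hz : z ∈ V)
    (hyc : h y < c) (hzc : h z ≤ c) (hy' : c' < h' y) : c' ≤ h' z := by
  by_contra h1
  push Not at h1
  obtain ⟨t, ht0, ht1, hp, hpc⟩ := exists_seg hy hz hy' h1
  have h2 := H'.le hp hpc hS'
  rw [map_add, map_smul, map_smul, smul_eq_mul, smul_eq_mul] at h2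
  nlinarith

end Pool.Agent.ES85
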