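import Pool.Agent.Lib.ES85.State

/-!
# Polytopes of dimension four, neighbourly up to one vertex

The vertices are points of the moment curve and one further point.
-/

set_option autoImplicit false

open Finset Module

namespace Pool.Agent.ES85.Near

/-- The parameters: `-1, 1, 2, …, L - 1, (L + 1)²`. -/
noncomputable def tau (L i : ℕ) : ℝ := if i = 0 then -1 else if i = L then (L + 1) ^ 2 else i

theorem tau_zero (L : ℕ) : tau L 0 = -1 := by simp [tau]

theorem tau_last {L : ℕ} (hL : L ≠ 0) : tau L L = (L + 1) ^ 2 := by simp [tau, hL]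

theorem tau_mid {L i : ℕ} (h1 : i ≠ 0) (h2 : i ≠ L) : tau L i = i := by simp [tau, h1, h2]

theorem tau_ge {L i : ℕ} (h1 : i ≠ 0) : (i : ℝ) ≤ tau L i := by
  by_cases h2 : i = L
  · subst h2
    rw [tau_last h1]
    have : (0 : ℝ) ≤ i := Nat.cast_nonneg i
    nlinarith
  · rw [tau_mid h1 h2]

theorem tau_lt {L i k : ℕ} (h : i < k) (hk : k ≤ L) : tau L i < tau L k := by
  by_cases hi : i = 0
  · subst hi
    rw [tau_zero]
    have h1 := tau_ge (L := L) (i := k) (by omega)
    have : (0 : ℝ) ≤ k := Nat.cast_nonneg k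
    linarith
  · rw [tau_mid hi (by omega)]
    have h1 := tau_ge (L := L) (i := k) (by omega)
    have : (i : ℝ) < k := by exact_mod_cast h
    linarith

theorem tau_pair {L i k : ℕ} (hi : i + 1 ≤ L) (hk : k ≤ L) (h1 : k ≠ i) (h2 : k ≠ i + 1) :
    0 < (tau L k - tau L i) * (tau L k - tau L (i + 1)) := by
  rcases Nat.lt_or_ge k i with h | h
  · have a1 := tau_lt h (by omega : i ≤ L)
    have a2 := tau_lt (by omega : k < i + 1) hi
    exact mul_pos_of_neg_of_neg (by linarith) (by linarith)
  · have a1 := tau_lt (by omega : i < k) hk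
    have a2 := tau_lt (by omega : i + 1 < k) hk
    exact mul_pos (by linarith) (by linarith)

/-- The vertices. -/
noncomputable def vv (L c i : ℕ) : Eu 4 :=
  if i = L + 1 then !₂[0, 0, 0, (c : ℝ) ^ 2] else
    !₂[tau L i, tau L i ^ 2, tau L i ^ 3, tau L i ^ 4]

/-- The functionals. -/
theorem quad (L c : ℕ) (s a b p q : ℝ) : ∃ (l : Eu 4 →ₗ[ℝ] ℝ) (β : ℝ),
    (∀ i, i ≠ L + 1 → β - l (vv L c i) =
      s * ((tau L i - a) * (tau L i - b) * (tau L i - p) * (tau L i - q))) ∧
    β - l (vv L c (L + 1)) = s * (a * b * p * q + c ^ 2) := by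
  let co : Fin 4 → Eu 4 →ₗ[ℝ] ℝ := fun j => (EuclideanSpace.proj (𝕜 := ℝ) j).toLinearMap
  refine ⟨-(s • (co 3 - (a + b + p + q) • co 2 + (a * b + a * p + a * q + b * p + b * q + p * q) •
    co 1 - (a * b * p + a * b * q + a * p * q + b * p * q) • co 0)), s * (a * b * p * q), ?_, ?_⟩
  · intro i hi
    simp [co, vv, hi]
    ring
  · simp [co, vv]
    ring

/-- The facets. -/
def IsF (L c : ℕ) (G : Finset ℕ) : Prop :=
  (∃ i j, i + 2 ≤ j ∧ j + 1 ≤ L ∧ ¬ (i = 0 ∧ c ≤ j) ∧ G = {i, i + 1, j, j + 1}) ∨
  (∃ j, 1 ≤ j ∧ j + 2 ≤ L ∧ G = {0, L, j, j + 1}) ∨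
  (∃ q, c ≤ q ∧ q + 1 ≤ L ∧ G = {L + 1, 0, q, q + 1}) ∨
  (∃ q, c ≤ q ∧ q + 1 ≤ L ∧ G = {L + 1, 1, q, q + 1}) ∨
  G = {L + 1, 0, 1, L} ∨ G = {L + 1, 0, 1, c}

open Classical in
/-- The facets. -/
noncomputable def gg (L c : ℕ) : Finset (Finset ℕ) :=
  ((range (L + 2)).powersetCard 4).filter (IsF L c)

theorem card4 {a b c d : ℕ} (h1 : a ≠ b) (h2 : a ≠ c) (h3 : a ≠ d) (h4 : b ≠ c) (h5 : b ≠ d)
    (h6 : c ≠ d) : ({a, b, c, d} : Finset ℕ).card = 4 := by
  rw [card_insert_of_notMem, card_insert_of_notMem, card_pair h6]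
  · simp [h4, h5]
  · simp [h1, h2, h3]

variable {L c : ℕ}

theorem mem_gg (hc : 2 ≤ c) (hcL : c + 2 ≤ L) {G : Finset ℕ} : G ∈ gg L c ↔ IsF L c G := by
  classical
  unfold gg
  rw [mem_filter, mem_powersetCard]
  refine ⟨fun h => h.2, fun h => ⟨?_, h⟩⟩
  rcases h with ⟨i, j, h1, h2, h3, rfl⟩ | ⟨j, h1, h2, rfl⟩ | ⟨q, h1, h2, rfl⟩ | ⟨q, h1, h2, rfl⟩ |
    rfl | rfl
  all_goals
    refine ⟨fun y hy => ?_, card4 (by omega) (by omega) (by omega) (by omega) (by omega)
      (by omega)⟩
    simp only [mem_insert, mem_singleton] at hy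
    rw [mem_range]
    omega

/-- The functionals of the facets. -/
theorem func (hc : 2 ≤ c) (hcL : c + 2 ≤ L) {G : Finset ℕ} (hG : IsF L c G) :
    ∃ (l : Eu 4 →ₗ[ℝ] ℝ) (β : ℝ), (∀ i ∈ G, l (vv L c i) = β) ∧
      ∀ i ∈ range (L + 2), i ∉ G → l (vv L c i) < β := by
  have hcR : (2 : ℝ) ≤ c := by exact_mod_cast hc
  have hcLR : (c : ℝ) + 2 ≤ L := by exact_mod_cast hcL
  have t0 := tau_zero L
  have tL := tau_last (L := L) (by omega)
  have t1 : tau L 1 = 1 := by rw [tau_mid (by omega) (by omega)]; simp
  have tpos : ∀ i, i ≠ 0 → i ≤ L → 0 < tau L i := fun i hi _ => by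
    have h1 := tau_ge (L := L) hi
    have h2 : (1 : ℝ) ≤ i := by exact_mod_cast Nat.one_le_iff_ne_zero.2 hi
    linarith
  -- the product of two consecutive parameters
  have hprod : ∀ q, c ≤ q → q + 1 ≤ L → (c : ℝ) ^ 2 < tau L q * tau L (q + 1) := by
    intro q h1 h2
    have h3 := tau_ge (L := L) (i := q) (by omega)
    have h4 := tau_ge (L := L) (i := q + 1) (by omega)
    have h5 : (c : ℝ) ≤ q := by exact_mod_cast h1
    push_cast at h4
    have h6 : (c : ℝ) * (c + 1) ≤ tau L q * tau L (q + 1) :=
      mul_le_mul (by linarith) (by linarith) (by linarith) (by linarith)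
    nlinarith
  rcases hG with ⟨i, j, h1, h2, h3, rfl⟩ | ⟨j, h1, h2, rfl⟩ | ⟨q, h1, h2, rfl⟩ | ⟨q, h1, h2, rfl⟩ |
    rfl | rfl
  · obtain ⟨l, β, e1, e2⟩ := quad L c 1 (tau L i) (tau L (i + 1)) (tau L j) (tau L (j + 1))
    refine ⟨l, β, fun k hk => ?_, fun k hk hkG => ?_⟩
    · simp only [mem_insert, mem_singleton] at hk
      have h4 := e1 k (by omega)
      rcases hk with rfl | rfl | rfl | rfl
      all_goals
        rw [sub_self] at h4
        linarith
    · simp only [mem_insert, mem_singleton, not_or] at hkG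
      rw [mem_range] at hk
      by_cases hkz : k = L + 1
      · subst hkz
        have h5 : 0 < tau L i * tau L (i + 1) * tau L j * tau L (j + 1) + (c : ℝ) ^ 2 := by
          by_cases hi : i = 0
          · subst hi
            have hj : j + 1 ≤ c := by omega
            rw [t0, zero_add, t1, tau_mid (i := j) (by omega) (by omega),
              tau_mid (i := j + 1) (by omega) (by omega)]
            have h6 : (j : ℝ) + 1 ≤ c := by exact_mod_cast hj
            have h7 : (2 : ℝ) ≤ j := by exact_mod_cast h1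
            push_cast
            nlinarith
          · have a1 := tpos i hi (by omega)
            have a2 := tpos (i + 1) (by omega) (by omega)
            have a3 := tpos j (by omega) (by omega)
            have a4 := tpos (j + 1) (by omega) (by omega)
            positivity
        linarith
      · have h4 := e1 k hkz
        have a1 := tau_pair (L := L) (i := i) (k := k) (by omega) (by omega) hkG.1 hkG.2.1
        have a2 := tau_pair (L := L) (i := j) (k := k) (by omega) (by omega) hkG.2.2.1 hkG.2.2.2
        have a3 := mul_pos a1 a2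
        nlinarith
  · obtain ⟨l, β, e1, e2⟩ := quad L c (-1) (tau L 0) (tau L L) (tau L j) (tau L (j + 1))
    refine ⟨l, β, fun k hk => ?_, fun k hk hkG => ?_⟩
    · simp only [mem_insert, mem_singleton] at hk
      have h4 := e1 k (by omega)
      rcases hk with rfl | rfl | rfl | rfl
      all_goals
        rw [sub_self] at h4
        linarith
    · simp only [mem_insert, mem_singleton, not_or] at hkG
      rw [mem_range] at hk
      by_cases hkz : k = L + 1
      · subst hkz
        rw [t0, tL, tau_mid (i := j) (by omega) (by omega),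
          tau_mid (i := j + 1) (by omega) (by omega)] at e2
        have h6 : (1 : ℝ) ≤ j := by exact_mod_cast h1
        push_cast at e2
        have h7 : (1 : ℝ) ≤ (j : ℝ) * (j + 1) := by nlinarith
        have h8 : ((L : ℝ) + 1) ^ 2 ≤ (L + 1) ^ 2 * ((j : ℝ) * (j + 1)) :=
          le_mul_of_one_le_right (by positivity) h7
        have h9 : (c : ℝ) ^ 2 < (L + 1) ^ 2 := by nlinarith
        nlinarith
      · have h4 := e1 k hkz
        have a1 := tau_lt (L := L) (i := 0) (k := k) (by omega) (by omega)
        have a2 := tau_lt (L := L) (i := k) (k := L) (by omega) (by omega)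
        have a3 := tau_pair (L := L) (i := j) (k := k) (by omega) (by omega) hkG.2.2.1 hkG.2.2.2
        have a4 := mul_pos (mul_pos (sub_pos.2 a1) (sub_pos.2 a2)) a3
        nlinarith
  · have hp := hprod q h1 h2
    have hq0 : 0 < tau L q * tau L (q + 1) :=
      mul_pos (tpos q (by omega) (by omega)) (tpos (q + 1) (by omega) (by omega))
    obtain ⟨r, hr⟩ : ∃ r : ℝ, r * (tau L q * tau L (q + 1)) = c ^ 2 :=
      ⟨c ^ 2 / (tau L q * tau L (q + 1)), div_mul_cancel₀ _ hq0.ne'⟩
    have hr1 : r < 1 := by
      by_contra hcon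
      push Not at hcon
      nlinarith
    obtain ⟨l, β, e1, e2⟩ := quad L c 1 (tau L 0) (tau L q) (tau L (q + 1)) r
    have ez : β - l (vv L c (L + 1)) = 0 := by
      rw [e2, t0]
      linear_combination (-1 : ℝ) * hr
    refine ⟨l, β, fun k hk => ?_, fun k hk hkG => ?_⟩
    · simp only [mem_insert, mem_singleton] at hk
      rcases hk with rfl | hk
      · linarith
      · have h4 := e1 k (by omega)
        rcases hk with rfl | rfl | rfl
        all_goals
          rw [sub_self] at h4
          linarith
    · simp only [mem_insert, mem_singleton, not_or] at hkG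
      rw [mem_range] at hk
      have h4 := e1 k hkG.1
      have a1 := tau_lt (L := L) (i := 0) (k := k) (by omega) (by omega)
      have a2 : (1 : ℝ) ≤ tau L k := by
        have h5 := tau_ge (L := L) (i := k) (by omega)
        have h6 : (1 : ℝ) ≤ k := by exact_mod_cast Nat.one_le_iff_ne_zero.2 hkG.2.1
        linarith
      have a3 := tau_pair (L := L) (i := q) (k := k) (by omega) (by omega) hkG.2.2.1 hkG.2.2.2
      have a4 := mul_pos (mul_pos (sub_pos.2 a1) (by linarith : 0 < tau L k - r)) a3
      nlinarith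
  · have hp := hprod q h1 h2
    have hq0 : 0 < tau L q * tau L (q + 1) :=
      mul_pos (tpos q (by omega) (by omega)) (tpos (q + 1) (by omega) (by omega))
    obtain ⟨r, hr⟩ : ∃ r : ℝ, r * (tau L q * tau L (q + 1)) = c ^ 2 :=
      ⟨c ^ 2 / (tau L q * tau L (q + 1)), div_mul_cancel₀ _ hq0.ne'⟩
    have hr1 : r < 1 := by
      by_contra hcon
      push Not at hcon
      nlinarith
    have hr0 : 0 ≤ r := by
      by_contra hcon
      push Not at hcon
      have := mul_neg_of_neg_of_pos hcon hq0
      nlinarith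
    obtain ⟨l, β, e1, e2⟩ := quad L c 1 (tau L 1) (tau L q) (tau L (q + 1)) (-r)
    have ez : β - l (vv L c (L + 1)) = 0 := by
      rw [e2, t1]
      linear_combination (-1 : ℝ) * hr
    refine ⟨l, β, fun k hk => ?_, fun k hk hkG => ?_⟩
    · simp only [mem_insert, mem_singleton] at hk
      rcases hk with rfl | hk
      · linarith
      · have h4 := e1 k (by omega)
        rcases hk with rfl | rfl | rfl
        all_goals
          rw [sub_self] at h4
          linarith
    · simp only [mem_insert, mem_singleton, not_or] at hkG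
      rw [mem_range] at hk
      have h4 := e1 k hkG.1
      have a3 := tau_pair (L := L) (i := q) (k := k) (by omega) (by omega) hkG.2.2.1 hkG.2.2.2
      have a4 : 0 < (tau L k - tau L 1) * (tau L k - -r) := by
        by_cases hk0 : k = 0
        · subst hk0
          rw [t0, t1]
          nlinarith
        · have a1 := tau_lt (L := L) (i := 1) (k := k) (by omega) (by omega)
          have a5 := tpos k hk0 (by omega)
          exact mul_pos (sub_pos.2 a1) (by linarith)
      have a6 := mul_pos a4 a3
      nlinarith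
  · have hT : (0 : ℝ) < (L + 1) ^ 2 := by positivity
    obtain ⟨r, hr⟩ : ∃ r : ℝ, r * ((L : ℝ) + 1) ^ 2 = c ^ 2 :=
      ⟨c ^ 2 / (L + 1) ^ 2, div_mul_cancel₀ _ hT.ne'⟩
    have hr1 : r < 1 := by
      by_contra hcon
      push Not at hcon
      nlinarith
    obtain ⟨l, β, e1, e2⟩ := quad L c (-1) (tau L 0) (tau L 1) (tau L L) r
    have ez : β - l (vv L c (L + 1)) = 0 := by
      rw [e2, t1, t0, tL]
      linear_combination hr
    refine ⟨l, β, fun k hk => ?_, fun k hk hkG => ?_⟩
    · simp only [mem_insert, mem_singleton] at hk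
      rcases hk with rfl | hk
      · linarith
      · have h4 := e1 k (by omega)
        rcases hk with rfl | rfl | rfl
        all_goals
          rw [sub_self] at h4
          linarith
    · simp only [mem_insert, mem_singleton, not_or] at hkG
      rw [mem_range] at hk
      have h4 := e1 k hkG.1
      have a1 := tau_lt (L := L) (i := 0) (k := k) (by omega) (by omega)
      have a2 := tau_lt (L := L) (i := 1) (k := k) (by omega) (by omega)
      have a3 := tau_lt (L := L) (i := k) (k := L) (by omega) (by omega)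
      have a5 : 0 < tau L k - r := by
        rw [t1] at a2
        linarith
      have a4 := mul_pos (mul_pos (mul_pos (sub_pos.2 a1) (sub_pos.2 a2)) (sub_pos.2 a3)) a5
      nlinarith
  · have tc : tau L c = c := tau_mid (by omega) (by omega)
    obtain ⟨l, β, e1, e2⟩ := quad L c 1 (tau L 0) (tau L 1) (tau L c) (tau L c)
    have ez : β - l (vv L c (L + 1)) = 0 := by
      rw [e2, t1, t0, tc]
      ring
    refine ⟨l, β, fun k hk => ?_, fun k hk hkG => ?_⟩
    · simp only [mem_insert, mem_singleton] at hk
      rcases hk with rfl | hk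
      · linarith
      · have h4 := e1 k (by omega)
        rcases hk with rfl | rfl | rfl
        all_goals
          rw [sub_self] at h4
          linarith
    · simp only [mem_insert, mem_singleton, not_or] at hkG
      rw [mem_range] at hk
      have h4 := e1 k hkG.1
      have a1 := tau_lt (L := L) (i := 0) (k := k) (by omega) (by omega)
      have a2 := tau_lt (L := L) (i := 1) (k := k) (by omega) (by omega)
      have a3 : tau L k - tau L c ≠ 0 := by
        rcases Nat.lt_or_ge k c with h5 | h5
        · have := tau_lt (L := L) h5 (by omega)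
          intro h6
          linarith
        · have := tau_lt (L := L) (i := c) (k := k) (by omega) (by omega)
          intro h6
          linarith
      have a4 := mul_pos (mul_pos (sub_pos.2 a1) (sub_pos.2 a2)) (pow_pos (sq_pos_of_ne_zero a3) 1)
      nlinarith

end Pool.Agent.ES85.Near
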