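import Pool.Agent.Lib.ES85.Near

/-!
# Polytopes of dimension four, neighbourly up to one vertex: the combinatorics
-/

set_option autoImplicit false

open Finset Module

namespace Pool.Agent.ES85.Near

variable {L c : ℕ}

theorem f1 (hc : 2 ≤ c) (hcL : c + 2 ≤ L) {i j : ℕ} (h1 : i + 2 ≤ j) (h2 : j + 1 ≤ L)
    (h3 : ¬ (i = 0 ∧ c ≤ j)) : ({i, i + 1, j, j + 1} : Finset ℕ) ∈ gg L c :=
  (mem_gg hc hcL).2 (Or.inl ⟨i, j, h1, h2, h3, rfl⟩)

theorem f2 (hc : 2 ≤ c) (hcL : c + 2 ≤ L) {j : ℕ} (h1 : 1 ≤ j) (h2 : j + 2 ≤ L) :
    ({0, L, j, j + 1} : Finset ℕ) ∈ gg L c :=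
  (mem_gg hc hcL).2 (Or.inr (Or.inl ⟨j, h1, h2, rfl⟩))

theorem f3a (hc : 2 ≤ c) (hcL : c + 2 ≤ L) {q : ℕ} (h1 : c ≤ q) (h2 : q + 1 ≤ L) :
    ({L + 1, 0, q, q + 1} : Finset ℕ) ∈ gg L c :=
  (mem_gg hc hcL).2 (Or.inr (Or.inr (Or.inl ⟨q, h1, h2, rfl⟩)))

theorem f3b (hc : 2 ≤ c) (hcL : c + 2 ≤ L) {q : ℕ} (h1 : c ≤ q) (h2 : q + 1 ≤ L) :
    ({L + 1, 1, q, q + 1} : Finset ℕ) ∈ gg L c :=
  (mem_gg hc hcL).2 (Or.inr (Or.inr (Or.inr (Or.inl ⟨q, h1, h2, rfl⟩))))

theorem f3c (hc : 2 ≤ c) (hcL : c + 2 ≤ L) : ({L + 1, 0, 1, L} : Finset ℕ) ∈ gg L c :=
  (mem_gg hc hcL).2 (Or.inr (Or.inr (Or.inr (Or.inr (Or.inl rfl)))))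

theorem f3d (hc : 2 ≤ c) (hcL : c + 2 ≤ L) : ({L + 1, 0, 1, c} : Finset ℕ) ∈ gg L c :=
  (mem_gg hc hcL).2 (Or.inr (Or.inr (Or.inr (Or.inr (Or.inr rfl)))))

/-- Every ridge is in a second facet. -/
theorem ridge (hc : 2 ≤ c) (hcL : c + 2 ≤ L) {G : Finset ℕ} (hG : IsF L c G) {x : ℕ}
    (hx : x ∈ G) : ∃ G' ∈ gg L c, G.erase x ⊆ G' ∧ x ∉ G' := by
  have key : ∀ G' ∈ gg L c, (∀ y ∈ G, y ≠ x → y ∈ G') → x ∉ G' →
      ∃ G' ∈ gg L c, G.erase x ⊆ G' ∧ x ∉ G' := fun G' h1 h2 h3 =>
    ⟨G', h1, fun y hy => h2 y (mem_of_mem_erase hy) (mem_erase.1 hy).1, h3⟩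
  rcases hG with ⟨i, j, h1, h2, h3, rfl⟩ | ⟨j, h1, h2, rfl⟩ | ⟨q, h1, h2, rfl⟩ | ⟨q, h1, h2, rfl⟩ |
    rfl | rfl
  · simp only [mem_insert, mem_singleton] at hx
    have hor : x = i ∨ x = i + 1 ∨ x = j ∨ x = j + 1 := hx
    rcases hor with hx | hx | hx | hx
    · by_cases c1 : i + 2 < j
      · refine key _ (f1 hc hcL (i := i + 1) (j := j) (by omega) h2 (by omega)) ?_ ?_
        · intro y hy hyx
          simp only [mem_insert, mem_singleton] at hy ⊢
          omega
        · simp only [mem_insert, mem_singleton]
          omega
      · by_cases c2 : i + 4 ≤ L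
        · refine key _ (f1 hc hcL (i := i + 1) (j := i + 3) (by omega) (by omega) (by omega)) ?_ ?_
          · intro y hy hyx
            simp only [mem_insert, mem_singleton] at hy ⊢
            omega
          · simp only [mem_insert, mem_singleton]
            omega
        · refine key _ (f2 hc hcL (j := i + 1) (by omega) (by omega)) ?_ ?_
          · intro y hy hyx
            simp only [mem_insert, mem_singleton] at hy ⊢
            omega
          · simp only [mem_insert, mem_singleton]
            omega
    · by_cases c1 : i = 0
      · refine key _ (f2 hc hcL (j := j) (by omega) (by omega)) ?_ ?_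
        · intro y hy hyx
          simp only [mem_insert, mem_singleton] at hy ⊢
          omega
        · simp only [mem_insert, mem_singleton]
          omega
      · by_cases c2 : i = 1 ∧ c ≤ j
        · refine key _ (f3b hc hcL (q := j) (by omega) (by omega)) ?_ ?_
          · intro y hy hyx
            simp only [mem_insert, mem_singleton] at hy ⊢
            omega
          · simp only [mem_insert, mem_singleton]
            omega
        · refine key _ (f1 hc hcL (i := i - 1) (j := j) (by omega) (by omega) (by omega)) ?_ ?_
          · intro y hy hyx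
            simp only [mem_insert, mem_singleton] at hy ⊢
            omega
          · simp only [mem_insert, mem_singleton]
            omega
    · by_cases c1 : j + 2 ≤ L
      · by_cases c2 : i = 0 ∧ c ≤ j + 1
        · refine key _ (f3d hc hcL) ?_ ?_
          · intro y hy hyx
            simp only [mem_insert, mem_singleton] at hy ⊢
            omega
          · simp only [mem_insert, mem_singleton]
            omega
        · refine key _ (f1 hc hcL (i := i) (j := j + 1) (by omega) (by omega) (by omega)) ?_ ?_
          · intro y hy hyx
            simp only [mem_insert, mem_singleton] at hy ⊢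
            omega
          · simp only [mem_insert, mem_singleton]
            omega
      · refine key _ (f2 hc hcL (j := i) (by omega) (by omega)) ?_ ?_
        · intro y hy hyx
          simp only [mem_insert, mem_singleton] at hy ⊢
          omega
        · simp only [mem_insert, mem_singleton]
          omega
    · by_cases c1 : i + 3 ≤ j
      · refine key _ (f1 hc hcL (i := i) (j := j - 1) (by omega) (by omega) (by omega)) ?_ ?_
        · intro y hy hyx
          simp only [mem_insert, mem_singleton] at hy ⊢
          omega
        · simp only [mem_insert, mem_singleton]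
          omega
      · by_cases c2 : i = 0
        · refine key _ (f2 hc hcL (j := 1) (by omega) (by omega)) ?_ ?_
          · intro y hy hyx
            simp only [mem_insert, mem_singleton] at hy ⊢
            omega
          · simp only [mem_insert, mem_singleton]
            omega
        · by_cases c3 : i = 1 ∧ c = 2
          · refine key _ (f3b hc hcL (q := 2) (by omega) (by omega)) ?_ ?_
            · intro y hy hyx
              simp only [mem_insert, mem_singleton] at hy ⊢
              omega
            · simp only [mem_insert, mem_singleton]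
              omega
          · refine key _ (f1 hc hcL (i := i - 1) (j := i + 1) (by omega) (by omega)
              (by omega)) ?_ ?_
            · intro y hy hyx
              simp only [mem_insert, mem_singleton] at hy ⊢
              omega
            · simp only [mem_insert, mem_singleton]
              omega
  · simp only [mem_insert, mem_singleton] at hx
    have hor : x = 0 ∨ x = L ∨ x = j ∨ x = j + 1 := hx
    rcases hor with hx | hx | hx | hx
    · by_cases c1 : j + 3 ≤ L
      · refine key _ (f1 hc hcL (i := j) (j := L - 1) (by omega) (by omega) (by omega)) ?_ ?_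
        · intro y hy hyx
          simp only [mem_insert, mem_singleton] at hy ⊢
          omega
        · simp only [mem_insert, mem_singleton]
          omega
      · refine key _ (f1 hc hcL (i := L - 3) (j := L - 1) (by omega) (by omega) (by omega)) ?_ ?_
        · intro y hy hyx
          simp only [mem_insert, mem_singleton] at hy ⊢
          omega
        · simp only [mem_insert, mem_singleton]
          omega
    · by_cases c1 : c ≤ j
      · refine key _ (f3a hc hcL (q := j) (by omega) (by omega)) ?_ ?_
        · intro y hy hyx
          simp only [mem_insert, mem_singleton] at hy ⊢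
          omega
        · simp only [mem_insert, mem_singleton]
          omega
      · by_cases c2 : 2 ≤ j
        · refine key _ (f1 hc hcL (i := 0) (j := j) (by omega) (by omega) (by omega)) ?_ ?_
          · intro y hy hyx
            simp only [mem_insert, mem_singleton] at hy ⊢
            omega
          · simp only [mem_insert, mem_singleton]
            omega
        · by_cases c3 : c = 2
          · refine key _ (f3d hc hcL) ?_ ?_
            · intro y hy hyx
              simp only [mem_insert, mem_singleton] at hy ⊢
              omega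
            · simp only [mem_insert, mem_singleton]
              omega
          · refine key _ (f1 hc hcL (i := 0) (j := 2) (by omega) (by omega) (by omega)) ?_ ?_
            · intro y hy hyx
              simp only [mem_insert, mem_singleton] at hy ⊢
              omega
            · simp only [mem_insert, mem_singleton]
              omega
    · by_cases c1 : j + 3 ≤ L
      · refine key _ (f2 hc hcL (j := j + 1) (by omega) (by omega)) ?_ ?_
        · intro y hy hyx
          simp only [mem_insert, mem_singleton] at hy ⊢
          omega
        · simp only [mem_insert, mem_singleton]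
          omega
      · refine key _ (f3a hc hcL (q := L - 1) (by omega) (by omega)) ?_ ?_
        · intro y hy hyx
          simp only [mem_insert, mem_singleton] at hy ⊢
          omega
        · simp only [mem_insert, mem_singleton]
          omega
    · by_cases c1 : 2 ≤ j
      · refine key _ (f2 hc hcL (j := j - 1) (by omega) (by omega)) ?_ ?_
        · intro y hy hyx
          simp only [mem_insert, mem_singleton] at hy ⊢
          omega
        · simp only [mem_insert, mem_singleton]
          omega
      · refine key _ (f3c hc hcL) ?_ ?_
        · intro y hy hyx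
          simp only [mem_insert, mem_singleton] at hy ⊢
          omega
        · simp only [mem_insert, mem_singleton]
          omega
  · simp only [mem_insert, mem_singleton] at hx
    have hor : x = L + 1 ∨ x = 0 ∨ x = q ∨ x = q + 1 := hx
    rcases hor with hx | hx | hx | hx
    · by_cases c1 : q + 2 ≤ L
      · refine key _ (f2 hc hcL (j := q) (by omega) (by omega)) ?_ ?_
        · intro y hy hyx
          simp only [mem_insert, mem_singleton] at hy ⊢
          omega
        · simp only [mem_insert, mem_singleton]
          omega
      · refine key _ (f2 hc hcL (j := L - 2) (by omega) (by omega)) ?_ ?_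
        · intro y hy hyx
          simp only [mem_insert, mem_singleton] at hy ⊢
          omega
        · simp only [mem_insert, mem_singleton]
          omega
    · refine key _ (f3b hc hcL (q := q) (by omega) (by omega)) ?_ ?_
      · intro y hy hyx
        simp only [mem_insert, mem_singleton] at hy ⊢
        omega
      · simp only [mem_insert, mem_singleton]
        omega
    · by_cases c1 : q + 2 ≤ L
      · refine key _ (f3a hc hcL (q := q + 1) (by omega) (by omega)) ?_ ?_
        · intro y hy hyx
          simp only [mem_insert, mem_singleton] at hy ⊢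
          omega
        · simp only [mem_insert, mem_singleton]
          omega
      · refine key _ (f3c hc hcL) ?_ ?_
        · intro y hy hyx
          simp only [mem_insert, mem_singleton] at hy ⊢
          omega
        · simp only [mem_insert, mem_singleton]
          omega
    · by_cases c1 : c + 1 ≤ q
      · refine key _ (f3a hc hcL (q := q - 1) (by omega) (by omega)) ?_ ?_
        · intro y hy hyx
          simp only [mem_insert, mem_singleton] at hy ⊢
          omega
        · simp only [mem_insert, mem_singleton]
          omega
      · refine key _ (f3d hc hcL) ?_ ?_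
        · intro y hy hyx
          simp only [mem_insert, mem_singleton] at hy ⊢
          omega
        · simp only [mem_insert, mem_singleton]
          omega
  · simp only [mem_insert, mem_singleton] at hx
    have hor : x = L + 1 ∨ x = 1 ∨ x = q ∨ x = q + 1 := hx
    rcases hor with hx | hx | hx | hx
    · by_cases c1 : 3 ≤ q
      · refine key _ (f1 hc hcL (i := 1) (j := q) (by omega) (by omega) (by omega)) ?_ ?_
        · intro y hy hyx
          simp only [mem_insert, mem_singleton] at hy ⊢
          omega
        · simp only [mem_insert, mem_singleton]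
          omega
      · refine key _ (f1 hc hcL (i := 1) (j := 3) (by omega) (by omega) (by omega)) ?_ ?_
        · intro y hy hyx
          simp only [mem_insert, mem_singleton] at hy ⊢
          omega
        · simp only [mem_insert, mem_singleton]
          omega
    · refine key _ (f3a hc hcL (q := q) (by omega) (by omega)) ?_ ?_
      · intro y hy hyx
        simp only [mem_insert, mem_singleton] at hy ⊢
        omega
      · simp only [mem_insert, mem_singleton]
        omega
    · by_cases c1 : q + 2 ≤ L
      · refine key _ (f3b hc hcL (q := q + 1) (by omega) (by omega)) ?_ ?_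
        · intro y hy hyx
          simp only [mem_insert, mem_singleton] at hy ⊢
          omega
        · simp only [mem_insert, mem_singleton]
          omega
      · refine key _ (f3c hc hcL) ?_ ?_
        · intro y hy hyx
          simp only [mem_insert, mem_singleton] at hy ⊢
          omega
        · simp only [mem_insert, mem_singleton]
          omega
    · by_cases c1 : c + 1 ≤ q
      · refine key _ (f3b hc hcL (q := q - 1) (by omega) (by omega)) ?_ ?_
        · intro y hy hyx
          simp only [mem_insert, mem_singleton] at hy ⊢
          omega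
        · simp only [mem_insert, mem_singleton]
          omega
      · refine key _ (f3d hc hcL) ?_ ?_
        · intro y hy hyx
          simp only [mem_insert, mem_singleton] at hy ⊢
          omega
        · simp only [mem_insert, mem_singleton]
          omega
  · simp only [mem_insert, mem_singleton] at hx
    have hor : x = L + 1 ∨ x = 0 ∨ x = 1 ∨ x = L := hx
    rcases hor with hx | hx | hx | hx
    · refine key _ (f2 hc hcL (j := 1) (by omega) (by omega)) ?_ ?_
      · intro y hy hyx
        simp only [mem_insert, mem_singleton] at hy ⊢
        omega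
      · simp only [mem_insert, mem_singleton]
        omega
    · refine key _ (f3b hc hcL (q := L - 1) (by omega) (by omega)) ?_ ?_
      · intro y hy hyx
        simp only [mem_insert, mem_singleton] at hy ⊢
        omega
      · simp only [mem_insert, mem_singleton]
        omega
    · refine key _ (f3a hc hcL (q := L - 1) (by omega) (by omega)) ?_ ?_
      · intro y hy hyx
        simp only [mem_insert, mem_singleton] at hy ⊢
        omega
      · simp only [mem_insert, mem_singleton]
        omega
    · refine key _ (f3d hc hcL) ?_ ?_
      · intro y hy hyx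
        simp only [mem_insert, mem_singleton] at hy ⊢
        omega
      · simp only [mem_insert, mem_singleton]
        omega
  · simp only [mem_insert, mem_singleton] at hx
    have hor : x = L + 1 ∨ x = 0 ∨ x = 1 ∨ x = c := hx
    rcases hor with hx | hx | hx | hx
    · by_cases c1 : c = 2
      · refine key _ (f2 hc hcL (j := 1) (by omega) (by omega)) ?_ ?_
        · intro y hy hyx
          simp only [mem_insert, mem_singleton] at hy ⊢
          omega
        · simp only [mem_insert, mem_singleton]
          omega
      · refine key _ (f1 hc hcL (i := 0) (j := c - 1) (by omega) (by omega) (by omega)) ?_ ?_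
        · intro y hy hyx
          simp only [mem_insert, mem_singleton] at hy ⊢
          omega
        · simp only [mem_insert, mem_singleton]
          omega
    · refine key _ (f3b hc hcL (q := c) (by omega) (by omega)) ?_ ?_
      · intro y hy hyx
        simp only [mem_insert, mem_singleton] at hy ⊢
        omega
      · simp only [mem_insert, mem_singleton]
        omega
    · refine key _ (f3a hc hcL (q := c) (by omega) (by omega)) ?_ ?_
      · intro y hy hyx
        simp only [mem_insert, mem_singleton] at hy ⊢
        omega
      · simp only [mem_insert, mem_singleton]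
        omega
    · refine key _ (f3c hc hcL) ?_ ?_
      · intro y hy hyx
        simp only [mem_insert, mem_singleton] at hy ⊢
        omega
      · simp only [mem_insert, mem_singleton]
        omega

/-- The certificate. -/
theorem cert (hc : 2 ≤ c) (hcL : c + 2 ≤ L) :
    ∃ o : Eu 4, Cert 4 (range (L + 2)) (fun i => vv L c i - o) (gg L c) := by
  classical
  refine Cert.buildAff (finrank_Eu 4) ⟨_, f3c hc hcL⟩ (fun G hG => ?_) (fun G hG => ?_)
    (fun i hi => ?_) (fun G hG => ?_) (fun G hG => func hc hcL ((mem_gg hc hcL).1 hG))
    fun G hG x hx => ridge hc hcL ((mem_gg hc hcL).1 hG) hx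
  · unfold gg at hG
    exact (mem_powersetCard.1 (mem_filter.1 hG).1).1
  · unfold gg at hG
    exact (mem_powersetCard.1 (mem_filter.1 hG).1).2
  · rw [mem_range] at hi
    by_cases c1 : i = L + 1 ∨ i = 0 ∨ i = 1 ∨ i = L
    · exact ⟨_, f3c hc hcL, by simpa using c1⟩
    · by_cases c2 : i + 2 ≤ L
      · exact ⟨_, f2 hc hcL (j := i) (by omega) c2, by simp⟩
      · refine ⟨_, f2 hc hcL (j := L - 2) (by omega) (by omega), ?_⟩
        simp only [mem_insert, mem_singleton]
        omega
  · unfold gg at hG
    have h1 := (mem_powersetCard.1 (mem_filter.1 hG).1).2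
    by_contra hcon
    push Not at hcon
    have h2 := Finset.card_le_card (show range (L + 2) ⊆ G from hcon)
    rw [card_range] at h2
    omega

/-- Necessary conditions for triangles on the curve. -/
theorem tri (hc : 2 ≤ c) (hcL : c + 2 ≤ L) {p q r : ℕ} (h1 : p < q) (h2 : q < r) (h3 : r ≤ L)
    (h : Faces (gg L c) {p, q, r}) : (q = p + 1 ∨ r = q + 1 ∨ (p = 0 ∧ r = L)) ∧
      (p = 0 ∧ q = 1 → r ≤ c ∨ r = L) := by
  obtain ⟨G, hG, hS⟩ := h
  have e1 : p ∈ G := hS (by simp)
  have e2 : q ∈ G := hS (by simp)
  have e3 : r ∈ G := hS (by simp)
  rcases (mem_gg hc hcL).1 hG with ⟨i, j, g1, g2, g3, rfl⟩ | ⟨j, g1, g2, rfl⟩ | ⟨k, g1, g2, rfl⟩ |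
    ⟨k, g1, g2, rfl⟩ | rfl | rfl
  all_goals
    simp only [mem_insert, mem_singleton] at e1 e2 e3
    omega

/-- Necessary conditions for triangles at the last vertex. -/
theorem tri' (hc : 2 ≤ c) (hcL : c + 2 ≤ L) {p q : ℕ} (h1 : p < q) (h3 : q ≤ L)
    (h : Faces (gg L c) {p, q, L + 1}) : (p = 0 ∧ q = 1) ∨ (p ≤ 1 ∧ c ≤ q) ∨
      (c ≤ p ∧ q = p + 1) := by
  obtain ⟨G, hG, hS⟩ := h
  have e1 : p ∈ G := hS (by simp)
  have e2 : q ∈ G := hS (by simp)
  have e3 : L + 1 ∈ G := hS (by simp)
  rcases (mem_gg hc hcL).1 hG with ⟨i, j, g1, g2, g3, rfl⟩ | ⟨j, g1, g2, rfl⟩ | ⟨k, g1, g2, rfl⟩ |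
    ⟨k, g1, g2, rfl⟩ | rfl | rfl
  all_goals
    simp only [mem_insert, mem_singleton] at e1 e2 e3
    omega

/-- The neighbours of the last vertex. -/
theorem edge' (hc : 2 ≤ c) (hcL : c + 2 ≤ L) {p : ℕ} (h3 : p ≤ L)
    (h : Faces (gg L c) {p, L + 1}) : p ≤ 1 ∨ c ≤ p := by
  obtain ⟨G, hG, hS⟩ := h
  have e1 : p ∈ G := hS (by simp)
  have e3 : L + 1 ∈ G := hS (by simp)
  rcases (mem_gg hc hcL).1 hG with ⟨i, j, g1, g2, g3, rfl⟩ | ⟨j, g1, g2, rfl⟩ | ⟨k, g1, g2, rfl⟩ |
    ⟨k, g1, g2, rfl⟩ | rfl | rfl
  all_goals
    simp only [mem_insert, mem_singleton] at e1 e3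
    omega

theorem sorted (k : ℕ) {S : Finset ℕ} (h : S.card = k) :
    ∃ f : Fin k → ℕ, StrictMono f ∧ ∀ x, x ∈ S ↔ ∃ i, f i = x := by
  refine ⟨S.orderEmbOfFin h, (S.orderEmbOfFin h).strictMono, fun x => ?_⟩
  have h1 := Finset.range_orderEmbOfFin S h
  constructor
  · intro hx
    have : x ∈ Set.range (S.orderEmbOfFin h) := by
      rw [h1]
      exact hx
    exact this
  · rintro ⟨i, rfl⟩
    exact Finset.orderEmbOfFin_mem S h i

/-- The result. -/
theorem near {t δ : ℕ} (ht : 2 ≤ t) (hδ : δ + 2 ≤ t) : Pr ℕ 4 t δ := by
  classical
  obtain ⟨c, hcδ⟩ : ∃ c, c = δ + 2 := ⟨_, rfl⟩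
  obtain ⟨L, hLt⟩ : ∃ L, L = t + 2 := ⟨_, rfl⟩
  have hc : 2 ≤ c := by omega
  have hcL : c + 2 ≤ L := by omega
  obtain ⟨o, ho⟩ := cert hc hcL
  have sub3 : ∀ {S T : Finset ℕ}, Faces (gg L c) T → S ⊆ T → Faces (gg L c) S :=
    fun h1 h2 => h1.mono h2
  refine ⟨range (L + 2), _, gg L c, 0, ho, ⟨by simp, ?_, ?_, ?_⟩, by rw [card_range]; omega, ?_⟩
  · intro x hx
    rw [mem_range] at hx
    by_cases c1 : x = L + 1 ∨ x = 0 ∨ x = 1 ∨ x = L
    · refine ⟨_, f3c hc hcL, fun y hy => ?_⟩
      simp only [mem_insert, mem_singleton] at hy ⊢
      omega
    · by_cases c2 : x + 2 ≤ L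
      · refine ⟨_, f2 hc hcL (j := x) (by omega) c2, fun y hy => ?_⟩
        simp only [mem_insert, mem_singleton] at hy ⊢
        omega
      · refine ⟨_, f2 hc hcL (j := L - 2) (by omega) (by omega), fun y hy => ?_⟩
        simp only [mem_insert, mem_singleton] at hy ⊢
        omega
  · intro S hS hSc hall
    obtain ⟨f, hf, hfS⟩ := sorted 4 hSc
    have l1 : f 0 < f 1 := hf (by decide)
    have l2 : f 1 < f 2 := hf (by decide)
    have l3 : f 2 < f 3 := hf (by decide)
    have hmem : ∀ i, f i ∈ S := fun i => (hfS _).2 ⟨i, rfl⟩
    have hle : f 3 ≤ L + 1 := by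
      have := mem_range.1 (hS (hmem 3))
      omega
    have hSeq : ∀ x, x ∈ S ↔ x = f 0 ∨ x = f 1 ∨ x = f 2 ∨ x = f 3 := by
      intro x
      rw [hfS]
      constructor
      · rintro ⟨i, rfl⟩
        fin_cases i <;> simp
      · rintro (h | h | h | h)
        · exact ⟨0, h.symm⟩
        · exact ⟨1, h.symm⟩
        · exact ⟨2, h.symm⟩
        · exact ⟨3, h.symm⟩
    have T3 : Faces (gg L c) {f 0, f 1, f 2} := (hall _ (hmem 3)).mono fun y hy => by
      simp only [mem_insert, mem_singleton] at hy
      rw [mem_erase, hSeq]
      omega
    have T2 : Faces (gg L c) {f 0, f 1, f 3} := (hall _ (hmem 2)).mono fun y hy => by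
      simp only [mem_insert, mem_singleton] at hy
      rw [mem_erase, hSeq]
      omega
    have T1 : Faces (gg L c) {f 0, f 2, f 3} := (hall _ (hmem 1)).mono fun y hy => by
      simp only [mem_insert, mem_singleton] at hy
      rw [mem_erase, hSeq]
      omega
    have T0 : Faces (gg L c) {f 1, f 2, f 3} := (hall _ (hmem 0)).mono fun y hy => by
      simp only [mem_insert, mem_singleton] at hy
      rw [mem_erase, hSeq]
      omega
    have C3 := tri hc hcL l1 l2 (by omega) T3
    by_cases hz : f 3 = L + 1
    · rw [hz] at T2 T1 T0
      have C2 := tri' hc hcL l1 (by omega) T2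
      have C1 := tri' hc hcL (l1.trans l2) (by omega) T1
      have C0 := tri' hc hcL l2 (by omega) T0
      by_cases b1 : f 1 = 1
      · have b0 : f 0 = 0 := by omega
        have b2 : f 2 = c ∨ f 2 = L := by omega
        rcases b2 with b2 | b2
        · refine ⟨_, f3d hc hcL, fun y hy => ?_⟩
          rw [hSeq] at hy
          simp only [mem_insert, mem_singleton]
          omega
        · refine ⟨_, f3c hc hcL, fun y hy => ?_⟩
          rw [hSeq] at hy
          simp only [mem_insert, mem_singleton]
          omega
      · have b3 : c ≤ f 1 ∧ f 2 = f 1 + 1 := by omega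
        by_cases b4 : f 0 = 0
        · refine ⟨_, f3a hc hcL (q := f 1) b3.1 (by omega), fun y hy => ?_⟩
          rw [hSeq] at hy
          simp only [mem_insert, mem_singleton]
          omega
        · refine ⟨_, f3b hc hcL (q := f 1) b3.1 (by omega), fun y hy => ?_⟩
          rw [hSeq] at hy
          simp only [mem_insert, mem_singleton]
          omega
    · have C2 := tri hc hcL l1 (l2.trans l3) (by omega) T2
      have C1 := tri hc hcL (l1.trans l2) l3 (by omega) T1
      have C0 := tri hc hcL l2 l3 (by omega) T0
      by_cases b1 : f 0 = 0 ∧ f 3 = L ∧ f 2 = f 1 + 1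
      · refine ⟨_, f2 hc hcL (j := f 1) (by omega) (by omega), fun y hy => ?_⟩
        rw [hSeq] at hy
        simp only [mem_insert, mem_singleton]
        omega
      · refine ⟨_, f1 hc hcL (i := f 0) (j := f 2) (by omega) (by omega) (by omega),
          fun y hy => ?_⟩
        rw [hSeq] at hy
        simp only [mem_insert, mem_singleton]
        omega
  · intro S hS hSc
    by_contra hcon
    push Not at hcon
    obtain ⟨f, hf, hfS⟩ := sorted 5 hSc
    have l1 : f 0 < f 1 := hf (by decide)
    have l2 : f 1 < f 2 := hf (by decide)
    have l3 : f 2 < f 3 := hf (by decide)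
    have l4 : f 3 < f 4 := hf (by decide)
    have hmem : ∀ i, f i ∈ S := fun i => (hfS _).2 ⟨i, rfl⟩
    have hle : f 4 ≤ L + 1 := by
      have := mem_range.1 (hS (hmem 4))
      omega
    have hall : ∀ i j k l : Fin 5, i < j → j < k → l ≠ i → l ≠ j → l ≠ k →
        Faces (gg L c) {f i, f j, f k} := by
      intro i j k l _ _ e1 e2 e3
      refine (hcon _ (hmem l)).mono fun y hy => ?_
      simp only [mem_insert, mem_singleton] at hy
      rw [mem_erase]
      have hinj := hf.injective
      rcases hy with rfl | rfl | rfl
      · exact ⟨fun e => e1 (hinj e).symm, hmem _⟩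
      · exact ⟨fun e => e2 (hinj e).symm, hmem _⟩
      · exact ⟨fun e => e3 (hinj e).symm, hmem _⟩
    have A012 := hall 0 1 2 3 (by decide) (by decide) (by decide) (by decide) (by decide)
    have A013 := hall 0 1 3 2 (by decide) (by decide) (by decide) (by decide) (by decide)
    have A023 := hall 0 2 3 1 (by decide) (by decide) (by decide) (by decide) (by decide)
    have A123 := hall 1 2 3 0 (by decide) (by decide) (by decide) (by decide) (by decide)
    have A134 := hall 1 3 4 0 (by decide) (by decide) (by decide) (by decide) (by decide)
    have A124 := hall 1 2 4 0 (by decide) (by decide) (by decide) (by decide) (by decide)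
    have A234 := hall 2 3 4 0 (by decide) (by decide) (by decide) (by decide) (by decide)
    have A024 := hall 0 2 4 1 (by decide) (by decide) (by decide) (by decide) (by decide)
    have C012 := tri hc hcL l1 l2 (by omega) A012
    have C013 := tri hc hcL l1 (l2.trans l3) (by omega) A013
    have C023 := tri hc hcL (l1.trans l2) l3 (by omega) A023
    have C123 := tri hc hcL l2 l3 (by omega) A123
    by_cases hz : f 4 = L + 1
    · rw [hz] at A134 A234 A024 A124
      have B1 := tri' hc hcL (l2.trans l3) (by omega) A134
      have B2 := tri' hc hcL l3 (by omega) A234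
      have B3 := tri' hc hcL (l1.trans l2) (by omega) A024
      have B4 := tri' hc hcL l2 (by omega) A124
      omega
    · have B1 := tri hc hcL (l2.trans l3) l4 (by omega) A134
      have B2 := tri hc hcL l3 l4 (by omega) A234
      have B3 := tri hc hcL (l1.trans l2) (l3.trans l4) (by omega) A024
      have B4 := tri hc hcL l2 (l3.trans l4) (by omega) A124
      omega
  · have hset : ((range (L + 2)).powersetCard 2).filter (fun S => ¬ Faces (gg L c) S) =
        (Ico 2 c).image fun p => ({p, L + 1} : Finset ℕ) := by
      ext S
      rw [mem_filter, mem_powersetCard, mem_image]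
      constructor
      · rintro ⟨⟨h1, h2⟩, h3⟩
        obtain ⟨f, hf, hfS⟩ := sorted 2 h2
        have l1 : f 0 < f 1 := hf (by decide)
        have hSeq : ∀ x, x ∈ S ↔ x = f 0 ∨ x = f 1 := by
          intro x
          rw [hfS]
          constructor
          · rintro ⟨i, rfl⟩
            fin_cases i <;> simp
          · rintro (h | h)
            · exact ⟨0, h.symm⟩
            · exact ⟨1, h.symm⟩
        have hle : f 1 ≤ L + 1 := by
          have := mem_range.1 (h1 ((hfS _).2 ⟨1, rfl⟩))
          omega
        have key : ∀ G ∈ gg L c, f 0 ∈ G → f 1 ∈ G → False := fun G hG g1 g2 =>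
          h3 ⟨G, hG, fun y hy => by
            rcases (hSeq y).1 hy with rfl | rfl
            · exact g1
            · exact g2⟩
        have hz : f 1 = L + 1 := by
          by_contra hz
          by_cases b1 : f 1 = f 0 + 1
          · by_cases b2 : f 0 = 0
            · refine key _ (f3c hc hcL) ?_ ?_ <;>
                simp only [mem_insert, mem_singleton, true_or, or_true] <;> omega
            · by_cases b3 : f 0 + 2 ≤ L
              · refine key _ (f2 hc hcL (j := f 0) (by omega) b3) ?_ ?_ <;>
                  simp only [mem_insert, mem_singleton, true_or, or_true] <;> omega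
              · refine key _ (f1 hc hcL (i := 1) (j := L - 1) (by omega) (by omega)
                  (by omega)) ?_ ?_ <;>
                  simp only [mem_insert, mem_singleton, true_or, or_true] <;> omega
          · by_cases b2 : f 1 = L
            · by_cases b3 : f 0 = 0
              · refine key _ (f3c hc hcL) ?_ ?_ <;>
                  simp only [mem_insert, mem_singleton, true_or, or_true] <;> omega
              · refine key _ (f2 hc hcL (j := f 0) (by omega) (by omega)) ?_ ?_ <;>
                  simp only [mem_insert, mem_singleton, true_or, or_true] <;> omega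
            · by_cases b3 : f 0 = 0
              · by_cases b4 : f 1 + 2 ≤ L
                · refine key _ (f2 hc hcL (j := f 1) (by omega) (by omega)) ?_ ?_ <;>
                    simp only [mem_insert, mem_singleton, true_or, or_true] <;> omega
                · refine key _ (f2 hc hcL (j := L - 2) (by omega) (by omega)) ?_ ?_ <;>
                    simp only [mem_insert, mem_singleton, true_or, or_true] <;> omega
              · refine key _ (f1 hc hcL (i := f 0) (j := f 1) (by omega) (by omega)
                  (by omega)) ?_ ?_ <;>
                  simp only [mem_insert, mem_singleton, true_or, or_true] <;> omega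
        have hne : 2 ≤ f 0 ∧ f 0 < c := by
          by_contra hcon
          by_cases b1 : f 0 ≤ 1
          · refine key _ (f3c hc hcL) ?_ ?_ <;>
              simp only [mem_insert, mem_singleton, true_or, or_true] <;> omega
          · by_cases b2 : f 0 = L
            · refine key _ (f3c hc hcL) ?_ ?_ <;>
                simp only [mem_insert, mem_singleton, true_or, or_true] <;> omega
            · refine key _ (f3a hc hcL (q := f 0) (by omega) (by omega)) ?_ ?_ <;>
                simp only [mem_insert, mem_singleton, true_or, or_true] <;> omega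
        refine ⟨f 0, mem_Ico.2 hne, ?_⟩
        ext y
        rw [hSeq, mem_insert, mem_singleton, hz]
      · rintro ⟨p, hp, rfl⟩
        rw [mem_Ico] at hp
        refine ⟨⟨fun y hy => ?_, card_pair (by omega)⟩, fun h => ?_⟩
        · simp only [mem_insert, mem_singleton] at hy
          rw [mem_range]
          omega
        · have := edge' hc hcL (by omega) h
          omega
    unfold ne2
    rw [hset, card_image_of_injOn, Nat.card_Ico]
    · omega
    · intro p hp q hq e
      have e' : ({p, L + 1} : Finset ℕ) = {q, L + 1} := e
      have h1 : p ∈ ({q, L + 1} : Finset ℕ) := e' ▸ (by simp)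
      rw [coe_Ico, Set.mem_Ico] at hp
      simp only [mem_insert, mem_singleton] at h1
      omega

end Pool.Agent.ES85.Near
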