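import Pool.Agent.Lib.ES85.CutD

/-!
# The necessary conditions for simplicial polytopes
-/

set_option autoImplicit false

namespace Pool.Agent.ES85

open Module Pool.Agent.FV
open scoped Classical

variable {E : Type} [NormedAddCommGroup E] [InnerProductSpace ℝ E] {V : Finset E} {d : ℕ}

/-- Edges and missing edges. -/
theorem card_edges_add (hd : 2 ≤ d) (hV : ConvPos V) (h4 : adim V = d) :
    (faces V 1).card + (emptySimplices V 1).card = V.card.choose 2 := by
  have hVne : V.Nonempty := FV.MOAux.nonempty_of_adim (k := d - 1) (by omega)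
  have hcV := adim_add_one_le_card hVne
  have h1 : faces V 1 = (V.powersetCard 2).filter fun S => IsFace V S := by
    ext B
    rw [Finset.mem_filter, Finset.mem_powersetCard, isFace_iff_faceSet]
    constructor
    · intro hB
      obtain ⟨h2, h3⟩ := mem_faces.1 hB
      refine ⟨⟨h2.2.1, card_edge hV hB⟩, h2, ?_⟩
      rintro rfl
      omega
    · rintro ⟨⟨h2, h3⟩, h5, -⟩
      obtain ⟨x, y, hxy, rfl⟩ := Finset.card_eq_two.1 h3
      exact mem_faces.2 ⟨h5, adim_pair hxy⟩
  have h2 : emptySimplices V 1 = (V.powersetCard 2).filter fun S => ¬ IsFace V S := by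
    unfold emptySimplices
    refine Finset.filter_congr fun S hS => ?_
    refine ⟨fun h => h.2, fun h => ⟨fun T hT => ?_, h⟩⟩
    obtain ⟨h5, h6⟩ := Finset.mem_powersetCard.1 hT
    obtain ⟨x, rfl⟩ := Finset.card_eq_one.1 h6
    have hx : x ∈ V := (Finset.mem_powersetCard.1 hS).1 (h5 (Finset.mem_singleton_self x))
    refine isFace_iff_faceSet.2 ⟨hV x hx, ?_⟩
    intro e
    rw [← e, Finset.card_singleton, e] at hcV
    omega
  rw [h1, h2, Finset.card_filter_add_card_filter_not, Finset.card_powersetCard]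

theorem miss_eq (hd : 4 ≤ d) (h4 : adim V = d) :
    miss d V = emptySimplices V (d - 1) := by
  have hVne : V.Nonempty := FV.MOAux.nonempty_of_adim (k := d - 1) (by omega)
  ext S
  rw [mem_miss, emptySimplices, Finset.mem_filter, Finset.mem_powersetCard]
  have e1 : d - 1 + 1 = d := by omega
  rw [e1]
  constructor
  · rintro ⟨h1, h2, h3, h5⟩
    refine ⟨⟨h1, h2⟩, fun T hT => ?_, fun h6 => h5 (isFace_iff_faceSet.1 h6).1⟩
    obtain ⟨h7, h8⟩ := Finset.mem_powersetCard.1 hT
    obtain ⟨x, hx, hxS⟩ : ∃ x ∈ S, x ∉ T := by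
      by_contra hcon
      push Not at hcon
      have := Finset.card_le_card (show S ⊆ T from hcon)
      omega
    have h9 : T = S.erase x := by
      refine Finset.eq_of_subset_of_card_le (fun y hy => Finset.mem_erase.2
        ⟨fun e => hxS (e ▸ hy), h7 hy⟩) ?_
      rw [Finset.card_erase_of_mem hx]
      omega
    rw [h9]
    refine isFace_iff_faceSet.2 ⟨h3 x hx, ne_of_card hVne ?_⟩
    rw [Finset.card_erase_of_mem hx]
    omega
  · rintro ⟨⟨h1, h2⟩, h3, h5⟩
    refine ⟨h1, h2, fun x hx => ?_, fun h6 => h5 (isFace_iff_faceSet.2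
      ⟨h6, ne_of_card hVne (by omega)⟩)⟩
    exact (isFace_iff_faceSet.1 (h3 _ (Finset.mem_powersetCard.2 ⟨Finset.erase_subset _ _, by
      rw [Finset.card_erase_of_mem hx, h2]⟩))).1

/-- The necessary conditions. -/
theorem necessary [FiniteDimensional ℝ E] (hd : 4 ≤ d) (hE : finrank ℝ E = d)
    (hV : IsPolytope V) (hs : IsSimplicial V) : ∃ t, V.card = d + t ∧
      (((emptySimplices V (d - 1)).card + 1 = t ∧ (emptySimplices V 1).card = t.choose 2) ∨
        ((emptySimplices V (d - 1)).card + 2 ≤ t ∧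
          (emptySimplices V (d - 1)).card * t ≤
            (emptySimplices V 1).card + ((emptySimplices V (d - 1)).card + 1).choose 2 ∧
          (emptySimplices V 1).card + 1 ≤ t.choose 2)) := by
  obtain ⟨hc, h4⟩ := convPos_of (by omega) hV
  rw [hE] at h4
  have hS := simp_of hs
  have h1 := mul_le hV (by omega)
  rw [hE] at h1
  obtain ⟨h1, h2⟩ := h1
  have h3 := card_edges_add (by omega) hc h4
  have h5 := lbt (by omega) hE hc hS h4
  have h6 := miss_eq hd h4
  have h7 := LTight.card_miss hd hE _ V rfl hc hS h4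
  rw [h6] at h7
  unfold LTight at h7
  obtain ⟨m, hm⟩ : ∃ m, m = (emptySimplices V (d - 1)).card := ⟨_, rfl⟩
  obtain ⟨a, ha⟩ : ∃ a, a = (emptySimplices V 1).card := ⟨_, rfl⟩
  obtain ⟨f, hf⟩ : ∃ f, f = (faces V 1).card := ⟨_, rfl⟩
  rw [← hm] at h1 h2 h7 ⊢
  rw [← ha] at h2 h3 ⊢
  rw [← hf] at h3 h5 h7
  obtain ⟨t, ht⟩ : ∃ t, V.card = d + t := ⟨V.card - d, by omega⟩
  rw [ht] at h1 h2 h3 h5 h7 ⊢
  rw [Nat.add_sub_cancel_left] at h2
  have c1 : (d + t).choose 2 + (d + 1).choose 2 = t.choose 2 + d * (d + t) := by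
    have e : ∀ k : ℕ, 2 * k.choose 2 + k = k * k := by
      intro k
      rw [Nat.choose_two_right]
      have h10 : 2 ∣ k * (k - 1) := (Nat.even_mul_pred_self k).two_dvd
      obtain ⟨j, hj⟩ := h10
      rw [hj, Nat.mul_div_cancel_left _ (by norm_num), ← hj]
      rcases k with _ | k
      · rfl
      · rw [Nat.add_sub_cancel]
        ring
    have e1 := e (d + t)
    have e2 := e (d + 1)
    have e3 := e t
    nlinarith
  refine ⟨t, rfl, ?_⟩
  by_cases hm1 : m + 1 = t
  · left
    refine ⟨hm1, ?_⟩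
    have c2 : m * t = 2 * t.choose 2 := by
      rw [Nat.choose_two_right]
      have h10 : 2 ∣ t * (t - 1) := (Nat.even_mul_pred_self t).two_dvd
      obtain ⟨j, hj⟩ := h10
      rw [hj, Nat.mul_div_cancel_left _ (by norm_num), ← hj, ← hm1, Nat.add_sub_cancel]
      ring
    rw [hm1] at h2
    omega
  · right
    refine ⟨by omega, h2, ?_⟩
    by_contra hcon
    have h8 := h7 (by omega)
    omega

end Pool.Agent.ES85
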