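import Pool.Agent.Lib.ES85.Empty

/-!
# Repeated subdivisions of an edge
-/

set_option autoImplicit false

open Finset

namespace Pool.Agent.ES85

variable {α : Type*} [DecidableEq α]

variable {d : ℕ} {W : Finset α} {Γ : SimpleGraph α} {ℱ : Finset (Finset α)} {x : α}

theorem mem_star_edge {a b z : α} (ha : a ∈ W) (hb : b ∈ W) (hab : Γ.Adj a b) :
    z ∈ star W Γ {a, b} ↔ z = a ∨ z = b ∨ (z ∈ W ∧ Γ.Adj z a ∧ Γ.Adj z b) := by
  rw [mem_star]
  constructor
  · rintro ⟨h1, h2⟩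
    by_cases hza : z = a
    · exact Or.inl hza
    by_cases hzb : z = b
    · exact Or.inr (Or.inl hzb)
    exact Or.inr (Or.inr ⟨h1, h2 (Or.inl rfl) (Or.inr (by simp)) hza,
      h2 (Or.inl rfl) (Or.inr (by simp)) hzb⟩)
  · have hc := (isClique_pair (Γ := Γ) hab.ne).2 hab
    rintro (rfl | rfl | ⟨h1, h2, h3⟩)
    · exact ⟨ha, by rw [Set.insert_eq_of_mem (mem_coe.2 (mem_insert_self _ _))]; exact hc⟩
    · exact ⟨hb, by
        rw [Set.insert_eq_of_mem (mem_coe.2 (mem_insert_of_mem (mem_singleton_self _)))]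
        exact hc⟩
    · refine ⟨h1, ?_⟩
      rw [coe_pair, SimpleGraph.isClique_insert]
      refine ⟨by rwa [coe_pair] at hc, fun c hc' hzc => ?_⟩
      rcases hc' with rfl | rfl
      · exact h2
      · exact h3

/-- **Repeated subdivisions of the edge `a b`**, next to `b`. -/
theorem Real.path [Infinite α] (k : ℕ) : ∀ {W : Finset α} {Γ : SimpleGraph α} {a : α}, Real d W Γ ℱ →
    ∀ {b : α}, a ∈ W → b ∈ W → Γ.Adj a b →
    (∀ F' ∈ ℱ, ¬ Γ.IsClique ((({a, b} : Finset α) ∪ F' : Finset α) : Set α)) →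
    ∃ (W' : Finset α) (Γ' : SimpleGraph α), Real d W' Γ' ℱ ∧ W ⊆ W' ∧ W'.card = W.card + k ∧
      e1 W' Γ' + k * (cn W Γ a b + 1) = e1 W Γ + ∑ t ∈ range k, (W.card + t) ∧
      (∀ s ∈ W, ∀ t ∈ W, Γ'.Adj s t → Γ.Adj s t) ∧
      (∀ s ∈ W, ∀ t ∈ W, s ≠ a → s ≠ b → Γ.Adj s t → Γ'.Adj s t) ∧
      ∀ x ∈ W', x ∉ W → ∀ s ∈ W, Γ'.Adj x s → s = a ∨ s = b ∨ (Γ.Adj s a ∧ Γ.Adj s b) := by
  induction k with
  | zero =>
    intro W Γ a h b ha hb hab hF
    exact ⟨W, Γ, h, Subset.refl W, rfl, by simp, fun _ _ _ _ h1 => h1, fun _ _ _ _ _ _ h1 => h1,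
      fun x hx hx2 => absurd hx hx2⟩
  | succ k ih =>
    intro W Γ a h b ha hb hab hF
    obtain ⟨x, hx⟩ := Infinite.exists_notMem_finset W
    have hnx : ∀ a ∈ W, a ≠ x := fun a ha e => hx (e ▸ ha)
    have h1 := h.sub_edge ha hb hab hF hx
    have hbx : (subG W Γ {a, b} x).Adj x b :=
      (subG_new (hnx b hb)).2 ((mem_star_edge ha hb hab).2 (Or.inr (Or.inl rfl)))
    have hF1 : ∀ F' ∈ ℱ,
        ¬ (subG W Γ {a, b} x).IsClique ((({x, b} : Finset α) ∪ F' : Finset α) : Set α) := by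
      intro F' hF' h2
      refine hF F' hF' ?_
      have hF'W := h.sub F' hF'
      have h3 : ∀ f ∈ F', f ∈ star W Γ {a, b} := fun f hf =>
        (subG_new (hnx f (hF'W hf))).1 (h2 (mem_coe.2 (mem_union_left _ (mem_insert_self _ _)))
          (mem_coe.2 (mem_union_right _ hf)) (hnx f (hF'W hf)).symm)
      have h4 : ∀ f ∈ F', ∀ c ∈ ({a, b} : Finset α), f ≠ c → Γ.Adj f c := fun f hf c hc hfc =>
        (mem_star.1 (h3 f hf)).2 (Or.inl rfl) (Or.inr (mem_coe.2 hc)) hfc
      intro s hs t ht hst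
      rcases mem_union.1 (mem_coe.1 hs) with hs | hs
      · rcases mem_union.1 (mem_coe.1 ht) with ht | ht
        · exact (isClique_pair hab.ne).2 hab hs ht hst
        · exact (h4 t ht s hs (Ne.symm hst)).symm
      · rcases mem_union.1 (mem_coe.1 ht) with ht | ht
        · exact h4 s hs t ht hst
        · exact h.clique F' hF' hs ht hst
    have hcn : cn (insert x W) (subG W Γ {a, b} x) x b = cn W Γ a b := by
      classical
      unfold cn
      congr 1
      ext z
      rw [mem_filter, mem_filter]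
      constructor
      · rintro ⟨h2, h3, h4⟩
        have hzx : z ≠ x := h3.ne
        have hzW : z ∈ W := (mem_insert.1 h2).resolve_left hzx
        have h5 := (mem_star_edge ha hb hab).1 ((subG_new hzx).1 h3.symm)
        have h6 := (subG_old hzx (hnx b hb)).1 h4
        rcases h5 with rfl | rfl | h5
        · exact absurd rfl h6.2
        · exact absurd rfl h6.1.ne
        · exact ⟨hzW, h5.2⟩
      · rintro ⟨h2, h3, h4⟩
        refine ⟨mem_insert_of_mem h2, ((subG_new (hnx z h2)).2 ((mem_star_edge ha hb hab).2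
          (Or.inr (Or.inr ⟨h2, h3, h4⟩)))).symm, (subG_old (hnx z h2) (hnx b hb)).2 ⟨h4, fun e => ?_⟩⟩
        have h5 : a ∈ ({z, b} : Finset α) := e ▸ mem_insert_self _ _
        rcases mem_insert.1 h5 with h5 | h5
        · exact h3.ne h5.symm
        · exact hab.ne (mem_singleton.1 h5)
    obtain ⟨W', Γ', g1, g2, g3, g4, g5, g6, g7⟩ := ih h1 (mem_insert_self x W)
      (mem_insert_of_mem hb) hbx hF1
    have hcard : (insert x W).card = W.card + 1 := card_insert_of_notMem hx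
    refine ⟨W', Γ', g1, (subset_insert _ _).trans g2, by rw [g3, hcard]; omega, ?_,
      fun s hs t ht h2 => ?_, fun s hs t ht hsa hsb h2 => ?_, fun x' hx' hx'W s hs h2 => ?_⟩
    · have h2 := e1_edge ha hb hab hx
      rw [hcn, hcard] at g4
      rw [sum_range_succ']
      have h3 : ∑ t ∈ range k, (W.card + 1 + t) = ∑ t ∈ range k, (W.card + (t + 1)) :=
        sum_congr rfl fun t _ => by ring
      rw [h3] at g4
      have h4 : (k + 1) * (cn W Γ a b + 1) = k * (cn W Γ a b + 1) + (cn W Γ a b + 1) := by ring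
      rw [h4]
      omega
    · exact ((subG_old (hnx s hs) (hnx t ht)).1 (g5 s (mem_insert_of_mem hs) t
        (mem_insert_of_mem ht) h2)).1
    · refine g6 s (mem_insert_of_mem hs) t (mem_insert_of_mem ht) (hnx s hs) hsb
        ((subG_old (hnx s hs) (hnx t ht)).2 ⟨h2, fun e => ?_⟩)
      have h5 : s ∈ ({a, b} : Finset α) := e ▸ mem_insert_self _ _
      rcases mem_insert.1 h5 with h5 | h5
      · exact hsa h5
      · exact hsb (mem_singleton.1 h5)
    · have key : s ∈ star W Γ {a, b} → s = a ∨ s = b ∨ (Γ.Adj s a ∧ Γ.Adj s b) := fun h3 =>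
        ((mem_star_edge ha hb hab).1 h3).imp_right fun h4 => h4.imp_right fun h5 => h5.2
      by_cases hx'x : x' = x
      · subst hx'x
        exact key ((subG_new (hnx s hs)).1 (g5 x' (mem_insert_self _ _) s (mem_insert_of_mem hs) h2))
      · have h3 : x' ∉ insert x W := fun h4 => (mem_insert.1 h4).elim hx'x hx'W
        rcases g7 x' hx' h3 s (mem_insert_of_mem hs) h2 with h4 | h4 | ⟨h4, -⟩
        · exact absurd h4 (hnx s hs)
        · exact Or.inr (Or.inl h4)
        · exact key ((subG_new (hnx s hs)).1 h4.symm)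

/-- The number of common neighbours of another edge does not change. -/
theorem cn_eq {W W' : Finset α} {Γ Γ' : SimpleGraph α} {s t : α} (hs : s ∈ W) (ht : t ∈ W)
    (hW : W ⊆ W')
    (h1 : ∀ z ∈ W, (Γ'.Adj z s ∧ Γ'.Adj z t) ↔ (Γ.Adj z s ∧ Γ.Adj z t))
    (h2 : ∀ x ∈ W', x ∉ W → ¬ (Γ'.Adj x s ∧ Γ'.Adj x t)) : cn W' Γ' s t = cn W Γ s t := by
  classical
  unfold cn
  congr 1
  ext z
  rw [mem_filter, mem_filter]
  constructor
  · rintro ⟨h3, h4⟩
    by_cases hz : z ∈ W
    · exact ⟨hz, (h1 z hz).1 h4⟩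
    · exact absurd h4 (h2 z h3 hz)
  · rintro ⟨h3, h4⟩
    exact ⟨hW h3, (h1 z h3).2 h4⟩

end Pool.Agent.ES85
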