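import Pool.Agent.Lib.ES85.Defs
import Pool.Agent.Lib.ES85.Geo

/-!
# The faces of a polytope with a cone certificate
-/

set_option autoImplicit false

open Finset

namespace Pool.Agent.ES85

variable {α : Type*} [DecidableEq α] {E : Type*} [AddCommGroup E] [Module ℝ E]
variable {n : ℕ} {W : Finset α} {v : α → E} {𝒢 : Finset (Finset α)}

theorem Cert.injOn (h : Cert n W v 𝒢) : Set.InjOn v (W : Set α) := by
  intro i hi j hj e
  by_contra hne
  obtain ⟨G, hG, hiG⟩ := h.mem i hi
  by_cases hjG : j ∈ G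
  · obtain ⟨m, hm1, hm2⟩ := h.dual G hG i hiG
    have h1 := hm2 j hjG (fun e => hne e.symm)
    rw [← e, hm1] at h1
    exact one_ne_zero h1
  · obtain ⟨l, hl1, hl2⟩ := h.func G hG
    have h1 := hl2 j hj hjG
    rw [← e, hl1 i hiG] at h1
    exact lt_irrefl _ h1

/-- Some vertex is not in a given facet. -/
theorem Cert.exists_notMem (h : Cert n W v 𝒢) (hn : 1 ≤ n) {G : Finset α} (hG : G ∈ 𝒢) :
    ∃ j ∈ W, j ∉ G := by
  obtain ⟨l, hl1, hl2⟩ := h.func G hG
  have hne : G.Nonempty := card_pos.1 (by rw [h.card G hG]; omega)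
  obtain ⟨i, hi⟩ := hne
  obtain ⟨G', hG', c, hc, hs⟩ := h.cover (-v i)
  have h1 : ∑ j ∈ G', c j * l (v j) = -1 := by
    have h2 := congrArg l hs
    rw [map_sum, map_neg, hl1 i hi] at h2
    rw [← h2]
    exact sum_congr rfl fun j _ => by rw [map_smul, smul_eq_mul]
  by_contra h3
  push Not at h3
  have h4 : 0 ≤ ∑ j ∈ G', c j * l (v j) := sum_nonneg fun j hj => by
    rw [hl1 j (h3 j (h.sub G' hG' hj)), mul_one]
    exact hc j
  linarith

open Filter Topology in
/-- The faces of the convex hull are the faces of the certificate. -/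
theorem Cert.isFace_iff [DecidableEq E] (h : Cert n W v 𝒢) (hn : 1 ≤ n) {S : Finset α}
    (hS : S ⊆ W) : IsFace (W.image v) (S.image v) ↔ S.Nonempty ∧ Faces 𝒢 S := by
  have hinj := h.injOn
  constructor
  · rintro ⟨h1, h2, l, c, h3, h4⟩
    have hSne : S.Nonempty := (image_nonempty).1 h1
    refine ⟨hSne, ?_⟩
    have h4' : ∀ i ∈ W, i ∉ S → l (v i) < c := fun i hi hiS =>
      h4 _ (mem_image_of_mem v hi) fun h5 => by
        obtain ⟨j, hj, e⟩ := mem_image.1 h5
        exact hiS (hinj (hS hj) hi e ▸ hj)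
    have h3' : ∀ i ∈ S, l (v i) = c := fun i hi => h3 _ (mem_image_of_mem v hi)
    have hle : ∀ i ∈ W, l (v i) ≤ c := fun i hi => by
      by_cases hiS : i ∈ S
      · exact (h3' i hiS).le
      · exact (h4' i hi hiS).le
    have hc : 0 < c := by
      by_contra hc
      push Not at hc
      have h5 : ∀ y, l y ≤ 0 := fun y => by
        obtain ⟨G, hG, a, ha, hy⟩ := h.cover y
        rw [← hy, map_sum]
        refine sum_nonpos fun i hi => ?_
        rw [map_smul, smul_eq_mul]
        exact mul_nonpos_of_nonneg_of_nonpos (ha i) ((hle i (h.sub G hG hi)).trans hc)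
      have h6 : ∀ y, l y = 0 := fun y => le_antisymm (h5 y) (by
        have := h5 (-y)
        rw [map_neg] at this
        linarith)
      obtain ⟨x, hx, hxS⟩ := exists_of_ssubset h2
      obtain ⟨i, hi⟩ := hSne
      have h7 := h4 x hx hxS
      have h8 := h3' i hi
      rw [h6] at h7 h8
      linarith
    obtain ⟨G, hG, a, ha, hy⟩ := h.cover (∑ i ∈ S, v i)
    refine ⟨G, hG, ?_⟩
    obtain ⟨g, hg1, hg2⟩ := h.func G hG
    have hgle : ∀ i ∈ W, g (v i) ≤ 1 := fun i hi => by
      by_cases hiG : i ∈ G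
      · exact (hg1 i hiG).le
      · exact (hg2 i hi hiG).le
    have e1 : ∑ i ∈ G, a i = ∑ i ∈ S, g (v i) := by
      have h5 := congrArg g hy
      rw [map_sum, map_sum] at h5
      rw [← h5]
      exact sum_congr rfl fun i hi => by rw [map_smul, smul_eq_mul, hg1 i hi, mul_one]
    have e2 : ∑ i ∈ G, a i * l (v i) = S.card * c := by
      have h5 := congrArg l hy
      rw [map_sum, map_sum] at h5
      rw [sum_congr rfl fun i (_ : i ∈ G) => by rw [← smul_eq_mul, ← map_smul], h5,
        sum_congr rfl fun i hi => h3' i hi]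
      simp
    have e3 : ∑ i ∈ G, a i * l (v i) ≤ (∑ i ∈ G, a i) * c := by
      rw [sum_mul]
      exact sum_le_sum fun i hi => mul_le_mul_of_nonneg_left (hle i (h.sub G hG hi)) (ha i)
    have e4 : (S.card : ℝ) ≤ ∑ i ∈ S, g (v i) := by
      rw [e2, e1] at e3
      exact le_of_mul_le_mul_right e3 hc
    intro i hi
    by_contra hiG
    have e5 : ∑ i ∈ S, g (v i) < ∑ i ∈ S, (1 : ℝ) :=
      sum_lt_sum (fun j hj => hgle j (hS hj)) ⟨i, hi, hg2 i (hS hi) hiG⟩
    simp only [sum_const, nsmul_eq_mul, mul_one] at e5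
    linarith
  · rintro ⟨hSne, G, hG, hSG⟩
    obtain ⟨l, hl1, hl2⟩ := h.func G hG
    choose! m hm1 hm2 using h.dual G hG
    obtain ⟨j0, hj0, hj0G⟩ := h.exists_notMem hn hG
    have hsum : ∀ i ∈ G, ∑ f ∈ G \ S, m f (v i) = if i ∈ S then 0 else 1 := by
      intro i hi
      split_ifs with hiS
      · exact sum_eq_zero fun f hf => hm2 f (mem_sdiff.1 hf).1 i hi fun e =>
          (mem_sdiff.1 hf).2 (e ▸ hiS)
      · rw [sum_eq_single i]
        · exact hm1 i hi
        · exact fun f hf hne => hm2 f (mem_sdiff.1 hf).1 i hi fun e => hne e.symm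
        · exact fun h5 => absurd (mem_sdiff.2 ⟨hi, hiS⟩) h5
    have hev : ∀ᶠ c in 𝓝[>] (0 : ℝ), 0 < c ∧ ∀ j ∈ W, j ∉ G →
        l (v j) - c * ∑ f ∈ G \ S, m f (v j) < 1 := by
      refine Filter.Eventually.and self_mem_nhdsWithin (nhdsWithin_le_nhds
        ((Finset.eventually_all W).2 fun j hj => ?_))
      by_cases hjG : j ∈ G
      · exact Filter.Eventually.of_forall fun c h1 => absurd hjG h1
      · have h2 : Tendsto (fun c : ℝ => l (v j) - c * ∑ f ∈ G \ S, m f (v j)) (𝓝 0)
            (𝓝 (l (v j) - 0 * ∑ f ∈ G \ S, m f (v j))) :=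
          tendsto_const_nhds.sub (tendsto_id.mul_const _)
        rw [zero_mul, sub_zero] at h2
        filter_upwards [h2.eventually_lt_const (hl2 j hj hjG)] with c hc _
        exact hc
    obtain ⟨c, hc0, hc⟩ := hev.exists
    refine ⟨hSne.image v, ⟨image_subset_image hS, fun h5 => ?_⟩, l - c • ∑ f ∈ G \ S, m f, 1,
      fun x hx => ?_, fun x hx hxS => ?_⟩
    · obtain ⟨i, hi, e⟩ := mem_image.1 (h5 (mem_image_of_mem v hj0))
      exact hj0G (hSG (hinj (hS hi) hj0 e ▸ hi))
    · obtain ⟨i, hi, rfl⟩ := mem_image.1 hx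
      rw [LinearMap.sub_apply, LinearMap.smul_apply, LinearMap.sum_apply, hsum i (hSG hi),
        if_pos hi, smul_zero, sub_zero]
      exact hl1 i (hSG hi)
    · obtain ⟨i, hi, rfl⟩ := mem_image.1 hx
      have hiS : i ∉ S := fun h5 => hxS (mem_image_of_mem v h5)
      rw [LinearMap.sub_apply, LinearMap.smul_apply, LinearMap.sum_apply, smul_eq_mul]
      by_cases hiG : i ∈ G
      · rw [hsum i hiG, if_neg hiS, hl1 i hiG]
        linarith
      · exact hc i hi hiG

/-- A set with a certificate is simplicial. -/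
theorem Cert.isSimplicial [DecidableEq E] (h : Cert n W v 𝒢) (hn : 1 ≤ n) :
    IsSimplicial (W.image v) := by
  intro T hT
  obtain ⟨S, hS, rfl⟩ : ∃ S ⊆ W, T = S.image v := by
    refine ⟨W.filter fun i => v i ∈ T, filter_subset _ _, ?_⟩
    ext x
    rw [mem_image]
    constructor
    · intro hx
      obtain ⟨i, hi, rfl⟩ := mem_image.1 (hT.2.1.1 hx)
      exact ⟨i, mem_filter.2 ⟨hi, hx⟩, rfl⟩
    · rintro ⟨i, hi, rfl⟩
      exact (mem_filter.1 hi).2
  obtain ⟨-, G, hG, hSG⟩ := (h.isFace_iff hn hS).1 hT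
  have hli : LinearIndependent ℝ ((↑) : {x // x ∈ S.image v} → E) := by
    rw [linearIndependent_iff']
    intro s g hg x hx
    obtain ⟨i, hi, e⟩ := mem_image.1 x.2
    obtain ⟨m, hm1, hm2⟩ := h.dual G hG i (hSG hi)
    have h1 := congrArg m hg
    rw [map_sum, map_zero, sum_eq_single x] at h1
    · rw [map_smul, ← e, hm1, smul_eq_mul, mul_one] at h1
      exact h1
    · intro y _ hyx
      obtain ⟨j, hj, e'⟩ := mem_image.1 y.2
      rw [map_smul, ← e', hm2 j (hSG hj), smul_zero]
      rintro rfl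
      exact hyx (Subtype.ext (e'.symm.trans e))
    · exact fun h5 => absurd hx h5
  exact hli.affineIndependent

/-- The vertices. -/
theorem Cert.vertex [DecidableEq E] (h : Cert n W v 𝒢) (hn : 1 ≤ n) :
    ∀ x ∈ W.image v, x ∉ convexHull ℝ (((W.image v : Finset E) : Set E) \ {x}) := by
  intro x hx hmem
  obtain ⟨i, hi, rfl⟩ := mem_image.1 hx
  obtain ⟨G, hG, hiG⟩ := h.mem i hi
  obtain ⟨-, -, l, c, h1, h2⟩ := (h.isFace_iff hn (singleton_subset_iff.2 hi)).2
    ⟨singleton_nonempty i, G, hG, singleton_subset_iff.2 hiG⟩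
  have h3 : (((W.image v : Finset E) : Set E) \ {v i}) ⊆ {y | l y < c} := by
    rintro y ⟨hy1, hy2⟩
    refine h2 y (mem_coe.1 hy1) fun h5 => hy2 ?_
    rw [image_singleton, mem_singleton] at h5
    exact h5
  have h4 := convexHull_min h3 (convex_halfSpace_lt l.isLinear c) hmem
  rw [Set.mem_ofPred_eq, h1 (v i) (by simp)] at h4
  exact lt_irrefl _ h4

/-- The convex hull has nonempty interior. -/
theorem Cert.interior_nonempty {E : Type*} [NormedAddCommGroup E] [NormedSpace ℝ E]
    [FiniteDimensional ℝ E] [DecidableEq E] {v : α → E} (h : Cert n W v 𝒢) (hn : 1 ≤ n) :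
    (interior (convexHull ℝ ((W.image v : Finset E) : Set E))).Nonempty := by
  rw [interior_convexHull_nonempty_iff_affineSpan_eq_top, ← top_le_iff]
  obtain ⟨A, hA⟩ : ∃ A, A = affineSpan ℝ ((W.image v : Finset E) : Set E) := ⟨_, rfl⟩
  have hv : ∀ i ∈ W, v i ∈ A := fun i hi => by
    rw [hA]
    exact subset_affineSpan _ _ (by simpa using ⟨i, hi, rfl⟩)
  have h0 : (0 : E) ∈ A := by
    obtain ⟨G, hG, -, -, -⟩ := h.cover 0
    have hne : G.Nonempty := card_pos.1 (by rw [h.card G hG]; omega)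
    obtain ⟨i, hi⟩ := hne
    obtain ⟨G', hG', c, hc, hs⟩ := h.cover (-v i)
    have h1 : ∑ j ∈ W, ((if j = i then (1 : ℝ) else 0) + if j ∈ G' then c j else 0) • v j = 0 := by
      simp only [add_smul, sum_add_distrib, ite_smul, one_smul, zero_smul]
      rw [sum_ite_eq' W i, if_pos (h.sub G hG hi), ← sum_filter]
      have e : W.filter (fun j => j ∈ G') = G' := by
        ext j
        rw [mem_filter]
        exact ⟨fun h5 => h5.2, fun h5 => ⟨h.sub G' hG' h5, h5⟩⟩
      rw [e, hs, add_neg_cancel]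
    have h2 : 0 < ∑ j ∈ W, ((if j = i then (1 : ℝ) else 0) + if j ∈ G' then c j else 0) := by
      rw [sum_add_distrib, sum_ite_eq' W i, if_pos (h.sub G hG hi)]
      have : 0 ≤ ∑ j ∈ W, (if j ∈ G' then c j else 0) := sum_nonneg fun j _ => by
        split_ifs
        · exact hc j
        · exact le_rfl
      linarith
    have h3 := Finset.centerMass_mem_convexHull W (R := ℝ) (E := E)
      (w := fun j => (if j = i then (1 : ℝ) else 0) + if j ∈ G' then c j else 0)
      (s := ((W.image v : Finset E) : Set E)) (z := v) (fun j _ => by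
        split_ifs <;> simp [hc j, add_nonneg]) h2 (fun j hj => by simpa using ⟨j, hj, rfl⟩)
    rw [Finset.centerMass, h1, smul_zero] at h3
    rw [hA]
    exact convexHull_subset_affineSpan _ h3
  intro y _
  rw [← hA]
  obtain ⟨G, hG, c, -, hy⟩ := h.cover y
  have h1 : y ∈ A.direction := by
    rw [← hy]
    refine sum_mem fun i hi => A.direction.smul_mem _ ?_
    have := AffineSubspace.vsub_mem_direction (hv i (h.sub G hG hi)) h0
    simpa using this
  have h2 := AffineSubspace.vadd_mem_of_mem_direction h1 h0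
  simpa using h2

theorem Cert.isPolytope {E : Type*} [NormedAddCommGroup E] [NormedSpace ℝ E]
    [FiniteDimensional ℝ E] [DecidableEq E] {v : α → E} (h : Cert n W v 𝒢) (hn : 1 ≤ n) :
    IsPolytope (W.image v) := ⟨h.interior_nonempty hn, h.vertex hn⟩

end Pool.Agent.ES85
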