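import Pool.Agent.Lib.ES85.Top
import Pool.Agent.Lib.ES85.Near2
import Pool.Agent.Lib.ES85.Empty

/-!
# Realisation of the triples
-/

set_option autoImplicit false

open Finset Module

namespace Pool.Agent.ES85

variable {α : Type} [DecidableEq α] {d t a m n : ℕ}

/-- The simplex. -/
theorem simplex_cert (d : ℕ) (hd : 1 ≤ d) : ∃ (W : Finset ℕ) (v : ℕ → Eu d)
    (𝒢 : Finset (Finset ℕ)), Cert d W v 𝒢 ∧ W.card = d + 1 ∧ ∀ S ⊆ W, S ≠ W → Faces 𝒢 S := by
  classical
  induction d, hd using Nat.le_induction with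
  | base =>
    obtain ⟨lab, hlab⟩ : ∃ lab : Fin 1 × Bool → ℕ, ∀ p, lab p = if p.2 then 0 else 1 :=
      ⟨_, fun _ => rfl⟩
    have hinj : Function.Injective lab := by
      rintro ⟨i, b⟩ ⟨j, c⟩ e
      rw [hlab, hlab] at e
      rw [Subsingleton.elim i j]
      cases b <;> cases c <;> simp_all
    obtain ⟨v, 𝒢, h1, h2⟩ := (Real.cross lab hinj ⊥ fun p q => by
      rw [SimpleGraph.bot_adj, Subsingleton.elim p.1 q.1]
      simp).cert
    have hc : (univ.image lab).card = 2 := by
      rw [card_image_of_injective _ hinj]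
      simp
    refine ⟨_, v, 𝒢, h1, by rw [hc], fun S hS hne => (h2 S).2 ⟨hS, ?_, by simp⟩⟩
    have h3 : S.card ≤ 1 := by
      by_contra hcon
      exact hne (eq_of_subset_of_card_le hS (by omega))
    intro x hx y hy hxy
    exact absurd (card_le_one.1 h3 x hx y hy) hxy
  | succ d hd ih =>
    obtain ⟨W, v, 𝒢, h1, h2, h3⟩ := ih
    obtain ⟨x, hx⟩ := Infinite.exists_notMem_finset W
    obtain ⟨w, hw⟩ : W.Nonempty := card_pos.1 (by omega)
    obtain ⟨v', 𝒢', g1, g2⟩ := h1.susp hd hw hx
    have hfr : finrank ℝ (Eu d × ℝ) = finrank ℝ (Eu (d + 1)) := by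
      rw [finrank_prod, finrank_Eu, finrank_Eu, finrank_self]
    refine ⟨_, _, 𝒢', g1.map (LinearEquiv.ofFinrankEq _ _ hfr),
      by rw [card_insert_of_notMem hx, h2], fun S hS hne => ?_⟩
    rw [g2]
    by_cases hxS : x ∈ S
    · left
      refine ⟨hxS, h3 _ (fun i hi => (mem_insert.1 (hS (mem_of_mem_erase hi))).resolve_left
        (mem_erase.1 hi).1) fun e => hne ?_⟩
      rw [← e, insert_erase hxS]
    · right
      refine ⟨hxS, h3 _ (fun i hi => (mem_insert.1 (hS (mem_of_mem_erase hi))).resolve_left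
        fun e => hxS (e ▸ mem_of_mem_erase hi)) fun e => ?_⟩
      rw [← e] at hw
      exact notMem_erase w S hw

theorem simplex_st (hd : 2 ≤ d) : St ℕ d (d + 1) 0 0 := by
  classical
  obtain ⟨W, v, 𝒢, h1, h2, h3⟩ := simplex_cert d (by omega)
  refine ⟨W, v, 𝒢, h1, h2, ?_, ?_⟩
  · unfold ne2
    rw [Finset.card_eq_zero, filter_eq_empty_iff]
    intro S hS h4
    obtain ⟨h5, h6⟩ := mem_powersetCard.1 hS
    refine h4 (h3 S h5 fun e => ?_)
    rw [e] at h6
    omega
  · unfold msd
    rw [Finset.card_eq_zero, filter_eq_empty_iff]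
    rintro S hS ⟨-, h4⟩
    obtain ⟨h5, h6⟩ := mem_powersetCard.1 hS
    refine h4 (h3 S h5 fun e => ?_)
    rw [e] at h6
    omega

theorem St.stack_iter [Infinite α] (hd : 3 ≤ d) {s : ℕ} (h : St α d (d + s) a m) (k : ℕ) :
    St α d (d + (s + k)) (a + k * s + k.choose 2) (m + k) := by
  induction k with
  | zero => simpa using h
  | succ k ih =>
    have h1 := ih.stack hd
    have e1 : d + (s + k) + 1 = d + (s + (k + 1)) := by ring
    have e2 : a + k * s + k.choose 2 + (d + (s + k) - d) = a + (k + 1) * s + (k + 1).choose 2 := by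
      have e3 : (k + 1).choose 2 = k.choose 1 + k.choose 2 := Nat.choose_succ_succ k 1
      rw [Nat.choose_one_right] at e3
      rw [e3, Nat.add_sub_cancel_left]
      ring
    rw [e1, e2] at h1
    exact h1

/-- Stacked polytopes. -/
theorem stacked_st (hd : 3 ≤ d) (k : ℕ) : St ℕ d (d + (k + 1)) ((k + 1).choose 2) k := by
  have h := (simplex_st (d := d) (by omega)).stack_iter hd k
  have e3 : (k + 1).choose 2 = k.choose 1 + k.choose 2 := Nat.choose_succ_succ k 1
  rw [Nat.choose_one_right] at e3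
  have e1 : d + (1 + k) = d + (k + 1) := by ring
  have e2 : 0 + k * 1 + k.choose 2 = (k + 1).choose 2 := by
    rw [e3]
    ring
  rw [e1, e2, Nat.zero_add] at h
  exact h

/-- All possible numbers of missing edges, without empty `(d - 1)`-simplices. -/
theorem exists_pr (t : ℕ) (ht : 2 ≤ t) : ∀ a, a + 1 ≤ t.choose 2 →
    Pr ℕ 4 t a ∨ Pr (ℕ × ℕ) 4 t a := by
  induction t, ht using Nat.le_induction with
  | base =>
    intro a ha
    have h0 : a = 0 := by
      rw [Nat.choose_self] at ha
      omega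
    subst h0
    exact Or.inl (Near.near le_rfl (by norm_num))
  | succ t ht ih =>
    intro a ha
    have e3 : (t + 1).choose 2 = t.choose 1 + t.choose 2 := Nat.choose_succ_succ t 1
    rw [Nat.choose_one_right] at e3
    by_cases h1 : a + 1 ≤ t
    · exact Or.inl (Near.near (by omega) (by omega))
    · by_cases h2 : a + 1 = (t + 1).choose 2
      · have h3 := top (t := t + 1) (by omega)
        rw [← h2, Nat.add_sub_cancel] at h3
        exact Or.inr h3
      · have h4 : a - (t - 1) + 1 ≤ t.choose 2 := by omega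
        have h5 : a - (t - 1) + (t - 1) = a := by omega
        rcases ih _ h4 with h | h
        · have := h.ridge le_rfl
          rw [h5] at this
          exact Or.inl this
        · have := h.ridge le_rfl
          rw [h5] at this
          exact Or.inr this

/-- The polytope of a state. -/
theorem St.exists_polytope (hd : 2 ≤ d) (h : St α d n a m) :
    ∃ V : Finset (Eu d), IsPolytope V ∧ IsSimplicial V ∧ V.card = n ∧
      (emptySimplices V 1).card = a ∧ (emptySimplices V (d - 1)).card = m := by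
  classical
  obtain ⟨W, v, 𝒢, h1, h2, h3, h4⟩ := h
  have hd1 : 1 ≤ d := by omega
  refine ⟨W.image v, h1.isPolytope hd1, h1.isSimplicial hd1, ?_, ?_, ?_⟩
  · rw [card_image_of_injOn h1.injOn, h2]
  · rw [h1.card_empty hd1 1, ← h3, ne2]
    congr 1
    ext S
    rw [mem_filter, mem_filter]
    refine and_congr_right fun hS => ?_
    obtain ⟨h5, h6⟩ := mem_powersetCard.1 hS
    constructor
    · rintro ⟨-, h7⟩ h8
      exact h7 ⟨card_pos.1 (by omega), h8⟩
    · intro h7
      refine ⟨fun T hT => ?_, fun h8 => h7 h8.2⟩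
      obtain ⟨h9, h10⟩ := mem_powersetCard.1 hT
      obtain ⟨y, rfl⟩ := card_eq_one.1 h10
      obtain ⟨G, hG, hyG⟩ := h1.mem y (h5 (h9 (mem_singleton_self y)))
      exact ⟨singleton_nonempty y, G, hG, singleton_subset_iff.2 hyG⟩
  · rw [h1.card_empty hd1 (d - 1), ← h4, msd, Nat.sub_add_cancel hd1]
    congr 1
    ext S
    rw [mem_filter, mem_filter]
    refine and_congr_right fun hS => ?_
    obtain ⟨h5, h6⟩ := mem_powersetCard.1 hS
    have hne : S.Nonempty := card_pos.1 (by omega)
    constructor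
    · rintro ⟨h7, h8⟩
      refine ⟨fun x hx => ?_, fun h9 => h8 ⟨hne, h9⟩⟩
      exact (h7 _ (mem_powersetCard.2 ⟨erase_subset _ _, by rw [card_erase_of_mem hx, h6]⟩)).2
    · rintro ⟨h7, h8⟩
      refine ⟨fun T hT => ?_, fun h9 => h8 h9.2⟩
      obtain ⟨h9, h10⟩ := mem_powersetCard.1 hT
      refine ⟨card_pos.1 (by omega), ?_⟩
      have h11 : (S \ T).card = 1 := by
        rw [card_sdiff_of_subset h9, h6, h10]
        omega
      obtain ⟨x, hx⟩ := card_eq_one.1 h11
      have hxS : x ∈ S \ T := by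
        rw [hx]
        exact mem_singleton_self x
      obtain ⟨h12, h13⟩ := mem_sdiff.1 hxS
      exact (h7 x h12).mono fun i hi => mem_erase.2 ⟨fun e => h13 (e ▸ hi), h9 hi⟩

theorem choose_id {s m : ℕ} : (s + m).choose 2 = s.choose 2 + m * s + m.choose 2 := by
  induction m with
  | zero => simp
  | succ m ih =>
    have e1 : (s + m + 1).choose 2 = (s + m).choose 1 + (s + m).choose 2 :=
      Nat.choose_succ_succ (s + m) 1
    have e2 : (m + 1).choose 2 = m.choose 1 + m.choose 2 := Nat.choose_succ_succ m 1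
    rw [Nat.choose_one_right] at e1 e2
    rw [← Nat.add_assoc, e1, e2, ih]
    ring

/-- Sufficiency. -/
theorem sufficient (hd : 4 ≤ d) (h : (m + 1 = t ∧ a = t.choose 2) ∨
    (m + 2 ≤ t ∧ m * t ≤ a + (m + 1).choose 2 ∧ a + 1 ≤ t.choose 2)) :
    ∃ V : Finset (Eu d), IsPolytope V ∧ IsSimplicial V ∧ V.card = d + t ∧
      (emptySimplices V 1).card = a ∧ (emptySimplices V (d - 1)).card = m := by
  rcases h with ⟨rfl, rfl⟩ | ⟨h1, h2, h3⟩
  · exact (stacked_st (by omega) m).exists_polytope (by omega)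
  · obtain ⟨s, rfl⟩ : ∃ s, t = s + m := ⟨t - m, by omega⟩
    have e2 : (m + 1).choose 2 = m.choose 1 + m.choose 2 := Nat.choose_succ_succ m 1
    rw [Nat.choose_one_right] at e2
    have e3 : m * m = m + 2 * m.choose 2 := by
      have h4 := Nat.choose_two_right m
      have h5 : 2 * m.choose 2 = m * (m - 1) := by
        rw [h4]
        exact Nat.mul_div_cancel' (Nat.even_mul_pred_self m).two_dvd
      rw [h5]
      rcases m with _ | m
      · rfl
      · rw [Nat.add_sub_cancel]
        ring
    have e4 : m * (s + m) = m * s + m * m := by ring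
    have h5 : m * s + m.choose 2 ≤ a := by omega
    obtain ⟨a0, rfl⟩ : ∃ a0, a = a0 + m * s + m.choose 2 := ⟨a - (m * s + m.choose 2), by omega⟩
    rw [choose_id] at h3
    have key : ∀ {β : Type} [DecidableEq β] [Infinite β], Pr β 4 s a0 →
        ∃ V : Finset (Eu d), IsPolytope V ∧ IsSimplicial V ∧ V.card = d + (s + m) ∧
          (emptySimplices V 1).card = a0 + m * s + m.choose 2 ∧
          (emptySimplices V (d - 1)).card = m := by
      intro β _ _ h6
      have h7 := ((h6.susp_iter hd).toSt.stack_iter (by omega) m).exists_polytope (by omega)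
      rwa [Nat.zero_add] at h7
    rcases exists_pr s (by omega) a0 (by omega) with h6 | h6
    · exact key h6
    · exact key h6

end Pool.Agent.ES85
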