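import Pool.Agent.Lib.MP_e9c977_fv.Key

/-!
# Simplicial configurations are infinitesimally rigid, in all dimensions at least three
-/

set_option autoImplicit false

namespace Pool.Agent.ES85

open Module Pool.Agent.FV
open scoped Classical

variable {E : Type} [NormedAddCommGroup E] [InnerProductSpace ℝ E]

/-- All proper faces are simplices. -/
def Simp (V : Finset E) : Prop := ∀ S, FaceSet V S → S ≠ V → S.card = adim S + 1

theorem Simp.sub {V S T : Finset E} (hs : Simp V) (hS : FaceSet V S) (hSV : S ≠ V)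
    (hT : T.Nonempty) (hTS : T ⊆ S) : FaceSet V T :=
  hS.of_subset_simplex (hs S hS hSV) hT hTS

theorem Simp.facet {V F : Finset E} {k : ℕ} (hs : Simp V) (hF : F ∈ faces V k) (hk : adim V ≠ k) :
    FaceSet V F ∧ F ≠ V ∧ F.card = k + 1 := by
  obtain ⟨h1, h2⟩ := mem_faces.1 hF
  have h3 : F ≠ V := by
    rintro rfl
    exact hk h2
  exact ⟨h1, h3, by rw [hs F h1 h3, h2]⟩

/-- All pairs in a proper face are braced when the edges are. -/
theorem Simp.braced {V F : Finset E} (hs : Simp V) {q : E → E}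
    (hq : ∀ B ∈ faces V 1, Braced q B) (hF : FaceSet V F) (hFV : F ≠ V) : Braced q F := by
  intro x hx y hy
  by_cases hxy : x = y
  · subst hxy
    simp
  · have h1 : FaceSet V {x, y} := hs.sub hF hFV (Finset.insert_nonempty _ _) (by
      intro z hz
      rcases Finset.mem_insert.1 hz with rfl | hz
      · exact hx
      · rw [Finset.mem_singleton.1 hz]
        exact hy)
    exact hq {x, y} (mem_faces.2 ⟨h1, adim_pair hxy⟩) x (by simp) y (by simp)

/-- Transport along an affine isometry. -/
theorem transport {d : ℕ} {E' : Type} [NormedAddCommGroup E'] [InnerProductSpace ℝ E']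
    (hE' : ∀ V' : Finset E', ConvPos V' → Simp V' → adim V' = d → ∀ q' : E' → E',
      (∀ B ∈ faces V' 1, Braced q' B) → Braced q' V')
    {V : Finset E} (hV : ConvPos V) (hs : Simp V) (h3 : adim V = d)
    (L : vectorSpan ℝ (V : Set E) ≃ₗᵢ[ℝ] E') {q : E → E}
    (hq : ∀ B ∈ faces V 1, Braced q B) : Braced q V := by
  let P : E →ₗ[ℝ] vectorSpan ℝ (V : Set E) :=
    ((vectorSpan ℝ (V : Set E)).orthogonalProjectionOnto : E →L[ℝ] _)
  have hP : ∀ z : vectorSpan ℝ (V : Set E), P (z : E) = z := fun z =>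
    Submodule.orthogonalProjectionOnto_mem_subspace_eq_self z
  let φ : E → E' := fun x => L (P x)
  have hφ : ∀ x ∈ V, ∀ y ∈ V, ∀ z : vectorSpan ℝ (V : Set E), (z : E) = x - y →
      φ x - φ y = L z := by
    intro x _ y _ z hz
    show L (P x) - L (P y) = L z
    rw [← map_sub, ← map_sub, ← hz, hP]
  obtain ⟨hinj, hadim, hface⟩ := faceSet_image φ L hφ
  let q' : E' → E' := fun y => if h : ∃ x ∈ V, φ x = y then L (P (q h.choose)) else 0
  have hq' : ∀ x ∈ V, q' (φ x) = L (P (q x)) := by
    intro x hx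
    have h : ∃ x' ∈ V, φ x' = φ x := ⟨x, hx, rfl⟩
    have h1 : h.choose = x := hinj h.choose_spec.1 hx h.choose_spec.2
    show (if h : ∃ x' ∈ V, φ x' = φ x then L (P (q h.choose)) else 0) = _
    rw [dif_pos h, h1]
  have hinner : ∀ x ∈ V, ∀ y ∈ V,
      inner ℝ (φ x - φ y) (q' (φ x) - q' (φ y)) = inner ℝ (x - y) (q x - q y) := by
    intro x hx y hy
    rw [hq' x hx, hq' y hy, hφ x hx y hy ⟨x -ᵥ y, vsub_mem_vectorSpan ℝ hx hy⟩ rfl, ← map_sub,
      ← map_sub, LinearIsometryEquiv.inner_map_map]
    exact Submodule.inner_orthogonalProjectionOnto_eq_of_mem_left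
      (⟨x -ᵥ y, vsub_mem_vectorSpan ℝ hx hy⟩ : vectorSpan ℝ (V : Set E)) (q x - q y)
  have hbr : ∀ S ⊆ V, (Braced q' (S.image φ) ↔ Braced q S) := by
    intro S hS
    constructor
    · intro h x hx y hy
      rw [← hinner x (hS hx) y (hS hy)]
      exact h _ (Finset.mem_image_of_mem _ hx) _ (Finset.mem_image_of_mem _ hy)
    · intro h x' hx' y' hy'
      obtain ⟨x, hx, rfl⟩ := Finset.mem_image.1 hx'
      obtain ⟨y, hy, rfl⟩ := Finset.mem_image.1 hy'
      rw [hinner x (hS hx) y (hS hy)]
      exact h x hx y hy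
  have hpre : ∀ R' : Finset E', R' ⊆ V.image φ →
      ∃ R ⊆ V, R' = R.image φ := by
    intro R' hR'
    refine ⟨V.filter (fun x => φ x ∈ R'), Finset.filter_subset _ _, ?_⟩
    ext y
    constructor
    · intro hy
      obtain ⟨x, hx, rfl⟩ := Finset.mem_image.1 (hR' hy)
      exact Finset.mem_image_of_mem _ (Finset.mem_filter.2 ⟨hx, hy⟩)
    · intro hy
      obtain ⟨x, hx, rfl⟩ := Finset.mem_image.1 hy
      exact (Finset.mem_filter.1 hx).2
  have hmain : Braced q' (V.image φ) := by
    apply hE'
    · intro y hy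
      obtain ⟨x, hx, rfl⟩ := Finset.mem_image.1 hy
      have h1 := (hface {x} (by simpa using hx)).2 (hV x hx)
      rwa [Finset.image_singleton] at h1
    · intro R' hR' hne
      obtain ⟨R, hRV, rfl⟩ := hpre R' hR'.2.1
      rw [hadim R hRV, Finset.card_image_of_injOn (hinj.mono (Finset.coe_subset.2 hRV))]
      exact hs R ((hface R hRV).1 hR') fun e => hne (by rw [e])
    · rw [hadim V (Finset.Subset.refl _), h3]
    · intro R' hR'
      rw [mem_faces] at hR'
      obtain ⟨R, hRV, rfl⟩ := hpre R' hR'.1.2.1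
      rw [hbr R hRV]
      exact hq R (mem_faces.2 ⟨(hface R hRV).1 hR'.1, by rw [← hadim R hRV]; exact hR'.2⟩)
  exact (hbr V (Finset.Subset.refl _)).1 hmain

/-- A face and its link. -/
theorem link_face {V : Finset E} (hV : ConvPos V) (hs : Simp V) {u : E} (hu : u ∈ V)
    {g : E →ₗ[ℝ] ℝ} (hg : Cuts g V u) {S : Finset E} (hS : S ⊆ nbr V u) (hne : S.Nonempty) :
    (FaceSet (vfig g V u) (S.image (rad g u)) ∧ S.image (rad g u) ≠ vfig g V u) ↔
      (FaceSet V (insert u S) ∧ insert u S ≠ V) := by
  have hinj := rad_injOn hV hu hg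
  have himg : ∀ S ⊆ nbr V u, ∀ T ⊆ nbr V u, S.image (rad g u) = T.image (rad g u) → S = T := by
    intro S hS T hT e
    ext x
    constructor
    · intro hx
      obtain ⟨y, hy, e1⟩ := Finset.mem_image.1 (e ▸ Finset.mem_image_of_mem (rad g u) hx)
      exact hinj (hT hy) (hS hx) e1 ▸ hy
    · intro hx
      obtain ⟨y, hy, e1⟩ := Finset.mem_image.1 (e ▸ Finset.mem_image_of_mem (rad g u) hx)
      exact hinj (hS hy) (hT hx) e1 ▸ hy
  have huS : u ∉ S := fun h => (Finset.mem_erase.1 (nbr_subset (hS h))).1 rfl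
  constructor
  · rintro ⟨h1, h2⟩
    obtain ⟨S0, hS0, hu0, hd0, e⟩ := exists_vface hV hu hg h1
    have h3 : S0 ∩ nbr V u = S := himg _ Finset.inter_subset_right _ hS e
    have h4 : S0 ≠ V := by
      rintro rfl
      apply h2
      rw [← h3]
      unfold vfig
      congr 1
      exact Finset.inter_eq_right.2 (nbr_subset.trans (Finset.erase_subset _ _))
    have h5 : insert u S = S0 := by
      ext x
      rw [Finset.mem_insert]
      constructor
      · rintro (rfl | hx)
        · exact hu0
        · rw [← h3] at hx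
          exact (Finset.mem_inter.1 hx).1
      · intro hx
        by_cases hxu : x = u
        · exact Or.inl hxu
        · right
          rw [← h3]
          refine Finset.mem_inter.2 ⟨hx, mem_nbr.2 ⟨hxu, ?_⟩⟩
          exact hs.sub hS0 h4 (Finset.insert_nonempty _ _) (by
            intro z hz
            rcases Finset.mem_insert.1 hz with rfl | hz
            · exact hu0
            · rw [Finset.mem_singleton.1 hz]
              exact hx)
    rw [h5]
    exact ⟨hS0, h4⟩
  · rintro ⟨h1, h2⟩
    have hmem : u ∈ insert u S := Finset.mem_insert_self _ _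
    have h3 : (insert u S).card = adim (insert u S) + 1 := hs _ h1 h2
    rw [Finset.card_insert_of_notMem huS] at h3
    have h4 : 1 ≤ adim (insert u S) := by
      have := hne.card_pos
      omega
    have h5 := faceSet_vface hV hu hg h1 hmem h4
    have h6 : vface g V u (insert u S) = S.image (rad g u) := by
      unfold vface
      congr 1
      rw [Finset.insert_inter_of_notMem (fun h => (Finset.mem_erase.1 (nbr_subset h)).1 rfl)]
      exact Finset.inter_eq_left.2 hS
    rw [h6] at h5
    refine ⟨h5, fun e => h2 ?_⟩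
    have h7 := adim_vface hV hu hg h1 hmem h4
    rw [h6, e] at h7
    have h8 := adim_vfig hV hu hg (by
      have := adim_mono h1.2.1
      omega)
    exact h1.eq_of_adim h1.2.1 (Finset.Subset.refl _) (by omega)

/-- The vertex figures are simplicial. -/
theorem Simp.vfig {V : Finset E} (hV : ConvPos V) (hs : Simp V) {u : E} (hu : u ∈ V)
    {g : E →ₗ[ℝ] ℝ} (hg : Cuts g V u) : Simp (FV.vfig g V u) := by
  intro S' h1 h2
  have hinj := rad_injOn hV hu hg
  obtain ⟨S, hS, rfl⟩ : ∃ S ⊆ nbr V u, S' = S.image (rad g u) := by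
    refine ⟨(nbr V u).filter (fun x => rad g u x ∈ S'), Finset.filter_subset _ _, ?_⟩
    ext y
    constructor
    · intro hy
      obtain ⟨x, hx, rfl⟩ := Finset.mem_image.1 (h1.2.1 hy)
      exact Finset.mem_image_of_mem _ (Finset.mem_filter.2 ⟨hx, hy⟩)
    · intro hy
      obtain ⟨x, hx, rfl⟩ := Finset.mem_image.1 hy
      exact (Finset.mem_filter.1 hx).2
  have hne : S.Nonempty := Finset.image_nonempty.1 h1.1
  obtain ⟨h3, h4⟩ := (link_face hV hs hu hg hS hne).1 ⟨h1, h2⟩
  have huS : u ∉ S := fun h => (Finset.mem_erase.1 (nbr_subset (hS h))).1 rfl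
  have h5 := hs _ h3 h4
  rw [Finset.card_insert_of_notMem huS] at h5
  have h6 : vface g V u (insert u S) = S.image (rad g u) := by
    unfold vface
    congr 1
    rw [Finset.insert_inter_of_notMem (fun h => (Finset.mem_erase.1 (nbr_subset h)).1 rfl)]
    exact Finset.inter_eq_left.2 hS
  have h7 := adim_vface hV hu hg h3 (Finset.mem_insert_self _ _) (by
    have := hne.card_pos
    omega)
  rw [h6] at h7
  rw [Finset.card_image_of_injOn (hinj.mono (Finset.coe_subset.2 hS))]
  omega

end Pool.Agent.ES85
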