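import Pool.Agent.Lib.ES85.Rig

/-!
# Rigidity of simplicial configurations: stars and gluing
-/

set_option autoImplicit false

namespace Pool.Agent.ES85

open Module Pool.Agent.FV
open scoped Classical

variable {E : Type} [NormedAddCommGroup E] [InnerProductSpace ℝ E]

/-- Star of a vertex. -/
theorem star_braced {d : ℕ} (hd : 3 ≤ d)
    (ih : ∀ V' : Finset E, ConvPos V' → Simp V' → adim V' = d → ∀ q' : E → E,
      (∀ B ∈ faces V' 1, Braced q' B) → Braced q' V')
    {V : Finset E} (hV : ConvPos V) (hs : Simp V) (h4 : adim V = d + 1) {q : E → E}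
    {u : E} (hu : u ∈ V) (hq : ∀ B ∈ faces V 1, B ⊆ insert u (nbr V u) →
      FaceSet V (insert u B) → Braced q B) :
    Braced q (insert u (nbr V u)) := by
  obtain ⟨g, hg⟩ := exists_cuts hV hu
  have hnbrV : ∀ w ∈ nbr V u, w ∈ V ∧ w ≠ u := by
    intro w hw
    have h1 := nbr_subset hw
    rw [Finset.mem_erase] at h1
    exact ⟨h1.2, h1.1⟩
  have hpos : ∀ w ∈ nbr V u, 0 < g (w - u) := fun w hw => hg w (hnbrV w hw).1 (hnbrV w hw).2
  let q' : E → E := fun z => if h : ∃ w ∈ nbr V u, rad g u w = z then
    (g (h.choose - u))⁻¹ • (q h.choose - q u) else 0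
  have hinj := rad_injOn hV hu hg
  have hq' : ∀ w ∈ nbr V u, q' (rad g u w) = (g (w - u))⁻¹ • (q w - q u) := by
    intro w hw
    have h : ∃ w' ∈ nbr V u, rad g u w' = rad g u w := ⟨w, hw, rfl⟩
    have h1 : h.choose = w := hinj h.choose_spec.1 hw h.choose_spec.2
    show (if h : ∃ w' ∈ nbr V u, rad g u w' = rad g u w then
      (g (h.choose - u))⁻¹ • (q h.choose - q u) else 0) = _
    rw [dif_pos h, h1]
  -- the symmetric form
  set B : E → E → ℝ := fun x y => inner ℝ (x - u) (q y - q u) + inner ℝ (y - u) (q x - q u) with hB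
  have hB' : ∀ x ∈ nbr V u, ∀ y ∈ nbr V u,
      inner ℝ (rad g u x - rad g u y) (q' (rad g u x) - q' (rad g u y)) =
        (g (x - u))⁻¹ * (g (x - u))⁻¹ * (B x x / 2) + (g (y - u))⁻¹ * (g (y - u))⁻¹ * (B y y / 2) -
          (g (x - u))⁻¹ * (g (y - u))⁻¹ * B x y := by
    intro x hx y hy
    rw [hq' x hx, hq' y hy]
    simp only [rad, hB, inner_sub_left, inner_sub_right, inner_smul_left, inner_smul_right,
      RCLike.conj_to_real]
    ring
  have hedge : ∀ x ∈ nbr V u, Braced q {u, x} := by
    intro x hx
    have h1 := mem_nbr.1 hx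
    refine hq _ (mem_faces.2 ⟨h1.2, adim_pair h1.1.symm⟩) ?_ (by simpa using h1.2)
    intro z hz
    rcases Finset.mem_insert.1 hz with rfl | hz
    · exact Finset.mem_insert_self _ _
    · rw [Finset.mem_singleton.1 hz]
      exact Finset.mem_insert_of_mem hx
  have hdiag : ∀ x ∈ nbr V u, B x x = 0 := by
    intro x hx
    exact (braced_insert_iff.1 (hedge x hx)) x (by simp) x (by simp)
  have htri : ∀ x ∈ nbr V u, ∀ y ∈ nbr V u, x ≠ y → FaceSet V (insert u {x, y}) → B x y = 0 := by
    intro x hx y hy hxy hf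
    have hne : insert u {x, y} ≠ V := by
      intro e
      have h1 : (insert u {x, y} : Finset E).card ≤ 3 := Finset.card_le_three
      have h2 := adim_add_one_le_card hf.1
      rw [e] at h1 h2
      omega
    have h1 : Braced q {x, y} := by
      refine hq _ (mem_faces.2 ⟨hs.sub hf hne (Finset.insert_nonempty _ _)
        (Finset.subset_insert _ _), adim_pair hxy⟩) ?_ hf
      intro z hz
      rcases Finset.mem_insert.1 hz with rfl | hz
      · exact Finset.mem_insert_of_mem hx
      · rw [Finset.mem_singleton.1 hz]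
        exact Finset.mem_insert_of_mem hy
    have h2 := h1 x (by simp) y (by simp)
    have h3 := hdiag x hx
    have h4 := hdiag y hy
    simp only [hB] at h3 h4 ⊢
    have e1 : x - y = (x - u) - (y - u) := by abel
    have e2 : q x - q y = (q x - q u) - (q y - q u) := by abel
    rw [e1, e2] at h2
    simp only [inner_sub_left, inner_sub_right] at h2 h3 h4 ⊢
    linarith
  have hbr : Braced q' (FV.vfig g V u) := by
    refine ih _ (convPos_vfig hV hu hg) (Simp.vfig hV hs hu hg) ?_ q' ?_
    · have := adim_vfig hV hu hg (by omega)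
      omega
    · intro U hU
      obtain ⟨x', y', hxy', rfl, hU'⟩ := (mem_faces_one (convPos_vfig hV hu hg)).1 hU
      obtain ⟨x, hx, rfl⟩ := Finset.mem_image.1 (hU'.2.1 (by simp : x' ∈ ({x', y'} : Finset E)))
      obtain ⟨y, hy, rfl⟩ := Finset.mem_image.1 (hU'.2.1 (by simp : y' ∈ ({rad g u x, y'} : Finset E)))
      have hxy : x ≠ y := fun e => hxy' (by rw [e])
      have hS : ({x, y} : Finset E) ⊆ nbr V u := by
        intro z hz
        rcases Finset.mem_insert.1 hz with rfl | hz
        · exact hx
        · rw [Finset.mem_singleton.1 hz]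
          exact hy
      have himg : ({x, y} : Finset E).image (rad g u) = {rad g u x, rad g u y} := by
        rw [Finset.image_insert, Finset.image_singleton]
      have hne : ({x, y} : Finset E).image (rad g u) ≠ FV.vfig g V u := by
        intro e
        have h1 := adim_vfig hV hu hg (by omega)
        rw [← e, himg, adim_pair hxy'] at h1
        omega
      have h2 := ((link_face hV hs hu hg hS (Finset.insert_nonempty _ _)).1
        ⟨by rw [himg]; exact hU', hne⟩).1
      rw [braced_pair_iff, hB' x hx y hy, hdiag x hx, hdiag y hy, htri x hx y hy hxy h2]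
      ring
  rw [braced_insert_iff]
  intro x hx y hy
  have h1 := hbr (rad g u x) (Finset.mem_image_of_mem _ hx) (rad g u y)
    (Finset.mem_image_of_mem _ hy)
  rw [hB' x hx y hy, hdiag x hx, hdiag y hy] at h1
  have h2 : (g (x - u))⁻¹ * (g (y - u))⁻¹ ≠ 0 :=
    mul_ne_zero (inv_ne_zero (hpos x hx).ne') (inv_ne_zero (hpos y hy).ne')
  have h3 : (g (x - u))⁻¹ * (g (y - u))⁻¹ * B x y = 0 := by linarith
  exact (mul_eq_zero.1 h3).resolve_left h2

/-- A skew map which vanishes on a hyperplane is zero. -/
theorem skew_zero [FiniteDimensional ℝ E] {n : ℕ} (hE : finrank ℝ E = n + 1) {A : E →ₗ[ℝ] E}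
    (hA : Skew A) {W : Submodule ℝ E} (hW : n ≤ finrank ℝ W) (h : ∀ w ∈ W, A w = 0) : A = 0 := by
  have h1 := Submodule.finrank_add_finrank_orthogonal W
  rw [hE] at h1
  have h2 : ∀ n ∈ Wᗮ, A n = 0 := by
    intro n hn
    have h3 : A n ∈ Wᗮ := by
      rw [Submodule.mem_orthogonal]
      intro w hw
      rw [real_inner_comm, Skew.inner_left hA, h w hw, inner_zero_left, neg_zero]
    by_cases hn0 : n = 0
    · rw [hn0, map_zero]
    have h4 : finrank ℝ Wᗮ = 1 := by
      have h5 : 0 < finrank ℝ Wᗮ := by
        rw [Module.finrank_pos_iff_exists_ne_zero]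
        exact ⟨⟨n, hn⟩, fun hh => hn0 (congrArg Subtype.val hh)⟩
      omega
    obtain ⟨c, hc⟩ := (finrank_eq_one_iff_of_nonzero' (⟨n, hn⟩ : Wᗮ)
      (fun hh => hn0 (congrArg Subtype.val hh))).mp h4 ⟨A n, h3⟩
    have h5 : c • n = A n := congrArg Subtype.val hc
    have h6 := hA n
    rw [← h5, inner_smul_left] at h6
    rcases mul_eq_zero.mp h6 with h7 | h7
    · have : c = 0 := by simpa using h7
      rw [← h5, this, zero_smul]
    · exact absurd (inner_self_eq_zero.mp h7) hn0
  ext x
  obtain ⟨y, hy, z, hz, rfl⟩ := Submodule.exists_add_mem_mem_orthogonal (K := W) x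
  rw [map_add, h y hy, h2 z hz, add_zero, LinearMap.zero_apply]

/-- Gluing the stars. -/
theorem glue [FiniteDimensional ℝ E] {n : ℕ} (hn : 2 ≤ n) (hE : finrank ℝ E = n + 1)
    {V : Finset E} (hV : ConvPos V) (hs : Simp V) (h4 : adim V = n + 1) {q : E → E}
    (hstar0 : ∀ u ∈ V, Braced q (insert u (nbr V u))) : Braced q V := by
  have hVne : V.Nonempty := by
    by_contra h
    rw [Finset.not_nonempty_iff_eq_empty] at h
    rw [h, adim, Finset.coe_empty, vectorSpan_empty, finrank_bot] at h4
    omega
  have htop : vectorSpan ℝ (V : Set E) = ⊤ := vectorSpan_eq_top (h4.trans hE.symm)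
  have hstar : ∀ u ∈ V, ∃ A : E →ₗ[ℝ] E, Skew A ∧ ∀ x ∈ nbr V u, q x - q u = A (x - u) := by
    intro u hu
    obtain ⟨A, hA, h⟩ := exists_motion (hstar0 u hu)
    refine ⟨A, hA, fun x hx => ?_⟩
    rw [vectorSpan_insert_nbr hV hu, htop] at h
    have h1 := h x (Finset.mem_insert_of_mem hx) u (Finset.mem_insert_self _ _)
      (q x - q u - A (x - u)) Submodule.mem_top
    rw [inner_self_eq_zero, sub_eq_zero] at h1
    exact h1
  choose! A hA hAq using hstar
  have hadj : ∀ u ∈ V, ∀ v ∈ nbr V u, A u = A v := by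
    intro u hu v hv
    have hvV : v ∈ V := (Finset.mem_erase.1 (nbr_subset hv)).2
    obtain ⟨hvu, hface⟩ := mem_nbr.1 hv
    obtain ⟨F, hF, hsub⟩ := exists_face_between hface (i := n)
      (by rw [adim_pair hvu.symm]; omega) (by omega)
    obtain ⟨hF1, hF2, hF3⟩ := hs.facet hF (by omega)
    have hin : ∀ w ∈ F, ∀ x ∈ F, x ≠ w → x ∈ nbr V w := by
      intro w hw x hx hxw
      refine mem_nbr.2 ⟨hxw, hs.sub hF1 hF2 (Finset.insert_nonempty _ _) ?_⟩
      intro z hz
      rcases Finset.mem_insert.1 hz with rfl | hz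
      · exact hw
      · rw [Finset.mem_singleton.1 hz]
        exact hx
    have huF : u ∈ F := hsub (by simp)
    have hvF : v ∈ F := hsub (by simp)
    have hdiff : ∀ w ∈ V, w ∈ F → ∀ x ∈ F, q x - q w = A w (x - w) := by
      intro w hwV hw x hx
      by_cases hxw : x = w
      · rw [hxw]; simp
      · exact hAq w hwV x (hin w hw x hx hxw)
    set C : E →ₗ[ℝ] E := A u - A v with hC
    have hskew : Skew C := by
      intro z
      rw [hC, LinearMap.sub_apply, inner_sub_left, hA u hu z, hA v hvV z, sub_zero]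
    have hzero : C = 0 := by
      refine skew_zero hE hskew (W := vectorSpan ℝ (F : Set E)) ?_ ?_
      · exact (mem_faces.1 hF).2.ge
      · intro w hw
        rw [vectorSpan_def] at hw
        induction hw using Submodule.span_induction with
        | mem z hz =>
          obtain ⟨x, hx, y, hy, rfl⟩ := hz
          change C (x - y) = 0
          have e1 : A u (x - y) = q x - q y := by
            have := hdiff u hu huF x hx
            have h' := hdiff u hu huF y hy
            have e : x - y = (x - u) - (y - u) := by abel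
            rw [e, map_sub, ← this, ← h']
            abel
          have e2 : A v (x - y) = q x - q y := by
            have := hdiff v hvV hvF x hx
            have h' := hdiff v hvV hvF y hy
            have e : x - y = (x - v) - (y - v) := by abel
            rw [e, map_sub, ← this, ← h']
            abel
          rw [hC, LinearMap.sub_apply, e1, e2, sub_self]
        | zero => exact map_zero C
        | add y z _ _ hy hz => rw [map_add, hy, hz, add_zero]
        | smul a y _ hy => rw [map_smul, hy, smul_zero]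
    exact sub_eq_zero.1 hzero
  obtain ⟨x0, hx0⟩ := hVne
  set M : Finset E := V.filter (fun x => A x = A x0 ∧ q x - q x0 = A x0 (x - x0)) with hM
  have hMV : M = V := by
    refine eq_of_closed hV (Finset.filter_subset _ _) ⟨x0, ?_⟩ ?_
    · rw [hM, Finset.mem_filter]
      exact ⟨hx0, rfl, by simp⟩
    · intro x hx w hw
      rw [hM, Finset.mem_filter] at hx ⊢
      obtain ⟨hxV, h1, h2⟩ := hx
      have hwV : w ∈ V := (Finset.mem_erase.1 (nbr_subset hw)).2
      refine ⟨hwV, ?_, ?_⟩
      · rw [← hadj x hxV w hw, h1]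
      · have h3 := hAq x hxV w hw
        rw [h1] at h3
        have h4 : q w - q x0 = (q w - q x) + (q x - q x0) := by abel
        rw [h4, h3, h2, ← map_add]
        congr 1
        abel
  have hall : ∀ x ∈ V, q x - q x0 = A x0 (x - x0) := by
    intro x hx
    rw [← hMV, hM, Finset.mem_filter] at hx
    exact hx.2.2
  intro x hx y hy
  have h1 : q x - q y = A x0 (x - y) := by
    have h2 : q x - q y = (q x - q x0) - (q y - q x0) := by abel
    rw [h2, hall x hx, hall y hy, ← map_sub]
    congr 1
    abel
  rw [h1, real_inner_comm]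
  exact hA x0 hx0 (x - y)

/-- Simplicial configurations of dimension at least three are braced by their edges. -/
theorem braced_all (d : ℕ) (hd : 3 ≤ d) : ∀ (E : Type) [NormedAddCommGroup E]
    [InnerProductSpace ℝ E] (V : Finset E), ConvPos V → Simp V → adim V = d → ∀ q : E → E,
      (∀ B ∈ faces V 1, Braced q B) → Braced q V := by
  induction d, hd using Nat.le_induction with
  | base =>
    intro E _ _ V hV hs h3 q hq
    refine braced_three hV h3 fun R hR => ?_
    obtain ⟨h1, h2⟩ := mem_faces.1 hR
    exact hs.braced hq h1 (by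
      rintro rfl
      omega)
  | succ d hd ih =>
    intro E _ _ V hV hs h4 q hq
    have hdim : finrank ℝ (vectorSpan ℝ (V : Set E)) = d + 1 := h4
    have hfin : FiniteDimensional ℝ (vectorSpan ℝ (V : Set E)) :=
      finiteDimensional_vectorSpan_of_finite ℝ (Finset.finite_toSet V)
    let L : vectorSpan ℝ (V : Set E) ≃ₗᵢ[ℝ] EuclideanSpace ℝ (Fin (d + 1)) :=
      ((stdOrthonormalBasis ℝ (vectorSpan ℝ (V : Set E))).reindex (finCongr hdim)).repr
    refine transport (d := d + 1) (fun V' h1 h2 h3 q' h5 => ?_) hV hs h4 L hq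
    exact glue (by omega) (by simp) h1 h2 h3 fun u hu =>
      star_braced hd (fun V'' => ih _ V'') h1 h2 h3 hu fun B hB _ _ => h5 B hB

end Pool.Agent.ES85
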