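import Pool.Agent.Lib.ES85.Rig2

/-!
# The lower bound inequality and the links of tight configurations
-/

set_option autoImplicit false

namespace Pool.Agent.ES85

open Module Pool.Agent.FV Pool.Agent.FV.MOAux
open scoped Classical

variable {E : Type} [NormedAddCommGroup E] [InnerProductSpace ℝ E]

theorem card_lt_pairs (m : ℕ) :
    Fintype.card {p : Fin m × Fin m // p.1 < p.2} = m.choose 2 := by
  rw [Fintype.card_subtype]
  have h : (Finset.univ.filter (fun p : Fin m × Fin m => p.1 < p.2)).card =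
      ∑ j : Fin m, (j : ℕ) := by
    rw [Finset.card_eq_sum_card_fiberwise (f := fun p : Fin m × Fin m => p.2)
      (t := (Finset.univ : Finset (Fin m))) (fun _ _ => Finset.mem_univ _)]
    refine Finset.sum_congr rfl fun j _ => ?_
    rw [← Fin.card_Iio j]
    refine Finset.card_bij (fun p _ => p.1) ?_ ?_ ?_
    · intro p hp
      simp only [Finset.mem_filter, Finset.mem_univ, true_and] at hp
      rw [Finset.mem_Iio]
      rw [← hp.2]
      exact hp.1
    · intro p hp q hq e
      simp only [Finset.mem_filter, Finset.mem_univ, true_and] at hp hq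
      exact Prod.ext e (hp.2.trans hq.2.symm)
    · intro i hi
      refine ⟨(i, j), ?_, rfl⟩
      simp only [Finset.mem_filter, Finset.mem_univ, true_and, and_true]
      exact Finset.mem_Iio.1 hi
  rw [h, Fin.sum_univ_eq_sum_range (fun i => i) m, Finset.sum_range_id, Nat.choose_two_right]

theorem finrank_skew {m : ℕ} [FiniteDimensional ℝ E] (hE : finrank ℝ E = m) :
    finrank ℝ (skewSub E) = m.choose 2 := by
  let b : OrthonormalBasis (Fin m) ℝ E := (stdOrthonormalBasis ℝ E).reindex (finCongr hE)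
  let ι := {p : Fin m × Fin m // p.1 < p.2}
  let Λ : skewSub E →ₗ[ℝ] (ι → ℝ) :=
    { toFun := fun A p => inner ℝ (A.1 (b p.1.1)) (b p.1.2)
      map_add' := fun A B => by
        funext p
        simp [inner_add_left]
      map_smul' := fun c A => by
        funext p
        simp [inner_smul_left] }
  have hΛ : ∀ (A : skewSub E) (p : ι), Λ A p = inner ℝ (A.1 (b p.1.1)) (b p.1.2) := fun _ _ => rfl
  have hb : ∀ i j, inner ℝ (b i) (b j) = if i = j then (1 : ℝ) else 0 :=
    fun i j => orthonormal_iff_ite.mp b.orthonormal i j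
  have hinj : Function.Injective Λ := by
    rw [← LinearMap.ker_eq_bot, LinearMap.ker_eq_bot']
    intro A hA
    have h1 : ∀ i j, i < j → inner ℝ (A.1 (b i)) (b j) = 0 := by
      intro i j hij
      have := congrFun hA ⟨(i, j), hij⟩
      exact this
    have h2 : ∀ i j, inner ℝ (A.1 (b i)) (b j) = 0 := by
      intro i j
      rcases lt_trichotomy i j with h | h | h
      · exact h1 i j h
      · rw [h]; exact A.2 _
      · rw [Skew.inner_left A.2, h1 j i h, neg_zero]
    refine Subtype.ext (b.toBasis.ext fun i => ?_)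
    rw [OrthonormalBasis.coe_toBasis]
    refine ext_inner_right ℝ fun v => ?_
    rw [← b.sum_repr v, inner_sum, inner_sum]
    refine Finset.sum_congr rfl fun j _ => ?_
    rw [inner_smul_right, h2 i j]
    simp
  have hsurj : Function.Surjective Λ := by
    intro c
    let A : E →ₗ[ℝ] E := ∑ p : ι, c p • ((innerₛₗ ℝ (b p.1.1)).smulRight (b p.1.2) -
      (innerₛₗ ℝ (b p.1.2)).smulRight (b p.1.1))
    have hA : ∀ x, A x = ∑ p : ι, c p • (inner ℝ (b p.1.1) x • b p.1.2 -
        inner ℝ (b p.1.2) x • b p.1.1) := fun x => by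
      simp [A, LinearMap.sum_apply]
    have hsk : Skew A := by
      intro z
      rw [hA, sum_inner]
      refine Finset.sum_eq_zero fun p _ => ?_
      rw [inner_smul_left, inner_sub_left, inner_smul_left, inner_smul_left]
      simp only [conj_trivial]
      ring
    refine ⟨⟨A, hsk⟩, ?_⟩
    funext p
    rw [hΛ]
    change inner ℝ (A (b p.1.1)) (b p.1.2) = c p
    rw [hA, sum_inner, Finset.sum_eq_single p]
    · rw [inner_smul_left, inner_sub_left, inner_smul_left, inner_smul_left, hb, hb, hb, hb,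
        if_pos rfl, if_pos rfl, if_neg (ne_of_gt p.2), if_neg (ne_of_lt p.2)]
      simp
    · intro r _ hr
      rw [inner_smul_left, inner_sub_left, inner_smul_left, inner_smul_left, hb, hb, hb, hb]
      have h1 : ¬ (r.1.1 = p.1.1 ∧ r.1.2 = p.1.2) := fun h =>
        hr (Subtype.ext (Prod.ext h.1 h.2))
      have h2 : ¬ (r.1.2 = p.1.1 ∧ r.1.1 = p.1.2) := fun h => by
        have h3 := p.2
        have h4 := r.2
        rw [← h.1, ← h.2] at h3
        exact lt_asymm h3 h4
      simp only [conj_trivial, mul_ite, mul_one, mul_zero]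
      by_cases e1 : r.1.1 = p.1.1 <;> by_cases e2 : r.1.2 = p.1.2 <;>
        by_cases e3 : r.1.2 = p.1.1 <;> by_cases e4 : r.1.1 = p.1.2 <;>
        simp_all
    · intro h
      exact absurd (Finset.mem_univ p) h
  have h1 := (LinearEquiv.ofBijective Λ ⟨hinj, hsurj⟩).finrank_eq
  rw [h1, Module.finrank_fintype_fun_eq_card]
  exact card_lt_pairs m

theorem finrank_motions {m : ℕ} [FiniteDimensional ℝ E] (hE : finrank ℝ E = m) :
    finrank ℝ (E × skewSub E) = (m + 1).choose 2 := by
  rw [Module.finrank_prod, hE, finrank_skew hE, Nat.choose_succ_succ' m 1, Nat.choose_one_right]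

theorem finrank_fields {m : ℕ} [FiniteDimensional ℝ E] (hE : finrank ℝ E = m) (X : Finset E) :
    finrank ℝ (X → E) = m * X.card := by
  rw [Module.finrank_pi_fintype]
  simp [hE, mul_comm]

/-- The rigid motions are in the kernel. -/
theorem mot_mem_ker {X : Finset E} {ℬ : Finset (Finset E)} (hB : ∀ B ∈ ℬ, B ⊆ X)
    (p : E × skewSub E) : rig X ℬ (mot X p) = 0 := by
  funext B
  rw [rig_apply, Pi.zero_apply]
  refine ell_braced fun x hx y hy => ?_
  rw [ext0_apply _ (hB B.1 B.2 hx), ext0_apply _ (hB B.1 B.2 hy)]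
  change inner ℝ (x - y) (p.2.1 x + p.1 - (p.2.1 y + p.1)) = 0
  have h1 : p.2.1 x + p.1 - (p.2.1 y + p.1) = p.2.1 (x - y) := by
    rw [map_sub]
    abel
  rw [h1, real_inner_comm]
  exact p.2.2 _

theorem mot_injective [FiniteDimensional ℝ E] {X : Finset E} (hne : X.Nonempty)
    (hX : adim X = finrank ℝ E) : Function.Injective (mot X) := by
  rw [← LinearMap.ker_eq_bot, LinearMap.ker_eq_bot']
  rintro ⟨b, A⟩ hp
  have h1 : ∀ x ∈ X, A.1 x + b = 0 := fun x hx => congrFun hp ⟨x, hx⟩
  have htop : vectorSpan ℝ (X : Set E) = ⊤ := vectorSpan_eq_top hX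
  have hA : A.1 = 0 := by
    have h4 : vectorSpan ℝ (X : Set E) ≤ LinearMap.ker A.1 := by
      rw [vectorSpan_def, Submodule.span_le]
      rintro _ ⟨x, hx, y, hy, rfl⟩
      change A.1 (x - y) = 0
      have h5 := h1 x hx
      have h6 := h1 y hy
      rw [map_sub, ← add_sub_add_right_eq_sub (A.1 x) (A.1 y) b, h5, h6, sub_self]
    rw [htop] at h4
    ext x
    exact h4 (Submodule.mem_top (x := x))
  obtain ⟨x, hx⟩ := hne
  have hb : b = 0 := by
    have := h1 x hx
    rwa [hA, LinearMap.zero_apply, zero_add] at this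
  rw [Prod.mk_eq_zero]
  exact ⟨hb, Subtype.ext hA⟩

theorem ker_le_mot [FiniteDimensional ℝ E] {X : Finset E} (hne : X.Nonempty)
    (hX : adim X = finrank ℝ E) {ℬ : Finset (Finset E)} (h2 : ∀ B ∈ ℬ, B.card = 2)
    (hb : ∀ q : E → E, (∀ B ∈ ℬ, Braced q B) → Braced q X) :
    LinearMap.ker (rig X ℬ) ≤ LinearMap.range (mot X) := by
  intro q hq
  rw [LinearMap.mem_ker] at hq
  have h1 : Braced (ext0 X q) X := by
    refine hb _ fun B hB => ?_
    obtain ⟨x, y, hxy, rfl⟩ := Finset.card_eq_two.1 (h2 B hB)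
    rw [braced_pair_iff]
    have h2 := congrFun hq ⟨_, hB⟩
    rw [rig_apply] at h2
    have h3 : ell {x, y} (ext0 X q) = 0 := h2
    rw [ell_pair hxy] at h3
    linarith
  obtain ⟨A, hA, hAq⟩ := exists_motion h1
  obtain ⟨x0, hx0⟩ := hne
  have htop : vectorSpan ℝ (X : Set E) = ⊤ := vectorSpan_eq_top hX
  refine ⟨(q ⟨x0, hx0⟩ - A x0, ⟨A, hA⟩), ?_⟩
  funext x
  change A x.1 + (q ⟨x0, hx0⟩ - A x0) = q x
  have h2 := hAq x.1 x.2 x0 hx0
  rw [ext0_apply q x.2, ext0_apply q hx0, htop] at h2
  have h3 := h2 _ (Submodule.mem_top (x := q ⟨x.1, x.2⟩ - q ⟨x0, hx0⟩ - A (x.1 - x0)))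
  rw [inner_self_eq_zero, map_sub, sub_eq_zero] at h3
  have h4 : q x = q ⟨x.1, x.2⟩ := rfl
  rw [h4, ← sub_eq_zero]
  rw [← sub_eq_zero] at h3
  rw [← neg_eq_zero, ← h3]
  abel

/-- Rigidity gives many bars. -/
theorem rig_card_ge {m : ℕ} [FiniteDimensional ℝ E] (hE : finrank ℝ E = m) {X : Finset E}
    (hne : X.Nonempty) (hX : adim X = m) {ℬ : Finset (Finset E)} (h2 : ∀ B ∈ ℬ, B.card = 2)
    (hb : ∀ q : E → E, (∀ B ∈ ℬ, Braced q B) → Braced q X) :
    m * X.card ≤ ℬ.card + (m + 1).choose 2 := by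
  have h1 := LinearMap.finrank_range_add_finrank_ker (rig X ℬ)
  rw [finrank_fields hE] at h1
  have h3 : finrank ℝ (LinearMap.ker (rig X ℬ)) ≤ (m + 1).choose 2 := by
    rw [← finrank_motions hE]
    exact (Submodule.finrank_mono (ker_le_mot hne (hX.trans hE.symm) h2 hb)).trans
      (LinearMap.finrank_range_le _)
  have h4 := Submodule.finrank_le (LinearMap.range (rig X ℬ))
  rw [Module.finrank_fintype_fun_eq_card, Fintype.card_coe] at h4
  omega

/-- Independence gives few bars. -/
theorem card_le_of_surj {m : ℕ} [FiniteDimensional ℝ E] (hE : finrank ℝ E = m) {X : Finset E}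
    (hne : X.Nonempty) (hX : adim X = m) {ℬ : Finset (Finset E)} (hB : ∀ B ∈ ℬ, B ⊆ X)
    (hs : Function.Surjective (rig X ℬ)) : ℬ.card + (m + 1).choose 2 ≤ m * X.card := by
  have h1 := LinearMap.finrank_range_add_finrank_ker (rig X ℬ)
  rw [finrank_fields hE, LinearMap.range_eq_top.2 hs, finrank_top,
    Module.finrank_fintype_fun_eq_card, Fintype.card_coe] at h1
  have h3 : (m + 1).choose 2 ≤ finrank ℝ (LinearMap.ker (rig X ℬ)) := by
    rw [← finrank_motions hE, ← LinearMap.finrank_range_of_inj (mot_injective hne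
      (hX.trans hE.symm))]
    refine Submodule.finrank_mono ?_
    rintro _ ⟨p, rfl⟩
    exact mot_mem_ker hB p
  omega

theorem surj_of_surj {V X : Finset E} {ℬ ℬ' : Finset (Finset E)} (hXV : X ⊆ V) (hℬ : ℬ' ⊆ ℬ)
    (hX : ∀ B ∈ ℬ', B ⊆ X) (h : Function.Surjective (rig V ℬ)) :
    Function.Surjective (rig X ℬ') := by
  intro c
  obtain ⟨q, hq⟩ := h (fun B => if h : B.1 ∈ ℬ' then c ⟨B.1, h⟩ else 0)
  refine ⟨fun x => q ⟨x.1, hXV x.2⟩, ?_⟩
  funext B
  have h1 := congrFun hq ⟨B.1, hℬ B.2⟩
  rw [rig_apply] at h1 ⊢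
  rw [dif_pos B.2] at h1
  rw [← h1]
  refine ell_congr fun x hx => ?_
  rw [ext0_apply _ (hX B.1 B.2 hx), ext0_apply _ (hXV (hX B.1 B.2 hx))]

/-- Edges have two elements. -/
theorem card_edge {V B : Finset E} (hV : ConvPos V) (hB : B ∈ faces V 1) : B.card = 2 := by
  obtain ⟨x, y, hxy, rfl, -⟩ := (mem_faces_one hV).1 hB
  exact Finset.card_pair hxy

/-- The lower bound theorem. -/
theorem lbt {d : ℕ} (hd : 3 ≤ d) [FiniteDimensional ℝ E] (hE : finrank ℝ E = d) {V : Finset E}
    (hV : ConvPos V) (hs : Simp V) (h4 : adim V = d) :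
    d * V.card ≤ (faces V 1).card + (d + 1).choose 2 :=
  rig_card_ge hE (FV.MOAux.nonempty_of_adim (k := d - 1) (by omega)) h4 (fun B hB => card_edge hV hB)
    fun q hq => braced_all d hd E V hV hs h4 q hq

/-- Tight configurations: equality in the lower bound theorem. -/
def LTight (d : ℕ) (V : Finset E) : Prop :=
  (faces V 1).card + (d + 1).choose 2 = d * V.card

theorem LTight.surj {d : ℕ} (hd : 3 ≤ d) [FiniteDimensional ℝ E] (hE : finrank ℝ E = d)
    {V : Finset E} (hV : ConvPos V) (hs : Simp V) (h4 : adim V = d) (ht : LTight d V) :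
    Function.Surjective (rig V (faces V 1)) := by
  have hne : V.Nonempty := FV.MOAux.nonempty_of_adim (k := d - 1) (by omega)
  rw [← LinearMap.range_eq_top]
  refine Submodule.eq_top_of_finrank_eq ?_
  have h1 := LinearMap.finrank_range_add_finrank_ker (rig V (faces V 1))
  rw [finrank_fields hE] at h1
  have h3 : finrank ℝ (LinearMap.ker (rig V (faces V 1))) ≤ (d + 1).choose 2 := by
    rw [← finrank_motions hE]
    exact (Submodule.finrank_mono (ker_le_mot hne (h4.trans hE.symm)
      (fun B hB => card_edge hV hB) fun q hq => braced_all d hd E V hV hs h4 q hq)).trans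
      (LinearMap.finrank_range_le _)
  have h5 := Submodule.finrank_le (LinearMap.range (rig V (faces V 1)))
  rw [Module.finrank_fintype_fun_eq_card, Fintype.card_coe] at h5 ⊢
  unfold LTight at ht
  omega

/-- Sparsity of tight configurations. -/
theorem LTight.sparse {d : ℕ} (hd : 3 ≤ d) [FiniteDimensional ℝ E] (hE : finrank ℝ E = d)
    {V : Finset E} (hV : ConvPos V) (hs : Simp V) (h4 : adim V = d) (ht : LTight d V)
    {X : Finset E} (hXV : X ⊆ V) (hX : adim X = d) {ℬ : Finset (Finset E)}
    (hℬ : ℬ ⊆ faces V 1) (hB : ∀ B ∈ ℬ, B ⊆ X) :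
    ℬ.card + (d + 1).choose 2 ≤ d * X.card :=
  card_le_of_surj hE (FV.MOAux.nonempty_of_adim (k := d - 1) (by omega)) hX hB
    (surj_of_surj hXV hℬ hB (ht.surj hd hE hV hs h4))

/-- The bars of the closed star of a vertex. -/
noncomputable def starBars (V : Finset E) (u : E) : Finset (Finset E) :=
  (faces V 1).filter (fun B => B ⊆ insert u (nbr V u) ∧ FaceSet V (insert u B))

theorem insert_nbr_subset {V : Finset E} {u : E} (hu : u ∈ V) : insert u (nbr V u) ⊆ V :=
  Finset.insert_subset hu (nbr_subset.trans (Finset.erase_subset _ _))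

theorem card_insert_nbr {V : Finset E} {u : E} :
    (insert u (nbr V u)).card = (nbr V u).card + 1 :=
  Finset.card_insert_of_notMem fun h => (Finset.mem_erase.1 (nbr_subset h)).1 rfl

theorem adim_insert_nbr {V : Finset E} (hV : ConvPos V) {u : E} (hu : u ∈ V) :
    adim (insert u (nbr V u)) = adim V := by
  unfold adim
  rw [vectorSpan_insert_nbr hV hu]

/-- The star is rigid. -/
theorem star_ge {d : ℕ} (hd : 4 ≤ d) [FiniteDimensional ℝ E] (hE : finrank ℝ E = d)
    {V : Finset E} (hV : ConvPos V) (hs : Simp V) (h4 : adim V = d) {u : E} (hu : u ∈ V) :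
    d * (insert u (nbr V u)).card ≤ (starBars V u).card + (d + 1).choose 2 := by
  obtain ⟨k, rfl⟩ : ∃ k, d = k + 1 := ⟨d - 1, by omega⟩
  refine rig_card_ge hE ⟨u, Finset.mem_insert_self _ _⟩ (by rw [adim_insert_nbr hV hu, h4])
    (fun B hB => card_edge hV (Finset.mem_filter.1 hB).1) fun q hq => ?_
  refine star_braced (by omega) (fun V'' h1 h2 h3 => braced_all k (by omega) E V'' h1 h2 h3)
    hV hs h4 hu fun B hB h1 h2 => ?_
  exact hq B (Finset.mem_filter.2 ⟨hB, h1, h2⟩)

/-- No missing triangles in tight configurations. -/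
theorem LTight.no_missing_triangle {d : ℕ} (hd : 4 ≤ d) [FiniteDimensional ℝ E]
    (hE : finrank ℝ E = d) {V : Finset E} (hV : ConvPos V) (hs : Simp V) (h4 : adim V = d)
    (ht : LTight d V) {u a b : E} (hu : u ∈ V) (ha : a ∈ nbr V u) (hb : b ∈ nbr V u)
    (hab : ({a, b} : Finset E) ∈ faces V 1) : FaceSet V {u, a, b} := by
  by_contra hne
  have h1 := star_ge hd hE hV hs h4 hu
  have hnot : ({a, b} : Finset E) ∉ starBars V u := by
    intro h
    exact hne (Finset.mem_filter.1 h).2.2
  have h2 := ht.sparse (by omega) hE hV hs h4 (X := insert u (nbr V u))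
    (ℬ := insert {a, b} (starBars V u)) (insert_nbr_subset hu)
    (by rw [adim_insert_nbr hV hu, h4]) (by
      intro B hB
      rcases Finset.mem_insert.1 hB with rfl | hB
      · exact hab
      · exact (Finset.mem_filter.1 hB).1) (by
      intro B hB
      rcases Finset.mem_insert.1 hB with rfl | hB
      · intro z hz
        rcases Finset.mem_insert.1 hz with rfl | hz
        · exact Finset.mem_insert_of_mem ha
        · rw [Finset.mem_singleton.1 hz]
          exact Finset.mem_insert_of_mem hb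
      · exact (Finset.mem_filter.1 hB).2.1)
  rw [Finset.card_insert_of_notMem hnot] at h2
  omega

/-- The bars of the star: the edges at `u` and the edges of the link. -/
theorem card_starBars {V : Finset E} (hV : ConvPos V) (hs : Simp V) (h4 : 3 ≤ adim V) {u : E}
    (hu : u ∈ V) {g : E →ₗ[ℝ] ℝ} (hg : Cuts g V u) :
    (starBars V u).card = (nbr V u).card + (faces (FV.vfig g V u) 1).card := by
  have hnu : ∀ w ∈ nbr V u, w ≠ u := fun w hw => (Finset.mem_erase.1 (nbr_subset hw)).1
  have h1 : starBars V u = (nbr V u).image (fun x => {u, x}) ∪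
      ((faces V 2).filter (fun R => u ∈ R)).image (fun R => R.erase u) := by
    ext B
    rw [Finset.mem_union, starBars, Finset.mem_filter, Finset.mem_image, Finset.mem_image]
    constructor
    · rintro ⟨h1, h2, h3⟩
      obtain ⟨x, y, hxy, rfl, hf⟩ := (mem_faces_one hV).1 h1
      by_cases hux : x = u
      · subst hux
        exact Or.inl ⟨y, mem_nbr.2 ⟨hxy.symm, hf⟩, rfl⟩
      by_cases huy : y = u
      · subst huy
        exact Or.inl ⟨x, mem_nbr.2 ⟨hxy, by rw [Finset.pair_comm]; exact hf⟩,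
          Finset.pair_comm _ _⟩
      right
      have h5 : u ∉ ({x, y} : Finset E) := by
        simp [Ne.symm hux, Ne.symm huy]
      have h6 : (insert u {x, y} : Finset E) ≠ V := by
        intro e
        have h7 := adim_add_one_le_card (S := V) ⟨u, hu⟩
        rw [← e, Finset.card_insert_of_notMem h5, Finset.card_pair hxy] at h7
        rw [e] at h7
        omega
      have h7 := hs _ h3 h6
      rw [Finset.card_insert_of_notMem h5, Finset.card_pair hxy] at h7
      refine ⟨insert u {x, y}, Finset.mem_filter.2 ⟨mem_faces.2 ⟨h3, by omega⟩,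
        Finset.mem_insert_self _ _⟩, ?_⟩
      rw [Finset.erase_insert h5]
    · rintro (⟨x, hx, rfl⟩ | ⟨R, hR, rfl⟩)
      · have hx' := mem_nbr.1 hx
        refine ⟨mem_faces.2 ⟨hx'.2, adim_pair hx'.1.symm⟩, ?_, ?_⟩
        · intro z hz
          rcases Finset.mem_insert.1 hz with rfl | hz
          · exact Finset.mem_insert_self _ _
          · rw [Finset.mem_singleton.1 hz]
            exact Finset.mem_insert_of_mem hx
        · rw [Finset.insert_eq_of_mem (Finset.mem_insert_self _ _)]
          exact hx'.2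
      · rw [Finset.mem_filter] at hR
        obtain ⟨hR1, hR2⟩ := hR
        obtain ⟨h3, h5, h6⟩ := hs.facet hR1 (by omega)
        have h7 : (R.erase u).card = 2 := by
          rw [Finset.card_erase_of_mem hR2, h6]
        have hne : (R.erase u).Nonempty := Finset.card_pos.1 (by omega)
        have h8 := hs.sub h3 h5 hne (Finset.erase_subset _ _)
        have h9 := hs _ h8 (by
          intro e
          have := adim_mono (h3.2.1)
          have h10 := adim_add_one_le_card (S := V) ⟨u, hu⟩
          rw [← e, h7, e] at h10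
          omega)
        refine ⟨mem_faces.2 ⟨h8, by omega⟩, ?_, by rw [Finset.insert_erase hR2]; exact h3⟩
        intro w hw
        obtain ⟨h10, h11⟩ := Finset.mem_erase.1 hw
        refine Finset.mem_insert_of_mem (mem_nbr.2 ⟨h10, hs.sub h3 h5 ⟨u, by simp⟩ ?_⟩)
        intro z hz
        rcases Finset.mem_insert.1 hz with rfl | hz
        · exact hR2
        · rw [Finset.mem_singleton.1 hz]
          exact h11
  rw [h1, Finset.card_union_of_disjoint, Finset.card_image_of_injOn, Finset.card_image_of_injOn,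
    card_faces_vfig hV hu hg 1]
  · intro R hR R' hR' e
    have h2 := (Finset.mem_filter.1 hR).2
    have h3 := (Finset.mem_filter.1 hR').2
    have e' : R.erase u = R'.erase u := e
    rw [← Finset.insert_erase h2, e', Finset.insert_erase h3]
  · intro x hx y hy e
    have e' : ({u, x} : Finset E) = {u, y} := e
    have h2 : x ∈ ({u, y} : Finset E) := e' ▸ (by simp)
    rcases Finset.mem_insert.1 h2 with h3 | h3
    · exact absurd h3 (hnu x hx)
    · exact Finset.mem_singleton.1 h3
  · rw [Finset.disjoint_left]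
    intro B hB hB'
    obtain ⟨x, -, rfl⟩ := Finset.mem_image.1 hB
    obtain ⟨R, -, e⟩ := Finset.mem_image.1 hB'
    have h2 : u ∈ R.erase u := by
      have e' : R.erase u = {u, x} := e
      rw [e']
      simp
    exact (Finset.notMem_erase u R) h2

/-- The links of tight configurations are tight. -/
theorem LTight.link {d : ℕ} (hd : 4 ≤ d) [FiniteDimensional ℝ E] (hE : finrank ℝ E = d)
    {V : Finset E} (hV : ConvPos V) (hs : Simp V) (h4 : adim V = d) (ht : LTight d V) {u : E}
    (hu : u ∈ V) {g : E →ₗ[ℝ] ℝ} (hg : Cuts g V u) : LTight (d - 1) (FV.vfig g V u) := by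
  have h1 := star_ge hd hE hV hs h4 hu
  have h2 := ht.sparse (by omega) hE hV hs h4 (X := insert u (nbr V u))
    (ℬ := starBars V u) (insert_nbr_subset hu)
    (by rw [adim_insert_nbr hV hu, h4]) (fun B hB => (Finset.mem_filter.1 hB).1)
    (fun B hB => (Finset.mem_filter.1 hB).2.1)
  rw [card_insert_nbr] at h1 h2
  have h3 := card_starBars hV hs (by omega) hu hg
  unfold LTight
  rw [card_vfig hV hu hg]
  obtain ⟨k, rfl⟩ : ∃ k, d = k + 1 := ⟨d - 1, by omega⟩
  have h5 : (k + 1 + 1).choose 2 = (k + 1) + (k + 1).choose 2 := by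
    rw [Nat.choose_succ_succ' (k + 1) 1, Nat.choose_one_right]
  rw [Nat.add_sub_cancel]
  rw [h5] at h1 h2
  nlinarith

end Pool.Agent.ES85
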