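import Pool.Agent.Lib.ES85.Rig3

/-!
# Tight configurations have empty `(d - 1)`-simplices
-/

set_option autoImplicit false

namespace Pool.Agent.ES85

open Module Pool.Agent.FV
open scoped Classical

/-- A copy in a space of the right dimension. -/
theorem exists_copy {E : Type} [NormedAddCommGroup E] [InnerProductSpace ℝ E] {V : Finset E}
    {k : ℕ} (hk : adim V = k) : ∃ (E' : Type) (_ : NormedAddCommGroup E')
      (_ : InnerProductSpace ℝ E') (_ : FiniteDimensional ℝ E') (φ : E → E'),
      finrank ℝ E' = k ∧ Set.InjOn φ (V : Set E) ∧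
      (∀ S ⊆ V, adim (S.image φ) = adim S) ∧
      ∀ S ⊆ V, (FaceSet (V.image φ) (S.image φ) ↔ FaceSet V S) := by
  have hfin : FiniteDimensional ℝ (vectorSpan ℝ (V : Set E)) :=
    finiteDimensional_vectorSpan_of_finite ℝ (Finset.finite_toSet V)
  let L : vectorSpan ℝ (V : Set E) ≃ₗᵢ[ℝ] vectorSpan ℝ (V : Set E) :=
    LinearIsometryEquiv.refl ℝ _
  let P : E →ₗ[ℝ] vectorSpan ℝ (V : Set E) :=
    ((vectorSpan ℝ (V : Set E)).orthogonalProjectionOnto : E →L[ℝ] _)
  have hP : ∀ z : vectorSpan ℝ (V : Set E), P (z : E) = z := fun z =>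
    Submodule.orthogonalProjectionOnto_mem_subspace_eq_self z
  let φ : E → vectorSpan ℝ (V : Set E) := fun x => L (P x)
  have hφ : ∀ x ∈ V, ∀ y ∈ V, ∀ z : vectorSpan ℝ (V : Set E), (z : E) = x - y →
      φ x - φ y = L z := by
    intro x _ y _ z hz
    show L (P x) - L (P y) = L z
    rw [← map_sub, ← map_sub, ← hz, hP]
  obtain ⟨hinj, hadim, hface⟩ := faceSet_image φ L hφ
  refine ⟨vectorSpan ℝ (V : Set E), inferInstance, inferInstance, hfin, φ, hk, hinj, ?_, ?_⟩
  · intro S hS
    convert hadim S hS
  · intro S hS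
    convert hface S hS

section copy

variable {E E' : Type} [NormedAddCommGroup E] [InnerProductSpace ℝ E] [NormedAddCommGroup E']
  [InnerProductSpace ℝ E'] {V : Finset E} {φ : E → E'}

theorem exists_pre {R' : Finset E'} (hR' : R' ⊆ V.image φ) : ∃ R ⊆ V, R' = R.image φ := by
  refine ⟨V.filter (fun x => φ x ∈ R'), Finset.filter_subset _ _, ?_⟩
  ext y
  constructor
  · intro hy
    obtain ⟨x, hx, rfl⟩ := Finset.mem_image.1 (hR' hy)
    exact Finset.mem_image_of_mem _ (Finset.mem_filter.2 ⟨hx, hy⟩)
  · intro hy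
    obtain ⟨x, hx, rfl⟩ := Finset.mem_image.1 hy
    exact (Finset.mem_filter.1 hx).2

theorem image_inj (hinj : Set.InjOn φ (V : Set E)) {S T : Finset E} (hS : S ⊆ V) (hT : T ⊆ V)
    (e : S.image φ = T.image φ) : S = T := by
  ext x
  constructor
  · intro hx
    obtain ⟨y, hy, e1⟩ := Finset.mem_image.1 (e ▸ Finset.mem_image_of_mem φ hx)
    exact hinj (hT hy) (hS hx) e1 ▸ hy
  · intro hx
    obtain ⟨y, hy, e1⟩ := Finset.mem_image.1 (e ▸ Finset.mem_image_of_mem φ hx)
    exact hinj (hS hy) (hT hx) e1 ▸ hy

theorem convPos_image (hV : ConvPos V)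
    (hface : ∀ S ⊆ V, (FaceSet (V.image φ) (S.image φ) ↔ FaceSet V S)) :
    ConvPos (V.image φ) := by
  intro y hy
  obtain ⟨x, hx, rfl⟩ := Finset.mem_image.1 hy
  have h1 := (hface {x} (by simpa using hx)).2 (hV x hx)
  rwa [Finset.image_singleton] at h1

theorem simp_image (hs : Simp V) (hinj : Set.InjOn φ (V : Set E))
    (hadim : ∀ S ⊆ V, adim (S.image φ) = adim S)
    (hface : ∀ S ⊆ V, (FaceSet (V.image φ) (S.image φ) ↔ FaceSet V S)) :
    Simp (V.image φ) := by
  intro R' hR' hne
  obtain ⟨R, hRV, rfl⟩ := exists_pre hR'.2.1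
  rw [hadim R hRV, Finset.card_image_of_injOn (hinj.mono (Finset.coe_subset.2 hRV))]
  exact hs R ((hface R hRV).1 hR') fun e => hne (by rw [e])

theorem card_faces_image (hinj : Set.InjOn φ (V : Set E))
    (hadim : ∀ S ⊆ V, adim (S.image φ) = adim S)
    (hface : ∀ S ⊆ V, (FaceSet (V.image φ) (S.image φ) ↔ FaceSet V S)) (i : ℕ) :
    (faces (V.image φ) i).card = (faces V i).card := by
  symm
  refine Finset.card_bij (fun S _ => S.image φ) ?_ ?_ ?_
  · intro S hS
    obtain ⟨h1, h2⟩ := mem_faces.1 hS
    exact mem_faces.2 ⟨(hface S h1.2.1).2 h1, by rw [hadim S h1.2.1, h2]⟩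
  · intro S hS T hT e
    exact image_inj hinj (mem_faces.1 hS).1.2.1 (mem_faces.1 hT).1.2.1 e
  · intro S' hS'
    obtain ⟨h1, h2⟩ := mem_faces.1 hS'
    obtain ⟨S, hS, rfl⟩ := exists_pre h1.2.1
    exact ⟨S, mem_faces.2 ⟨(hface S hS).1 h1, by rw [← hadim S hS, h2]⟩, rfl⟩

end copy

/-- Two-element faces from larger ones. -/
theorem pair_face {E : Type} [NormedAddCommGroup E] [InnerProductSpace ℝ E] {V F : Finset E}
    (hs : Simp V) (hF : FaceSet V F) (hFV : F ≠ V) {a b : E} (ha : a ∈ F) (hb : b ∈ F) :
    FaceSet V {a, b} :=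
  hs.sub hF hFV (Finset.insert_nonempty _ _) (by
    intro z hz
    rcases Finset.mem_insert.1 hz with rfl | hz
    · exact ha
    · rw [Finset.mem_singleton.1 hz]
      exact hb)

/-- A proper face is not the whole set when it is small. -/
theorem ne_of_card {E : Type} [NormedAddCommGroup E] [InnerProductSpace ℝ E] {V F : Finset E}
    (hV : V.Nonempty) (h : F.card ≤ adim V) : F ≠ V := by
  rintro rfl
  have := adim_add_one_le_card hV
  omega

/-- The link of a vertex, as a configuration of its own. -/
theorem exists_linkCopy {d : ℕ} (hd : 4 ≤ d) {E : Type} [NormedAddCommGroup E]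
    [InnerProductSpace ℝ E] [FiniteDimensional ℝ E] (hE : finrank ℝ E = d) {V : Finset E}
    (hV : ConvPos V) (hs : Simp V) (h4 : adim V = d) (ht : LTight d V) {u : E} (hu : u ∈ V) :
    ∃ (E' : Type) (_ : NormedAddCommGroup E') (_ : InnerProductSpace ℝ E')
      (_ : FiniteDimensional ℝ E') (ψ : E → E'), finrank ℝ E' = d - 1 ∧
      Set.InjOn ψ (nbr V u : Set E) ∧
      ConvPos ((nbr V u).image ψ) ∧ Simp ((nbr V u).image ψ) ∧
      adim ((nbr V u).image ψ) = d - 1 ∧ LTight (d - 1) ((nbr V u).image ψ) ∧
      ∀ S ⊆ nbr V u, S.Nonempty →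
        ((FaceSet ((nbr V u).image ψ) (S.image ψ) ∧ S.image ψ ≠ (nbr V u).image ψ) ↔
          (FaceSet V (insert u S) ∧ insert u S ≠ V)) := by
  obtain ⟨g, hg⟩ := exists_cuts hV hu
  have h1 := adim_vfig hV hu hg (by omega)
  obtain ⟨E', i1, i2, i3, φ, hfr, hinj, hadim, hface⟩ :=
    exists_copy (V := FV.vfig g V u) (k := d - 1) (by omega)
  have hrad := rad_injOn hV hu hg
  have himg : ∀ S : Finset E, S.image (φ ∘ rad g u) = (S.image (rad g u)).image φ := fun S =>
    (Finset.image_image).symm
  have hvf : (nbr V u).image (φ ∘ rad g u) = (FV.vfig g V u).image φ := himg _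
  have hinj2 : Set.InjOn (φ ∘ rad g u) (nbr V u : Set E) := by
    refine Set.InjOn.comp hinj hrad ?_
    intro x hx
    exact Finset.mem_coe.2 (Finset.mem_image_of_mem _ hx)
  have hlt := ht.link hd hE hV hs h4 hu hg
  refine ⟨E', i1, i2, i3, φ ∘ rad g u, hfr, hinj2, ?_, ?_, ?_, ?_, ?_⟩
  · rw [hvf]
    exact convPos_image (convPos_vfig hV hu hg) hface
  · rw [hvf]
    exact simp_image (Simp.vfig hV hs hu hg) hinj hadim hface
  · rw [hvf, hadim _ (Finset.Subset.refl _)]
    omega
  · rw [hvf]
    unfold LTight at hlt ⊢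
    rw [card_faces_image hinj hadim hface, Finset.card_image_of_injOn hinj]
    exact hlt
  · intro S hS hne
    have hsub : S.image (rad g u) ⊆ FV.vfig g V u := Finset.image_subset_image hS
    have e1 := link_face hV hs hu hg hS hne
    have e2 : (S.image (rad g u)).image φ = (FV.vfig g V u).image φ ↔
        S.image (rad g u) = FV.vfig g V u :=
      ⟨fun e => image_inj hinj hsub (Finset.Subset.refl _) e, fun e => by rw [e]⟩
    rw [hvf, himg, hface _ hsub, ← e1, Ne, Ne, e2]

/-- No small missing faces in tight configurations. -/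
theorem LTight.small (d : ℕ) (hd : 4 ≤ d) : ∀ (E : Type) [NormedAddCommGroup E]
    [InnerProductSpace ℝ E] [FiniteDimensional ℝ E], finrank ℝ E = d → ∀ V : Finset E,
    ConvPos V → Simp V → adim V = d → LTight d V → ∀ T ⊆ V, 3 ≤ T.card → T.card ≤ d - 1 →
      (∀ x ∈ T, FaceSet V (T.erase x)) → FaceSet V T := by
  induction d, hd using Nat.le_induction with
  | base =>
    intro E _ _ _ hE V hV hs h4 ht T hTV h3 h3' hT
    obtain ⟨u, a, b, hua, hub, hab, rfl⟩ := Finset.card_eq_three.1 (by omega : T.card = 3)
    have e1 : ({u, a, b} : Finset E).erase u = {a, b} := by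
      rw [Finset.erase_insert]
      simp [hua, hub]
    have e2 : ({u, a, b} : Finset E).erase b = {u, a} := by
      ext z
      simp only [Finset.mem_erase, Finset.mem_insert, Finset.mem_singleton]
      constructor
      · rintro ⟨h1, h2 | h2 | h2⟩
        · exact Or.inl h2
        · exact Or.inr h2
        · exact absurd h2 h1
      · rintro (rfl | rfl)
        · exact ⟨hub, Or.inl rfl⟩
        · exact ⟨hab, Or.inr (Or.inl rfl)⟩
    have e3 : ({u, a, b} : Finset E).erase a = {u, b} := by
      ext z
      simp only [Finset.mem_erase, Finset.mem_insert, Finset.mem_singleton]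
      constructor
      · rintro ⟨h1, h2 | h2 | h2⟩
        · exact Or.inl h2
        · exact absurd h2 h1
        · exact Or.inr h2
      · rintro (rfl | rfl)
        · exact ⟨hua, Or.inl rfl⟩
        · exact ⟨hab.symm, Or.inr (Or.inr rfl)⟩
    have f1 := hT u (by simp)
    have f2 := hT b (by simp)
    have f3 := hT a (by simp)
    rw [e1] at f1
    rw [e2] at f2
    rw [e3] at f3
    exact ht.no_missing_triangle (by omega) hE hV hs h4 (hTV (by simp))
      (mem_nbr.2 ⟨hua.symm, f2⟩) (mem_nbr.2 ⟨hub.symm, f3⟩) (mem_faces.2 ⟨f1, adim_pair hab⟩)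
  | succ d hd ih =>
    intro E _ _ _ hE V hV hs h4 ht T hTV h3 h3' hT
    have hVne : V.Nonempty := FV.MOAux.nonempty_of_adim (k := d) (by omega)
    by_cases hc : T.card = 3
    · obtain ⟨u, a, b, hua, hub, hab, rfl⟩ := Finset.card_eq_three.1 hc
      have e1 : ({u, a, b} : Finset E).erase u = {a, b} := by
        rw [Finset.erase_insert]
        simp [hua, hub]
      have e2 : ({u, a, b} : Finset E).erase b = {u, a} := by
        ext z
        simp only [Finset.mem_erase, Finset.mem_insert, Finset.mem_singleton]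
        constructor
        · rintro ⟨h1, h2 | h2 | h2⟩
          · exact Or.inl h2
          · exact Or.inr h2
          · exact absurd h2 h1
        · rintro (rfl | rfl)
          · exact ⟨hub, Or.inl rfl⟩
          · exact ⟨hab, Or.inr (Or.inl rfl)⟩
      have e3 : ({u, a, b} : Finset E).erase a = {u, b} := by
        ext z
        simp only [Finset.mem_erase, Finset.mem_insert, Finset.mem_singleton]
        constructor
        · rintro ⟨h1, h2 | h2 | h2⟩
          · exact Or.inl h2
          · exact absurd h2 h1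
          · exact Or.inr h2
        · rintro (rfl | rfl)
          · exact ⟨hua, Or.inl rfl⟩
          · exact ⟨hab.symm, Or.inr (Or.inr rfl)⟩
      have f1 := hT u (by simp)
      have f2 := hT b (by simp)
      have f3 := hT a (by simp)
      rw [e1] at f1
      rw [e2] at f2
      rw [e3] at f3
      exact ht.no_missing_triangle (by omega) hE hV hs h4 (hTV (by simp))
        (mem_nbr.2 ⟨hua.symm, f2⟩) (mem_nbr.2 ⟨hub.symm, f3⟩) (mem_faces.2 ⟨f1, adim_pair hab⟩)
    · have hTne : T.Nonempty := Finset.card_pos.1 (by omega)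
      obtain ⟨u, hu⟩ := hTne
      have hcu : (T.erase u).card = T.card - 1 := Finset.card_erase_of_mem hu
      obtain ⟨E', i1, i2, i3, ψ, p0, hinj, p1, p2, p3, p4, p5⟩ :=
        exists_linkCopy (d := d + 1) (by omega) hE hV hs h4 ht (hTV hu)
      rw [Nat.add_sub_cancel] at p0 p3 p4
      have hnbr : T.erase u ⊆ nbr V u := by
        intro x hx
        obtain ⟨hxu, hxT⟩ := Finset.mem_erase.1 hx
        obtain ⟨y, hy, hyu, hyx⟩ : ∃ y ∈ T, y ≠ u ∧ y ≠ x := by
          by_contra hcon
          push Not at hcon
          have h5 : T ⊆ {u, x} := by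
            intro y hy
            by_cases h6 : y = u
            · simp [h6]
            · simp [hcon y hy h6]
          have h6 := Finset.card_le_card h5
          have h7 : ({u, x} : Finset E).card ≤ 2 := Finset.card_le_two
          omega
        have h5 := hT y hy
        refine mem_nbr.2 ⟨hxu, pair_face hs h5 (ne_of_card hVne ?_)
          (Finset.mem_erase.2 ⟨hyu.symm, hu⟩) (Finset.mem_erase.2 ⟨hyx.symm, hxT⟩)⟩
        rw [Finset.card_erase_of_mem hy]
        omega
      have hcard : ((T.erase u).image ψ).card = T.card - 1 := by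
        rw [Finset.card_image_of_injOn (hinj.mono (Finset.coe_subset.2 hnbr)), hcu]
      have h5 : FaceSet ((nbr V u).image ψ) ((T.erase u).image ψ) := by
        refine ih E' p0 _ p1 p2 p3 p4 _ (Finset.image_subset_image hnbr) (by omega) (by omega) ?_
        intro x' hx'
        obtain ⟨x, hx, rfl⟩ := Finset.mem_image.1 hx'
        have e1 : ((T.erase u).image ψ).erase (ψ x) = ((T.erase u).erase x).image ψ := by
          ext z
          rw [Finset.mem_erase, Finset.mem_image, Finset.mem_image]
          constructor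
          · rintro ⟨h6, y, hy, rfl⟩
            exact ⟨y, Finset.mem_erase.2 ⟨fun e => h6 (by rw [e]), hy⟩, rfl⟩
          · rintro ⟨y, hy, rfl⟩
            obtain ⟨h6, h7⟩ := Finset.mem_erase.1 hy
            exact ⟨fun e => h6 (hinj (hnbr h7) (hnbr hx) e), y, h7, rfl⟩
        have hne : ((T.erase u).erase x).Nonempty := by
          rw [← Finset.card_pos, Finset.card_erase_of_mem hx, hcu]
          omega
        have e2 : insert u ((T.erase u).erase x) = T.erase x := by
          obtain ⟨h6, h7⟩ := Finset.mem_erase.1 hx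
          rw [Finset.erase_right_comm, Finset.insert_erase]
          exact Finset.mem_erase.2 ⟨h6.symm, hu⟩
        rw [e1]
        refine ((p5 _ ((Finset.erase_subset _ _).trans hnbr) hne).2 ?_).1
        rw [e2]
        have h7 := (Finset.mem_erase.1 hx).2
        refine ⟨hT x h7, ne_of_card hVne ?_⟩
        rw [Finset.card_erase_of_mem h7]
        omega
      have hne : (T.erase u).Nonempty := by
        rw [← Finset.card_pos, hcu]
        omega
      have h6 := ((p5 _ hnbr hne).1 ⟨h5, ne_of_card ?_ ?_⟩).1
      · rwa [Finset.insert_erase hu] at h6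
      · exact (hne.mono hnbr).image ψ
      · rw [hcard]
        omega

open FV in
/-- A tight configuration which is not a simplex has an empty `(d - 1)`-simplex. -/
theorem LTight.exists_missing (d : ℕ) (hd : 4 ≤ d) : ∀ (E : Type) [NormedAddCommGroup E]
    [InnerProductSpace ℝ E] [FiniteDimensional ℝ E], finrank ℝ E = d → ∀ V : Finset E,
    ConvPos V → Simp V → adim V = d → LTight d V → d + 2 ≤ V.card → ∃ T ⊆ V, T.card = d ∧
      (∀ x ∈ T, FaceSet V (T.erase x)) ∧ ¬ FaceSet V T := by
  induction d, hd using Nat.le_induction with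
  | base =>
    intro E _ _ _ hE V hV hs h4 ht h6
    have hc2 : ∀ R ∈ faces V 2, R.card = 3 := fun R hR => (hs.facet hR (by omega)).2.2
    have hc3 : ∀ F ∈ faces V 3, F.card = 4 := fun F hF => (hs.facet hF (by omega)).2.2
    have hf23 : 4 * (faces V 3).card = 2 * (faces V 2).card := by
      have h7 := sum_card_facets h4
      have h8 : ∀ F ∈ faces V 3, (faces F 2).card = 4 := by
        intro F hF
        obtain ⟨g1, g2, g3⟩ := hs.facet hF (by omega)
        have g4 : faces F 2 = F.powersetCard 3 := by
          ext R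
          rw [faces_face g1, Finset.mem_filter, Finset.mem_powersetCard]
          constructor
          · rintro ⟨g5, g6⟩
            exact ⟨g6, hc2 R g5⟩
          · rintro ⟨g5, g6⟩
            have g7 : FaceSet V R := hs.sub g1 g2 (Finset.card_pos.1 (by omega)) g5
            have g8 := hs R g7 (ne_of_card (FV.MOAux.nonempty_of_adim (k := 3) (by omega))
              (by omega))
            exact ⟨mem_faces.2 ⟨g7, by omega⟩, g5⟩
        rw [g4, Finset.card_powersetCard, g3]
        rfl
      rw [Finset.sum_congr rfl h8, Finset.sum_const, smul_eq_mul] at h7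
      omega
    have heul := euler_four hV h4
    have ht' : Tight V := by
      unfold LTight at ht
      unfold Tight
      have : (4 + 1).choose 2 = 10 := rfl
      omega
    by_contra hcon
    push Not at hcon
    have hm : ∀ T, ¬ Missing V T := by
      rintro T ⟨h7, h8, h9⟩
      have hTV : T ⊆ V := by
        intro t ht1
        obtain ⟨x, hx, hxt⟩ : ∃ x ∈ T, x ≠ t := by
          by_contra hc
          push Not at hc
          have h10 : T ⊆ {t} := fun x hx => by rw [Finset.mem_singleton]; exact hc x hx
          have h11 := Finset.card_le_card h10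
          rw [Finset.card_singleton] at h11
          omega
        exact (mem_faces.1 (h9 x hx)).1.2.1 (Finset.mem_erase.2 ⟨hxt.symm, ht1⟩)
      exact h8 (hcon T hTV h7 fun x hx => (mem_faces.1 (h9 x hx)).1)
    have h7 := sum_card_nbr hV
    rw [Finset.sum_congr rfl fun x hx => simple_of_no_missing hE hV h4 ht' hm hx,
      Finset.sum_const, smul_eq_mul] at h7
    unfold LTight at ht
    have : (4 + 1).choose 2 = 10 := rfl
    omega
  | succ d hd ih =>
    intro E _ _ _ hE V hV hs h4 ht h6
    have hVne : V.Nonempty := FV.MOAux.nonempty_of_adim (k := d) (by omega)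
    -- a vertex of large degree
    obtain ⟨u, hu, hdeg⟩ : ∃ u ∈ V, d + 2 ≤ (nbr V u).card := by
      by_contra hcon
      push Not at hcon
      have h7 := sum_card_nbr hV
      have h8 : ∑ x ∈ V, (nbr V x).card ≤ V.card * (d + 1) := by
        rw [← smul_eq_mul, ← Finset.sum_const]
        exact Finset.sum_le_sum fun x hx => by
          have := hcon x hx
          omega
      unfold LTight at ht
      have h9 : 2 * (d + 1 + 1).choose 2 = (d + 2) * (d + 1) := by
        have := Nat.triangle_succ (d + 1)
        rw [Nat.choose_two_right]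
        have h10 : 2 ∣ (d + 1 + 1) * (d + 1 + 1 - 1) := (Nat.even_mul_pred_self (d + 1 + 1)).two_dvd
        obtain ⟨c, hc⟩ := h10
        rw [hc, Nat.mul_div_cancel_left _ (by norm_num)]
        rw [← hc]
        rfl
      nlinarith
    obtain ⟨E', i1, i2, i3, ψ, p0, hinj, p1, p2, p3, p4, p5⟩ :=
      exists_linkCopy (d := d + 1) (by omega) hE hV hs h4 ht hu
    rw [Nat.add_sub_cancel] at p0 p3 p4
    obtain ⟨T', hT'V, hT'c, hT'1, hT'2⟩ := ih E' p0 _ p1 p2 p3 p4 (by
      rw [Finset.card_image_of_injOn hinj]
      exact hdeg)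
    obtain ⟨T, hT, rfl⟩ := exists_pre hT'V
    have huT : u ∉ T := fun h => (Finset.mem_erase.1 (nbr_subset (hT h))).1 rfl
    have hTc : T.card = d := by
      rw [← hT'c, Finset.card_image_of_injOn (hinj.mono (Finset.coe_subset.2 hT))]
    have hTne : T.Nonempty := Finset.card_pos.1 (by omega)
    have hTV : T ⊆ V := hT.trans (nbr_subset.trans (Finset.erase_subset _ _))
    have hlink : ∀ x ∈ T, FaceSet V (insert u (T.erase x)) := by
      intro x hx
      have e1 : (T.image ψ).erase (ψ x) = (T.erase x).image ψ := by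
        ext z
        rw [Finset.mem_erase, Finset.mem_image, Finset.mem_image]
        constructor
        · rintro ⟨h6, y, hy, rfl⟩
          exact ⟨y, Finset.mem_erase.2 ⟨fun e => h6 (by rw [e]), hy⟩, rfl⟩
        · rintro ⟨y, hy, rfl⟩
          obtain ⟨h6, h7⟩ := Finset.mem_erase.1 hy
          exact ⟨fun e => h6 (hinj (hT h7) (hT hx) e), y, h7, rfl⟩
      have h7 := hT'1 (ψ x) (Finset.mem_image_of_mem _ hx)
      rw [e1] at h7
      have hne : (T.erase x).Nonempty := by
        rw [← Finset.card_pos, Finset.card_erase_of_mem hx]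
        omega
      refine ((p5 _ ((Finset.erase_subset _ _).trans hT) hne).1 ⟨h7, ne_of_card ?_ ?_⟩).1
      · exact (hTne.mono hT).image ψ
      · rw [Finset.card_image_of_injOn (hinj.mono (Finset.coe_subset.2
          ((Finset.erase_subset _ _).trans hT))), Finset.card_erase_of_mem hx]
        omega
    have hcx : ∀ x ∈ T, (insert u (T.erase x)).card = d := by
      intro x hx
      rw [Finset.card_insert_of_notMem fun h => huT (Finset.mem_of_mem_erase h),
        Finset.card_erase_of_mem hx]
      omega
    have hTface : FaceSet V T := by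
      refine LTight.small (d + 1) (by omega) E hE V hV hs h4 ht T hTV (by omega) (by omega) ?_
      intro x hx
      refine hs.sub (hlink x hx) (ne_of_card hVne ?_) ?_ (Finset.subset_insert _ _)
      · rw [hcx x hx]
        omega
      · rw [← Finset.card_pos, Finset.card_erase_of_mem hx]
        omega
    refine ⟨insert u T, Finset.insert_subset hu hTV, by
      rw [Finset.card_insert_of_notMem huT, hTc], ?_, ?_⟩
    · intro x hx
      by_cases hxu : x = u
      · rw [hxu, Finset.erase_insert huT]
        exact hTface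
      · have hxT : x ∈ T := (Finset.mem_insert.1 hx).resolve_left hxu
        have e1 : (insert u T).erase x = insert u (T.erase x) := by
          rw [Finset.erase_insert_of_ne (Ne.symm hxu)]
        rw [e1]
        exact hlink x hxT
    · intro h7
      refine hT'2 ((p5 T hT hTne).2 ⟨h7, ne_of_card hVne ?_⟩).1
      rw [Finset.card_insert_of_notMem huT, hTc]
      omega

end Pool.Agent.ES85
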