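import Pool.Agent.Lib.ES85.Susp

/-!
# Simplicial polytopes without empty `(d - 1)`-simplices, and how to enlarge them
-/

set_option autoImplicit false

open Finset Module

namespace Pool.Agent.ES85

abbrev Eu (d : ℕ) := EuclideanSpace ℝ (Fin d)

theorem finrank_Eu (d : ℕ) : finrank ℝ (Eu d) = d := by simp

variable {α : Type} [DecidableEq α] {W : Finset α} {𝒢 : Finset (Finset α)} {d t a m n : ℕ}

open Classical in
/-- The number of missing edges. -/
noncomputable def ne2 (W : Finset α) (𝒢 : Finset (Finset α)) : ℕ :=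
  ((W.powersetCard 2).filter fun S => ¬ Faces 𝒢 S).card

open Classical in
/-- The number of missing `d`-sets. -/
noncomputable def msd (d : ℕ) (W : Finset α) (𝒢 : Finset (Finset α)) : ℕ :=
  ((W.powersetCard d).filter fun S => (∀ x ∈ S, Faces 𝒢 (S.erase x)) ∧ ¬ Faces 𝒢 S).card

/-- No missing `d`-set contains `w`, and the complex is not the boundary of a simplex. -/
structure PrW (d : ℕ) (W : Finset α) (𝒢 : Finset (Finset α)) (w : α) : Prop where
  mem : w ∈ W
  pr : ∀ S ⊆ W, w ∈ S → S.card = d → (∀ x ∈ S, Faces 𝒢 (S.erase x)) → Faces 𝒢 S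
  big : ∀ S ⊆ W, S.card = d + 1 → ∃ x ∈ S, ¬ Faces 𝒢 (S.erase x)

/-- No missing `d`-sets, and a vertex joined to all others. -/
structure PrC (d : ℕ) (W : Finset α) (𝒢 : Finset (Finset α)) (w : α) : Prop where
  mem : w ∈ W
  univ : ∀ x ∈ W, Faces 𝒢 {w, x}
  pr : ∀ S ⊆ W, S.card = d → (∀ x ∈ S, Faces 𝒢 (S.erase x)) → Faces 𝒢 S
  big : ∀ S ⊆ W, S.card = d + 1 → ∃ x ∈ S, ¬ Faces 𝒢 (S.erase x)

theorem PrC.toW {w : α} (h : PrC d W 𝒢 w) : PrW d W 𝒢 w :=
  ⟨h.mem, fun S hS _ => h.pr S hS, h.big⟩

theorem Cert.card_le {E : Type*} [AddCommGroup E] [Module ℝ E] {v : α → E} (h : Cert n W v 𝒢)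
    {S : Finset α} (hS : Faces 𝒢 S) : S.card ≤ n := by
  obtain ⟨G, hG, hSG⟩ := hS
  rw [← h.card G hG]
  exact Finset.card_le_card hSG

/-- The suspension of a state. -/
theorem susp_state (hd : 1 ≤ d) {v : α → Eu d} (h : Cert d W v 𝒢) {w x : α} (hp : PrW d W 𝒢 w)
    (hx : x ∉ W) : ∃ (v' : α → Eu (d + 1)) (𝒢' : Finset (Finset α)),
      Cert (d + 1) (insert x W) v' 𝒢' ∧ PrC (d + 1) (insert x W) 𝒢' w ∧
      ne2 (insert x W) 𝒢' = ne2 (W.erase w) 𝒢 := by
  classical
  obtain ⟨v', 𝒢', h1, h2⟩ := h.susp hd hp.mem hx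
  have hfr : finrank ℝ (Eu d × ℝ) = finrank ℝ (Eu (d + 1)) := by
    rw [finrank_prod, finrank_Eu, finrank_Eu, finrank_self]
  have hwx : w ≠ x := fun e => hx (e ▸ hp.mem)
  have hsing : ∀ y ∈ W, Faces 𝒢 {y} := fun y hy => by
    obtain ⟨G, hG, hyG⟩ := h.mem y hy
    exact ⟨G, hG, singleton_subset_iff.2 hyG⟩
  have hK1 : ∀ S, x ∈ S → (Faces 𝒢' S ↔ Faces 𝒢 (S.erase x)) := fun S hS => by
    rw [h2]
    exact ⟨fun h3 => (h3.resolve_right fun h4 => h4.1 hS).2, fun h3 => Or.inl ⟨hS, h3⟩⟩
  have hK2 : ∀ S, x ∉ S → (Faces 𝒢' S ↔ Faces 𝒢 (S.erase w)) := fun S hS => by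
    rw [h2]
    exact ⟨fun h3 => (h3.resolve_left fun h4 => hS h4.1).2, fun h3 => Or.inr ⟨hS, h3⟩⟩
  refine ⟨_, 𝒢', h1.map (LinearEquiv.ofFinrankEq _ _ hfr), ⟨mem_insert_of_mem hp.mem, ?_, ?_, ?_⟩,
    ?_⟩
  · intro y hy
    by_cases hyx : y = x
    · rw [hyx, hK1 _ (by simp)]
      refine (hsing w hp.mem).mono fun i hi => ?_
      obtain ⟨h3, h4⟩ := mem_erase.1 hi
      rcases mem_insert.1 h4 with h5 | h5
      · exact mem_singleton.2 h5
      · exact absurd (mem_singleton.1 h5) h3
    · have hyW : y ∈ W := (mem_insert.1 hy).resolve_left hyx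
      rw [hK2 _ (by simp [hwx.symm, Ne.symm hyx])]
      refine (hsing y hyW).mono fun i hi => ?_
      obtain ⟨h3, h4⟩ := mem_erase.1 hi
      rcases mem_insert.1 h4 with h5 | h5
      · exact absurd h5 h3
      · exact h5
  · intro S hS hc hall
    by_cases hxS : x ∈ S
    · rw [hK1 _ hxS]
      have hTW : S.erase x ⊆ W := fun i hi =>
        (mem_insert.1 (hS (mem_of_mem_erase hi))).resolve_left (mem_erase.1 hi).1
      have hTc : (S.erase x).card = d := by rw [card_erase_of_mem hxS, hc]; rfl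
      have h3 := (hK2 _ (notMem_erase x S)).1 (hall x hxS)
      by_cases hwS : w ∈ S
      · refine hp.pr _ hTW (mem_erase.2 ⟨hwx, hwS⟩) hTc fun y hy => ?_
        obtain ⟨h4, h5⟩ := mem_erase.1 hy
        by_cases hyw : y = w
        · rw [hyw]
          exact h3
        · have h6 := (hK1 _ (mem_erase.2 ⟨Ne.symm h4, hxS⟩)).1 (hall y h5)
          rwa [erase_right_comm] at h6
      · rw [erase_eq_of_notMem (fun h4 => hwS (mem_of_mem_erase h4))] at h3
        exact h3
    · rw [hK2 _ hxS]
      by_cases hwS : w ∈ S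
      · have h3 := (hK2 _ (fun h4 => hxS (mem_of_mem_erase h4))).1 (hall w hwS)
        rwa [erase_idem] at h3
      · exfalso
        have hSW : S ⊆ W := fun i hi =>
          (mem_insert.1 (hS hi)).resolve_left fun e => hxS (e ▸ hi)
        obtain ⟨y, hy, h3⟩ := hp.big S hSW hc
        have h4 := (hK2 _ (fun h5 => hxS (mem_of_mem_erase h5))).1 (hall y hy)
        rw [erase_eq_of_notMem (fun h5 => hwS (mem_of_mem_erase h5))] at h4
        exact h3 h4
  · intro S hS hc
    by_contra hcon
    push Not at hcon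
    by_cases hxS : x ∈ S
    · have hTW : S.erase x ⊆ W := fun i hi =>
        (mem_insert.1 (hS (mem_of_mem_erase hi))).resolve_left (mem_erase.1 hi).1
      have hTc : (S.erase x).card = d + 1 := by rw [card_erase_of_mem hxS, hc]; rfl
      have h3 := (hK2 _ (notMem_erase x S)).1 (hcon x hxS)
      by_cases hwS : w ∈ S
      · obtain ⟨y, hy, h4⟩ := hp.big _ hTW hTc
        obtain ⟨h5, h6⟩ := mem_erase.1 hy
        by_cases hyw : y = w
        · rw [hyw] at h4
          exact h4 h3
        · have h7 := (hK1 _ (mem_erase.2 ⟨Ne.symm h5, hxS⟩)).1 (hcon y h6)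
          rw [erase_right_comm] at h7
          exact h4 h7
      · rw [erase_eq_of_notMem (fun h4 => hwS (mem_of_mem_erase h4))] at h3
        have := h.card_le h3
        omega
    · by_cases hwS : w ∈ S
      · have h3 := (hK2 _ (fun h4 => hxS (mem_of_mem_erase h4))).1 (hcon w hwS)
        rw [erase_idem] at h3
        have := h.card_le h3
        rw [card_erase_of_mem hwS] at this
        omega
      · have hne : S.Nonempty := card_pos.1 (by omega)
        obtain ⟨y, hy⟩ := hne
        have h3 := (hK2 _ (fun h4 => hxS (mem_of_mem_erase h4))).1 (hcon y hy)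
        rw [erase_eq_of_notMem (fun h4 => hwS (mem_of_mem_erase h4))] at h3
        have := h.card_le h3
        rw [card_erase_of_mem hy] at this
        omega
  · unfold ne2
    congr 1
    ext S
    rw [mem_filter, mem_filter, mem_powersetCard, mem_powersetCard]
    constructor
    · rintro ⟨⟨h3, h4⟩, h5⟩
      have hxS : x ∉ S := by
        intro hxS
        apply h5
        rw [hK1 _ hxS]
        have hc : (S.erase x).card = 1 := by rw [card_erase_of_mem hxS, h4]
        obtain ⟨y, hy⟩ := card_eq_one.1 hc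
        rw [hy]
        have h6 : y ∈ S.erase x := by rw [hy]; exact mem_singleton_self y
        exact hsing y ((mem_insert.1 (h3 (mem_of_mem_erase h6))).resolve_left (mem_erase.1 h6).1)
      have hwS : w ∉ S := by
        intro hwS
        apply h5
        rw [hK2 _ hxS]
        have hc : (S.erase w).card = 1 := by rw [card_erase_of_mem hwS, h4]
        obtain ⟨y, hy⟩ := card_eq_one.1 hc
        rw [hy]
        have h6 : y ∈ S.erase w := by rw [hy]; exact mem_singleton_self y
        exact hsing y ((mem_insert.1 (h3 (mem_of_mem_erase h6))).resolve_left fun e =>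
          hxS (e ▸ mem_of_mem_erase h6))
      rw [hK2 _ hxS, erase_eq_of_notMem hwS] at h5
      exact ⟨⟨fun i hi => mem_erase.2 ⟨fun e => hwS (e ▸ hi),
        (mem_insert.1 (h3 hi)).resolve_left fun e => hxS (e ▸ hi)⟩, h4⟩, h5⟩
    · rintro ⟨⟨h3, h4⟩, h5⟩
      have hwS : w ∉ S := fun h6 => (mem_erase.1 (h3 h6)).1 rfl
      have hxS : x ∉ S := fun h6 => hx (mem_of_mem_erase (h3 h6))
      refine ⟨⟨fun i hi => mem_insert_of_mem (mem_of_mem_erase (h3 hi)), h4⟩, ?_⟩
      rwa [hK2 _ hxS, erase_eq_of_notMem hwS]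

/-- A polytope of dimension `d` with `d + t` vertices, `a` missing edges, no empty
`(d - 1)`-simplex, and a vertex joined to all others. -/
def Pr (α : Type) [DecidableEq α] (d t a : ℕ) : Prop :=
  ∃ (W : Finset α) (v : α → Eu d) (𝒢 : Finset (Finset α)) (w : α), Cert d W v 𝒢 ∧
    PrC d W 𝒢 w ∧ W.card = d + t ∧ ne2 W 𝒢 = a

theorem Pr.susp [Infinite α] (hd : 1 ≤ d) (h : Pr α d t a) : Pr α (d + 1) t a := by
  classical
  obtain ⟨W, v, 𝒢, w, h1, h2, h3, h4⟩ := h
  obtain ⟨x, hx⟩ := Infinite.exists_notMem_finset W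
  obtain ⟨v', 𝒢', g1, g2, g3⟩ := susp_state hd h1 h2.toW hx
  refine ⟨insert x W, v', 𝒢', w, g1, g2, by rw [card_insert_of_notMem hx, h3]; ring, ?_⟩
  rw [g3, ← h4]
  unfold ne2
  congr 1
  ext S
  rw [mem_filter, mem_filter, mem_powersetCard, mem_powersetCard]
  constructor
  · rintro ⟨⟨h5, h6⟩, h7⟩
    exact ⟨⟨h5.trans (erase_subset _ _), h6⟩, h7⟩
  · rintro ⟨⟨h5, h6⟩, h7⟩
    refine ⟨⟨fun i hi => mem_erase.2 ⟨?_, h5 hi⟩, h6⟩, h7⟩
    rintro rfl
    apply h7
    have hc : (S.erase i).card = 1 := by rw [card_erase_of_mem hi, h6]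
    obtain ⟨y, hy⟩ := card_eq_one.1 hc
    have h8 : y ∈ S.erase i := by rw [hy]; exact mem_singleton_self y
    have h9 : S = {i, y} := by rw [← insert_erase hi, hy]
    rw [h9]
    exact h2.univ y (h5 (mem_of_mem_erase h8))

theorem Pr.susp_iter [Infinite α] (h : Pr α 4 t a) (hd : 4 ≤ d) : Pr α d t a := by
  induction d, hd using Nat.le_induction with
  | base => exact h
  | succ d hd ih => exact ih.susp (by omega)

/-- Subdivision of a ridge. -/
theorem Pr.ridge [Infinite α] (hd : 4 ≤ d) (h : Pr α d t a) : Pr α d (t + 1) (a + (t - 1)) := by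
  classical
  obtain ⟨W, v, 𝒢, w, h1, h2, h3, h4⟩ := h
  obtain ⟨x, hx⟩ := Infinite.exists_notMem_finset W
  obtain ⟨G, hG, hwG⟩ := h1.mem w h2.mem
  have hGc := h1.card G hG
  obtain ⟨p, hp, hpw⟩ : ∃ p ∈ G, p ≠ w := by
    by_contra hcon
    push Not at hcon
    have h5 : G ⊆ {w} := fun i hi => mem_singleton.2 (hcon i hi)
    have := Finset.card_le_card h5
    rw [card_singleton] at this
    omega
  obtain ⟨F, hF⟩ : ∃ F, F = G.erase p := ⟨_, rfl⟩
  have hFc : F.card = d - 1 := by rw [hF, card_erase_of_mem hp, hGc]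
  have hpF : p ∉ F := by rw [hF]; exact notMem_erase p G
  have hGF : insert p F = G := by rw [hF, insert_erase hp]
  have hwF : w ∈ F := by rw [hF]; exact mem_erase.2 ⟨hpw.symm, hwG⟩
  have hKF : Faces 𝒢 F := ⟨G, hG, by rw [hF]; exact erase_subset _ _⟩
  have hFW : F ⊆ W := by
    rw [hF]
    exact (erase_subset _ _).trans (h1.sub G hG)
  have hxF : x ∉ F := fun h5 => hx (hFW h5)
  -- the other facet
  obtain ⟨G', hG', h5, h6⟩ := h1.exists_other (by omega) hG hp
  rw [← hF] at h5
  obtain ⟨q, hqF, hqG⟩ : ∃ q, q ∉ F ∧ insert q F = G' := by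
    have h7 : (G' \ F).card = 1 := by
      rw [card_sdiff_of_subset h5, h1.card G' hG', hFc]
      omega
    obtain ⟨q, hq⟩ := card_eq_one.1 h7
    have h8 : q ∈ G' \ F := by rw [hq]; exact mem_singleton_self q
    refine ⟨q, (mem_sdiff.1 h8).2, ?_⟩
    rw [← sdiff_union_of_subset h5, hq]
    rfl
  have hpq : p ≠ q := by
    rintro rfl
    rw [hqG.symm] at h6
    exact h6 (mem_insert_self _ _)
  have hKins : ∀ y ∈ W, Faces 𝒢 (insert y F) ↔ (y ∈ F ∨ y = p ∨ y = q) := by
    intro y _
    constructor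
    · rintro ⟨G'', hG'', h7⟩
      by_contra hcon
      push Not at hcon
      obtain ⟨c1, c2, c3⟩ := hcon
      have h8 : insert y F = G'' := by
        refine eq_of_subset_of_card_le h7 ?_
        rw [card_insert_of_notMem c1, h1.card G'' hG'', hFc]
        omega
      exact h1.two (finrank_Eu d) hpF hqF c1 hpq (Ne.symm c3) (Ne.symm c2) (by rw [hGF]; exact hG)
        (by rw [hqG]; exact hG') (by rw [h8]; exact hG'')
    · rintro (h7 | rfl | rfl)
      · rw [insert_eq_of_mem h7]
        exact hKF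
      · exact ⟨G, hG, hGF.subset⟩
      · exact ⟨G', hG', hqG.subset⟩
  obtain ⟨v', 𝒢', g1, g2⟩ := h1.stellar (F := F) (by omega) hKF hx
  have hK1 : ∀ S, x ∉ S → (Faces 𝒢' S ↔ ¬ F ⊆ S ∧ Faces 𝒢 S) := fun S hS => by
    rw [g2]
    exact and_congr_right fun _ => ⟨fun h7 => (h7.resolve_right fun h8 => hS h8.1).2,
      fun h7 => Or.inl ⟨hS, h7⟩⟩
  have hK2 : ∀ S, x ∈ S → (Faces 𝒢' S ↔ ¬ F ⊆ S ∧ Faces 𝒢 (S.erase x ∪ F)) := fun S hS => by
    rw [g2]
    exact and_congr_right fun _ => ⟨fun h7 => (h7.resolve_left fun h8 => h8.1 hS).2,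
      fun h7 => Or.inr ⟨hS, h7⟩⟩
  have hsub2 : ∀ S : Finset α, S.card = 2 → ¬ F ⊆ S := fun S hS h7 => by
    have := Finset.card_le_card h7
    omega
  refine ⟨insert x W, v', 𝒢', w, g1, ⟨mem_insert_of_mem h2.mem, ?_, ?_, ?_⟩, ?_, ?_⟩
  · intro y hy
    have hnF : ¬ F ⊆ {w, y} := fun h7 => by
      have h8 := Finset.card_le_card h7
      have h9 : ({w, y} : Finset α).card ≤ 2 := card_le_two
      omega
    by_cases hyx : y = x
    · rw [hyx] at hnF ⊢
      rw [hK2 _ (by simp)]
      refine ⟨hnF, hKF.mono fun i hi => ?_⟩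
      rcases mem_union.1 hi with h7 | h7
      · obtain ⟨h8, h9⟩ := mem_erase.1 h7
        rcases mem_insert.1 h9 with rfl | h10
        · exact hwF
        · exact absurd (mem_singleton.1 h10) h8
      · exact h7
    · have hyW : y ∈ W := (mem_insert.1 hy).resolve_left hyx
      rw [hK1 _ (by
        rw [mem_insert, mem_singleton, not_or]
        exact ⟨fun e => hx (e ▸ h2.mem), Ne.symm hyx⟩)]
      exact ⟨hnF, h2.univ y hyW⟩
  · intro S hS hc hall
    have hnF : ¬ F ⊆ S := by
      intro h7
      obtain ⟨y, hy, hyF⟩ : ∃ y ∈ S, y ∉ F := by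
        by_contra hcon
        push Not at hcon
        have := Finset.card_le_card (show S ⊆ F from hcon)
        omega
      have h8 := (g2 _).1 (hall y hy)
      exact h8.1 fun i hi => mem_erase.2 ⟨fun e => hyF (e ▸ hi), h7 hi⟩
    by_cases hxS : x ∈ S
    · rw [hK2 _ hxS]
      refine ⟨hnF, ?_⟩
      have hRc : (S.erase x).card = d - 1 := by rw [card_erase_of_mem hxS, hc]
      have hstep : ∀ r ∈ S.erase x, Faces 𝒢 ((S.erase x).erase r ∪ F) := by
        intro r hr
        obtain ⟨h7, h8⟩ := mem_erase.1 hr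
        have h9 := ((hK2 _ (mem_erase.2 ⟨Ne.symm h7, hxS⟩)).1 (hall r h8)).2
        rwa [erase_right_comm] at h9
      have hRne : (S.erase x).Nonempty := card_pos.1 (by omega)
      obtain ⟨r0, hr0⟩ := hRne
      have h7 := h1.card_le (hstep r0 hr0)
      have h8 : ((S.erase x) ∩ F).Nonempty := by
        rw [← card_pos]
        have e1 := card_union_add_card_inter ((S.erase x).erase r0) F
        have e2 : ((S.erase x).erase r0).card = d - 2 := by
          rw [card_erase_of_mem hr0, hRc]
          omega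
        have e3 := Finset.card_le_card (inter_subset_inter_right
          (erase_subset r0 (S.erase x)) : (S.erase x).erase r0 ∩ F ⊆ S.erase x ∩ F)
        omega
      obtain ⟨r, hr⟩ := h8
      obtain ⟨hr1, hr2⟩ := mem_inter.1 hr
      have h9 := hstep r hr1
      refine h9.mono fun i hi => ?_
      rcases mem_union.1 hi with h10 | h10
      · by_cases hir : i = r
        · rw [hir]
          exact mem_union_right _ hr2
        · exact mem_union_left _ (mem_erase.2 ⟨hir, h10⟩)
      · exact mem_union_right _ h10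
    · rw [hK1 _ hxS]
      have hSW : S ⊆ W := fun i hi => (mem_insert.1 (hS hi)).resolve_left fun e => hxS (e ▸ hi)
      refine ⟨hnF, h2.pr S hSW hc fun y hy => ?_⟩
      exact ((hK1 _ fun h7 => hxS (mem_of_mem_erase h7)).1 (hall y hy)).2
  · intro S hS hc
    by_contra hcon
    push Not at hcon
    by_cases hxS : x ∈ S
    · have hRc : (S.erase x).card = d := by rw [card_erase_of_mem hxS, hc]; rfl
      have hR := (hK1 _ (notMem_erase x S)).1 (hcon x hxS)
      have hstep : ∀ r ∈ S.erase x, Faces 𝒢 ((S.erase x).erase r ∪ F) := by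
        intro r hr
        obtain ⟨h7, h8⟩ := mem_erase.1 hr
        have h9 := ((hK2 _ (mem_erase.2 ⟨Ne.symm h7, hxS⟩)).1 (hcon r h8)).2
        rwa [erase_right_comm] at h9
      have hRne : (S.erase x).Nonempty := card_pos.1 (by omega)
      obtain ⟨r0, hr0⟩ := hRne
      have h7 := h1.card_le (hstep r0 hr0)
      have h8 : ((S.erase x) ∩ F).Nonempty := by
        rw [← card_pos]
        have e1 := card_union_add_card_inter ((S.erase x).erase r0) F
        have e2 : ((S.erase x).erase r0).card = d - 1 := by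
          rw [card_erase_of_mem hr0, hRc]
        have e3 := Finset.card_le_card (inter_subset_inter_right
          (erase_subset r0 (S.erase x)) : (S.erase x).erase r0 ∩ F ⊆ S.erase x ∩ F)
        omega
      obtain ⟨r, hr⟩ := h8
      obtain ⟨hr1, hr2⟩ := mem_inter.1 hr
      have h9 : Faces 𝒢 (S.erase x ∪ F) := by
        refine (hstep r hr1).mono fun i hi => ?_
        rcases mem_union.1 hi with h10 | h10
        · by_cases hir : i = r
          · rw [hir]
            exact mem_union_right _ hr2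
          · exact mem_union_left _ (mem_erase.2 ⟨hir, h10⟩)
        · exact mem_union_right _ h10
      have h10 := h1.card_le h9
      have h11 : S.erase x = S.erase x ∪ F :=
        eq_of_subset_of_card_le subset_union_left (by omega)
      apply hR.1
      rw [h11]
      exact subset_union_right
    · have hSW : S ⊆ W := fun i hi => (mem_insert.1 (hS hi)).resolve_left fun e => hxS (e ▸ hi)
      obtain ⟨y, hy, h7⟩ := h2.big S hSW hc
      exact h7 ((hK1 _ fun h8 => hxS (mem_of_mem_erase h8)).1 (hcon y hy)).2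
  · rw [card_insert_of_notMem hx, h3]
    ring
  · -- the missing edges
    have hsplit : ((insert x W).powersetCard 2).filter (fun S => ¬ Faces 𝒢' S) =
        ((W.powersetCard 2).filter fun S => ¬ Faces 𝒢 S) ∪
          (W.filter fun y => ¬ Faces 𝒢 (insert y F)).image fun y => {x, y} := by
      ext S
      rw [mem_filter, mem_union, mem_filter, mem_image, mem_powersetCard, mem_powersetCard]
      constructor
      · rintro ⟨⟨h7, h8⟩, h9⟩
        by_cases hxS : x ∈ S
        · right
          have hc : (S.erase x).card = 1 := by rw [card_erase_of_mem hxS, h8]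
          obtain ⟨y, hy⟩ := card_eq_one.1 hc
          have h10 : y ∈ S.erase x := by rw [hy]; exact mem_singleton_self y
          have hyW : y ∈ W :=
            (mem_insert.1 (h7 (mem_of_mem_erase h10))).resolve_left (mem_erase.1 h10).1
          refine ⟨y, mem_filter.2 ⟨hyW, fun h11 => h9 ?_⟩, by rw [← hy, insert_erase hxS]⟩
          rw [hK2 _ hxS, hy]
          exact ⟨hsub2 S h8, h11⟩
        · left
          refine ⟨⟨fun i hi => (mem_insert.1 (h7 hi)).resolve_left fun e => hxS (e ▸ hi), h8⟩,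
            fun h10 => h9 ((hK1 _ hxS).2 ⟨hsub2 S h8, h10⟩)⟩
      · rintro (⟨⟨h7, h8⟩, h9⟩ | ⟨y, hy, rfl⟩)
        · have hxS : x ∉ S := fun h10 => hx (h7 h10)
          exact ⟨⟨h7.trans (subset_insert _ _), h8⟩, fun h10 => h9 ((hK1 _ hxS).1 h10).2⟩
        · obtain ⟨h7, h8⟩ := mem_filter.1 hy
          have hxy : x ≠ y := fun e => hx (e ▸ h7)
          refine ⟨⟨fun i hi => ?_, card_pair hxy⟩, fun h9 => h8 ?_⟩
          · rcases mem_insert.1 hi with rfl | hi
            · exact mem_insert_self _ _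
            · rw [mem_singleton.1 hi]
              exact mem_insert_of_mem h7
          · have h10 := ((hK2 _ (mem_insert_self x _)).1 h9).2
            rw [erase_insert (by simpa using hxy)] at h10
            exact h10
    have hdisj : Disjoint ((W.powersetCard 2).filter fun S => ¬ Faces 𝒢 S)
        ((W.filter fun y => ¬ Faces 𝒢 (insert y F)).image fun y => ({x, y} : Finset α)) := by
      rw [disjoint_left]
      intro S h7 h8
      obtain ⟨y, -, rfl⟩ := mem_image.1 h8
      exact hx ((mem_powersetCard.1 (mem_filter.1 h7).1).1 (mem_insert_self _ _))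
    have hcard : (W.filter fun y => ¬ Faces 𝒢 (insert y F)).card = t - 1 := by
      have e1 : (W.filter fun y => ¬ Faces 𝒢 (insert y F)) = W \ insert p (insert q F) := by
        ext y
        rw [mem_filter, mem_sdiff, mem_insert, mem_insert]
        refine and_congr_right fun hy => ?_
        rw [hKins y hy]
        tauto
      rw [e1, card_sdiff_of_subset, h3, card_insert_of_notMem, card_insert_of_notMem hqF, hFc]
      · omega
      · rw [mem_insert, not_or]
        exact ⟨hpq, hpF⟩
      · rw [hqG]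
        exact insert_subset (h1.sub G hG hp) (h1.sub G' hG')
    unfold ne2 at h4 ⊢
    rw [hsplit, card_union_of_disjoint hdisj, card_image_of_injOn, hcard, h4]
    intro y hy z hz e
    have e' : ({x, y} : Finset α) = {x, z} := e
    have h7 : y ∈ ({x, z} : Finset α) := e' ▸ (by simp)
    rcases mem_insert.1 h7 with h8 | h8
    · exact absurd (mem_filter.1 hy).1 (h8 ▸ hx)
    · exact mem_singleton.1 h8

/-- The states with empty `(d - 1)`-simplices. -/
def St (α : Type) [DecidableEq α] (d n a m : ℕ) : Prop :=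
  ∃ (W : Finset α) (v : α → Eu d) (𝒢 : Finset (Finset α)), Cert d W v 𝒢 ∧ W.card = n ∧
    ne2 W 𝒢 = a ∧ msd d W 𝒢 = m

theorem Pr.toSt (h : Pr α d t a) : St α d (d + t) a 0 := by
  classical
  obtain ⟨W, v, 𝒢, w, h1, h2, h3, h4⟩ := h
  refine ⟨W, v, 𝒢, h1, h3, h4, ?_⟩
  unfold msd
  rw [Finset.card_eq_zero, filter_eq_empty_iff]
  rintro S hS ⟨h5, h6⟩
  obtain ⟨h7, h8⟩ := mem_powersetCard.1 hS
  exact h6 (h2.pr S h7 h8 h5)

/-- Stacking. -/
theorem St.stack [Infinite α] (hd : 3 ≤ d) (h : St α d n a m) :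
    St α d (n + 1) (a + (n - d)) (m + 1) := by
  classical
  obtain ⟨W, v, 𝒢, h1, h2, h3, h4⟩ := h
  obtain ⟨x, hx⟩ := Infinite.exists_notMem_finset W
  obtain ⟨F, hF, -⟩ := h1.cover 0
  have hFc := h1.card F hF
  have hFW := h1.sub F hF
  have hKF : Faces 𝒢 F := ⟨F, hF, Subset.refl F⟩
  have hmax : ∀ R, Faces 𝒢 (R ∪ F) → R ⊆ F := by
    rintro R ⟨G, hG, h5⟩
    have h6 : F = G := eq_of_subset_of_card_le (subset_union_right.trans h5) (by
      rw [h1.card G hG, hFc])
    rw [h6]
    exact subset_union_left.trans h5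
  obtain ⟨v', 𝒢', g1, g2⟩ := h1.stellar (F := F) (by omega) hKF hx
  have hK1 : ∀ S, x ∉ S → (Faces 𝒢' S ↔ ¬ F ⊆ S ∧ Faces 𝒢 S) := fun S hS => by
    rw [g2]
    exact and_congr_right fun _ => ⟨fun h7 => (h7.resolve_right fun h8 => hS h8.1).2,
      fun h7 => Or.inl ⟨hS, h7⟩⟩
  have hK2 : ∀ S, x ∈ S → (Faces 𝒢' S ↔ ¬ F ⊆ S ∧ Faces 𝒢 (S.erase x ∪ F)) := fun S hS => by
    rw [g2]
    exact and_congr_right fun _ => ⟨fun h7 => (h7.resolve_left fun h8 => h8.1 hS).2,
      fun h7 => Or.inr ⟨hS, h7⟩⟩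
  have hsub2 : ∀ S : Finset α, S.card < d → ¬ F ⊆ S := fun S hS h7 => by
    have := Finset.card_le_card h7
    omega
  refine ⟨insert x W, v', 𝒢', g1, by rw [card_insert_of_notMem hx, h2], ?_, ?_⟩
  · have hsplit : ((insert x W).powersetCard 2).filter (fun S => ¬ Faces 𝒢' S) =
        ((W.powersetCard 2).filter fun S => ¬ Faces 𝒢 S) ∪
          (W \ F).image fun y => {x, y} := by
      ext S
      rw [mem_filter, mem_union, mem_filter, mem_image, mem_powersetCard, mem_powersetCard]
      constructor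
      · rintro ⟨⟨h7, h8⟩, h9⟩
        by_cases hxS : x ∈ S
        · right
          have hc : (S.erase x).card = 1 := by rw [card_erase_of_mem hxS, h8]
          obtain ⟨y, hy⟩ := card_eq_one.1 hc
          have h10 : y ∈ S.erase x := by rw [hy]; exact mem_singleton_self y
          have hyW : y ∈ W :=
            (mem_insert.1 (h7 (mem_of_mem_erase h10))).resolve_left (mem_erase.1 h10).1
          refine ⟨y, mem_sdiff.2 ⟨hyW, fun h11 => h9 ?_⟩, by rw [← hy, insert_erase hxS]⟩
          rw [hK2 _ hxS, hy]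
          refine ⟨hsub2 S (by omega), ?_⟩
          rw [singleton_union, insert_eq_of_mem h11]
          exact hKF
        · left
          refine ⟨⟨fun i hi => (mem_insert.1 (h7 hi)).resolve_left fun e => hxS (e ▸ hi), h8⟩,
            fun h10 => h9 ((hK1 _ hxS).2 ⟨hsub2 S (by omega), h10⟩)⟩
      · rintro (⟨⟨h7, h8⟩, h9⟩ | ⟨y, hy, rfl⟩)
        · have hxS : x ∉ S := fun h10 => hx (h7 h10)
          exact ⟨⟨h7.trans (subset_insert _ _), h8⟩, fun h10 => h9 ((hK1 _ hxS).1 h10).2⟩
        · obtain ⟨h7, h8⟩ := mem_sdiff.1 hy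
          have hxy : x ≠ y := fun e => hx (e ▸ h7)
          refine ⟨⟨fun i hi => ?_, card_pair hxy⟩, fun h9 => h8 ?_⟩
          · rcases mem_insert.1 hi with rfl | hi
            · exact mem_insert_self _ _
            · rw [mem_singleton.1 hi]
              exact mem_insert_of_mem h7
          · have h10 := ((hK2 _ (mem_insert_self x _)).1 h9).2
            rw [erase_insert (by simpa using hxy)] at h10
            exact hmax _ h10 (mem_singleton_self y)
    have hdisj : Disjoint ((W.powersetCard 2).filter fun S => ¬ Faces 𝒢 S)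
        ((W \ F).image fun y => ({x, y} : Finset α)) := by
      rw [disjoint_left]
      intro S h7 h8
      obtain ⟨y, -, rfl⟩ := mem_image.1 h8
      exact hx ((mem_powersetCard.1 (mem_filter.1 h7).1).1 (mem_insert_self _ _))
    unfold ne2 at h3 ⊢
    rw [hsplit, card_union_of_disjoint hdisj, card_image_of_injOn, h3,
      card_sdiff_of_subset hFW, h2, hFc]
    intro y hy z hz e
    have e' : ({x, y} : Finset α) = {x, z} := e
    have h7 : y ∈ ({x, z} : Finset α) := e' ▸ (by simp)
    rcases mem_insert.1 h7 with h8 | h8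
    · exact absurd (mem_sdiff.1 hy).1 (h8 ▸ hx)
    · exact mem_singleton.1 h8
  · have hsplit : ((insert x W).powersetCard d).filter
        (fun S => (∀ y ∈ S, Faces 𝒢' (S.erase y)) ∧ ¬ Faces 𝒢' S) =
        insert F ((W.powersetCard d).filter
          fun S => (∀ y ∈ S, Faces 𝒢 (S.erase y)) ∧ ¬ Faces 𝒢 S) := by
      ext S
      rw [mem_filter, mem_insert, mem_filter, mem_powersetCard, mem_powersetCard]
      constructor
      · rintro ⟨⟨h7, h8⟩, h9, h10⟩
        by_cases hxS : x ∈ S
        · exfalso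
          apply h10
          rw [hK2 _ hxS]
          have hRc : (S.erase x).card = d - 1 := by rw [card_erase_of_mem hxS, h8]
          have hR : S.erase x ⊆ F := by
            intro i hi
            obtain ⟨j, hj, hji⟩ : ∃ j ∈ S.erase x, j ≠ i := by
              by_contra hcon
              push Not at hcon
              have h11 : S.erase x ⊆ {i} := fun j hj => mem_singleton.2 (hcon j hj)
              have := Finset.card_le_card h11
              rw [card_singleton] at this
              omega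
            obtain ⟨h11, h12⟩ := mem_erase.1 hj
            have h13 := ((hK2 _ (mem_erase.2 ⟨Ne.symm h11, hxS⟩)).1 (h9 j h12)).2
            rw [erase_right_comm] at h13
            exact hmax _ h13 (mem_erase.2 ⟨hji.symm, hi⟩)
          refine ⟨fun h11 => ?_, by rw [union_eq_right.2 hR]; exact hKF⟩
          have h12 : F ⊆ S.erase x := fun i hi =>
            mem_erase.2 ⟨fun e => hx (hFW (e ▸ hi)), h11 hi⟩
          have := Finset.card_le_card h12
          omega
        · have hSW : S ⊆ W := fun i hi => (mem_insert.1 (h7 hi)).resolve_left fun e => hxS (e ▸ hi)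
          by_cases hFS : F ⊆ S
          · left
            exact (eq_of_subset_of_card_le hFS (by omega)).symm
          · right
            refine ⟨⟨hSW, h8⟩, fun y hy => ?_, fun h11 => h10 ((hK1 _ hxS).2 ⟨hFS, h11⟩)⟩
            exact ((hK1 _ fun h11 => hxS (mem_of_mem_erase h11)).1 (h9 y hy)).2
      · have hes : ∀ S : Finset α, S ⊆ W → S.card = d → (∀ y ∈ S, Faces 𝒢 (S.erase y)) →
            ∀ y ∈ S, Faces 𝒢' (S.erase y) := by
          intro S hSW hSc hall y hy
          rw [hK1 _ fun h11 => hx (hSW (mem_of_mem_erase h11))]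
          exact ⟨hsub2 _ (by rw [card_erase_of_mem hy]; omega), hall y hy⟩
        rintro (rfl | ⟨⟨h7, h8⟩, h9, h10⟩)
        · refine ⟨⟨hFW.trans (subset_insert _ _), hFc⟩,
            hes S hFW hFc fun y _ => hKF.mono (erase_subset _ _), fun h11 => ?_⟩
          exact ((g2 S).1 h11).1 (Subset.refl S)
        · have hxS : x ∉ S := fun h11 => hx (h7 h11)
          exact ⟨⟨h7.trans (subset_insert _ _), h8⟩, hes S h7 h8 h9,
            fun h11 => h10 ((hK1 _ hxS).1 h11).2⟩
    unfold msd at h4 ⊢
    rw [hsplit, card_insert_of_notMem, h4]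
    intro h7
    exact (mem_filter.1 h7).2.2 hKF

end Pool.Agent.ES85
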