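import Pool.Agent.Lib.ES85.Build

/-!
# The one-point suspension of a certificate
-/

set_option autoImplicit false

open Finset Module

namespace Pool.Agent.ES85

variable {α : Type*} [DecidableEq α] {E : Type*} [AddCommGroup E] [Module ℝ E]
variable {n : ℕ} {W : Finset α} {v : α → E} {𝒢 : Finset (Finset α)}

theorem Faces.mono {S T : Finset α} (h : Faces 𝒢 T) (hST : S ⊆ T) : Faces 𝒢 S := by
  obtain ⟨G, hG, hT⟩ := h
  exact ⟨G, hG, hST.trans hT⟩

/-- Transport along a linear equivalence. -/
theorem Cert.map {E' : Type*} [AddCommGroup E'] [Module ℝ E'] (h : Cert n W v 𝒢)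
    (e : E ≃ₗ[ℝ] E') : Cert n W (fun i => e (v i)) 𝒢 := by
  refine ⟨h.sub, h.card, h.mem, fun G hG => ?_, fun G hG f hf => ?_, fun y => ?_⟩
  · obtain ⟨l, h1, h2⟩ := h.func G hG
    exact ⟨l ∘ₗ e.symm.toLinearMap, fun i hi => by simp [h1 i hi], fun i hi hiG => by
      simpa using h2 i hi hiG⟩
  · obtain ⟨m, h1, h2⟩ := h.dual G hG f hf
    exact ⟨m ∘ₗ e.symm.toLinearMap, by simp [h1], fun i hi hne => by simp [h2 i hi hne]⟩
  · obtain ⟨G, hG, c, hc, hs⟩ := h.cover (e.symm y)
    refine ⟨G, hG, c, hc, ?_⟩
    have h1 := congrArg e hs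
    rw [map_sum, LinearEquiv.apply_symm_apply] at h1
    rw [← h1]
    exact sum_congr rfl fun i _ => (map_smul e (c i) (v i)).symm

/-- Faces which avoid a vertex are in facets which avoid it. -/
theorem Cert.avoid [DecidableEq E] (h : Cert n W v 𝒢) (hn : 1 ≤ n) {w : α} {R : Finset α}
    (hR : Faces 𝒢 R) (hw : w ∉ R) : ∃ G ∈ 𝒢, w ∉ G ∧ R ⊆ G := by
  obtain ⟨G, hG, hRG⟩ := hR
  by_cases hwG : w ∈ G
  · obtain ⟨G', hG', h1, h2⟩ := h.exists_other hn hG hwG
    exact ⟨G', hG', h2, fun i hi => h1 (mem_erase.2 ⟨fun e => hw (e ▸ hi), hRG hi⟩)⟩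
  · exact ⟨G, hG, hwG, hRG⟩

/-- The one-point suspension. -/
theorem Cert.susp [DecidableEq E] (h : Cert n W v 𝒢) (hn : 1 ≤ n) {w x : α} (hw : w ∈ W)
    (hx : x ∉ W) : ∃ (v' : α → E × ℝ) (𝒢' : Finset (Finset α)), Cert (n + 1) (insert x W) v' 𝒢' ∧
      ∀ S, Faces 𝒢' S ↔ (x ∈ S ∧ Faces 𝒢 (S.erase x)) ∨ (x ∉ S ∧ Faces 𝒢 (S.erase w)) := by
  have hwx : w ≠ x := fun e => hx (e ▸ hw)
  have hxG : ∀ G ∈ 𝒢, x ∉ G := fun G hG h1 => hx (h.sub G hG h1)
  obtain ⟨v', hv'⟩ : ∃ v' : α → E × ℝ, ∀ i, v' i =
      if i = w then (v w, 1) else if i = x then (v w, -1) else (v i, 0) := ⟨_, fun _ => rfl⟩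
  have vw : v' w = (v w, 1) := by rw [hv', if_pos rfl]
  have vx : v' x = (v w, -1) := by rw [hv', if_neg hwx.symm, if_pos rfl]
  have vi : ∀ i, i ≠ w → i ≠ x → v' i = (v i, 0) := fun i h1 h2 => by
    rw [hv', if_neg h1, if_neg h2]
  obtain ⟨𝒢', h𝒢'⟩ : ∃ 𝒢' : Finset (Finset α), 𝒢' = 𝒢.image (insert x) ∪
      (𝒢.filter fun G => w ∉ G).image (insert w) := ⟨_, rfl⟩
  have hmem : ∀ G', G' ∈ 𝒢' ↔ (∃ G ∈ 𝒢, G' = insert x G) ∨ ∃ G ∈ 𝒢, w ∉ G ∧ G' = insert w G := by
    intro G'
    rw [h𝒢', mem_union, mem_image, mem_image]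
    constructor
    · rintro (⟨G, h1, rfl⟩ | ⟨G, h1, rfl⟩)
      · exact Or.inl ⟨G, h1, rfl⟩
      · exact Or.inr ⟨G, (mem_filter.1 h1).1, (mem_filter.1 h1).2, rfl⟩
    · rintro (⟨G, h1, rfl⟩ | ⟨G, h1, h2, rfl⟩)
      · exact Or.inl ⟨G, h1, rfl⟩
      · exact Or.inr ⟨G, mem_filter.2 ⟨h1, h2⟩, rfl⟩
  -- linear functionals on the product
  have mk : ∀ (l : E →ₗ[ℝ] ℝ) (c : ℝ), ∃ k : E × ℝ →ₗ[ℝ] ℝ, ∀ y s, k (y, s) = l y + c * s :=
    fun l c => ⟨l ∘ₗ LinearMap.fst ℝ E ℝ + c • LinearMap.snd ℝ E ℝ, fun y s => by simp⟩
  refine ⟨v', 𝒢', ⟨?_, ?_, ?_, ?_, ?_, ?_⟩, ?_⟩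
  · intro G' hG'
    rcases (hmem G').1 hG' with ⟨G, h1, rfl⟩ | ⟨G, h1, -, rfl⟩
    · exact insert_subset_insert _ (h.sub G h1)
    · exact insert_subset (mem_insert_of_mem hw) ((h.sub G h1).trans (subset_insert _ _))
  · intro G' hG'
    rcases (hmem G').1 hG' with ⟨G, h1, rfl⟩ | ⟨G, h1, h2, rfl⟩
    · rw [card_insert_of_notMem (hxG G h1), h.card G h1]
    · rw [card_insert_of_notMem h2, h.card G h1]
  · intro i hi
    rcases mem_insert.1 hi with rfl | hi
    · obtain ⟨G, hG, -⟩ := h.mem w hw
      exact ⟨_, (hmem _).2 (Or.inl ⟨G, hG, rfl⟩), mem_insert_self _ _⟩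
    · obtain ⟨G, hG, hiG⟩ := h.mem i hi
      exact ⟨_, (hmem _).2 (Or.inl ⟨G, hG, rfl⟩), mem_insert_of_mem hiG⟩
  · intro G' hG'
    rcases (hmem G').1 hG' with ⟨G, h1, rfl⟩ | ⟨G, h1, h2, rfl⟩
    · obtain ⟨l, hl1, hl2⟩ := h.func G h1
      by_cases hwG : w ∈ G
      · obtain ⟨k, hk⟩ := mk l 0
        refine ⟨k, fun i hi => ?_, fun i hi hiG => ?_⟩
        · rcases mem_insert.1 hi with rfl | hi
          · rw [vx, hk, hl1 w hwG]
            ring
          · by_cases hiw : i = w
            · rw [hiw, vw, hk, hl1 w hwG]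
              ring
            · rw [vi i hiw (fun e => hxG G h1 (e ▸ hi)), hk, hl1 i hi]
              ring
        · rw [mem_insert, not_or] at hiG
          have hiW : i ∈ W := (mem_insert.1 hi).resolve_left hiG.1
          rw [vi i (fun e => hiG.2 (e ▸ hwG)) hiG.1, hk]
          have := hl2 i hiW hiG.2
          linarith
      · obtain ⟨k, hk⟩ := mk l (l (v w) - 1)
        have hlw := hl2 w hw hwG
        refine ⟨k, fun i hi => ?_, fun i hi hiG => ?_⟩
        · rcases mem_insert.1 hi with rfl | hi
          · rw [vx, hk]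
            ring
          · rw [vi i (fun e => hwG (e ▸ hi)) (fun e => hxG G h1 (e ▸ hi)), hk, hl1 i hi]
            ring
        · rw [mem_insert, not_or] at hiG
          have hiW : i ∈ W := (mem_insert.1 hi).resolve_left hiG.1
          by_cases hiw : i = w
          · rw [hiw, vw, hk]
            linarith
          · rw [vi i hiw hiG.1, hk]
            have := hl2 i hiW hiG.2
            linarith
    · obtain ⟨l, hl1, hl2⟩ := h.func G h1
      obtain ⟨k, hk⟩ := mk l (1 - l (v w))
      have hlw := hl2 w hw h2
      refine ⟨k, fun i hi => ?_, fun i hi hiG => ?_⟩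
      · rcases mem_insert.1 hi with rfl | hi
        · rw [vw, hk]
          ring
        · rw [vi i (fun e => h2 (e ▸ hi)) (fun e => hxG G h1 (e ▸ hi)), hk, hl1 i hi]
          ring
      · rw [mem_insert, not_or] at hiG
        rcases mem_insert.1 hi with rfl | hi
        · rw [vx, hk]
          linarith
        · rw [vi i hiG.1 (fun e => hx (e ▸ hi)), hk]
          have := hl2 i hi hiG.2
          linarith
  · intro G' hG' f hf
    rcases (hmem G').1 hG' with ⟨G, h1, rfl⟩ | ⟨G, h1, h2, rfl⟩
    · by_cases hwG : w ∈ G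
      · obtain ⟨m, hm1, hm2⟩ := h.dual G h1 w hwG
        rcases mem_insert.1 hf with rfl | hfG
        · obtain ⟨k, hk⟩ := mk ((1 / 2 : ℝ) • m) (-(1 / 2))
          refine ⟨k, ?_, fun i hi hne => ?_⟩
          · rw [vx, hk, LinearMap.smul_apply, hm1, smul_eq_mul]
            norm_num
          · have hiG : i ∈ G := (mem_insert.1 hi).resolve_left hne
            by_cases hiw : i = w
            · rw [hiw, vw, hk, LinearMap.smul_apply, hm1, smul_eq_mul]
              norm_num
            · rw [vi i hiw hne, hk, LinearMap.smul_apply, hm2 i hiG hiw, smul_zero]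
              ring
        · by_cases hfw : f = w
          · subst hfw
            obtain ⟨k, hk⟩ := mk ((1 / 2 : ℝ) • m) (1 / 2)
            refine ⟨k, ?_, fun i hi hne => ?_⟩
            · rw [vw, hk, LinearMap.smul_apply, hm1, smul_eq_mul]
              norm_num
            · rcases mem_insert.1 hi with rfl | hiG
              · rw [vx, hk, LinearMap.smul_apply, hm1, smul_eq_mul]
                norm_num
              · rw [vi i hne (fun e => hxG G h1 (e ▸ hiG)), hk, LinearMap.smul_apply,
                  hm2 i hiG hne, smul_zero]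
                ring
          · obtain ⟨m', hm1', hm2'⟩ := h.dual G h1 f hfG
            obtain ⟨k, hk⟩ := mk m' 0
            refine ⟨k, ?_, fun i hi hne => ?_⟩
            · rw [vi f hfw (fun e => hxG G h1 (e ▸ hfG)), hk, hm1']
              ring
            · rcases mem_insert.1 hi with rfl | hiG
              · rw [vx, hk, hm2' w hwG (Ne.symm hfw)]
                ring
              · by_cases hiw : i = w
                · rw [hiw, vw, hk, hm2' w hwG (Ne.symm hfw)]
                  ring
                · rw [vi i hiw (fun e => hxG G h1 (e ▸ hiG)), hk, hm2' i hiG hne]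
                  ring
      · rcases mem_insert.1 hf with rfl | hfG
        · obtain ⟨k, hk⟩ := mk 0 (-1)
          refine ⟨k, ?_, fun i hi hne => ?_⟩
          · rw [vx, hk]
            simp
          · have hiG : i ∈ G := (mem_insert.1 hi).resolve_left hne
            rw [vi i (fun e => hwG (e ▸ hiG)) hne, hk]
            simp
        · obtain ⟨m', hm1', hm2'⟩ := h.dual G h1 f hfG
          obtain ⟨k, hk⟩ := mk m' (m' (v w))
          refine ⟨k, ?_, fun i hi hne => ?_⟩
          · rw [vi f (fun e => hwG (e ▸ hfG)) (fun e => hxG G h1 (e ▸ hfG)), hk, hm1']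
            ring
          · rcases mem_insert.1 hi with rfl | hiG
            · rw [vx, hk]
              ring
            · rw [vi i (fun e => hwG (e ▸ hiG)) (fun e => hxG G h1 (e ▸ hiG)), hk,
                hm2' i hiG hne]
              ring
    · rcases mem_insert.1 hf with rfl | hfG
      · obtain ⟨k, hk⟩ := mk 0 1
        refine ⟨k, ?_, fun i hi hne => ?_⟩
        · rw [vw, hk]
          simp
        · have hiG : i ∈ G := (mem_insert.1 hi).resolve_left hne
          rw [vi i hne (fun e => hxG G h1 (e ▸ hiG)), hk]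
          simp
      · obtain ⟨m', hm1', hm2'⟩ := h.dual G h1 f hfG
        obtain ⟨k, hk⟩ := mk m' (-m' (v w))
        refine ⟨k, ?_, fun i hi hne => ?_⟩
        · rw [vi f (fun e => h2 (e ▸ hfG)) (fun e => hxG G h1 (e ▸ hfG)), hk, hm1']
          ring
        · rcases mem_insert.1 hi with rfl | hiG
          · rw [vw, hk]
            ring
          · rw [vi i (fun e => h2 (e ▸ hiG)) (fun e => hxG G h1 (e ▸ hiG)), hk,
              hm2' i hiG hne]
            ring
  · rintro ⟨y, s⟩
    -- reduce to the sign of `s`
    rcases le_total 0 s with hs | hs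
    · obtain ⟨G, hG, c, hc, hsum⟩ := h.cover (y - s • v w)
      by_cases hwG : w ∈ G
      · refine ⟨_, (hmem _).2 (Or.inl ⟨G, hG, rfl⟩),
          fun i => if i = x then c w / 2 else if i = w then s + c w / 2 else c i, fun i => ?_, ?_⟩
        · dsimp only
          split_ifs
          · linarith [hc w]
          · linarith [hc w]
          · exact hc i
        · rw [sum_insert (hxG G hG), ← add_sum_erase G _ hwG]
          beta_reduce
          rw [if_pos rfl, if_neg hwx, if_pos rfl, vx, vw]
          have e1 : ∑ i ∈ G.erase w, (if i = x then c w / 2 else if i = w then s + c w / 2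
              else c i) • v' i = (∑ i ∈ G.erase w, c i • v i, (0 : ℝ)) := by
            have e2 : ∀ i ∈ G.erase w, (if i = x then c w / 2 else if i = w then s + c w / 2
                else c i) • v' i = (c i • v i, (0 : ℝ)) := by
              intro i hi
              obtain ⟨h3, h4⟩ := mem_erase.1 hi
              have h5 : i ≠ x := fun e => hxG G hG (e ▸ h4)
              rw [if_neg h5, if_neg h3, vi i h3 h5, Prod.smul_mk, smul_zero]
            rw [sum_congr rfl e2]
            ext
            · rw [Prod.fst_sum]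
            · rw [Prod.snd_sum]
              simp
          rw [e1]
          have e3 : ∑ i ∈ G.erase w, c i • v i = y - s • v w - c w • v w := by
            rw [← hsum, ← add_sum_erase G _ hwG]
            abel
          rw [e3]
          ext
          · simp only [Prod.fst_add, Prod.smul_mk]
            module
          · simp only [Prod.snd_add, Prod.smul_mk, smul_eq_mul]
            ring
      · refine ⟨_, (hmem _).2 (Or.inr ⟨G, hG, hwG, rfl⟩),
          fun i => if i = w then s else c i, fun i => ?_, ?_⟩
        · dsimp only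
          split_ifs
          · exact hs
          · exact hc i
        · rw [sum_insert hwG]
          beta_reduce
          rw [if_pos rfl, vw]
          have e1 : ∑ i ∈ G, (if i = w then s else c i) • v' i =
              (∑ i ∈ G, c i • v i, (0 : ℝ)) := by
            have e2 : ∀ i ∈ G, (if i = w then s else c i) • v' i = (c i • v i, (0 : ℝ)) := by
              intro i hi
              have h4 : i ≠ w := fun e => hwG (e ▸ hi)
              have h5 : i ≠ x := fun e => hxG G hG (e ▸ hi)
              rw [if_neg h4, vi i h4 h5, Prod.smul_mk, smul_zero]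
            rw [sum_congr rfl e2]
            ext
            · rw [Prod.fst_sum]
            · rw [Prod.snd_sum]
              simp
          rw [e1, hsum]
          ext
          · simp only [Prod.fst_add, Prod.smul_mk]
            module
          · simp only [Prod.snd_add, Prod.smul_mk, smul_eq_mul]
            ring
    · obtain ⟨G, hG, c, hc, hsum⟩ := h.cover (y + s • v w)
      by_cases hwG : w ∈ G
      · refine ⟨_, (hmem _).2 (Or.inl ⟨G, hG, rfl⟩),
          fun i => if i = x then c w / 2 - s else if i = w then c w / 2 else c i, fun i => ?_, ?_⟩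
        · dsimp only
          split_ifs
          · linarith [hc w]
          · linarith [hc w]
          · exact hc i
        · rw [sum_insert (hxG G hG), ← add_sum_erase G _ hwG]
          beta_reduce
          rw [if_pos rfl, if_neg hwx, if_pos rfl, vx, vw]
          have e1 : ∑ i ∈ G.erase w, (if i = x then c w / 2 - s else if i = w then c w / 2
              else c i) • v' i = (∑ i ∈ G.erase w, c i • v i, (0 : ℝ)) := by
            have e2 : ∀ i ∈ G.erase w, (if i = x then c w / 2 - s else if i = w then c w / 2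
                else c i) • v' i = (c i • v i, (0 : ℝ)) := by
              intro i hi
              obtain ⟨h3, h4⟩ := mem_erase.1 hi
              have h5 : i ≠ x := fun e => hxG G hG (e ▸ h4)
              rw [if_neg h5, if_neg h3, vi i h3 h5, Prod.smul_mk, smul_zero]
            rw [sum_congr rfl e2]
            ext
            · rw [Prod.fst_sum]
            · rw [Prod.snd_sum]
              simp
          rw [e1]
          have e3 : ∑ i ∈ G.erase w, c i • v i = y + s • v w - c w • v w := by
            rw [← hsum, ← add_sum_erase G _ hwG]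
            abel
          rw [e3]
          ext
          · simp only [Prod.fst_add, Prod.smul_mk]
            module
          · simp only [Prod.snd_add, Prod.smul_mk, smul_eq_mul]
            ring
      · refine ⟨_, (hmem _).2 (Or.inl ⟨G, hG, rfl⟩),
          fun i => if i = x then -s else c i, fun i => ?_, ?_⟩
        · dsimp only
          split_ifs
          · linarith
          · exact hc i
        · rw [sum_insert (hxG G hG)]
          beta_reduce
          rw [if_pos rfl, vx]
          have e1 : ∑ i ∈ G, (if i = x then -s else c i) • v' i =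
              (∑ i ∈ G, c i • v i, (0 : ℝ)) := by
            have e2 : ∀ i ∈ G, (if i = x then -s else c i) • v' i = (c i • v i, (0 : ℝ)) := by
              intro i hi
              have h4 : i ≠ w := fun e => hwG (e ▸ hi)
              have h5 : i ≠ x := fun e => hxG G hG (e ▸ hi)
              rw [if_neg h5, vi i h4 h5, Prod.smul_mk, smul_zero]
            rw [sum_congr rfl e2]
            ext
            · rw [Prod.fst_sum]
            · rw [Prod.snd_sum]
              simp
          rw [e1, hsum]
          ext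
          · simp only [Prod.fst_add, Prod.smul_mk]
            module
          · simp only [Prod.snd_add, Prod.smul_mk, smul_eq_mul]
            ring
  · intro S
    constructor
    · rintro ⟨G', hG', hS⟩
      rcases (hmem G').1 hG' with ⟨G, h1, rfl⟩ | ⟨G, h1, h2, rfl⟩
      · by_cases hxS : x ∈ S
        · exact Or.inl ⟨hxS, G, h1, fun i hi =>
            (mem_insert.1 (hS (mem_of_mem_erase hi))).resolve_left (mem_erase.1 hi).1⟩
        · exact Or.inr ⟨hxS, G, h1, fun i hi =>
            (mem_insert.1 (hS (mem_of_mem_erase hi))).resolve_left fun e =>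
              hxS (e ▸ mem_of_mem_erase hi)⟩
      · have hxS : x ∉ S := fun h3 => by
          rcases mem_insert.1 (hS h3) with h4 | h4
          · exact hwx h4.symm
          · exact hxG G h1 h4
        exact Or.inr ⟨hxS, G, h1, fun i hi =>
          (mem_insert.1 (hS (mem_of_mem_erase hi))).resolve_left (mem_erase.1 hi).1⟩
    · rintro (⟨hxS, G, hG, hS⟩ | ⟨hxS, hF⟩)
      · exact ⟨_, (hmem _).2 (Or.inl ⟨G, hG, rfl⟩), fun i hi => by
          by_cases hix : i = x
          · rw [hix]
            exact mem_insert_self _ _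
          · exact mem_insert_of_mem (hS (mem_erase.2 ⟨hix, hi⟩))⟩
      · obtain ⟨G, hG, hwG, hS⟩ := h.avoid hn hF (notMem_erase w S)
        exact ⟨_, (hmem _).2 (Or.inr ⟨G, hG, hwG, rfl⟩), fun i hi => by
          by_cases hiw : i = w
          · rw [hiw]
            exact mem_insert_self _ _
          · exact mem_insert_of_mem (hS (mem_erase.2 ⟨hiw, hi⟩))⟩

end Pool.Agent.ES85
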