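import Pool.Agent.Lib.ES85.State
import Pool.Agent.Lib.ES85.Fam

/-!
# Cyclic polytopes: all but one of the possible missing edges
-/

set_option autoImplicit false

open Finset Module

namespace Pool.Agent.ES85

theorem top {t : ℕ} (ht : 3 ≤ t) : Pr (ℕ × ℕ) 4 t (t.choose 2 - 1) := by
  classical
  obtain ⟨v, 𝒢, hc, hf⟩ := (real_J 3 (by norm_num) (t + 1) (by omega)).cert
  have hf' : ∀ S, Faces 𝒢 S ↔ S ⊆ V 3 (t + 1) ∧ (J (t + 1)).IsClique (S : Set (ℕ × ℕ)) :=
    fun S => by
      rw [hf]
      simp
  have hw : ((1, 0) : ℕ × ℕ) ∈ V 3 (t + 1) := by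
    rw [mem_V]
    dsimp only
    omega
  have hcl : ∀ S ⊆ V 3 (t + 1), 3 ≤ S.card → (∀ x ∈ S, Faces 𝒢 (S.erase x)) → Faces 𝒢 S := by
    intro S hS hc3 hall
    rw [hf']
    refine ⟨hS, fun a ha b hb hab => ?_⟩
    obtain ⟨c, hc, hca, hcb⟩ : ∃ c ∈ S, c ≠ a ∧ c ≠ b := by
      by_contra hcon
      push Not at hcon
      have h1 : S ⊆ {a, b} := fun c hc => by
        rw [mem_insert, mem_singleton]
        by_cases h : c = a
        · exact Or.inl h
        · exact Or.inr (hcon c hc h)
      have := (Finset.card_le_card h1).trans card_le_two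
      omega
    have h2 := ((hf' _).1 (hall c hc)).2
    exact h2 (mem_coe.2 (mem_erase.2 ⟨hca.symm, ha⟩)) (mem_coe.2 (mem_erase.2 ⟨hcb.symm, hb⟩)) hab
  have hp : PrW 3 (V 3 (t + 1)) 𝒢 (1, 0) := by
    refine ⟨hw, fun S hS _ h3 hall => hcl S hS (by omega) hall, fun S hS h4 => ?_⟩
    by_contra hcon
    push Not at hcon
    have := hc.card_le (hcl S hS (by omega) hcon)
    omega
  obtain ⟨x, hx⟩ := Infinite.exists_notMem_finset (V 3 (t + 1))
  obtain ⟨v', 𝒢', g1, g2, g3⟩ := susp_state (by norm_num) hc hp hx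
  refine ⟨insert x (V 3 (t + 1)), v', 𝒢', (1, 0), g1, g2, ?_, ?_⟩
  · rw [card_insert_of_notMem hx, card_V 3 (t + 1) (by norm_num)]
    ring
  · rw [g3]
    unfold ne2
    have hset : (((V 3 (t + 1)).erase (1, 0)).powersetCard 2).filter (fun S => ¬ Faces 𝒢 S) =
        (((range (t + 1)).sigma fun j => range (j - 1)).erase ⟨t, 0⟩).image
          fun p : (_ : ℕ) × ℕ => ({(0, p.2), (0, p.1)} : Finset (ℕ × ℕ)) := by
      ext S
      rw [mem_filter, mem_powersetCard, mem_image]
      constructor
      · rintro ⟨⟨h1, h2⟩, h3⟩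
        obtain ⟨a, b, hab, rfl⟩ := card_eq_two.1 h2
        have ha := h1 (mem_insert_self _ _)
        have hb := h1 (mem_insert_of_mem (mem_singleton_self _))
        have hadj : ¬ (J (t + 1)).Adj a b := fun h4 => h3 ((hf' _).2
          ⟨h1.trans (erase_subset _ _), (isClique_pair hab).2 h4⟩)
        obtain ⟨a1, a2⟩ := a
        obtain ⟨b1, b2⟩ := b
        rw [mem_erase, mem_V] at ha hb
        rw [J_adj] at hadj
        simp only [Prod.mk.injEq, ne_eq] at ha hb hab hadj
        have e1 : a1 = b1 := by tauto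
        have e2 : a1 = 0 := by
          by_contra h
          omega
        subst e1
        subst e2
        rcases Nat.lt_or_ge a2 b2 with h | h
        · refine ⟨⟨b2, a2⟩, ?_, rfl⟩
          rw [mem_erase, mem_sigma, mem_range, mem_range]
          refine ⟨fun e => ?_, ?_⟩
          · rw [Sigma.mk.injEq] at e
            obtain ⟨e1, e2⟩ := e
            have e3 := eq_of_heq e2
            omega
          · dsimp only
            omega
        · refine ⟨⟨a2, b2⟩, ?_, pair_comm _ _⟩
          rw [mem_erase, mem_sigma, mem_range, mem_range]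
          refine ⟨fun e => ?_, ?_⟩
          · rw [Sigma.mk.injEq] at e
            obtain ⟨e1, e2⟩ := e
            have e3 := eq_of_heq e2
            omega
          · dsimp only
            omega
      · rintro ⟨⟨j, i⟩, hp, rfl⟩
        rw [mem_erase, mem_sigma, mem_range, mem_range] at hp
        obtain ⟨h1, h2, h3⟩ := hp
        dsimp only at h2 h3 ⊢
        have h4 : ¬ (j = t ∧ i = 0) := fun e => h1 (by rw [e.1, e.2])
        have hij : ((0, i) : ℕ × ℕ) ≠ (0, j) := by
          rw [ne_eq, Prod.mk.injEq]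
          omega
        refine ⟨⟨fun y hy => ?_, card_pair hij⟩, fun h5 => ?_⟩
        · rw [mem_insert, mem_singleton] at hy
          rw [mem_erase, mem_V]
          rcases hy with rfl | rfl
          · refine ⟨by simp, ?_⟩
            dsimp only
            omega
          · refine ⟨by simp, ?_⟩
            dsimp only
            omega
        · have h6 := (isClique_pair hij).1 ((hf' _).1 h5).2
          rw [J_adj] at h6
          dsimp only at h6
          omega
    rw [hset, card_image_of_injOn, card_erase_of_mem, card_sigma]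
    · simp only [card_range]
      rw [sum_range_succ']
      simp only [Nat.add_sub_cancel, Nat.zero_sub, Nat.add_zero]
      rw [Finset.sum_range_id, Nat.choose_two_right]
    · rw [mem_sigma, mem_range, mem_range]
      dsimp only
      omega
    · rintro ⟨j, i⟩ hp ⟨j', i'⟩ hq e
      rw [mem_coe, mem_erase, mem_sigma, mem_range, mem_range] at hp hq
      have e' : ({(0, i), (0, j)} : Finset (ℕ × ℕ)) = {(0, i'), (0, j')} := e
      have h1 : ((0, i) : ℕ × ℕ) ∈ ({(0, i'), (0, j')} : Finset (ℕ × ℕ)) := e' ▸ (by simp)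
      have h2 : ((0, j) : ℕ × ℕ) ∈ ({(0, i'), (0, j')} : Finset (ℕ × ℕ)) := e' ▸ (by simp)
      rw [mem_insert, mem_singleton] at h1 h2
      simp only [Prod.mk.injEq, true_and] at h1 h2 hp hq
      have h3 : i = i' ∧ j = j' := by omega
      rw [h3.1, h3.2]

end Pool.Agent.ES85
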