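import Pool.Agent.Lib.ES85.Real3
import Pool.Agent.Lib.ES85.Nec

/-!
# The triples and the pairs
-/

set_option autoImplicit false

open Finset Module

namespace Pool.Agent.ES85

variable {d : ℕ}

theorem triples (hd : 4 ≤ d) (n a m : ℕ) :
    (∃ V : Finset (EuclideanSpace ℝ (Fin d)), IsPolytope V ∧ IsSimplicial V ∧ V.card = n ∧
      (emptySimplices V 1).card = a ∧ (emptySimplices V (d - 1)).card = m) ↔
    ∃ t, n = d + t ∧ ((m + 1 = t ∧ a = t.choose 2) ∨
      (m + 2 ≤ t ∧ m * t ≤ a + (m + 1).choose 2 ∧ a + 1 ≤ t.choose 2)) := by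
  constructor
  · rintro ⟨V, h1, h2, rfl, rfl, rfl⟩
    exact necessary hd (by simp) h1 h2
  · rintro ⟨t, rfl, h⟩
    exact sufficient hd h

theorem pairs_arith (a m : ℕ) : (∃ t, (m + 1 = t ∧ a = t.choose 2) ∨
      (m + 2 ≤ t ∧ m * t ≤ a + (m + 1).choose 2 ∧ a + 1 ≤ t.choose 2)) ↔
    ∃ q j, a = (m + 1).choose 2 + q * m + j ∧ (j = 0 ∨ j < (q + 1).choose 2) := by
  have e2 : (m + 1).choose 2 = m.choose 1 + m.choose 2 := Nat.choose_succ_succ m 1
  rw [Nat.choose_one_right] at e2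
  have e3 : m * m = m + 2 * m.choose 2 := by
    have h4 := Nat.choose_two_right m
    have h5 : 2 * m.choose 2 = m * (m - 1) := by
      rw [h4]
      exact Nat.mul_div_cancel' (Nat.even_mul_pred_self m).two_dvd
    rw [h5]
    rcases m with _ | m
    · rfl
    · rw [Nat.add_sub_cancel]
      ring
  constructor
  · rintro ⟨t, ⟨rfl, h1⟩ | ⟨h1, h2, h3⟩⟩
    · exact ⟨0, 0, by rw [h1]; ring, Or.inl rfl⟩
    · obtain ⟨q, rfl⟩ : ∃ q, t = q + 1 + m := ⟨t - m - 1, by omega⟩
      rw [choose_id] at h3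
      have e4 : m * (q + 1 + m) = q * m + m + m * m := by ring
      have e5 : m * (q + 1) = q * m + m := by ring
      exact ⟨q, a - ((m + 1).choose 2 + q * m), by omega, Or.inr (by omega)⟩
  · rintro ⟨q, j, rfl, h⟩
    rcases Nat.eq_zero_or_pos q with rfl | hq
    · have h1 : j = 0 := by
        rcases h with h | h
        · exact h
        · exact absurd h (by simp)
      subst h1
      exact ⟨m + 1, Or.inl ⟨rfl, by ring⟩⟩
    · have h1 : j < (q + 1).choose 2 := by
        rcases h with h | h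
        · rw [h]
          exact Nat.choose_pos (by omega)
        · exact h
      refine ⟨q + 1 + m, Or.inr ⟨by omega, ?_, ?_⟩⟩
      · have e4 : m * (q + 1 + m) = q * m + m + m * m := by ring
        omega
      · rw [choose_id (s := q + 1) (m := m)]
        have e5 : m * (q + 1) = q * m + m := by ring
        omega

theorem pairs (hd : 4 ≤ d) (a m : ℕ) :
    (∃ V : Finset (EuclideanSpace ℝ (Fin d)), IsPolytope V ∧ IsSimplicial V ∧
      (emptySimplices V 1).card = a ∧ (emptySimplices V (d - 1)).card = m) ↔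
    ∃ q j, a = (m + 1).choose 2 + q * m + j ∧ (j = 0 ∨ j < (q + 1).choose 2) := by
  rw [← pairs_arith]
  constructor
  · rintro ⟨V, h1, h2, h3, h4⟩
    obtain ⟨t, -, h⟩ := (triples hd V.card a m).1 ⟨V, h1, h2, rfl, h3, h4⟩
    exact ⟨t, h⟩
  · rintro ⟨t, h⟩
    obtain ⟨V, h1, h2, -, h3, h4⟩ := (triples hd (d + t) a m).2 ⟨t, rfl, h⟩
    exact ⟨V, h1, h2, h3, h4⟩

end Pool.Agent.ES85
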